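import Pool.Agent.SSC.Targets
import Pool.Agent.TPW.MLOW
import Pool.Agent.QTw.MERT

/-!
# MER: the second theorem of Mertens
-/

set_option autoImplicit false

open scoped BigOperators Classical
open Finset

namespace SSC

namespace MER_

/-- the sum `∑ log p / p` -/
noncomputable def A (N : ℕ) : ℝ := ∑ p ∈ (Icc 1 N).filter Nat.Prime, Real.log p / p

theorem A_le {N : ℕ} (hN : 1 ≤ N) : A N ≤ Real.log N + Real.log 4 := by
  have h := Pool.Agent.QTw.MERT_.mertens (N : ℝ) (by exact_mod_cast hN)
  rw [Nat.floor_natCast] at h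
  have he : (Finset.Iic N).filter Nat.Prime = (Icc 1 N).filter Nat.Prime := by
    ext p
    simp only [Finset.mem_filter, Finset.mem_Iic, Finset.mem_Icc]
    constructor
    · rintro ⟨h1, h2⟩
      exact ⟨⟨h2.pos, h1⟩, h2⟩
    · rintro ⟨⟨_, h1⟩, h2⟩
      exact ⟨h1, h2⟩
  rw [he] at h
  exact h

theorem sum_succ (f : ℕ → ℝ) (N : ℕ) :
    ∑ p ∈ (Icc 1 (N + 1)).filter Nat.Prime, f p = ∑ p ∈ (Icc 1 N).filter Nat.Prime, f p +
      if (N + 1).Prime then f (N + 1) else 0 := by
  rw [sum_filter, sum_filter, Finset.sum_Icc_succ_top (by omega : 1 ≤ N + 1)]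

theorem log_pos' {N : ℕ} (hN : 2 ≤ N) : 0 < Real.log N := by
  apply Real.log_pos
  exact_mod_cast (by omega : 1 < N)

/-- partial summation -/
theorem S_le (N : ℕ) (hN : 2 ≤ N) : TPW.B N - A N / Real.log N ≤
    Real.log (Real.log N) - Real.log (Real.log 2) + Real.log 4 * (1 / Real.log 2 - 1 / Real.log N)
    := by
  induction N, hN using Nat.le_induction with
  | base =>
    have h1 : TPW.B 2 = 1 / 2 := by
      unfold TPW.B
      have e : (Icc 1 2).filter Nat.Prime = {2} := by decide
      rw [e, sum_singleton]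
      norm_num
    have h2 : A 2 = Real.log 2 / 2 := by
      unfold A
      have e : (Icc 1 2).filter Nat.Prime = {2} := by decide
      rw [e, sum_singleton]
      norm_num
    rw [h1, h2]
    have h3 : Real.log 2 ≠ 0 := (Real.log_pos (by norm_num)).ne'
    have h4 : Real.log 2 / 2 / Real.log 2 = 1 / 2 := by field_simp
    push_cast
    rw [h4]
    simp
  | succ N hN ih =>
    have hl : 0 < Real.log N := log_pos' hN
    have hl1 : 0 < Real.log ((N + 1 : ℕ) : ℝ) := log_pos' (by omega)
    have hle : Real.log N ≤ Real.log ((N + 1 : ℕ) : ℝ) := by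
      apply Real.log_le_log
      · exact_mod_cast (by omega : 0 < N)
      · push_cast
        linarith
    have hB : TPW.B (N + 1) = TPW.B N + if (N + 1).Prime then 1 / ((N + 1 : ℕ) : ℝ) else 0 :=
      sum_succ (fun p => 1 / (p : ℝ)) N
    have hA : A (N + 1) = A N + if (N + 1).Prime then
        Real.log ((N + 1 : ℕ) : ℝ) / ((N + 1 : ℕ) : ℝ) else 0 :=
      sum_succ (fun p => Real.log (p : ℝ) / (p : ℝ)) N
    have h1 : TPW.B (N + 1) - A (N + 1) / Real.log ((N + 1 : ℕ) : ℝ) =
        (TPW.B N - A N / Real.log N) + A N * (1 / Real.log N - 1 / Real.log ((N + 1 : ℕ) : ℝ)) := by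
      rw [hB, hA]
      have hn : ((N + 1 : ℕ) : ℝ) ≠ 0 := by
        exact_mod_cast (by omega : N + 1 ≠ 0)
      split_ifs
      · field_simp
        ring
      · ring
    have h2 : 0 ≤ 1 / Real.log N - 1 / Real.log ((N + 1 : ℕ) : ℝ) := by
      rw [sub_nonneg]
      exact one_div_le_one_div_of_le hl hle
    have h3 : A N * (1 / Real.log N - 1 / Real.log ((N + 1 : ℕ) : ℝ)) ≤
        (Real.log N + Real.log 4) * (1 / Real.log N - 1 / Real.log ((N + 1 : ℕ) : ℝ)) :=
      mul_le_mul_of_nonneg_right (A_le (by omega)) h2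
    have h4 : Real.log N * (1 / Real.log N - 1 / Real.log ((N + 1 : ℕ) : ℝ)) ≤
        Real.log (Real.log ((N + 1 : ℕ) : ℝ)) - Real.log (Real.log N) := by
      have h5 := Real.log_le_sub_one_of_pos (div_pos hl hl1)
      rw [Real.log_div hl.ne' hl1.ne'] at h5
      have h6 : Real.log N * (1 / Real.log N - 1 / Real.log ((N + 1 : ℕ) : ℝ)) =
          1 - Real.log N / Real.log ((N + 1 : ℕ) : ℝ) := by
        field_simp
      rw [h6]
      linarith
    rw [h1]
    have h7 : (Real.log N + Real.log 4) * (1 / Real.log N - 1 / Real.log ((N + 1 : ℕ) : ℝ)) =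
        Real.log N * (1 / Real.log N - 1 / Real.log ((N + 1 : ℕ) : ℝ)) +
        Real.log 4 * (1 / Real.log N - 1 / Real.log ((N + 1 : ℕ) : ℝ)) := by ring
    linarith

theorem B_le (N : ℕ) (hN : 2 ≤ N) :
    TPW.B N ≤ Real.log (Real.log N) + (1 - Real.log (Real.log 2) + Real.log 4 / Real.log 2) := by
  have h1 := S_le N hN
  have hl : 0 < Real.log N := log_pos' hN
  have h2 : A N / Real.log N ≤ 1 + Real.log 4 / Real.log N := by
    rw [div_le_iff₀ hl, add_mul, div_mul_cancel₀ _ hl.ne', one_mul]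
    exact A_le (by omega)
  have h3 : Real.log 4 * (1 / Real.log 2 - 1 / Real.log N) =
      Real.log 4 / Real.log 2 - Real.log 4 / Real.log N := by ring
  linarith

theorem pri_eq (v : ℝ) : ∑ l ∈ pri 1 v, 1 / (l : ℝ) = TPW.B ⌊v⌋₊ := by
  unfold pri TPW.B
  congr 1
  apply filter_congr
  intro l _
  constructor
  · exact fun h => h.1
  · intro h
    exact ⟨h, by exact_mod_cast h.one_lt⟩

end MER_

open MER_ in
/-- MER: second theorem of Mertens -/
theorem p_MER : T_MER := by
  set C : ℝ := |1 - Real.log (Real.log 2) + Real.log 4 / Real.log 2| + 2 with hC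
  refine ⟨C, by positivity, fun v hv => ?_⟩
  rw [pri_eq]
  set N := ⌊v⌋₊ with hN
  have hN2 : 2 ≤ N := Nat.le_floor (by exact_mod_cast hv)
  have hNv : (N : ℝ) ≤ v := Nat.floor_le (by linarith)
  have hvN : v < N + 1 := Nat.lt_floor_add_one v
  have hN0 : (2 : ℝ) ≤ N := by exact_mod_cast hN2
  have hl : 0 < Real.log N := log_pos' hN2
  have hlv : Real.log N ≤ Real.log v := Real.log_le_log (by linarith) hNv
  have h1 : Real.log (Real.log N) ≤ Real.log (Real.log v) := Real.log_le_log hl hlv
  have h2 : Real.log (Real.log v) ≤ Real.log (Real.log N) + 1 := by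
    have h3 : Real.log v ≤ 2 * Real.log N := by
      have h4 : v ≤ (N : ℝ) ^ 2 := by nlinarith
      have h5 := Real.log_le_log (by linarith) h4
      rw [Real.log_pow] at h5
      exact_mod_cast h5
    have h6 : Real.log (Real.log v) ≤ Real.log (2 * Real.log N) :=
      Real.log_le_log (lt_of_lt_of_le hl hlv) h3
    rw [Real.log_mul (by norm_num) hl.ne'] at h6
    have h7 : Real.log 2 ≤ 1 := by
      have := Real.log_two_lt_d9
      linarith
    linarith
  have h3 := B_le N hN2
  have h4 := TPW.p_MLOW N hN2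
  unfold TPW.LL at h4
  have h5 := le_abs_self (1 - Real.log (Real.log 2) + Real.log 4 / Real.log 2)
  have h6 := abs_nonneg (1 - Real.log (Real.log 2) + Real.log 4 / Real.log 2)
  rw [abs_le]
  constructor
  · linarith
  · linarith

end SSC
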