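import Pool.Agent.SSC.Targets

/-!
# ASM: the killed tuples
-/

set_option autoImplicit false

open scoped BigOperators Classical
open Finset

namespace SSC

namespace ASM_

theorem finite_le (S : Set ℕ) (x : ℝ) : {p : ℕ | p ∈ S ∧ (p : ℝ) ≤ x}.Finite := by
  apply (Set.finite_Iic ⌊x⌋₊).subset
  rintro p ⟨-, hp⟩
  exact Nat.le_floor hp

/-- a finite set of elements `≤ x` of `S` has at most `NS S x` elements -/
theorem card_le_NS {S : Set ℕ} {x : ℝ} (I : Finset ℕ) (h : ∀ p ∈ I, p ∈ S ∧ (p : ℝ) ≤ x) :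
    (I.card : ℝ) ≤ NS S x := by
  have h' : (I : Set ℕ).ncard ≤ {p : ℕ | p ∈ S ∧ (p : ℝ) ≤ x}.ncard := by
    apply Set.ncard_le_ncard _ (finite_le S x)
    intro p hp
    exact h p (Finset.mem_coe.1 hp)
  rw [Set.ncard_coe_finset] at h'
  unfold NS
  exact_mod_cast h'

theorem NS_nonneg (S : Set ℕ) (x : ℝ) : 0 ≤ NS S x := Nat.cast_nonneg _

theorem NS_lt_two {S : Set ℕ} {x : ℝ} (h : ¬ 2 ≤ NS S x) : NS S x ≤ 1 := by
  unfold NS at h ⊢
  rw [not_le] at h
  have h' : ({p : ℕ | p ∈ S ∧ (p : ℝ) ≤ x}.ncard) < 2 := by exact_mod_cast h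
  exact_mod_cast Nat.lt_succ_iff.1 h'

/-- counting tuples by their number -/
theorem card_tuples {W : Finset (ℕ × Finset ℕ × ℕ)} {F : Set ℕ} {x c : ℝ} (hc : 0 ≤ c)
    (h1 : ∀ t ∈ W, dd t ∈ F ∧ (dd t : ℝ) ≤ x)
    (h2 : ∀ D : ℕ, ((W.filter fun t => dd t = D).card : ℝ) ≤ c) :
    (W.card : ℝ) ≤ NS F x * c := by
  rw [Finset.card_eq_sum_card_image dd W]
  push_cast
  calc ∑ D ∈ W.image dd, ((W.filter fun t => dd t = D).card : ℝ)
      ≤ ∑ _D ∈ W.image dd, c := Finset.sum_le_sum fun D _ => h2 D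
    _ = ((W.image dd).card : ℝ) * c := by rw [Finset.sum_const, nsmul_eq_mul]
    _ ≤ NS F x * c := by
        apply mul_le_mul_of_nonneg_right _ hc
        apply card_le_NS
        intro D hD
        obtain ⟨t, ht, rfl⟩ := Finset.mem_image.1 hD
        exact h1 t ht

theorem adm_pos {M : ℕ} {ρ : ℝ} {D : ℕ} (h : Adm M ρ D) : 0 < D ∧ Squarefree D := by
  obtain ⟨a, c, ha, hD, hac, -, hs, -⟩ := h
  refine ⟨?_, hs⟩
  rw [hD]
  exact Nat.mul_pos ha.pos (lt_trans ha.pos hac)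

/-- splitting a sum over a finite set of primes at `z` and `w` -/
theorem split_sum {I : Finset ℕ} {S : Set ℕ} {f X : ℕ → ℝ} {z w v c₁ c₂ : ℝ}
    (hI : ∀ p ∈ I, p ∈ S ∧ 1 ≤ p ∧ (p : ℝ) ≤ v) (hX : ∀ p ∈ S, 0 ≤ X p) (hc₁ : 0 ≤ c₁) (hc₂ : 0 ≤ c₂)
    (h1 : ∀ p ∈ I, (p : ℝ) ≤ z → f p ≤ X p)
    (h2 : ∀ p ∈ I, z < (p : ℝ) → (p : ℝ) ≤ w → f p ≤ c₁)
    (h3 : ∀ p ∈ I, z < (p : ℝ) → w < (p : ℝ) → f p ≤ c₂) :
    ∑ p ∈ I, f p ≤ (∑ p ∈ (Icc 1 ⌊z⌋₊).filter (fun p : ℕ => p ∈ S), X p) + NS S w * c₁ +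
      c₂ * NS S v := by
  have e1 : ∑ p ∈ I, f p = ∑ p ∈ I.filter (fun p : ℕ => (p : ℝ) ≤ z), f p +
      (∑ p ∈ (I.filter (fun p : ℕ => ¬ (p : ℝ) ≤ z)).filter (fun p : ℕ => (p : ℝ) ≤ w), f p +
      ∑ p ∈ (I.filter (fun p : ℕ => ¬ (p : ℝ) ≤ z)).filter (fun p : ℕ => ¬ (p : ℝ) ≤ w), f p) := by
    rw [Finset.sum_filter_add_sum_filter_not, Finset.sum_filter_add_sum_filter_not]
  rw [e1, add_assoc]
  apply add_le_add
  · calc ∑ p ∈ I.filter (fun p : ℕ => (p : ℝ) ≤ z), f p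
        ≤ ∑ p ∈ I.filter (fun p : ℕ => (p : ℝ) ≤ z), X p := by
          apply Finset.sum_le_sum
          intro p hp
          exact h1 p (Finset.mem_filter.1 hp).1 (Finset.mem_filter.1 hp).2
      _ ≤ ∑ p ∈ (Icc 1 ⌊z⌋₊).filter (fun p : ℕ => p ∈ S), X p := by
          apply Finset.sum_le_sum_of_subset_of_nonneg
          · intro p hp
            obtain ⟨hp1, hp2⟩ := Finset.mem_filter.1 hp
            refine Finset.mem_filter.2 ⟨Finset.mem_Icc.2 ⟨(hI p hp1).2.1, Nat.le_floor hp2⟩,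
              (hI p hp1).1⟩
          · intro p hp _
            exact hX p (Finset.mem_filter.1 hp).2
  · apply add_le_add
    · calc ∑ p ∈ (I.filter (fun p : ℕ => ¬ (p : ℝ) ≤ z)).filter (fun p : ℕ => (p : ℝ) ≤ w), f p
          ≤ ∑ _p ∈ (I.filter (fun p : ℕ => ¬ (p : ℝ) ≤ z)).filter (fun p : ℕ => (p : ℝ) ≤ w), c₁ := by
            apply Finset.sum_le_sum
            intro p hp
            obtain ⟨hp1, hp2⟩ := Finset.mem_filter.1 hp
            obtain ⟨hp3, hp4⟩ := Finset.mem_filter.1 hp1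
            exact h2 p hp3 (not_le.1 hp4) hp2
        _ = (((I.filter (fun p : ℕ => ¬ (p : ℝ) ≤ z)).filter
              (fun p : ℕ => (p : ℝ) ≤ w)).card : ℝ) * c₁ := by rw [Finset.sum_const, nsmul_eq_mul]
        _ ≤ NS S w * c₁ := by
            apply mul_le_mul_of_nonneg_right _ hc₁
            apply card_le_NS
            intro p hp
            obtain ⟨hp1, hp2⟩ := Finset.mem_filter.1 hp
            exact ⟨(hI p (Finset.mem_filter.1 hp1).1).1, hp2⟩
    · calc ∑ p ∈ (I.filter (fun p : ℕ => ¬ (p : ℝ) ≤ z)).filter (fun p : ℕ => ¬ (p : ℝ) ≤ w), f p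
          ≤ ∑ _p ∈ (I.filter (fun p : ℕ => ¬ (p : ℝ) ≤ z)).filter
              (fun p : ℕ => ¬ (p : ℝ) ≤ w), c₂ := by
            apply Finset.sum_le_sum
            intro p hp
            obtain ⟨hp1, hp2⟩ := Finset.mem_filter.1 hp
            obtain ⟨hp3, hp4⟩ := Finset.mem_filter.1 hp1
            exact h3 p hp3 (not_le.1 hp4) (not_le.1 hp2)
        _ = c₂ * (((I.filter (fun p : ℕ => ¬ (p : ℝ) ≤ z)).filter
              (fun p : ℕ => ¬ (p : ℝ) ≤ w)).card : ℝ) := by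
            rw [Finset.sum_const, nsmul_eq_mul, mul_comm]
        _ ≤ c₂ * NS S v := by
            apply mul_le_mul_of_nonneg_left _ hc₂
            apply card_le_NS
            intro p hp
            obtain ⟨hp1, hp2⟩ := Finset.mem_filter.1 hp
            have := hI p (Finset.mem_filter.1 hp1).1
            exact ⟨this.1, this.2.2⟩

end ASM_

open ASM_

theorem p_ASM (h1 : T_TUP) (h2 : T_KIL) : T_ASM := by
  intro S K M ρ ε Y z Z m hD hY hz hzZ hZm hε hkill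
  obtain ⟨hM, hρ1, hρ2, hS, -, hBin⟩ := hD
  have hSp : ∀ p ∈ S, p.Prime := fun p hp => (hS p hp).1
  obtain ⟨hT1, hT2, hT3⟩ := h1 S M ρ Y z Z m hSp hM hρ1 hρ2 hY (by linarith) hzZ hZm
  have hY1 : (1 : ℝ) ≤ Y := by linarith
  have hT0 : (1 : ℝ) ≤ 2 * Y ^ 2 := by nlinarith
  have hL : 0 ≤ Real.log Y := Real.log_nonneg hY1
  have hc : (0 : ℝ) ≤ (4 * Real.log Y) ^ m := by positivity
  have hY4 : (1 : ℝ) ≤ 4 * Y ^ 4 := by
    have : (1 : ℝ) ≤ Y ^ 4 := one_le_pow₀ hY1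
    linarith
  -- the sets of killed numbers
  have hkil := fun (p : ℕ) (hp : p ∈ S) => h2 p {D : ℕ | Adm M ρ D ∧ K D p} (hSp p hp) (hS p hp).2
    (fun D hD => adm_pos hD.1) (hBin p hp) (2 * Y ^ 2) hT0
  have hBex : ∀ p : ℕ, ∃ B : Finset ℕ, (2 : ℝ) ^ B.card ≤ 4 * Y ^ 4 ∧ (p ∈ S →
      2 ≤ NS {D : ℕ | Adm M ρ D ∧ K D p} (2 * Y ^ 2) → ∀ D ∈ {D : ℕ | Adm M ρ D ∧ K D p},
      (D : ℝ) ≤ 2 * Y ^ 2 → ∀ l : ℕ, l.Prime → 2 < l → l ≠ p → l ∣ D → l ∉ B → SSN.ch p l = 1) := by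
    intro p
    by_cases hp : p ∈ S
    · obtain ⟨-, -, B, hB1, hB2⟩ := hkil p hp
      refine ⟨B, ?_, fun _ => hB2⟩
      calc (2 : ℝ) ^ B.card ≤ (2 * Y ^ 2) ^ 2 := hB1
        _ = 4 * Y ^ 4 := by ring
    · refine ⟨∅, ?_, fun h => absurd h hp⟩
      simpa using hY4
  choose B hB1 hB2 using hBex
  refine ⟨B, hB1, ?_⟩
  choose! pf hpf using hkill
  -- the fibers
  have hfib : ∀ p ∈ (UU S M ρ Y z Z m).image pf,
      (((UU S M ρ Y z Z m).filter fun t => pf t = p).card : ℝ) ≤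
        NS {D : ℕ | Adm M ρ D ∧ K D p} (2 * Y ^ 2) * (4 * Real.log Y) ^ m := by
    intro p _
    apply card_tuples hc
    · intro t ht
      obtain ⟨ht1, ht2⟩ := Finset.mem_filter.1 ht
      obtain ⟨ha, -, hle, -, -⟩ := hT1 t ht1
      have := (hpf t ht1).2.2.1
      rw [ht2] at this
      exact ⟨⟨ha, this⟩, hle⟩
    · intro D
      refine le_trans ?_ (hT2 D)
      have : (((UU S M ρ Y z Z m).filter fun t => pf t = p).filter fun t => dd t = D).card ≤
          ((UU S M ρ Y z Z m).filter fun t => dd t = D).card := by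
        apply Finset.card_le_card
        intro t ht
        obtain ⟨ht1, ht2⟩ := Finset.mem_filter.1 ht
        exact Finset.mem_filter.2 ⟨(Finset.mem_filter.1 ht1).1, ht2⟩
      exact_mod_cast this
  rw [Finset.card_eq_sum_card_image pf (UU S M ρ Y z Z m)]
  push_cast
  have hmem : ∀ p ∈ (UU S M ρ Y z Z m).image pf, p ∈ S ∧ 1 ≤ p ∧
      (p : ℝ) ≤ Real.exp ((2 * Y ^ 2) ^ (1 / 2 + ε)) := by
    intro p hp
    obtain ⟨t, ht, rfl⟩ := Finset.mem_image.1 hp
    have h := hpf t ht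
    exact ⟨h.1, (hSp _ h.1).one_lt.le, h.2.2.2⟩
  have hR : (0 : ℝ) ≤ ∑ a ∈ AA S Y, (a : ℝ) := Finset.sum_nonneg fun a _ => Nat.cast_nonneg a
  have hE : ∀ A : Finset ℕ, (0 : ℝ) ≤ ∑ T ∈ A.powersetCard m, ∏ l ∈ T, 1 / (l : ℝ) := by
    intro A
    apply Finset.sum_nonneg
    intro T _
    apply Finset.prod_nonneg
    intro l _
    positivity
  have hz0 : 0 < z := by linarith
  apply split_sum hmem
  · intro p _
    have := hE ((LL S z Z).filter fun l => SSN.ch p l = 1 ∨ l ∈ B p)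
    positivity
  · positivity
  · exact hc
  · -- small primes
    intro p hp hpz
    obtain ⟨hpS, -, -⟩ := hmem p hp
    by_cases h2N : 2 ≤ NS {D : ℕ | Adm M ρ D ∧ K D p} (2 * Y ^ 2)
    · have hsub : (((UU S M ρ Y z Z m).filter fun t => pf t = p).card : ℝ) ≤
          (((UU S M ρ Y z Z m).filter fun t => t.2.1 ⊆
            ((LL S z Z).filter fun l => SSN.ch p l = 1 ∨ l ∈ B p)).card : ℝ) := by
        have : ((UU S M ρ Y z Z m).filter fun t => pf t = p).card ≤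
          ((UU S M ρ Y z Z m).filter fun t => t.2.1 ⊆
            ((LL S z Z).filter fun l => SSN.ch p l = 1 ∨ l ∈ B p)).card := by
          apply Finset.card_le_card
          intro t ht
          obtain ⟨ht1, ht2⟩ := Finset.mem_filter.1 ht
          refine Finset.mem_filter.2 ⟨ht1, ?_⟩
          intro l hl
          have htU := ht1
          unfold UU at htU
          have hTm := (Finset.mem_product.1 (Finset.mem_product.1
            (Finset.mem_filter.1 htU).1).2).1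
          have hlL : l ∈ LL S z Z := (Finset.mem_powersetCard.1 hTm).1 hl
          refine Finset.mem_filter.2 ⟨hlL, ?_⟩
          by_cases hlB : l ∈ B p
          · exact Or.inr hlB
          · left
            obtain ⟨hlp, hlS⟩ := Finset.mem_filter.1 hlL
            obtain ⟨-, hlprime, hlz⟩ := Finset.mem_filter.1 hlp
            obtain ⟨ha, -, hle, -, hdiv⟩ := hT1 t ht1
            have hK := (hpf t ht1).2.2.1
            rw [ht2] at hK
            have hl2 : 2 < l := by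
              have : (2 : ℝ) < l := by linarith
              exact_mod_cast this
            have hlne : l ≠ p := by
              intro h
              exact hlS (h ▸ hpS)
            exact hB2 p hpS h2N (dd t) ⟨ha, hK⟩ hle l hlprime hl2 hlne (hdiv l hl) hlB
        exact_mod_cast this
      have h3 := hT3 ((LL S z Z).filter fun l => SSN.ch p l = 1 ∨ l ∈ B p)
        (Finset.filter_subset _ _)
      linarith
    · have h3 := hfib p hp
      have h4 := NS_lt_two h2N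
      have h5 : NS {D : ℕ | Adm M ρ D ∧ K D p} (2 * Y ^ 2) * (4 * Real.log Y) ^ m ≤
          1 * (4 * Real.log Y) ^ m := mul_le_mul_of_nonneg_right h4 hc
      have h6 := mul_nonneg (mul_nonneg (zero_le_two (α := ℝ)) hR)
        (hE ((LL S z Z).filter fun l => SSN.ch p l = 1 ∨ l ∈ B p))
      linarith
  · -- medium primes
    intro p hp hzp _
    obtain ⟨hpS, -, -⟩ := hmem p hp
    refine (hfib p hp).trans ?_
    rw [mul_comm]
    apply mul_le_mul_of_nonneg_left _ hc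
    refine (hkil p hpS).1.trans ?_
    have hsq : Real.sqrt z ≤ Real.sqrt p := Real.sqrt_le_sqrt hzp.le
    have hsz : 0 < Real.sqrt z := Real.sqrt_pos.2 hz0
    have : 7 * (2 * Y ^ 2) / Real.sqrt p ≤ 14 * Y ^ 2 / Real.sqrt z := by
      rw [show 7 * (2 * Y ^ 2) = 14 * Y ^ 2 by ring]
      exact div_le_div_of_nonneg_left (by positivity) hsz hsq
    linarith
  · -- large primes
    intro p hp _ hwp
    obtain ⟨hpS, -, -⟩ := hmem p hp
    refine (hfib p hp).trans ?_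
    have h4 : NS {D : ℕ | Adm M ρ D ∧ K D p} (2 * Y ^ 2) ≤ 1 := by
      apply (hkil p hpS).2.1
      have e : 4 * (2 * Y ^ 2) ^ 2 = 16 * Y ^ 4 := by ring
      rw [e]
      exact hwp
    calc NS {D : ℕ | Adm M ρ D ∧ K D p} (2 * Y ^ 2) * (4 * Real.log Y) ^ m ≤
          1 * (4 * Real.log Y) ^ m := mul_le_mul_of_nonneg_right h4 hc
      _ = (4 * Real.log Y) ^ m := one_mul _

end SSC
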