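import Pool.Agent.SSC.Targets

/-!
# SSC: BON, Bonferroni's inequality for products
-/

set_option autoImplicit false

open scoped BigOperators Classical
open Finset

namespace SSC

namespace BON_

/-- elementary symmetric sums -/
noncomputable def e (Q : Finset ℕ) (x : ℕ → ℝ) (j : ℕ) : ℝ :=
  ∑ T ∈ Q.powersetCard j, ∏ q ∈ T, x q

/-- partial alternating sums -/
noncomputable def P (Q : Finset ℕ) (x : ℕ → ℝ) (r : ℕ) : ℝ :=
  ∑ j ∈ range (r + 1), (-1 : ℝ) ^ j * e Q x j

theorem e_zero (Q : Finset ℕ) (x : ℕ → ℝ) : e Q x 0 = 1 := by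
  simp [e]

theorem e_nonneg (Q : Finset ℕ) (x : ℕ → ℝ) (h : ∀ q ∈ Q, 0 ≤ x q) (j : ℕ) : 0 ≤ e Q x j := by
  refine Finset.sum_nonneg fun T hT => Finset.prod_nonneg fun q hq => h q ?_
  exact (Finset.mem_powersetCard.1 hT).1 hq

theorem e_insert {Q : Finset ℕ} {a : ℕ} (ha : a ∉ Q) (x : ℕ → ℝ) (j : ℕ) :
    e (insert a Q) x (j + 1) = e Q x (j + 1) + x a * e Q x j := by
  unfold e
  rw [Finset.powersetCard_succ_insert ha, Finset.sum_union, Finset.sum_image, Finset.mul_sum]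
  · congr 1
    refine Finset.sum_congr rfl fun T hT => ?_
    rw [Finset.prod_insert]
    intro h
    exact ha ((Finset.mem_powersetCard.1 hT).1 h)
  · intro T hT T' hT' h
    have h1 : a ∉ T := fun h => ha ((Finset.mem_powersetCard.1 hT).1 h)
    have h2 : a ∉ T' := fun h => ha ((Finset.mem_powersetCard.1 hT').1 h)
    rw [← Finset.erase_insert h1, ← Finset.erase_insert h2]
    exact congrArg (fun U => U.erase a) h
  · rw [Finset.disjoint_left]
    intro T hT hT'
    obtain ⟨U, hU, rfl⟩ := Finset.mem_image.1 hT'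
    exact ha ((Finset.mem_powersetCard.1 hT).1 (Finset.mem_insert_self a U))

theorem e_empty (x : ℕ → ℝ) (j : ℕ) : e ∅ x (j + 1) = 0 := by
  unfold e
  rw [Finset.powersetCard_eq_empty.2 (by simp)]
  simp

theorem P_zero (Q : Finset ℕ) (x : ℕ → ℝ) : P Q x 0 = 1 := by
  simp [P, e_zero]

theorem P_succ (Q : Finset ℕ) (x : ℕ → ℝ) (r : ℕ) :
    P Q x (r + 1) = P Q x r + (-1 : ℝ) ^ (r + 1) * e Q x (r + 1) := by
  unfold P
  rw [Finset.sum_range_succ]

theorem P_insert {Q : Finset ℕ} {a : ℕ} (ha : a ∉ Q) (x : ℕ → ℝ) (r : ℕ) :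
    P (insert a Q) x (r + 1) = P Q x (r + 1) - x a * P Q x r := by
  induction r with
  | zero =>
    rw [P_succ, P_succ, P_zero, P_zero, e_insert ha, e_zero]
    ring
  | succ r ih =>
    rw [P_succ, ih, P_succ Q x (r + 1), e_insert ha, P_succ Q x r]
    ring

theorem prod_nonneg' (Q : Finset ℕ) (x : ℕ → ℝ) (h : ∀ q ∈ Q, 0 ≤ x q ∧ x q ≤ 1) :
    0 ≤ ∏ q ∈ Q, (1 - x q) :=
  Finset.prod_nonneg fun q hq => by linarith [(h q hq).2]

theorem prod_le_one' (Q : Finset ℕ) (x : ℕ → ℝ) (h : ∀ q ∈ Q, 0 ≤ x q ∧ x q ≤ 1) :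
    ∏ q ∈ Q, (1 - x q) ≤ 1 :=
  Finset.prod_le_one (fun q hq => by linarith [(h q hq).2]) fun q hq => by linarith [(h q hq).1]

theorem main (x : ℕ → ℝ) (Q : Finset ℕ) : (∀ q ∈ Q, 0 ≤ x q ∧ x q ≤ 1) → ∀ r : ℕ,
    0 ≤ (-1 : ℝ) ^ (r + 1) * ((∏ q ∈ Q, (1 - x q)) - P Q x r) ∧
    (-1 : ℝ) ^ (r + 1) * ((∏ q ∈ Q, (1 - x q)) - P Q x r) ≤ e Q x (r + 1) := by
  induction Q using Finset.induction_on with
  | empty =>
    intro _ r
    have h1 : P ∅ x r = 1 := by
      induction r with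
      | zero => exact P_zero ∅ x
      | succ r ih => rw [P_succ, ih, e_empty, mul_zero, add_zero]
    rw [h1, e_empty]
    simp
  | insert a Q ha ih =>
    intro h r
    have h' : ∀ q ∈ Q, 0 ≤ x q ∧ x q ≤ 1 := fun q hq => h q (Finset.mem_insert_of_mem hq)
    have hxa := h a (Finset.mem_insert_self a Q)
    have ih' := ih h'
    rw [Finset.prod_insert ha]
    cases r with
    | zero =>
      have h1 := ih' 0
      rw [P_zero] at h1 ⊢
      rw [e_insert ha, e_zero]
      have h2 := prod_nonneg' Q x h'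
      have h3 := prod_le_one' Q x h'
      simp only [zero_add, pow_one, neg_mul, one_mul, mul_one] at h1 ⊢
      constructor
      · nlinarith [h1.1, mul_nonneg hxa.1 h2]
      · nlinarith [h1.2, mul_nonneg hxa.1 (sub_nonneg.2 h3)]
    | succ r =>
      have h1 := ih' (r + 1)
      have h2 := ih' r
      rw [P_insert ha, e_insert ha]
      have e1 : (-1 : ℝ) ^ (r + 1 + 1) *
          ((1 - x a) * ∏ q ∈ Q, (1 - x q) - (P Q x (r + 1) - x a * P Q x r)) =
          (-1 : ℝ) ^ (r + 1 + 1) * ((∏ q ∈ Q, (1 - x q)) - P Q x (r + 1)) +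
          x a * ((-1 : ℝ) ^ (r + 1) * ((∏ q ∈ Q, (1 - x q)) - P Q x r)) := by
        ring
      rw [e1]
      constructor
      · exact add_nonneg h1.1 (mul_nonneg hxa.1 h2.1)
      · exact add_le_add h1.2 (mul_le_mul_of_nonneg_left h2.2 hxa.1)

theorem pow_add_le (W x : ℝ) (hW : 0 ≤ W) (hx : 0 ≤ x) (j : ℕ) :
    W ^ (j + 1) + ((j : ℝ) + 1) * x * W ^ j ≤ (x + W) ^ (j + 1) := by
  induction j with
  | zero => simp; linarith
  | succ j ih =>
    have h1 : (x + W) ^ (j + 1 + 1) = (x + W) * (x + W) ^ (j + 1) := by ring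
    rw [h1]
    refine le_trans ?_ (mul_le_mul_of_nonneg_left ih (add_nonneg hx hW))
    have h2 : 0 ≤ ((j : ℝ) + 1) * x ^ 2 * W ^ j := by positivity
    push_cast
    have h3 : (x + W) * (W ^ (j + 1) + ((j : ℝ) + 1) * x * W ^ j) =
        W ^ (j + 1 + 1) + ((j : ℝ) + 1 + 1) * x * W ^ (j + 1) + ((j : ℝ) + 1) * x ^ 2 * W ^ j := by
      ring
    rw [h3]
    linarith

/-- `e_j ≤ W^j / j!` -/
theorem e_le (x : ℕ → ℝ) (Q : Finset ℕ) : (∀ q ∈ Q, 0 ≤ x q) → ∀ j : ℕ,
    e Q x j ≤ (∑ q ∈ Q, x q) ^ j / j.factorial := by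
  induction Q using Finset.induction_on with
  | empty =>
    intro _ j
    cases j with
    | zero => simp [e_zero]
    | succ j =>
      rw [e_empty]
      simp
  | insert a Q ha ih =>
    intro h j
    have h' : ∀ q ∈ Q, 0 ≤ x q := fun q hq => h q (Finset.mem_insert_of_mem hq)
    have hxa := h a (Finset.mem_insert_self a Q)
    have hW : 0 ≤ ∑ q ∈ Q, x q := Finset.sum_nonneg h'
    rw [Finset.sum_insert ha]
    cases j with
    | zero => simp [e_zero]
    | succ j =>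
      rw [e_insert ha]
      have h1 := ih h' (j + 1)
      have h2 := mul_le_mul_of_nonneg_left (ih h' j) hxa
      refine (add_le_add h1 h2).trans ?_
      set W := ∑ q ∈ Q, x q
      have h3 := pow_add_le W (x a) hW hxa j
      rw [Nat.factorial_succ]
      push_cast
      have hf : (0 : ℝ) < (j.factorial : ℝ) := by exact_mod_cast j.factorial_pos
      have hj : (0 : ℝ) < (j : ℝ) + 1 := by positivity
      have h4 : W ^ (j + 1) / (((j : ℝ) + 1) * j.factorial) + x a * (W ^ j / j.factorial) =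
          (W ^ (j + 1) + ((j : ℝ) + 1) * x a * W ^ j) / (((j : ℝ) + 1) * j.factorial) := by
        field_simp
      rw [h4]
      exact div_le_div_of_nonneg_right h3 (by positivity)

end BON_

open BON_ in
/-- BON -/
theorem p_BON : T_BON := by
  intro Q x r hr hx
  have h1 := (main x Q hx r).2
  have h2 : (-1 : ℝ) ^ (r + 1) = 1 := Even.neg_one_pow (Odd.add_one hr)
  rw [h2, one_mul] at h1
  have h3 := e_le x Q (fun q hq => (hx q hq).1) (r + 1)
  have h4 : P Q x r = ∑ j ∈ range (r + 1), (-1 : ℝ) ^ j * ∑ T ∈ Q.powersetCard j, ∏ q ∈ T, x q := rfl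
  rw [← h4]
  linarith

end SSC
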