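import Mathlib
import Pool.Agent.SSN.Targets

/-!
# MP_d74fca_nt, counting part for composite `D` (helper12)

Supersingular primes `p` kill discriminants `D = a c` (`a` prime, `a < c < ρ a`, `D` squarefree,
`M ∣ D + 1`). Elementary counting: either there are many supersingular primes `≤ 16 Y ^ 4`, or at
least `Y ^ (2 - ε)` of them up to `exp (Y ^ (1 + ε))`.
-/

set_option autoImplicit false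

open scoped BigOperators Classical
open Finset

namespace SSC

/-- the number of elements `≤ x` of the set `S` -/
noncomputable def NS (S : Set ℕ) (x : ℝ) : ℝ := (({p : ℕ | p ∈ S ∧ (p : ℝ) ≤ x}.ncard : ℕ) : ℝ)

/-- the primes `l` with `u < l ≤ v` -/
noncomputable def pri (u v : ℝ) : Finset ℕ := (Icc 1 ⌊v⌋₊).filter fun l : ℕ => l.Prime ∧ u < (l : ℝ)

/-- admissible numbers `D = a c` -/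
def Adm (M : ℕ) (ρ : ℝ) (D : ℕ) : Prop :=
  ∃ a c : ℕ, a.Prime ∧ D = a * c ∧ a < c ∧ (c : ℝ) < ρ * a ∧ Squarefree D ∧ M ∣ D + 1

/-- finitely many (at least two) elements of `F` are always values of one positive definite form
whose discriminant is `-p` times a square -/
def Bin (p : ℕ) (F : Set ℕ) : Prop :=
  ∀ G : Finset ℕ, 2 ≤ G.card → (∀ D ∈ G, D ∈ F) → ∃ a b c w : ℤ, 0 < a ∧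
    0 < 4 * a * c - b ^ 2 ∧ 4 * a * c - b ^ 2 = p * w ^ 2 ∧ ∀ D ∈ G, SSN.Val a b c D

/-- the hypotheses on the set `S` of supersingular primes and the killing relation -/
def Data (S : Set ℕ) (K : ℕ → ℕ → Prop) (M : ℕ) (ρ : ℝ) : Prop :=
  0 < M ∧ 1 < ρ ∧ ρ ≤ 2 ∧ (∀ p ∈ S, p.Prime ∧ p ≠ 2) ∧
  (∀ ε : ℝ, 0 < ε → ∃ D₀ : ℕ, ∀ D : ℕ, D₀ ≤ D → Adm M ρ D →
    (∃ q ∈ S, q ∣ D) ∨ ∃ p ∈ S, ¬ p ∣ D ∧ K D p ∧ (p : ℝ) ≤ Real.exp ((D : ℝ) ^ (1 / 2 + ε))) ∧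
  ∀ p ∈ S, Bin p {D : ℕ | Adm M ρ D ∧ K D p}

/-- `∑ r(n) n ^ (-σ)`, `r = 1 * χ` -/
noncomputable def GG (Δ : ℕ) (σ : ℝ) : ℝ := ∑' n : ℕ, (SSN.rr Δ n : ℝ) * (n : ℝ) ^ (-σ)

/-! ## Analytic tools -/

/-- MER: second theorem of Mertens -/
def T_MER : Prop := ∃ C : ℝ, 0 < C ∧ ∀ v : ℝ, 2 ≤ v →
  |(∑ l ∈ pri 1 v, 1 / (l : ℝ)) - Real.log (Real.log v)| ≤ C

/-- CHEB -/
def T_CHEB : Prop := ∃ c Y₀ : ℝ, 0 < c ∧ 2 ≤ Y₀ ∧ ∀ Y : ℝ, Y₀ ≤ Y →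
  c * Y / Real.log Y ≤ ((pri (Y / 16) Y).card : ℝ)

/-- CHG -/
def T_CHG : Prop := ∃ C : ℝ, 1 ≤ C ∧ ∀ (Δ : ℕ) (u₁ u₂ : ℝ), 0 < Δ → 0 < u₁ → u₁ ≤ u₂ → u₂ ≤ 1 →
  (Δ : ℝ) ≤ Real.exp (1 / u₂) → u₁ * GG Δ (1 + u₁) ≤ C * (u₂ * GG Δ (1 + u₂))

/-- CHE -/
def T_CHE : Prop := ∃ C : ℝ, 0 < C ∧ ∀ (Δ : ℕ) (σ : ℝ), 0 < Δ → 1 < σ → σ ≤ 2 →
  Summable (fun n : ℕ => (SSN.rr Δ n : ℝ) * (n : ℝ) ^ (-σ)) ∧ 1 ≤ GG Δ σ ∧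
  Summable (fun l : Nat.Primes => (1 + (SSN.ch Δ l : ℝ)) * (l : ℝ) ^ (-σ)) ∧
  |Real.log (GG Δ σ) - ∑' l : Nat.Primes, (1 + (SSN.ch Δ l : ℝ)) * (l : ℝ) ^ (-σ)| ≤ C

/-- CHI: the primes with character value `1` are at most half of all primes beyond `Δ` -/
def T_CHI : Prop := ∃ C : ℝ, 0 < C ∧ ∀ (Δ : ℕ) (z Z : ℝ), 0 < Δ → (Δ : ℝ) ≤ z → 3 ≤ z → z ≤ Z →
  ∑ l ∈ pri z Z, (1 + (SSN.ch Δ l : ℝ)) / l ≤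
    Real.log (Real.log Z) - Real.log (Real.log z) + C

/-! ## Sieve, symmetric functions -/

/-- ESY -/
def T_ESY : Prop := ∀ (A : Finset ℕ) (x : ℕ → ℝ) (δ : ℝ) (m : ℕ), 0 ≤ δ →
  (∀ l ∈ A, 0 ≤ x l ∧ x l ≤ δ) →
  (∑ T ∈ A.powersetCard m, ∏ l ∈ T, x l) ≤ (∑ l ∈ A, x l) ^ m / m.factorial ∧
  (m * δ ≤ ∑ l ∈ A, x l →
    ((∑ l ∈ A, x l) - m * δ) ^ m / m.factorial ≤ ∑ T ∈ A.powersetCard m, ∏ l ∈ T, x l)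

/-- BON -/
def T_BON : Prop := ∀ (Q : Finset ℕ) (x : ℕ → ℝ) (r : ℕ), Odd r → (∀ q ∈ Q, 0 ≤ x q ∧ x q ≤ 1) →
  (∏ q ∈ Q, (1 - x q)) - (∑ q ∈ Q, x q) ^ (r + 1) / (r + 1).factorial ≤
    ∑ j ∈ range (r + 1), (-1 : ℝ) ^ j * ∑ T ∈ Q.powersetCard j, ∏ q ∈ T, x q

/-- BRU: Brun's pure sieve, lower bound -/
def T_BRU : Prop := ∀ (Q : Finset ℕ) (m : ℕ → ℕ) (M b r : ℕ) (u v : ℝ), 0 < M → Odd r →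
  (∀ q ∈ Q, q.Prime ∧ q.Coprime M ∧ (m q = q ∨ m q = q ^ 2)) → 0 ≤ u → u ≤ v →
  (v - u) / M * ((∏ q ∈ Q, (1 - 1 / (m q : ℝ))) -
      (∑ q ∈ Q, 1 / (m q : ℝ)) ^ (r + 1) / (r + 1).factorial) - 2 * ((Q.card : ℝ) + 1) ^ r ≤
    (((Icc 1 ⌊v⌋₊).filter fun h : ℕ => u < (h : ℝ) ∧ (h : ℝ) < v ∧ h ≡ b [MOD M] ∧
      ∀ q ∈ Q, ¬ m q ∣ h).card : ℝ)

/-- the numbers `h` that are used with the prime `a` and the product `Λ` -/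
noncomputable def HH (S : Set ℕ) (M : ℕ) (ρ : ℝ) (a Λ : ℕ) : Finset ℕ :=
  (Icc 1 (2 * a)).filter fun h : ℕ => (a : ℝ) < Λ * h ∧ (Λ * h : ℝ) < ρ * a ∧ M ∣ a * Λ * h + 1 ∧
    Squarefree (a * Λ * h) ∧ ∀ q ∈ S, ¬ q ∣ h

/-- HLO: many `h` -/
def T_HLO : Prop := ∀ (M : ℕ) (ρ κ β : ℝ), 0 < M → 1 < ρ → ρ ≤ 2 → 0 < κ → κ < β → β < 1 →
  ∃ A Y₀ : ℝ, 0 < A ∧ 3 ≤ Y₀ ∧ ∀ (Y : ℝ) (S : Set ℕ) (a Λ : ℕ), Y₀ ≤ Y →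
    (∀ p ∈ S, p.Prime) → NS S (16 * Y ^ 4) ≤ Real.exp ((Real.log Y) ^ κ) →
    a.Prime → Y / 16 < a → (a : ℝ) ≤ Y → Squarefree Λ → (Λ : ℝ) ≤ Y ^ (1 / 4 : ℝ) →
    (∀ l : ℕ, l.Prime → l ∣ Λ → Real.exp ((Real.log Y) ^ β) < l ∧ l ∉ S) →
    (a : ℝ) / Λ * (Real.log Y) ^ (-A) ≤ ((HH S M ρ a Λ).card : ℝ)

/-! ## Forms -/

/-- KIL: the set of numbers killed by `p` -/
def T_KIL : Prop := ∀ (p : ℕ) (F : Set ℕ), p.Prime → p ≠ 2 → (∀ D ∈ F, 0 < D ∧ Squarefree D) →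
  Bin p F → ∀ T : ℝ, 1 ≤ T →
  NS F T ≤ 1 + 7 * T / Real.sqrt p ∧ (4 * T ^ 2 < p → NS F T ≤ 1) ∧
  ∃ B : Finset ℕ, (2 : ℝ) ^ B.card ≤ T ^ 2 ∧ (2 ≤ NS F T → ∀ D ∈ F, (D : ℝ) ≤ T →
    ∀ l : ℕ, l.Prime → 2 < l → l ≠ p → l ∣ D → l ∉ B → SSN.ch p l = 1)

/-! ## Assembly -/

/-- the primes used as factors `l` -/
noncomputable def LL (S : Set ℕ) (z Z : ℝ) : Finset ℕ := (pri z Z).filter fun l : ℕ => l ∉ S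

/-- the primes used as factors `a` -/
noncomputable def AA (S : Set ℕ) (Y : ℝ) : Finset ℕ := (pri (Y / 16) Y).filter fun l : ℕ => l ∉ S

/-- the tuples -/
noncomputable def UU (S : Set ℕ) (M : ℕ) (ρ Y z Z : ℝ) (m : ℕ) : Finset (ℕ × Finset ℕ × ℕ) :=
  ((AA S Y) ×ˢ ((LL S z Z).powersetCard m) ×ˢ (Icc 1 (2 * ⌊Y⌋₊))).filter
    fun t => t.2.2 ∈ HH S M ρ t.1 (∏ l ∈ t.2.1, l)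

/-- the number attached to a tuple -/
def dd (t : ℕ × Finset ℕ × ℕ) : ℕ := t.1 * (∏ l ∈ t.2.1, l) * t.2.2

/-- TUP: facts about the tuples -/
def T_TUP : Prop := ∀ (S : Set ℕ) (M : ℕ) (ρ Y z Z : ℝ) (m : ℕ), (∀ p ∈ S, p.Prime) → 0 < M →
  1 < ρ → ρ ≤ 2 → 32 ≤ Y → 2 ≤ z → z ≤ Z → Z ^ m ≤ Y / 16 →
  (∀ t ∈ UU S M ρ Y z Z m, Adm M ρ (dd t) ∧ (∀ q ∈ S, ¬ q ∣ dd t) ∧ (dd t : ℝ) ≤ 2 * Y ^ 2 ∧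
    Y ^ 2 / 256 ≤ dd t ∧ (∀ l ∈ t.2.1, l ∣ dd t)) ∧
  (∀ D : ℕ, ((((UU S M ρ Y z Z m).filter fun t => dd t = D).card : ℕ) : ℝ) ≤
    (4 * Real.log Y) ^ m) ∧
  (∀ A : Finset ℕ, A ⊆ LL S z Z → ((((UU S M ρ Y z Z m).filter fun t => t.2.1 ⊆ A).card : ℕ) : ℝ) ≤
    2 * (∑ a ∈ AA S Y, (a : ℝ)) * ∑ T ∈ A.powersetCard m, ∏ l ∈ T, 1 / (l : ℝ))

/-- LOW (from HLO): the number of tuples -/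
def T_LOW : Prop := ∀ (M : ℕ) (ρ κ : ℝ), 0 < M → 1 < ρ → ρ ≤ 2 → 0 < κ → κ < 1 / 2 →
  ∃ A Y₀ : ℝ, 0 < A ∧ 32 ≤ Y₀ ∧ ∀ (Y : ℝ) (S : Set ℕ), Y₀ ≤ Y → (∀ p ∈ S, p.Prime) →
    NS S (16 * Y ^ 4) ≤ Real.exp ((Real.log Y) ^ κ) →
    (∑ a ∈ AA S Y, (a : ℝ)) * (Real.log Y) ^ (-A) *
      ∑ T ∈ (LL S (Real.exp ((Real.log Y) ^ ((κ + 1 / 2) / 2)))
        (Real.exp ((Real.log Y) ^ (1 / 2 : ℝ)))).powersetCard ⌈4 * (Real.log Y) ^ κ⌉₊,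
          ∏ l ∈ T, 1 / (l : ℝ) ≤
    ((UU S M ρ Y (Real.exp ((Real.log Y) ^ ((κ + 1 / 2) / 2)))
      (Real.exp ((Real.log Y) ^ (1 / 2 : ℝ))) ⌈4 * (Real.log Y) ^ κ⌉₊).card : ℝ)

/-- ASM (from TUP, KIL): the killed tuples -/
def T_ASM : Prop := ∀ (S : Set ℕ) (K : ℕ → ℕ → Prop) (M : ℕ) (ρ ε Y z Z : ℝ) (m : ℕ),
  Data S K M ρ → 32 ≤ Y → 3 ≤ z → z ≤ Z → Z ^ m ≤ Y / 16 → 0 < ε →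
  (∀ t ∈ UU S M ρ Y z Z m, ∃ p ∈ S, ¬ p ∣ dd t ∧ K (dd t) p ∧
    (p : ℝ) ≤ Real.exp ((2 * Y ^ 2) ^ (1 / 2 + ε))) →
  ∃ B : ℕ → Finset ℕ, (∀ p, (2 : ℝ) ^ (B p).card ≤ 4 * Y ^ 4) ∧
  ((UU S M ρ Y z Z m).card : ℝ) ≤
    (∑ p ∈ (Icc 1 ⌊z⌋₊).filter (fun p : ℕ => p ∈ S),
      (2 * (∑ a ∈ AA S Y, (a : ℝ)) *
        (∑ T ∈ ((LL S z Z).filter fun l => SSN.ch p l = 1 ∨ l ∈ B p).powersetCard m,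
          ∏ l ∈ T, 1 / (l : ℝ)) + (4 * Real.log Y) ^ m)) +
    NS S (16 * Y ^ 4) * ((4 * Real.log Y) ^ m * (1 + 14 * Y ^ 2 / Real.sqrt z)) +
    (4 * Real.log Y) ^ m * NS S (Real.exp ((2 * Y ^ 2) ^ (1 / 2 + ε)))

/-- WWW (from MER, CHI): the sums over the primes `l` -/
def T_WWW : Prop := ∀ κ : ℝ, 0 < κ → κ < 1 / 2 → ∃ c Y₀ : ℝ, 0 < c ∧ 32 ≤ Y₀ ∧
  ∀ (Y : ℝ) (S : Set ℕ) (B : ℕ → Finset ℕ) (z Z : ℝ), Y₀ ≤ Y → (∀ p ∈ S, p.Prime ∧ p ≠ 2) →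
    z = Real.exp ((Real.log Y) ^ ((κ + 1 / 2) / 2)) → Z = Real.exp ((Real.log Y) ^ (1 / 2 : ℝ)) →
    NS S (16 * Y ^ 4) ≤ Real.exp ((Real.log Y) ^ κ) → (∀ p, (2 : ℝ) ^ (B p).card ≤ 4 * Y ^ 4) →
    c * Real.log (Real.log Y) ≤ ∑ l ∈ LL S z Z, 1 / (l : ℝ) ∧
    ∀ p ∈ S, (p : ℝ) ≤ z →
      ∑ l ∈ (LL S z Z).filter (fun l => SSN.ch p l = 1 ∨ l ∈ B p), 1 / (l : ℝ) ≤
        6 / 10 * ∑ l ∈ LL S z Z, 1 / (l : ℝ)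

/-- DIC (from LOW, ASM, WWW, ESY, CHEB): the dichotomy -/
def T_DIC : Prop := ∀ (S : Set ℕ) (K : ℕ → ℕ → Prop) (M : ℕ) (ρ : ℝ), Data S K M ρ →
  ∀ κ : ℝ, 0 < κ → κ < 1 / 2 → ∀ ε : ℝ, 0 < ε → ε < 1 → ∃ Y₀ : ℝ, 1 ≤ Y₀ ∧ ∀ Y : ℝ, Y₀ ≤ Y →
    Real.exp ((Real.log Y) ^ κ) ≤ NS S (16 * Y ^ 4) ∨
    Y ^ (2 - ε) ≤ NS S (Real.exp (Y ^ (1 + ε)))

/-- FINA (from DIC): all large `x` -/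
def T_FINA : Prop := ∀ (S : Set ℕ) (K : ℕ → ℕ → Prop) (M : ℕ) (ρ : ℝ), Data S K M ρ →
  ∀ ε : ℝ, 0 < ε → ∃ x₀ : ℝ, ∀ x : ℝ, x₀ ≤ x →
    Real.exp ((Real.log (Real.log x)) ^ (1 / 2 - ε)) ≤ NS S x

/-- FINB (from DIC): arbitrarily large `x` -/
def T_FINB : Prop := ∀ (S : Set ℕ) (K : ℕ → ℕ → Prop) (M : ℕ) (ρ : ℝ), Data S K M ρ →
  ∀ ε : ℝ, 0 < ε → ∀ x₀ : ℝ, ∃ x : ℝ, x₀ ≤ x ∧ (Real.log x) ^ (2 - ε) ≤ NS S x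

end SSC
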