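import Mathlib
import Pool.Agent.SSC.Targets

/-!
# BRU: Brun's pure sieve, lower bound
-/

set_option autoImplicit false

open scoped BigOperators Classical
open Finset

namespace SSC

namespace BRU_

/-- number of elements of a residue class in an open interval -/
theorem count_bound (N c : ℕ) (u v : ℝ) (hN : 0 < N) (hu : 0 ≤ u) (huv : u ≤ v) :
    |(((Icc 1 ⌊v⌋₊).filter fun h : ℕ => (u < (h : ℝ) ∧ (h : ℝ) < v) ∧ h ≡ c [MOD N]).card : ℝ) -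
      (v - u) / N| ≤ 2 := by
  have hset : (Icc 1 ⌊v⌋₊).filter (fun h : ℕ => (u < (h : ℝ) ∧ (h : ℝ) < v) ∧ h ≡ c [MOD N]) =
      (Ico (⌊u⌋₊ + 1) ⌈v⌉₊).filter (fun h : ℕ => h ≡ c [MOD N]) := by
    ext h
    simp only [mem_filter, mem_Icc, mem_Ico]
    constructor
    · rintro ⟨⟨h1, h2⟩, ⟨h3, h4⟩, h5⟩
      exact ⟨⟨(Nat.floor_lt hu).2 h3, Nat.lt_ceil.2 h4⟩, h5⟩
    · rintro ⟨⟨h1, h2⟩, h5⟩
      have h3 : u < h := (Nat.floor_lt hu).1 h1
      have h4 : (h : ℝ) < v := Nat.lt_ceil.1 h2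
      exact ⟨⟨by omega, Nat.le_floor h4.le⟩, ⟨h3, h4⟩, h5⟩
  have hcard : (((Ico (⌊u⌋₊ + 1) ⌈v⌉₊).filter (fun h : ℕ => h ≡ c [MOD N])).card : ℤ) =
      max (⌈((⌈v⌉₊ : ℕ) - (c : ℚ)) / (N : ℚ)⌉ - ⌈(((⌊u⌋₊ + 1 : ℕ) : ℚ) - (c : ℚ)) / (N : ℚ)⌉) 0 := by
    have h := Nat.Ico_filter_modEq_card (⌊u⌋₊ + 1) ⌈v⌉₊ hN c
    rw [← h]
  rw [hset]
  generalize hk : ((Ico (⌊u⌋₊ + 1) ⌈v⌉₊).filter (fun h : ℕ => h ≡ c [MOD N])).card = k at hcard
  have hN1 : (1 : ℝ) ≤ N := by exact_mod_cast hN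
  have hNp : (0 : ℝ) < N := by linarith
  have hv0 : 0 ≤ v := hu.trans huv
  have a1 : (⌊u⌋₊ : ℝ) ≤ u := Nat.floor_le hu
  have a2 : u < (⌊u⌋₊ : ℝ) + 1 := Nat.lt_floor_add_one u
  have a3 : v ≤ (⌈v⌉₊ : ℝ) := Nat.le_ceil v
  have a4 : (⌈v⌉₊ : ℝ) < v + 1 := Nat.ceil_lt_add_one hv0
  set x : ℚ := ((⌈v⌉₊ : ℕ) - (c : ℚ)) / (N : ℚ) with hx
  set y : ℚ := (((⌊u⌋₊ + 1 : ℕ) : ℚ) - (c : ℚ)) / (N : ℚ) with hy
  have b1 : (x : ℝ) ≤ (⌈x⌉ : ℝ) := by exact_mod_cast Int.le_ceil x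
  have b2 : (⌈x⌉ : ℝ) < (x : ℝ) + 1 := by exact_mod_cast Int.ceil_lt_add_one x
  have b3 : (y : ℝ) ≤ (⌈y⌉ : ℝ) := by exact_mod_cast Int.le_ceil y
  have b4 : (⌈y⌉ : ℝ) < (y : ℝ) + 1 := by exact_mod_cast Int.ceil_lt_add_one y
  have hxr : (x : ℝ) = ((⌈v⌉₊ : ℝ) - c) / N := by rw [hx]; push_cast; rfl
  have hyr : (y : ℝ) = ((⌊u⌋₊ : ℝ) + 1 - c) / N := by rw [hy]; push_cast; rfl
  have hkr : (k : ℝ) = max ((⌈x⌉ : ℝ) - (⌈y⌉ : ℝ)) 0 := by
    have : ((k : ℤ) : ℝ) = ((max (⌈x⌉ - ⌈y⌉) 0 : ℤ) : ℝ) := by rw [hcard]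
    rw [Int.cast_natCast] at this
    rw [this]
    push_cast
    rfl
  have hdiff : (x : ℝ) - y = ((⌈v⌉₊ : ℝ) - ⌊u⌋₊ - 1) / N := by rw [hxr, hyr]; ring
  have hinv : (1 : ℝ) / N ≤ 1 := by rw [div_le_one hNp]; exact hN1
  have c1 : (x : ℝ) - y ≤ (v - u) / N + 1 := by
    rw [hdiff]
    have : ((⌈v⌉₊ : ℝ) - ⌊u⌋₊ - 1) / N ≤ (v - u + 1) / N := by
      apply div_le_div_of_nonneg_right _ hNp.le
      linarith
    calc ((⌈v⌉₊ : ℝ) - ⌊u⌋₊ - 1) / N ≤ (v - u + 1) / N := this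
      _ = (v - u) / N + 1 / N := by ring
      _ ≤ (v - u) / N + 1 := by linarith
  have c2 : (v - u) / N - 1 ≤ (x : ℝ) - y := by
    rw [hdiff]
    have : (v - u - 1) / N ≤ ((⌈v⌉₊ : ℝ) - ⌊u⌋₊ - 1) / N := by
      apply div_le_div_of_nonneg_right _ hNp.le
      linarith
    calc (v - u) / N - 1 ≤ (v - u) / N - 1 / N := by linarith
      _ = (v - u - 1) / N := by ring
      _ ≤ _ := this
  have hnn : 0 ≤ (v - u) / N := div_nonneg (by linarith) hNp.le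
  rw [hkr, abs_le]
  constructor
  · have := le_max_left ((⌈x⌉ : ℝ) - (⌈y⌉ : ℝ)) 0
    linarith
  · rcases max_cases ((⌈x⌉ : ℝ) - (⌈y⌉ : ℝ)) 0 with ⟨h1, _⟩ | ⟨h1, _⟩
    · rw [h1]; linarith
    · rw [h1]; linarith

/-- the truncated inclusion-exclusion for an odd level -/
theorem alt (w r : ℕ) (hr : Odd r) :
    ∑ j ∈ range (r + 1), (-1 : ℝ) ^ j * (w.choose j : ℝ) ≤ if w = 0 then 1 else 0 := by
  rcases w with _ | n
  · rw [if_pos rfl, sum_eq_single 0]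
    · simp
    · intro j _ hj
      obtain ⟨i, rfl⟩ := Nat.exists_eq_succ_of_ne_zero hj
      rw [Nat.choose_zero_succ, Nat.cast_zero, mul_zero]
    · intro h
      exact absurd (mem_range.2 (Nat.succ_pos r)) h
  · rw [if_neg (Nat.succ_ne_zero n)]
    have h := Int.alternating_sum_range_choose_eq_choose (n := n) (m := r)
    have h' : ((∑ k ∈ range (r + 1), ((-1) ^ k * (n + 1).choose k : ℤ) : ℤ) : ℝ) =
        (((-1) ^ r * n.choose r : ℤ) : ℝ) := by rw [h]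
    push_cast at h'
    rw [h', hr.neg_one_pow]
    have : (0 : ℝ) ≤ (n.choose r : ℝ) := Nat.cast_nonneg _
    linarith

/-- all moduli of a set divide `h` iff the product does; one residue class -/
theorem one_class (Q T : Finset ℕ) (m : ℕ → ℕ) (M b : ℕ)
    (hQ : ∀ q ∈ Q, q.Prime ∧ q.Coprime M ∧ (m q = q ∨ m q = q ^ 2)) (hT : T ⊆ Q) :
    ∃ c : ℕ, ∀ h : ℕ, (h ≡ b [MOD M] ∧ ∀ q ∈ T, m q ∣ h) ↔ h ≡ c [MOD (M * ∏ q ∈ T, m q)] := by
  have hmc : ∀ q ∈ Q, ∀ k : ℕ, q.Coprime k → (m q).Coprime k := by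
    intro q hq k hk
    rcases (hQ q hq).2.2 with h | h
    · rw [h]; exact hk
    · rw [h]; exact hk.pow_left 2
  have hpair : (↑T : Set ℕ).Pairwise (Function.onFun Nat.Coprime m) := by
    intro p hp q hq hpq
    have hp' := hT hp
    have hq' := hT hq
    refine hmc p hp' _ (hmc q hq' p ?_).symm
    exact ((Nat.coprime_primes (hQ q hq').1 (hQ p hp').1).2 (Ne.symm hpq))
  have hco : M.Coprime (∏ q ∈ T, m q) := by
    apply Nat.Coprime.prod_right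
    intro q hq
    exact (hmc q (hT hq) M (hQ q (hT hq)).2.1).symm
  obtain ⟨c, hc1, hc2⟩ := Nat.chineseRemainder hco b 0
  refine ⟨c, fun h => ?_⟩
  rw [← Nat.modEq_and_modEq_iff_modEq_mul hco]
  constructor
  · rintro ⟨h1, h2⟩
    refine ⟨h1.trans hc1.symm, ?_⟩
    have hd : (∏ q ∈ T, m q) ∣ h := by
      exact Finset.prod_dvd_of_isRelPrime (by
        intro p hp q hq hpq
        exact Nat.coprime_iff_isRelPrime.1 (hpair hp hq hpq)) h2
    exact ((Nat.modEq_zero_iff_dvd.2 hd)).trans hc2.symm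
  · rintro ⟨h1, h2⟩
    refine ⟨h1.trans hc1, fun q hq => ?_⟩
    have hd : (∏ q ∈ T, m q) ∣ h := Nat.modEq_zero_iff_dvd.1 (h2.trans hc2)
    exact (dvd_prod_of_mem m hq).trans hd

/-- the number of subsets with at most `r` elements -/
theorem small_subsets (n r : ℕ) : ∑ j ∈ range (r + 1), n.choose j ≤ (n + 1) ^ r := by
  rw [add_pow]
  apply sum_le_sum
  intro j hj
  rw [mem_range] at hj
  have h1 : n.choose j ≤ n ^ j := Nat.choose_le_pow n j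
  have h2 : 1 ≤ r.choose j := Nat.choose_pos (by omega)
  rw [one_pow, mul_one]
  calc n.choose j ≤ n ^ j := h1
    _ = n ^ j * 1 := (mul_one _).symm
    _ ≤ n ^ j * r.choose j := Nat.mul_le_mul_left _ h2

end BRU_

open BRU_

/-- BRU -/
theorem p_BRU (h1 : T_BON) : T_BRU := by
  intro Q m M b r u v hM hr hQ hu huv
  have hMr : (0 : ℝ) < M := by exact_mod_cast hM
  have hmpos : ∀ q ∈ Q, 1 ≤ m q := by
    intro q hq
    have hp := (hQ q hq).1.pos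
    rcases (hQ q hq).2.2 with h | h
    · rw [h]; exact hp
    · rw [h]; exact Nat.pow_pos hp
  -- the basic set
  set H : Finset ℕ := (Icc 1 ⌊v⌋₊).filter (fun h : ℕ => (u < (h : ℝ) ∧ (h : ℝ) < v) ∧ h ≡ b [MOD M])
    with hH
  have hset : (Icc 1 ⌊v⌋₊).filter (fun h : ℕ => u < (h : ℝ) ∧ (h : ℝ) < v ∧ h ≡ b [MOD M] ∧
      ∀ q ∈ Q, ¬ m q ∣ h) = H.filter (fun h => ∀ q ∈ Q, ¬ m q ∣ h) := by
    rw [hH, filter_filter]
    apply filter_congr
    intro h _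
    tauto
  rw [hset]
  -- counting for a fixed set
  have hcount : ∀ T ⊆ Q, |((H.filter fun h => ∀ q ∈ T, m q ∣ h).card : ℝ) -
      (v - u) / M * ∏ q ∈ T, (1 / (m q : ℝ))| ≤ 2 := by
    intro T hT
    obtain ⟨c, hc⟩ := one_class Q T m M b hQ hT
    have hNpos : 0 < M * ∏ q ∈ T, m q :=
      Nat.mul_pos hM (prod_pos fun q hq => hmpos q (hT hq))
    have h2 := count_bound (M * ∏ q ∈ T, m q) c u v hNpos hu huv
    have e1 : H.filter (fun h => ∀ q ∈ T, m q ∣ h) = (Icc 1 ⌊v⌋₊).filter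
        (fun h : ℕ => (u < (h : ℝ) ∧ (h : ℝ) < v) ∧ h ≡ c [MOD (M * ∏ q ∈ T, m q)]) := by
      rw [hH, filter_filter]
      apply filter_congr
      intro h _
      rw [← hc h]
      tauto
    have e2 : (v - u) / M * ∏ q ∈ T, (1 / (m q : ℝ)) =
        (v - u) / ((M * ∏ q ∈ T, m q : ℕ) : ℝ) := by
      rw [prod_div_distrib, prod_const_one, Nat.cast_mul, Nat.cast_prod, div_mul_div_comm, mul_one]
    rw [e1, e2]
    exact h2
  -- indicator inequality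
  have hind : ∀ h : ℕ, ∑ j ∈ range (r + 1), (-1 : ℝ) ^ j *
      (∑ T ∈ Q.powersetCard j, if (∀ q ∈ T, m q ∣ h) then (1 : ℝ) else 0) ≤
      if (∀ q ∈ Q, ¬ m q ∣ h) then (1 : ℝ) else 0 := by
    intro h
    have e1 : ∀ j, (∑ T ∈ Q.powersetCard j, if (∀ q ∈ T, m q ∣ h) then (1 : ℝ) else 0) =
        (((Q.filter fun q => m q ∣ h).card.choose j : ℕ) : ℝ) := by
      intro j
      rw [← card_powersetCard, ← sum_filter, sum_const, nsmul_eq_mul, mul_one]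
      congr 2
      ext T
      simp only [mem_filter, mem_powersetCard]
      constructor
      · rintro ⟨⟨a1, a2⟩, a3⟩
        exact ⟨fun q hq => mem_filter.2 ⟨a1 hq, a3 q hq⟩, a2⟩
      · rintro ⟨a1, a2⟩
        exact ⟨⟨fun q hq => (mem_filter.1 (a1 hq)).1, a2⟩, fun q hq => (mem_filter.1 (a1 hq)).2⟩
    simp_rw [e1]
    refine (alt _ r hr).trans (le_of_eq ?_)
    have : ((Q.filter fun q => m q ∣ h).card = 0) ↔ (∀ q ∈ Q, ¬ m q ∣ h) := by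
      rw [card_eq_zero, filter_eq_empty_iff]
    by_cases h0 : (∀ q ∈ Q, ¬ m q ∣ h)
    · rw [if_pos h0, if_pos (this.2 h0)]
    · rw [if_neg h0, if_neg (fun h' => h0 (this.1 h'))]
  -- sum of the indicator inequality
  have hsum : ∑ j ∈ range (r + 1), (-1 : ℝ) ^ j * ∑ T ∈ Q.powersetCard j,
      ((H.filter fun h => ∀ q ∈ T, m q ∣ h).card : ℝ) ≤
      ((H.filter fun h => ∀ q ∈ Q, ¬ m q ∣ h).card : ℝ) := by
    have e1 : ((H.filter fun h => ∀ q ∈ Q, ¬ m q ∣ h).card : ℝ) =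
        ∑ h ∈ H, if (∀ q ∈ Q, ¬ m q ∣ h) then (1 : ℝ) else 0 := by
      rw [← sum_filter, sum_const, nsmul_eq_mul, mul_one]
    have e2 : ∑ j ∈ range (r + 1), (-1 : ℝ) ^ j * ∑ T ∈ Q.powersetCard j,
      ((H.filter fun h => ∀ q ∈ T, m q ∣ h).card : ℝ) =
      ∑ h ∈ H, ∑ j ∈ range (r + 1), (-1 : ℝ) ^ j *
      (∑ T ∈ Q.powersetCard j, if (∀ q ∈ T, m q ∣ h) then (1 : ℝ) else 0) := by
      rw [sum_comm]
      apply sum_congr rfl
      intro j _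
      rw [← mul_sum, sum_comm]
      congr 1
      apply sum_congr rfl
      intro T _
      rw [← sum_filter, sum_const, nsmul_eq_mul, mul_one]
    rw [e1, e2]
    exact sum_le_sum fun h _ => hind h
  -- replace the counts by the main terms
  have herr : (v - u) / M * (∑ j ∈ range (r + 1), (-1 : ℝ) ^ j * ∑ T ∈ Q.powersetCard j,
      ∏ q ∈ T, (1 / (m q : ℝ))) - 2 * ((Q.card : ℝ) + 1) ^ r ≤
      ∑ j ∈ range (r + 1), (-1 : ℝ) ^ j * ∑ T ∈ Q.powersetCard j,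
      ((H.filter fun h => ∀ q ∈ T, m q ∣ h).card : ℝ) := by
    have e0 : ((v - u) / M * (∑ j ∈ range (r + 1), (-1 : ℝ) ^ j * ∑ T ∈ Q.powersetCard j,
      ∏ q ∈ T, (1 / (m q : ℝ)))) - (∑ j ∈ range (r + 1), (-1 : ℝ) ^ j * ∑ T ∈ Q.powersetCard j,
      ((H.filter fun h => ∀ q ∈ T, m q ∣ h).card : ℝ)) ≤
      ∑ j ∈ range (r + 1), 2 * (Q.card.choose j : ℝ) := by
      rw [mul_sum, ← sum_sub_distrib]
      apply sum_le_sum
      intro j _
      have e3 : (v - u) / M * ((-1 : ℝ) ^ j * ∑ T ∈ Q.powersetCard j, ∏ q ∈ T, (1 / (m q : ℝ))) -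
          (-1 : ℝ) ^ j * ∑ T ∈ Q.powersetCard j,
          ((H.filter fun h => ∀ q ∈ T, m q ∣ h).card : ℝ) =
          (-1 : ℝ) ^ j * ∑ T ∈ Q.powersetCard j, -(((H.filter fun h => ∀ q ∈ T, m q ∣ h).card : ℝ) -
            (v - u) / M * ∏ q ∈ T, (1 / (m q : ℝ))) := by
        rw [sum_neg_distrib, sum_sub_distrib, ← mul_sum]
        ring
      rw [e3]
      refine (le_abs_self _).trans ?_
      rw [abs_mul, abs_pow, abs_neg, abs_one, one_pow, one_mul]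
      refine (abs_sum_le_sum_abs _ _).trans ?_
      have e4 : (2 : ℝ) * (Q.card.choose j : ℝ) = ∑ T ∈ Q.powersetCard j, (2 : ℝ) := by
        rw [sum_const, card_powersetCard, nsmul_eq_mul, mul_comm]
      rw [e4]
      apply sum_le_sum
      intro T hT
      rw [abs_neg]
      exact hcount T (mem_powersetCard.1 hT).1
    have e5 : ∑ j ∈ range (r + 1), 2 * (Q.card.choose j : ℝ) ≤ 2 * ((Q.card : ℝ) + 1) ^ r := by
      rw [← mul_sum]
      have := small_subsets Q.card r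
      have h' : ((∑ j ∈ range (r + 1), Q.card.choose j : ℕ) : ℝ) ≤ (((Q.card + 1) ^ r : ℕ) : ℝ) := by
        exact_mod_cast this
      push_cast at h'
      linarith
    linarith
  have hbon := h1 Q (fun q => 1 / (m q : ℝ)) r hr (by
    intro q hq
    have h1 : (1 : ℝ) ≤ m q := by exact_mod_cast hmpos q hq
    constructor
    · positivity
    · rw [div_le_one (by linarith)]; exact h1)
  have hmul := mul_le_mul_of_nonneg_left hbon (div_nonneg (sub_nonneg.2 huv) hMr.le)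
  have hfin : (v - u) / M * ((∏ q ∈ Q, (1 - 1 / (m q : ℝ))) -
      (∑ q ∈ Q, 1 / (m q : ℝ)) ^ (r + 1) / (r + 1).factorial) - 2 * ((Q.card : ℝ) + 1) ^ r ≤
      ((H.filter fun h => ∀ q ∈ Q, ¬ m q ∣ h).card : ℝ) := by
    linarith
  exact hfin

end SSC
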