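import Pool.Agent.SSC.Targets

/-!
# CHE: the Euler product of `∑ r(n) n ^ (-σ)`
-/

set_option autoImplicit false

open scoped BigOperators Classical
open Finset

namespace SSC

namespace CHE_

/-- summability of `r(n) n ^ (-σ)` -/
theorem summable_rr (h2 : SSN.T_RRM) {Δ : ℕ} (hΔ : 0 < Δ) {σ : ℝ} (hσ : 1 < σ) :
    Summable (fun n : ℕ => (SSN.rr Δ n : ℝ) * (n : ℝ) ^ (-σ)) := by
  obtain ⟨-, -, -, -, -, -, hch, -⟩ := h2 Δ hΔ
  have hσ0 : σ ≠ 0 := by linarith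
  have key : Summable (fun n : ℕ => (n : ℝ) ^ (-σ)) :=
    Real.summable_nat_rpow.2 (by linarith)
  have hs1 : LSeriesSummable (fun _ : ℕ => (1 : ℂ)) (σ : ℂ) :=
    LSeriesSummable_of_bounded_of_one_lt_re (m := 1) (fun n _ => by simp) (by simpa using hσ)
  have hs2 : LSeriesSummable (fun n : ℕ => ((SSN.ch Δ n : ℤ) : ℂ)) (σ : ℂ) := by
    refine LSeriesSummable_of_bounded_of_one_lt_re (m := 1) (fun n _ => ?_) (by simpa using hσ)
    rcases hch n with h | h | h <;> rw [h] <;> simp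
  have h3 := (hs1.convolution hs2)
  have h4 : Summable (fun n => ‖LSeries.term (LSeries.convolution (fun _ : ℕ => (1 : ℂ))
      (fun n : ℕ => ((SSN.ch Δ n : ℤ) : ℂ))) (σ : ℂ) n‖) := h3.norm
  have h5 : ∀ n : ℕ, ‖LSeries.term (LSeries.convolution (fun _ : ℕ => (1 : ℂ))
      (fun n : ℕ => ((SSN.ch Δ n : ℤ) : ℂ))) (σ : ℂ) n‖ = ‖(SSN.rr Δ n : ℝ) * (n : ℝ) ^ (-σ)‖ := by
    intro n
    rcases Nat.eq_zero_or_pos n with hn | hn
    · subst hn
      rw [LSeries.term_zero]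
      simp [SSN.rr]
    · rw [LSeries.term_of_ne_zero hn.ne', LSeries.convolution_def]
      have e1 : ∑ p ∈ n.divisorsAntidiagonal, (1 : ℂ) * ((SSN.ch Δ p.2 : ℤ) : ℂ) =
          ((SSN.rr Δ n : ℤ) : ℂ) := by
        unfold SSN.rr
        rw [Nat.sum_divisorsAntidiagonal' (fun _ d => (1 : ℂ) * ((SSN.ch Δ d : ℤ) : ℂ))]
        push_cast
        simp
      simp only [e1]
      rw [norm_div, norm_mul, Complex.norm_natCast_cpow_of_pos hn]
      rw [Real.norm_of_nonneg (Real.rpow_nonneg (Nat.cast_nonneg n) _), Complex.ofReal_re,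
        Real.rpow_neg (Nat.cast_nonneg n), div_eq_mul_inv]
      congr 1
      rw [Complex.norm_intCast]
      rfl
  simp_rw [h5] at h4
  exact h4.of_norm

/-- the local factors -/
theorem local_factor {c x : ℝ} (hx0 : 0 ≤ x) (hx : x < 1) (hc : |c| ≤ 1) :
    ∑' k : ℕ, (∑ i ∈ range (k + 1), c ^ i) * x ^ k = (1 - x)⁻¹ * (1 - c * x)⁻¹ := by
  have hcx : |c * x| < 1 := by
    rw [abs_mul, abs_of_nonneg hx0]
    calc |c| * x ≤ 1 * x := mul_le_mul_of_nonneg_right hc hx0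
      _ < 1 := by linarith
  have hx' : |x| < 1 := by rwa [abs_of_nonneg hx0]
  have h1 : Summable (fun k : ℕ => ‖x ^ k‖) := by
    simp_rw [norm_pow]
    exact summable_geometric_of_lt_one (norm_nonneg _) (by simpa using hx')
  have h2 : Summable (fun k : ℕ => ‖(c * x) ^ k‖) := by
    simp_rw [norm_pow]
    exact summable_geometric_of_lt_one (norm_nonneg _) (by simpa using hcx)
  rw [← tsum_geometric_of_abs_lt_one hx', ← tsum_geometric_of_abs_lt_one hcx, mul_comm,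
    tsum_mul_tsum_eq_tsum_sum_range_of_summable_norm h2 h1]
  refine tsum_congr fun k => ?_
  rw [Finset.sum_mul]
  refine Finset.sum_congr rfl fun i hi => ?_
  have hik : i ≤ k := Nat.lt_succ_iff.1 (Finset.mem_range.1 hi)
  rw [mul_pow, mul_assoc, ← pow_add, Nat.add_sub_cancel' hik]

/-- second order bound for the logarithm -/
theorem log_bound {y : ℝ} (hy : |y| ≤ 1 / 2) : |-Real.log (1 - y) - y| ≤ 2 * y ^ 2 := by
  have h1 := Real.abs_log_sub_add_sum_range_le (x := y) (by linarith [abs_nonneg y]) 1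
  simp only [Finset.sum_range_one] at h1
  have h2 : |y| ^ (1 + 1) / (1 - |y|) ≤ 2 * y ^ 2 := by
    rw [div_le_iff₀ (by linarith)]
    have h3 : |y| ^ (1 + 1) = y ^ 2 := sq_abs y
    rw [h3]
    nlinarith [sq_nonneg y]
  have h3 : -Real.log (1 - y) - y = -(y + Real.log (1 - y)) := by ring
  rw [h3, abs_neg]
  refine le_trans ?_ (h1.trans h2)
  simp

end CHE_

open CHE_ in
theorem p_CHE (_h1 : SSN.T_CHR) (h2 : SSN.T_RRM) : T_CHE := by
  have hC0 : Summable (fun l : Nat.Primes => (l : ℝ) ^ (-2 : ℝ)) :=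
    Nat.Primes.summable_rpow.2 (by norm_num)
  have hCn : 0 ≤ ∑' l : Nat.Primes, (l : ℝ) ^ (-2 : ℝ) :=
    tsum_nonneg fun l => Real.rpow_nonneg (Nat.cast_nonneg _) _
  refine ⟨4 * ∑' l : Nat.Primes, (l : ℝ) ^ (-2 : ℝ) + 1, by linarith, ?_⟩
  intro Δ σ hΔ hσ hσ2
  have hsum := summable_rr h2 hΔ hσ
  obtain ⟨hrr0, -, hrr1, hmul, hpk, -, hch, -⟩ := h2 Δ hΔ
  have hnn : ∀ n : ℕ, 0 ≤ (SSN.rr Δ n : ℝ) * (n : ℝ) ^ (-σ) := fun n =>
    mul_nonneg (by exact_mod_cast hrr0 n) (Real.rpow_nonneg (Nat.cast_nonneg n) _)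
  have hG1 : 1 ≤ GG Δ σ := by
    have h3 := hsum.le_tsum 1 (fun j _ => hnn j)
    unfold GG
    simpa [hrr1] using h3
  -- the variables
  have hx0 : ∀ l : Nat.Primes, 0 < (l : ℝ) ^ (-σ) := fun l =>
    Real.rpow_pos_of_pos (by exact_mod_cast l.2.pos) _
  have hx2 : ∀ l : Nat.Primes, (l : ℝ) ^ (-σ) ≤ 1 / 2 := by
    intro l
    have hl : (2 : ℝ) ≤ l := by exact_mod_cast l.2.two_le
    calc (l : ℝ) ^ (-σ) ≤ (l : ℝ) ^ (-1 : ℝ) :=
          Real.rpow_le_rpow_of_exponent_le (by linarith) (by linarith)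
      _ = 1 / l := by rw [Real.rpow_neg_one, one_div]
      _ ≤ 1 / 2 := one_div_le_one_div_of_le (by norm_num) hl
  have hxsum : Summable (fun l : Nat.Primes => (l : ℝ) ^ (-σ)) :=
    Nat.Primes.summable_rpow.2 (by linarith)
  have hc1 : ∀ l : Nat.Primes, |(SSN.ch Δ l : ℝ)| ≤ 1 := by
    intro l
    rcases hch l with h | h | h <;> rw [h] <;> simp
  have hcx : ∀ l : Nat.Primes, |(SSN.ch Δ l : ℝ) * (l : ℝ) ^ (-σ)| ≤ 1 / 2 := by
    intro l
    rw [abs_mul, abs_of_pos (hx0 l)]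
    calc |(SSN.ch Δ l : ℝ)| * (l : ℝ) ^ (-σ) ≤ 1 * (l : ℝ) ^ (-σ) :=
          mul_le_mul_of_nonneg_right (hc1 l) (hx0 l).le
      _ ≤ 1 / 2 := by rw [one_mul]; exact hx2 l
  have hS3 : Summable (fun l : Nat.Primes => (1 + (SSN.ch Δ l : ℝ)) * (l : ℝ) ^ (-σ)) := by
    refine Summable.of_norm_bounded (hxsum.mul_left 2) (fun l => ?_)
    rw [norm_mul, Real.norm_of_nonneg (hx0 l).le]
    refine mul_le_mul_of_nonneg_right ?_ (hx0 l).le
    rw [Real.norm_eq_abs]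
    have h3 := abs_le.1 (hc1 l)
    rw [abs_le]
    constructor <;> linarith
  refine ⟨hsum, hG1, hS3, ?_⟩
  -- Euler product
  have hEP := EulerProduct.eulerProduct_hasProd (f := fun n : ℕ => (SSN.rr Δ n : ℝ) * (n : ℝ) ^ (-σ))
    (by simp [hrr1]) (by
      intro m n hmn
      have h3 := hmul m n hmn
      simp only [h3]
      push_cast
      rw [Real.mul_rpow (Nat.cast_nonneg m) (Nat.cast_nonneg n)]
      ring) hsum.norm (by simp [SSN.rr])
  set F : Nat.Primes → ℝ := fun l => (1 - (l : ℝ) ^ (-σ))⁻¹ *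
    (1 - (SSN.ch Δ l : ℝ) * (l : ℝ) ^ (-σ))⁻¹ with hF
  have hloc : (fun p : Nat.Primes => ∑' e : ℕ, (SSN.rr Δ ((p : ℕ) ^ e) : ℝ) *
      (((p : ℕ) ^ e : ℕ) : ℝ) ^ (-σ)) = F := by
    funext l
    rw [hF]
    simp only
    rw [← local_factor (hx0 l).le (by linarith [hx2 l]) (hc1 l)]
    refine tsum_congr fun k => ?_
    rw [hpk l k l.2]
    have e1 : (((l : ℕ) ^ k : ℕ) : ℝ) ^ (-σ) = ((l : ℝ) ^ (-σ)) ^ k := by
      push_cast
      rw [← Real.rpow_natCast, ← Real.rpow_mul (Nat.cast_nonneg _), mul_comm,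
        Real.rpow_mul (Nat.cast_nonneg _), Real.rpow_natCast]
    rw [e1]
    push_cast
    rfl
  have hEP' : HasProd F (GG Δ σ) := by
    rw [← hloc]
    exact hEP
  have hd1 : ∀ l : Nat.Primes, 0 < 1 - (l : ℝ) ^ (-σ) := fun l => by linarith [hx2 l]
  have hd2 : ∀ l : Nat.Primes, 0 < 1 - (SSN.ch Δ l : ℝ) * (l : ℝ) ^ (-σ) := fun l => by
    linarith [(abs_le.1 (hcx l)).2]
  have hFpos : ∀ l, 0 < F l := fun l => mul_pos (inv_pos.2 (hd1 l)) (inv_pos.2 (hd2 l))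
  have hlog : ∀ l, Real.log (F l) = -Real.log (1 - (l : ℝ) ^ (-σ)) +
      -Real.log (1 - (SSN.ch Δ l : ℝ) * (l : ℝ) ^ (-σ)) := by
    intro l
    rw [hF]
    simp only
    rw [Real.log_mul (inv_pos.2 (hd1 l)).ne' (inv_pos.2 (hd2 l)).ne', Real.log_inv, Real.log_inv]
  have hdiff : ∀ l : Nat.Primes, |Real.log (F l) - (1 + (SSN.ch Δ l : ℝ)) * (l : ℝ) ^ (-σ)| ≤
      4 * (l : ℝ) ^ (-2 : ℝ) := by
    intro l
    have b1 := log_bound (y := (l : ℝ) ^ (-σ)) (by rw [abs_of_pos (hx0 l)]; exact hx2 l)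
    have b2 := log_bound (hcx l)
    have e1 : Real.log (F l) - (1 + (SSN.ch Δ l : ℝ)) * (l : ℝ) ^ (-σ) =
        (-Real.log (1 - (l : ℝ) ^ (-σ)) - (l : ℝ) ^ (-σ)) +
        (-Real.log (1 - (SSN.ch Δ l : ℝ) * (l : ℝ) ^ (-σ)) -
          (SSN.ch Δ l : ℝ) * (l : ℝ) ^ (-σ)) := by
      rw [hlog]; ring
    rw [e1]
    refine (abs_add_le _ _).trans ((add_le_add b1 b2).trans ?_)
    have hsq : ((l : ℝ) ^ (-σ)) ^ 2 ≤ (l : ℝ) ^ (-2 : ℝ) := by
      rw [← Real.rpow_natCast, ← Real.rpow_mul (Nat.cast_nonneg _)]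
      refine Real.rpow_le_rpow_of_exponent_le ?_ ?_
      · exact_mod_cast l.2.one_le
      · push_cast; linarith
    have hsq2 : ((SSN.ch Δ l : ℝ) * (l : ℝ) ^ (-σ)) ^ 2 ≤ ((l : ℝ) ^ (-σ)) ^ 2 := by
      rw [mul_pow]
      have h3 : (SSN.ch Δ l : ℝ) ^ 2 ≤ 1 := by
        rw [← sq_abs]
        exact pow_le_one₀ (abs_nonneg _) (hc1 l)
      calc (SSN.ch Δ l : ℝ) ^ 2 * ((l : ℝ) ^ (-σ)) ^ 2 ≤ 1 * ((l : ℝ) ^ (-σ)) ^ 2 :=
            mul_le_mul_of_nonneg_right h3 (sq_nonneg _)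
        _ = _ := one_mul _
    linarith
  have hSd : Summable (fun l : Nat.Primes =>
      Real.log (F l) - (1 + (SSN.ch Δ l : ℝ)) * (l : ℝ) ^ (-σ)) :=
    Summable.of_norm_bounded (hC0.mul_left 4) (fun l => by
      rw [Real.norm_eq_abs]; exact hdiff l)
  have hSlog : Summable (fun l : Nat.Primes => Real.log (F l)) := by
    have h3 := hSd.add hS3
    refine h3.congr (fun l => ?_)
    ring
  have hexp := Real.rexp_tsum_eq_tprod hFpos hSlog
  rw [hEP'.tprod_eq] at hexp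
  rw [← hexp, Real.log_exp, ← hSlog.tsum_sub hS3]
  have h4 : |∑' l : Nat.Primes, (Real.log (F l) - (1 + (SSN.ch Δ l : ℝ)) * (l : ℝ) ^ (-σ))| ≤
      ∑' l : Nat.Primes, 4 * (l : ℝ) ^ (-2 : ℝ) := by
    have h5 := tsum_of_norm_bounded (hC0.mul_left 4).hasSum (fun l => by
      rw [Real.norm_eq_abs]; exact hdiff l)
    rwa [Real.norm_eq_abs] at h5
  rw [tsum_mul_left] at h4
  linarith

end SSC
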