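import Pool.Agent.SSC.Targets
import Pool.Agent.Elliott.Cheb

/-!
# CHEB: Chebyshev lower bound for the number of primes in `(Y/16, Y]`
-/

set_option autoImplicit false

open scoped BigOperators Classical
open Finset

namespace SSC

theorem p_CHEB : T_CHEB := by
  obtain ⟨c, hc, hblk⟩ := Pool.Agent.Elliott.card_blk_lower
  refine ⟨c / 16, 16, by positivity, by norm_num, ?_⟩
  intro Y hY
  have hYpos : 0 < Y := by linarith
  -- choose j with 4^(j+1) ≤ Y < 4^(j+2)
  obtain ⟨m, hm1, hm2⟩ := exists_nat_pow_near (show (1 : ℝ) ≤ Y by linarith)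
    (show (1 : ℝ) < 4 by norm_num)
  have hm : 2 ≤ m := by
    by_contra h
    have h' : m + 1 ≤ 2 := by omega
    have : (4 : ℝ) ^ (m + 1) ≤ 4 ^ 2 := pow_le_pow_right₀ (by norm_num) h'
    have h16 : (4 : ℝ) ^ 2 = 16 := by norm_num
    linarith
  obtain ⟨j, rfl⟩ : ∃ j, m = j + 1 := ⟨m - 1, by omega⟩
  have hj : 1 ≤ j := by omega
  have hsub : Pool.Agent.Elliott.blk j ⊆ pri (Y / 16) Y := by
    intro p hp
    simp only [Pool.Agent.Elliott.blk, mem_filter, mem_Ioc] at hp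
    obtain ⟨⟨hp1, hp2⟩, hp3⟩ := hp
    simp only [pri, mem_filter, mem_Icc]
    have hp1' : ((4 : ℝ) ^ j) < (p : ℝ) := by exact_mod_cast hp1
    have hp2' : (p : ℝ) ≤ (4 : ℝ) ^ (j + 1) := by exact_mod_cast hp2
    refine ⟨⟨hp3.one_lt.le, ?_⟩, hp3, ?_⟩
    · exact Nat.le_floor (le_trans hp2' hm1)
    · have : (4 : ℝ) ^ (j + 1 + 1) = 4 ^ j * 16 := by ring
      rw [this] at hm2
      linarith
  have hcard : ((Pool.Agent.Elliott.blk j).card : ℝ) ≤ ((pri (Y / 16) Y).card : ℝ) := by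
    exact_mod_cast card_le_card hsub
  refine le_trans ?_ (le_trans (hblk j hj) hcard)
  have hjpos : (0 : ℝ) < j := by exact_mod_cast hj
  have hlog4 : (1 : ℝ) ≤ Real.log 4 := by
    have : Real.log 4 = 2 * Real.log 2 := by
      rw [show (4 : ℝ) = 2 ^ 2 by norm_num, Real.log_pow]
      push_cast
      ring
    rw [this]
    have := Real.log_two_gt_d9
    linarith
  have hjlog : (j : ℝ) ≤ Real.log Y := by
    have h1 : Real.log ((4 : ℝ) ^ (j + 1)) ≤ Real.log Y :=
      Real.log_le_log (by positivity) hm1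
    rw [Real.log_pow] at h1
    push_cast at h1
    nlinarith
  have hlogpos : 0 < Real.log Y := lt_of_lt_of_le hjpos hjlog
  have h4 : Y / 16 ≤ (4 : ℝ) ^ j := by
    have : (4 : ℝ) ^ (j + 1 + 1) = 4 ^ j * 16 := by ring
    rw [this] at hm2
    linarith
  rw [div_le_div_iff₀ hlogpos hjpos]
  have h5 : c / 16 * Y ≤ c * 4 ^ j := by
    have := mul_le_mul_of_nonneg_left h4 hc.le
    linarith
  calc c / 16 * Y * j ≤ c * 4 ^ j * j := mul_le_mul_of_nonneg_right h5 hjpos.le
    _ ≤ c * 4 ^ j * Real.log Y := mul_le_mul_of_nonneg_left hjlog (by positivity)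

end SSC
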