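import Mathlib
import Pool.Agent.SSC.Targets

/-!
# CHG: comparison of the Dirichlet series at two points
-/

set_option autoImplicit false

open scoped BigOperators Classical
open Finset

namespace SSC

namespace CHG_

/-- the dyadic points -/
def MJ (Δ j : ℕ) : ℕ := 2 ^ j * (4 * Δ)

/-- `1/√2` -/
noncomputable def rho : ℝ := Real.sqrt (1 / 2)

theorem rho_sq : rho ^ 2 = 1 / 2 := Real.sq_sqrt (by norm_num)

theorem rho_nonneg : 0 ≤ rho := Real.sqrt_nonneg _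

theorem rho_le : rho ≤ 3 / 4 := by
  have h1 := rho_sq
  have h2 := rho_nonneg
  nlinarith

theorem rho_pow_le_one (j : ℕ) : rho ^ j ≤ 1 := pow_le_one₀ rho_nonneg (by linarith [rho_le])

theorem sum_rho (k : ℕ) : ∑ j ∈ range k, rho ^ j ≤ 4 := by
  have h : ∀ k : ℕ, ∑ j ∈ range k, rho ^ j ≤ 4 - 4 * rho ^ k := by
    intro k
    induction k with
    | zero => simp
    | succ k ih =>
      rw [sum_range_succ, pow_succ]
      have h1 : 0 ≤ rho ^ k := pow_nonneg rho_nonneg k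
      have h2 := rho_le
      nlinarith
  have := h k
  have h1 : 0 ≤ rho ^ k := pow_nonneg rho_nonneg k
  linarith

theorem MJ_cast (Δ j : ℕ) : (MJ Δ j : ℝ) = 2 ^ j * (4 * Δ) := by
  unfold MJ
  push_cast
  ring

theorem MJ_pos {Δ : ℕ} (hΔ : 0 < Δ) (j : ℕ) : 0 < MJ Δ j := by
  unfold MJ
  positivity

theorem MJ_pos' {Δ : ℕ} (hΔ : 0 < Δ) (j : ℕ) : (0 : ℝ) < MJ Δ j := by
  exact_mod_cast MJ_pos hΔ j

theorem MJ_succ (Δ j : ℕ) : MJ Δ (j + 1) = 2 * MJ Δ j := by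
  unfold MJ
  rw [pow_succ]
  ring

theorem le_MJ (Δ j : ℕ) : 4 * Δ ≤ MJ Δ j := by
  unfold MJ
  exact Nat.le_mul_of_pos_left _ (by positivity)

theorem sqrt_MJ {Δ : ℕ} (hΔ : 0 < Δ) (j : ℕ) :
    Real.sqrt ((Δ : ℝ) * MJ Δ j) = MJ Δ j * rho ^ j / 2 := by
  have h1 : (Δ : ℝ) * MJ Δ j = (MJ Δ j * rho ^ j / 2) ^ 2 := by
    have h2 : (rho ^ j) ^ 2 = (1 / 2) ^ j := by
      rw [← pow_mul, mul_comm, pow_mul, rho_sq]
    rw [div_pow, mul_pow, h2, MJ_cast]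
    have h3 : (2 : ℝ) ^ j * (1 / 2) ^ j = 1 := by
      rw [← mul_pow]
      norm_num
    calc (Δ : ℝ) * (2 ^ j * (4 * Δ)) = (Δ : ℝ) * (2 ^ j * (4 * Δ)) * 1 := by ring
      _ = (Δ : ℝ) * (2 ^ j * (4 * Δ)) * ((2 : ℝ) ^ j * (1 / 2) ^ j) := by rw [h3]
      _ = (2 ^ j * (4 * (Δ : ℝ))) ^ 2 * (1 / 2) ^ j / 2 ^ 2 := by ring
  rw [h1, Real.sqrt_sq]
  have := MJ_pos' hΔ j
  have := pow_nonneg rho_nonneg j
  positivity

section

variable (f : ℕ → ℝ) (Δ : ℕ)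

/-- sums over dyadic blocks -/
theorem split {Δ : ℕ} (f : ℕ → ℝ) (j : ℕ) :
    ∑ n ∈ Icc 1 (MJ Δ (j + 1)), f n =
      ∑ n ∈ Icc 1 (MJ Δ j), f n + ∑ n ∈ Ioc (MJ Δ j) (MJ Δ (j + 1)), f n := by
  rw [← sum_union]
  · congr 1
    ext n
    have h1 : MJ Δ (j + 1) = 2 * MJ Δ j := MJ_succ Δ j
    simp only [mem_union, mem_Icc, mem_Ioc]
    omega
  · rw [disjoint_left]
    intro n h1 h2
    rw [mem_Icc] at h1
    rw [mem_Ioc] at h2
    omega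

theorem rpow_split {x : ℝ} (hx : 0 < x) (u : ℝ) : x ^ (-(1 + u)) = x⁻¹ * x ^ (-u) := by
  rw [show -(1 + u) = (-1 : ℝ) + (-u) by ring, Real.rpow_add hx, Real.rpow_neg_one]

theorem rpow_neg_le_one {x u : ℝ} (hx : 1 ≤ x) (hu : 0 ≤ u) : x ^ (-u) ≤ 1 :=
  Real.rpow_le_one_of_one_le_of_nonpos hx (by linarith)

theorem rpow_anti {x y u : ℝ} (hx : 0 < x) (hxy : x ≤ y) (hu : 0 ≤ u) : y ^ (-u) ≤ x ^ (-u) :=
  Real.rpow_le_rpow_of_nonpos hx hxy (by linarith)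

variable {f Δ}

/-- upper bound for the truncated sums -/
theorem upper (hΔ : 0 < Δ) (hf : ∀ n, 0 ≤ f n) (L C : ℝ) (hC : 0 ≤ C)
    (hA : ∀ j, |(∑ n ∈ Icc 1 (MJ Δ j), f n) - MJ Δ j * L| ≤ C * (MJ Δ j * rho ^ j / 2))
    (u : ℝ) (hu : 0 ≤ u) (k : ℕ) :
    ∑ n ∈ Icc 1 (MJ Δ k), f n * (n : ℝ) ^ (-(1 + u)) ≤
      ∑ n ∈ Icc 1 (4 * Δ), f n * (n : ℝ) ^ (-(1 + u)) +
        ∑ j ∈ range k, (2 * max L 0 * ((2 : ℝ) ^ (-u)) ^ j + C * rho ^ j) := by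
  induction k with
  | zero =>
    rw [range_zero, sum_empty, add_zero]
    have : MJ Δ 0 = 4 * Δ := by unfold MJ; simp
    rw [this]
  | succ k ih =>
    rw [split, sum_range_succ]
    have hM := MJ_pos' hΔ k
    have hM' := MJ_pos' hΔ (k + 1)
    have hM1 : (1 : ℝ) ≤ MJ Δ k := by exact_mod_cast MJ_pos hΔ k
    have hMs : (MJ Δ (k + 1) : ℝ) = 2 * MJ Δ k := by
      rw [MJ_succ]
      push_cast
      ring
    have h1 : ∑ n ∈ Ioc (MJ Δ k) (MJ Δ (k + 1)), f n * (n : ℝ) ^ (-(1 + u)) ≤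
        (∑ n ∈ Icc 1 (MJ Δ (k + 1)), f n) * (MJ Δ k : ℝ) ^ (-(1 + u)) := by
      rw [sum_mul]
      calc ∑ n ∈ Ioc (MJ Δ k) (MJ Δ (k + 1)), f n * (n : ℝ) ^ (-(1 + u)) ≤
          ∑ n ∈ Ioc (MJ Δ k) (MJ Δ (k + 1)), f n * (MJ Δ k : ℝ) ^ (-(1 + u)) := by
            refine sum_le_sum fun n hn => mul_le_mul_of_nonneg_left ?_ (hf n)
            rw [mem_Ioc] at hn
            exact rpow_anti hM (by exact_mod_cast hn.1.le) (by linarith)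
        _ ≤ ∑ n ∈ Icc 1 (MJ Δ (k + 1)), f n * (MJ Δ k : ℝ) ^ (-(1 + u)) := by
            refine sum_le_sum_of_subset_of_nonneg ?_ fun n _ _ =>
              mul_nonneg (hf n) (Real.rpow_nonneg hM.le _)
            intro n hn
            rw [mem_Ioc] at hn
            rw [mem_Icc]
            omega
    have h2 : ∑ n ∈ Icc 1 (MJ Δ (k + 1)), f n ≤
        MJ Δ (k + 1) * max L 0 + C * (MJ Δ (k + 1) * rho ^ (k + 1) / 2) := by
      have h3 := (abs_le.mp (hA (k + 1))).2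
      have h4 : (MJ Δ (k + 1) : ℝ) * L ≤ MJ Δ (k + 1) * max L 0 :=
        mul_le_mul_of_nonneg_left (le_max_left _ _) hM'.le
      linarith
    have h5 : (MJ Δ k : ℝ) ^ (-u) ≤ ((2 : ℝ) ^ (-u)) ^ k := by
      have h6 : ((2 : ℝ) ^ (-u)) ^ k = ((2 : ℝ) ^ k) ^ (-u) := by
        rw [← Real.rpow_natCast ((2 : ℝ) ^ (-u)) k, ← Real.rpow_natCast (2 : ℝ) k,
          ← Real.rpow_mul (by norm_num), ← Real.rpow_mul (by norm_num), mul_comm]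
      rw [h6]
      apply rpow_anti (by positivity) _ hu
      rw [MJ_cast]
      have h7 : (1 : ℝ) ≤ 4 * Δ := by
        have : (1 : ℝ) ≤ Δ := by exact_mod_cast hΔ
        linarith
      nlinarith [pow_pos (show (0 : ℝ) < 2 by norm_num) k]
    have h8 : (MJ Δ k : ℝ) ^ (-u) ≤ 1 := rpow_neg_le_one hM1 hu
    have h9 : 0 ≤ (MJ Δ k : ℝ) ^ (-u) := Real.rpow_nonneg hM.le _
    have h10 : (∑ n ∈ Icc 1 (MJ Δ (k + 1)), f n) * (MJ Δ k : ℝ) ^ (-(1 + u)) ≤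
        2 * max L 0 * ((2 : ℝ) ^ (-u)) ^ k + C * rho ^ k := by
      have h11 : (∑ n ∈ Icc 1 (MJ Δ (k + 1)), f n) * (MJ Δ k : ℝ) ^ (-(1 + u)) ≤
          (MJ Δ (k + 1) * max L 0 + C * (MJ Δ (k + 1) * rho ^ (k + 1) / 2)) *
            (MJ Δ k : ℝ) ^ (-(1 + u)) :=
        mul_le_mul_of_nonneg_right h2 (Real.rpow_nonneg hM.le _)
      refine h11.trans ?_
      rw [rpow_split hM, hMs]
      have h12 : (2 * (MJ Δ k : ℝ) * max L 0 + C * (2 * (MJ Δ k : ℝ) * rho ^ (k + 1) / 2)) *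
          ((MJ Δ k : ℝ)⁻¹ * (MJ Δ k : ℝ) ^ (-u)) =
          2 * max L 0 * (MJ Δ k : ℝ) ^ (-u) + C * rho ^ (k + 1) * (MJ Δ k : ℝ) ^ (-u) := by
        field_simp
      rw [h12]
      have h13 : 2 * max L 0 * (MJ Δ k : ℝ) ^ (-u) ≤ 2 * max L 0 * ((2 : ℝ) ^ (-u)) ^ k :=
        mul_le_mul_of_nonneg_left h5 (by have := le_max_right L 0; linarith)
      have h14 : C * rho ^ (k + 1) * (MJ Δ k : ℝ) ^ (-u) ≤ C * rho ^ k := by
        have h15 : rho ^ (k + 1) ≤ rho ^ k := by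
          rw [pow_succ]
          exact mul_le_of_le_one_right (pow_nonneg rho_nonneg k) (by linarith [rho_le])
        have h16 : 0 ≤ rho ^ (k + 1) := pow_nonneg rho_nonneg _
        calc C * rho ^ (k + 1) * (MJ Δ k : ℝ) ^ (-u) ≤ C * rho ^ (k + 1) * 1 :=
              mul_le_mul_of_nonneg_left h8 (by positivity)
          _ = C * rho ^ (k + 1) := mul_one _
          _ ≤ C * rho ^ k := mul_le_mul_of_nonneg_left h15 hC
      linarith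
    linarith

/-- lower bound for the truncated sums -/
theorem lower (hΔ : 0 < Δ) (hf : ∀ n, 0 ≤ f n) (L C : ℝ) (hC : 0 ≤ C)
    (hA : ∀ j, |(∑ n ∈ Icc 1 (MJ Δ j), f n) - MJ Δ j * L| ≤ C * (MJ Δ j * rho ^ j / 2))
    (u : ℝ) (hu : 0 ≤ u) (k : ℕ) :
    ∑ j ∈ range k, (L / 2 * (MJ Δ (j + 1) : ℝ) ^ (-u) - C * rho ^ j) ≤
      ∑ n ∈ Icc 1 (MJ Δ k), f n * (n : ℝ) ^ (-(1 + u)) := by
  induction k with
  | zero =>
    rw [range_zero, sum_empty]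
    exact sum_nonneg fun n _ => mul_nonneg (hf n) (Real.rpow_nonneg (Nat.cast_nonneg _) _)
  | succ k ih =>
    rw [split, sum_range_succ]
    have hM := MJ_pos' hΔ k
    have hM' := MJ_pos' hΔ (k + 1)
    have hM1 : (1 : ℝ) ≤ MJ Δ (k + 1) := by exact_mod_cast MJ_pos hΔ (k + 1)
    have hMs : (MJ Δ (k + 1) : ℝ) = 2 * MJ Δ k := by
      rw [MJ_succ]
      push_cast
      ring
    have h1 : (∑ n ∈ Ioc (MJ Δ k) (MJ Δ (k + 1)), f n) * (MJ Δ (k + 1) : ℝ) ^ (-(1 + u)) ≤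
        ∑ n ∈ Ioc (MJ Δ k) (MJ Δ (k + 1)), f n * (n : ℝ) ^ (-(1 + u)) := by
      rw [sum_mul]
      refine sum_le_sum fun n hn => mul_le_mul_of_nonneg_left ?_ (hf n)
      rw [mem_Ioc] at hn
      have hn0 : (0 : ℝ) < n := lt_trans hM (by exact_mod_cast hn.1)
      exact rpow_anti hn0 (by exact_mod_cast hn.2) (by linarith)
    have h2 : MJ Δ k * L - 2 * (C * (MJ Δ k * rho ^ k)) ≤
        ∑ n ∈ Ioc (MJ Δ k) (MJ Δ (k + 1)), f n := by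
      have h3 := (abs_le.mp (hA (k + 1))).1
      have h4 := (abs_le.mp (hA k)).2
      have h5 := split (Δ := Δ) f k
      rw [hMs] at h3
      have h6 : rho ^ (k + 1) ≤ 3 / 4 * rho ^ k := by
        rw [pow_succ]
        have h7 := pow_nonneg rho_nonneg k
        nlinarith [rho_le]
      have h8 : C * (MJ Δ k * rho ^ (k + 1)) ≤ C * (MJ Δ k * (3 / 4 * rho ^ k)) :=
        mul_le_mul_of_nonneg_left (mul_le_mul_of_nonneg_left h6 hM.le) hC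
      have h9 : 0 ≤ C * (MJ Δ k * rho ^ k) :=
        mul_nonneg hC (mul_nonneg hM.le (pow_nonneg rho_nonneg k))
      have h10 : C * (2 * (MJ Δ k : ℝ) * rho ^ (k + 1) / 2) = C * (MJ Δ k * rho ^ (k + 1)) := by
        ring
      have h11 : C * ((MJ Δ k : ℝ) * rho ^ k / 2) = C * (MJ Δ k * rho ^ k) / 2 := by ring
      have h12 : C * (MJ Δ k * (3 / 4 * rho ^ k)) = 3 / 4 * (C * (MJ Δ k * rho ^ k)) := by ring
      rw [h10] at h3
      rw [h11] at h4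
      linarith
    have h8 : (MJ Δ (k + 1) : ℝ) ^ (-u) ≤ 1 := rpow_neg_le_one hM1 hu
    have h9 : 0 ≤ (MJ Δ (k + 1) : ℝ) ^ (-u) := Real.rpow_nonneg hM'.le _
    have h10 : L / 2 * (MJ Δ (k + 1) : ℝ) ^ (-u) - C * rho ^ k ≤
        (∑ n ∈ Ioc (MJ Δ k) (MJ Δ (k + 1)), f n) * (MJ Δ (k + 1) : ℝ) ^ (-(1 + u)) := by
      have h11 : (MJ Δ k * L - 2 * (C * (MJ Δ k * rho ^ k))) * (MJ Δ (k + 1) : ℝ) ^ (-(1 + u)) ≤
          (∑ n ∈ Ioc (MJ Δ k) (MJ Δ (k + 1)), f n) * (MJ Δ (k + 1) : ℝ) ^ (-(1 + u)) :=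
        mul_le_mul_of_nonneg_right h2 (Real.rpow_nonneg hM'.le _)
      refine le_trans ?_ h11
      rw [rpow_split hM']
      have h12 : (MJ Δ k * L - 2 * (C * (MJ Δ k * rho ^ k))) *
          ((MJ Δ (k + 1) : ℝ)⁻¹ * (MJ Δ (k + 1) : ℝ) ^ (-u)) =
          L / 2 * (MJ Δ (k + 1) : ℝ) ^ (-u) - C * rho ^ k * (MJ Δ (k + 1) : ℝ) ^ (-u) := by
        have h13 : (MJ Δ k * L - 2 * (C * (MJ Δ k * rho ^ k))) * (MJ Δ (k + 1) : ℝ)⁻¹ =
            L / 2 - C * rho ^ k := by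
          rw [hMs]
          field_simp
        rw [← mul_assoc, h13]
        ring
      rw [h12]
      have h14 : C * rho ^ k * (MJ Δ (k + 1) : ℝ) ^ (-u) ≤ C * rho ^ k * 1 :=
        mul_le_mul_of_nonneg_left h8 (mul_nonneg hC (pow_nonneg rho_nonneg k))
      linarith
    linarith

end

theorem geom_bound {u : ℝ} (hu : 0 < u) (hu1 : u ≤ 1) (k : ℕ) :
    ∑ j ∈ range k, ((2 : ℝ) ^ (-u)) ^ j ≤ 2 / u := by
  have h1 : (2 : ℝ) ^ (-u) ≤ 1 - u / 2 := by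
    have h2 : (2 : ℝ) ^ (-u) = (1 + (-(1 / 2) : ℝ)) ^ u := by
      rw [show (1 + (-(1 / 2) : ℝ)) = (2 : ℝ)⁻¹ by norm_num, Real.inv_rpow (by norm_num),
        Real.rpow_neg (by norm_num)]
    rw [h2]
    have h3 := rpow_one_add_le_one_add_mul_self (s := (-(1 / 2) : ℝ)) (by norm_num)
      hu.le hu1
    linarith
  have h0 : 0 ≤ (2 : ℝ) ^ (-u) := Real.rpow_nonneg (by norm_num) _
  have h4 : ∀ k : ℕ, ∑ j ∈ range k, ((2 : ℝ) ^ (-u)) ^ j ≤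
      2 / u - 2 / u * ((2 : ℝ) ^ (-u)) ^ k := by
    intro k
    induction k with
    | zero => simp
    | succ k ih =>
      rw [sum_range_succ, pow_succ]
      have h5 : 0 ≤ ((2 : ℝ) ^ (-u)) ^ k := pow_nonneg h0 k
      have h6 : 2 / u * (((2 : ℝ) ^ (-u)) ^ k * (2 : ℝ) ^ (-u)) ≤
          2 / u * (((2 : ℝ) ^ (-u)) ^ k * (1 - u / 2)) :=
        mul_le_mul_of_nonneg_left (mul_le_mul_of_nonneg_left h1 h5) (by positivity)
      have h7 : 2 / u * (((2 : ℝ) ^ (-u)) ^ k * (1 - u / 2)) =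
          2 / u * ((2 : ℝ) ^ (-u)) ^ k - ((2 : ℝ) ^ (-u)) ^ k := by
        field_simp
      linarith
  have h8 := h4 k
  have h9 : 0 ≤ 2 / u * ((2 : ℝ) ^ (-u)) ^ k := by positivity
  linarith

/-- the partial sums are bounded -/
theorem range_le {Δ : ℕ} (hΔ : 0 < Δ) {f : ℕ → ℝ} (hf : ∀ n, 0 ≤ f n) {L C : ℝ} (hC : 0 ≤ C)
    (hA : ∀ j, |(∑ n ∈ Icc 1 (MJ Δ j), f n) - MJ Δ j * L| ≤ C * (MJ Δ j * rho ^ j / 2))
    {u : ℝ} (hu : 0 < u) (hu1 : u ≤ 1) (N : ℕ) :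
    ∑ n ∈ range N, f n * (n : ℝ) ^ (-(1 + u)) ≤
      ∑ n ∈ Icc 1 (4 * Δ), f n * (n : ℝ) ^ (-(1 + u)) + (4 * max L 0 / u + 4 * C) := by
  have h1 : ∑ n ∈ range N, f n * (n : ℝ) ^ (-(1 + u)) ≤
      ∑ n ∈ Icc 1 (MJ Δ N), f n * (n : ℝ) ^ (-(1 + u)) := by
    have h2 : ∑ n ∈ range N, f n * (n : ℝ) ^ (-(1 + u)) =
        ∑ n ∈ (range N).filter (fun n => n ≠ 0), f n * (n : ℝ) ^ (-(1 + u)) := by
      symm
      apply sum_subset (filter_subset _ _)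
      intro n hn hn'
      have h3 : n = 0 := by
        by_contra h
        exact hn' (mem_filter.mpr ⟨hn, h⟩)
      rw [h3, Nat.cast_zero, Real.zero_rpow (by linarith), mul_zero]
    rw [h2]
    refine sum_le_sum_of_subset_of_nonneg ?_ fun n _ _ =>
      mul_nonneg (hf n) (Real.rpow_nonneg (Nat.cast_nonneg _) _)
    intro n hn
    rw [mem_filter, mem_range] at hn
    rw [mem_Icc]
    have h4 : N ≤ MJ Δ N := by
      unfold MJ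
      have h5 : N < 2 ^ N := Nat.lt_two_pow_self
      nlinarith
    omega
  have h6 := upper hΔ hf L C hC hA u hu.le N
  have h7 : ∑ j ∈ range N, (2 * max L 0 * ((2 : ℝ) ^ (-u)) ^ j + C * rho ^ j) ≤
      4 * max L 0 / u + 4 * C := by
    rw [sum_add_distrib, ← mul_sum, ← mul_sum]
    have h8 := geom_bound hu hu1 N
    have h9 := sum_rho N
    have h10 : 2 * max L 0 * ∑ j ∈ range N, ((2 : ℝ) ^ (-u)) ^ j ≤ 2 * max L 0 * (2 / u) :=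
      mul_le_mul_of_nonneg_left h8 (by have := le_max_right L 0; linarith)
    have h11 : C * ∑ j ∈ range N, rho ^ j ≤ C * 4 := mul_le_mul_of_nonneg_left h9 hC
    have h12 : 2 * max L 0 * (2 / u) = 4 * max L 0 / u := by ring
    linarith
  linarith

theorem summ {Δ : ℕ} (hΔ : 0 < Δ) {f : ℕ → ℝ} (hf : ∀ n, 0 ≤ f n) {L C : ℝ} (hC : 0 ≤ C)
    (hA : ∀ j, |(∑ n ∈ Icc 1 (MJ Δ j), f n) - MJ Δ j * L| ≤ C * (MJ Δ j * rho ^ j / 2))
    {u : ℝ} (hu : 0 < u) (hu1 : u ≤ 1) :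
    Summable (fun n : ℕ => f n * (n : ℝ) ^ (-(1 + u))) :=
  summable_of_sum_range_le
    (fun n => mul_nonneg (hf n) (Real.rpow_nonneg (Nat.cast_nonneg _) _))
    (range_le hΔ hf hC hA hu hu1)

theorem tsum_up {Δ : ℕ} (hΔ : 0 < Δ) {f : ℕ → ℝ} (hf : ∀ n, 0 ≤ f n) {L C : ℝ} (hC : 0 ≤ C)
    (hA : ∀ j, |(∑ n ∈ Icc 1 (MJ Δ j), f n) - MJ Δ j * L| ≤ C * (MJ Δ j * rho ^ j / 2))
    {u : ℝ} (hu : 0 < u) (hu1 : u ≤ 1) :
    ∑' n : ℕ, f n * (n : ℝ) ^ (-(1 + u)) ≤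
      ∑ n ∈ Icc 1 (4 * Δ), f n * (n : ℝ) ^ (-(1 + u)) + (4 * max L 0 / u + 4 * C) :=
  Real.tsum_le_of_sum_range_le
    (fun n => mul_nonneg (hf n) (Real.rpow_nonneg (Nat.cast_nonneg _) _))
    (range_le hΔ hf hC hA hu hu1)

/-- `(4Δ)^u ≤ 4e` -/
theorem pow_le {Δ : ℕ} (hΔ : 0 < Δ) {u : ℝ} (hu : 0 < u) (hu1 : u ≤ 1)
    (hD : (Δ : ℝ) ≤ Real.exp (1 / u)) : (4 * (Δ : ℝ)) ^ u ≤ 4 * Real.exp 1 := by
  have h1 : (0 : ℝ) < Δ := by exact_mod_cast hΔ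
  rw [Real.mul_rpow (by norm_num) h1.le]
  have h2 : (4 : ℝ) ^ u ≤ 4 := by
    calc (4 : ℝ) ^ u ≤ (4 : ℝ) ^ (1 : ℝ) := Real.rpow_le_rpow_of_exponent_le (by norm_num) hu1
      _ = 4 := Real.rpow_one 4
  have h3 : (Δ : ℝ) ^ u ≤ Real.exp 1 := by
    calc (Δ : ℝ) ^ u ≤ (Real.exp (1 / u)) ^ u := Real.rpow_le_rpow h1.le hD hu.le
      _ = Real.exp 1 := by
        rw [← Real.exp_mul]
        congr 1
        field_simp
  exact mul_le_mul h2 h3 (Real.rpow_nonneg h1.le _) (by norm_num)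

/-- comparison of the initial segments -/
theorem init_le {Δ : ℕ} (hΔ : 0 < Δ) {f : ℕ → ℝ} (hf : ∀ n, 0 ≤ f n) {u₁ u₂ : ℝ}
    (hu1 : 0 < u₁) (hu12 : u₁ ≤ u₂) (hu2 : u₂ ≤ 1) (hD : (Δ : ℝ) ≤ Real.exp (1 / u₂)) :
    ∑ n ∈ Icc 1 (4 * Δ), f n * (n : ℝ) ^ (-(1 + u₁)) ≤
      4 * Real.exp 1 * ∑ n ∈ Icc 1 (4 * Δ), f n * (n : ℝ) ^ (-(1 + u₂)) := by
  rw [mul_sum]
  refine sum_le_sum fun n hn => ?_
  rw [mem_Icc] at hn
  have hn0 : (0 : ℝ) < n := by exact_mod_cast hn.1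
  have hn1 : (1 : ℝ) ≤ n := by exact_mod_cast hn.1
  have hn4 : (n : ℝ) ≤ 4 * Δ := by exact_mod_cast hn.2
  have h1 : (n : ℝ) ^ u₂ ≤ 4 * Real.exp 1 :=
    (Real.rpow_le_rpow hn0.le hn4 (by linarith)).trans (pow_le hΔ (by linarith) hu2 hD)
  have h2 : (n : ℝ) ^ (-(1 + u₁)) ≤ 4 * Real.exp 1 * (n : ℝ) ^ (-(1 + u₂)) := by
    calc (n : ℝ) ^ (-(1 + u₁)) ≤ (n : ℝ) ^ (-1 : ℝ) :=
          Real.rpow_le_rpow_of_exponent_le hn1 (by linarith)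
      _ = (n : ℝ) ^ u₂ * (n : ℝ) ^ (-(1 + u₂)) := by
          rw [← Real.rpow_add hn0]
          congr 1
          ring
      _ ≤ 4 * Real.exp 1 * (n : ℝ) ^ (-(1 + u₂)) :=
          mul_le_mul_of_nonneg_right h1 (Real.rpow_nonneg hn0.le _)
  calc f n * (n : ℝ) ^ (-(1 + u₁)) ≤ f n * (4 * Real.exp 1 * (n : ℝ) ^ (-(1 + u₂))) :=
        mul_le_mul_of_nonneg_left h2 (hf n)
    _ = 4 * Real.exp 1 * (f n * (n : ℝ) ^ (-(1 + u₂))) := by ring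

/-- lower bound for the sum -/
theorem tsum_low {Δ : ℕ} (hΔ : 0 < Δ) {f : ℕ → ℝ} (hf : ∀ n, 0 ≤ f n) {L C : ℝ} (hC : 0 ≤ C)
    (hA : ∀ j, |(∑ n ∈ Icc 1 (MJ Δ j), f n) - MJ Δ j * L| ≤ C * (MJ Δ j * rho ^ j / 2))
    {u : ℝ} (hu : 0 < u) (hu1 : u ≤ 1) (hD : (Δ : ℝ) ≤ Real.exp (1 / u)) :
    max L 0 ≤ 32 * Real.exp 1 * (u * (∑' n : ℕ, f n * (n : ℝ) ^ (-(1 + u)) + 4 * C)) := by
  have hG : ∀ s : Finset ℕ, ∑ n ∈ s, f n * (n : ℝ) ^ (-(1 + u)) ≤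
      ∑' n : ℕ, f n * (n : ℝ) ^ (-(1 + u)) := fun s =>
    (summ hΔ hf hC hA hu hu1).sum_le_tsum s fun n _ =>
      mul_nonneg (hf n) (Real.rpow_nonneg (Nat.cast_nonneg _) _)
  have he : (0 : ℝ) < Real.exp 1 := Real.exp_pos 1
  have hG0 : 0 ≤ ∑' n : ℕ, f n * (n : ℝ) ^ (-(1 + u)) := by
    have := hG ∅
    rwa [sum_empty] at this
  rcases le_total L 0 with hL | hL
  · rw [max_eq_right hL]
    positivity
  · rw [max_eq_left hL]
    set k := ⌈1 / u⌉₊ with hk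
    have hk1 : 1 / u ≤ k := Nat.le_ceil _
    have hk2 : (k : ℝ) ≤ 2 / u := by
      have h1 : (k : ℝ) < 1 / u + 1 := Nat.ceil_lt_add_one (by positivity)
      have h2 : 1 ≤ 1 / u := by
        rw [le_div_iff₀ hu]
        linarith
      have h3 : 2 / u = 1 / u + 1 / u := by ring
      linarith
    have h1 := lower hΔ hf L C hC hA u hu.le k
    have h2 := hG (Icc 1 (MJ Δ k))
    rw [sum_sub_distrib, ← mul_sum] at h1
    have h3 : C * ∑ j ∈ range k, rho ^ j ≤ C * 4 := mul_le_mul_of_nonneg_left (sum_rho k) hC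
    rw [mul_sum] at h3
    have h4 : ∀ j ∈ range k, 1 / (16 * Real.exp 1) ≤ (MJ Δ (j + 1) : ℝ) ^ (-u) := by
      intro j hj
      rw [mem_range] at hj
      have h5 : (MJ Δ (j + 1) : ℝ) ≤ (2 : ℝ) ^ (k : ℝ) * (4 * Δ) := by
        rw [MJ_cast, Real.rpow_natCast]
        have h6 : (2 : ℝ) ^ (j + 1) ≤ 2 ^ k := pow_le_pow_right₀ (by norm_num) (by omega)
        exact mul_le_mul_of_nonneg_right h6 (by positivity)
      have h7 : (MJ Δ (j + 1) : ℝ) ^ u ≤ 16 * Real.exp 1 := by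
        calc (MJ Δ (j + 1) : ℝ) ^ u ≤ ((2 : ℝ) ^ (k : ℝ) * (4 * Δ)) ^ u :=
              Real.rpow_le_rpow (Nat.cast_nonneg _) h5 hu.le
          _ = (2 : ℝ) ^ ((k : ℝ) * u) * (4 * (Δ : ℝ)) ^ u := by
              rw [Real.mul_rpow (by positivity) (by positivity), ← Real.rpow_mul (by norm_num)]
          _ ≤ 4 * (4 * Real.exp 1) := by
              refine mul_le_mul ?_ (pow_le hΔ hu hu1 hD) (by positivity) (by norm_num)
              have h8 : (k : ℝ) * u ≤ 2 := by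
                rw [le_div_iff₀ hu] at hk2
                exact hk2
              calc (2 : ℝ) ^ ((k : ℝ) * u) ≤ (2 : ℝ) ^ (2 : ℝ) :=
                    Real.rpow_le_rpow_of_exponent_le (by norm_num) h8
                _ = 4 := by norm_num
          _ = 16 * Real.exp 1 := by ring
      rw [Real.rpow_neg (Nat.cast_nonneg _), ← one_div]
      exact one_div_le_one_div_of_le (Real.rpow_pos_of_pos (MJ_pos' hΔ _) _) h7
    have h5 : (k : ℝ) * (1 / (16 * Real.exp 1)) ≤ ∑ j ∈ range k, (MJ Δ (j + 1) : ℝ) ^ (-u) := by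
      have h6 := card_nsmul_le_sum (range k) (fun j => (MJ Δ (j + 1) : ℝ) ^ (-u)) _ h4
      rw [card_range, nsmul_eq_mul] at h6
      exact h6
    have h6 : L / 2 * (1 / u * (1 / (16 * Real.exp 1))) ≤
        L / 2 * ∑ j ∈ range k, (MJ Δ (j + 1) : ℝ) ^ (-u) := by
      refine mul_le_mul_of_nonneg_left (le_trans ?_ h5) (by linarith)
      exact mul_le_mul_of_nonneg_right hk1 (by positivity)
    have h7 : L / 2 * (1 / u * (1 / (16 * Real.exp 1))) ≤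
        ∑' n : ℕ, f n * (n : ℝ) ^ (-(1 + u)) + 4 * C := by linarith
    have h8 : L = 32 * Real.exp 1 * (u * (L / 2 * (1 / u * (1 / (16 * Real.exp 1))))) := by
      field_simp
      ring
    calc L = 32 * Real.exp 1 * (u * (L / 2 * (1 / u * (1 / (16 * Real.exp 1))))) := h8
      _ ≤ 32 * Real.exp 1 * (u * (∑' n : ℕ, f n * (n : ℝ) ^ (-(1 + u)) + 4 * C)) :=
        mul_le_mul_of_nonneg_left (mul_le_mul_of_nonneg_left h7 hu.le) (by positivity)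

end CHG_

open CHG_ in
theorem p_CHG (h1 : SSN.T_CHR) (h2 : SSN.T_RRM) (h3 : SSN.T_LBD) (h4 : SSN.T_AX) : T_CHG := by
  obtain ⟨C, hC1, hC⟩ := h4
  have hC0 : 0 ≤ C := by linarith
  have he : (0 : ℝ) < Real.exp 1 := Real.exp_pos 1
  have he1 : (1 : ℝ) ≤ Real.exp 1 := Real.one_le_exp (by norm_num)
  refine ⟨4 * Real.exp 1 + 128 * Real.exp 1 * (1 + 4 * C) + 4 * C, by nlinarith, ?_⟩
  intro Δ u₁ u₂ hΔ hu1 hu12 hu2 hD
  have hu2' : 0 < u₂ := lt_of_lt_of_le hu1 hu12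
  have : NeZero (4 * Δ) := ⟨by omega⟩
  obtain ⟨χ, hχ1, hχ⟩ := h1 Δ hΔ
  obtain ⟨hr0, -, hr1, -⟩ := h2 Δ hΔ
  obtain ⟨-, hL⟩ := h3 (4 * Δ) χ hχ1
  have hLN : ∀ N : ℕ, 1 ≤ N →
      |(∑ n ∈ Icc 1 N, (SSN.ch Δ n : ℝ) / n) - (χ.LFunction 1).re| ≤ 8 * Δ / N := by
    intro N hN
    have h5 := hL N hN
    have h6 : ((∑ n ∈ Icc 1 N, χ (n : ZMod (4 * Δ)) / (n : ℂ)) - χ.LFunction 1).re =
        (∑ n ∈ Icc 1 N, (SSN.ch Δ n : ℝ) / n) - (χ.LFunction 1).re := by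
      rw [Complex.sub_re, Complex.re_sum]
      congr 1
      refine sum_congr rfl fun n _ => ?_
      rw [hχ n]
      have h7 : (((SSN.ch Δ n : ℤ) : ℂ) / (n : ℂ)) =
          (((SSN.ch Δ n : ℝ) / n : ℝ) : ℂ) := by push_cast; rfl
      rw [h7, Complex.ofReal_re]
    rw [← h6]
    refine (Complex.abs_re_le_norm _).trans (h5.trans (le_of_eq ?_))
    push_cast
    ring
  have hA0 := hC Δ (χ.LFunction 1).re hΔ hLN
  set L : ℝ := (χ.LFunction 1).re with hLdef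
  set f : ℕ → ℝ := fun n => (SSN.rr Δ n : ℝ) with hfdef
  have hf : ∀ n, 0 ≤ f n := fun n => by
    have := hr0 n
    show (0 : ℝ) ≤ (SSN.rr Δ n : ℝ)
    exact_mod_cast this
  have hA : ∀ j, |(∑ n ∈ Icc 1 (MJ Δ j), f n) - MJ Δ j * L| ≤
      C * (MJ Δ j * rho ^ j / 2) := by
    intro j
    have h5 := hA0 (MJ Δ j) (le_MJ Δ j)
    rw [sqrt_MJ hΔ j] at h5
    exact h5
  have hGG : ∀ u : ℝ, GG Δ (1 + u) = ∑' n : ℕ, f n * (n : ℝ) ^ (-(1 + u)) := fun u => rfl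
  have hG1 : 1 ≤ GG Δ (1 + u₂) := by
    rw [hGG]
    have h5 := (summ hΔ hf hC0 hA hu2' hu2).sum_le_tsum {1} fun n _ =>
      mul_nonneg (hf n) (Real.rpow_nonneg (Nat.cast_nonneg _) _)
    rw [sum_singleton] at h5
    have h6 : f 1 * ((1 : ℕ) : ℝ) ^ (-(1 + u₂)) = 1 := by
      rw [Nat.cast_one, Real.one_rpow, mul_one]
      show ((SSN.rr Δ 1 : ℤ) : ℝ) = 1
      rw [hr1]
      norm_num
    linarith
  have hup := tsum_up hΔ hf hC0 hA hu1 (hu12.trans hu2)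
  have hin := init_le hΔ hf hu1 hu12 hu2 hD
  have hin2 : ∑ n ∈ Icc 1 (4 * Δ), f n * (n : ℝ) ^ (-(1 + u₂)) ≤ GG Δ (1 + u₂) := by
    rw [hGG]
    exact (summ hΔ hf hC0 hA hu2' hu2).sum_le_tsum _ fun n _ =>
      mul_nonneg (hf n) (Real.rpow_nonneg (Nat.cast_nonneg _) _)
  have hlow := tsum_low hΔ hf hC0 hA hu2' hu2 hD
  rw [← hGG] at hup hlow
  set G2 := GG Δ (1 + u₂) with hG2
  have h5 : GG Δ (1 + u₁) ≤ 4 * Real.exp 1 * G2 + (4 * max L 0 / u₁ + 4 * C) := by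
    have h6 : 4 * Real.exp 1 * ∑ n ∈ Icc 1 (4 * Δ), f n * (n : ℝ) ^ (-(1 + u₂)) ≤
        4 * Real.exp 1 * G2 := mul_le_mul_of_nonneg_left hin2 (by positivity)
    linarith
  have h6 : u₁ * GG Δ (1 + u₁) ≤
      4 * Real.exp 1 * (u₁ * G2) + 4 * max L 0 + 4 * C * u₁ := by
    calc u₁ * GG Δ (1 + u₁) ≤ u₁ * (4 * Real.exp 1 * G2 + (4 * max L 0 / u₁ + 4 * C)) :=
          mul_le_mul_of_nonneg_left h5 hu1.le
      _ = 4 * Real.exp 1 * (u₁ * G2) + 4 * max L 0 + 4 * C * u₁ := by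
          field_simp
          ring
  have h7 : u₁ * G2 ≤ u₂ * G2 := mul_le_mul_of_nonneg_right hu12 (by linarith)
  have h8 : u₂ ≤ u₂ * G2 := le_mul_of_one_le_right hu2'.le hG1
  have h9 : 4 * Real.exp 1 * (u₁ * G2) ≤ 4 * Real.exp 1 * (u₂ * G2) :=
    mul_le_mul_of_nonneg_left h7 (by positivity)
  have h10 : 4 * C * u₁ ≤ 4 * C * (u₂ * G2) :=
    mul_le_mul_of_nonneg_left (hu12.trans h8) (by linarith)
  have h11 : u₂ * (G2 + 4 * C) ≤ (1 + 4 * C) * (u₂ * G2) := by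
    have h12 : 4 * C * u₂ ≤ 4 * C * (u₂ * G2) := mul_le_mul_of_nonneg_left h8 (by linarith)
    nlinarith
  have h12 : max L 0 ≤ 32 * Real.exp 1 * ((1 + 4 * C) * (u₂ * G2)) :=
    hlow.trans (mul_le_mul_of_nonneg_left h11 (by positivity))
  calc u₁ * GG Δ (1 + u₁) ≤ 4 * Real.exp 1 * (u₁ * G2) + 4 * max L 0 + 4 * C * u₁ := h6
    _ ≤ 4 * Real.exp 1 * (u₂ * G2) + 4 * (32 * Real.exp 1 * ((1 + 4 * C) * (u₂ * G2))) +
        4 * C * (u₂ * G2) := by linarith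
    _ = (4 * Real.exp 1 + 128 * Real.exp 1 * (1 + 4 * C) + 4 * C) * (u₂ * G2) := by ring

end SSC
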