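import Pool.Agent.SSC.Targets
import Pool.Agent.QTw.MERT

/-! CHI: the primes with character value `1` are at most half of all primes beyond `Δ`. -/

set_option autoImplicit false

open scoped BigOperators Classical
open Finset

namespace SSC

namespace CHI_

lemma mem_pri {u v : ℝ} (hv : 0 ≤ v) {l : ℕ} (h : l ∈ pri u v) :
    l.Prime ∧ u < (l : ℝ) ∧ (l : ℝ) ≤ v := by
  unfold pri at h
  rw [Finset.mem_filter, Finset.mem_Icc] at h
  exact ⟨h.2.1, h.2.2, (Nat.le_floor_iff hv).1 h.1.2⟩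

lemma ch_le (Δ l : ℕ) : (SSN.ch Δ l : ℝ) ≤ 1 := by
  unfold SSN.ch
  split_ifs
  · simp
  · rcases jacobiSym.trichotomy (-(Δ : ℤ)) l with h | h | h <;> rw [h] <;> norm_num

lemma neg_one_le_ch (Δ l : ℕ) : -1 ≤ (SSN.ch Δ l : ℝ) := by
  unfold SSN.ch
  split_ifs
  · simp
  · rcases jacobiSym.trichotomy (-(Δ : ℤ)) l with h | h | h <;> rw [h] <;> norm_num

/-- the first theorem of Mertens on a subset -/
lemma mert {x : ℝ} (hx : 1 ≤ x) (A : Finset ℕ) (hA : ∀ l ∈ A, l.Prime ∧ (l : ℝ) ≤ x) :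
    ∑ l ∈ A, Real.log l / l ≤ Real.log x + Real.log 4 := by
  refine le_trans ?_ (Pool.Agent.QTw.MERT_.mertens x hx)
  refine Finset.sum_le_sum_of_subset_of_nonneg ?_ ?_
  · intro l hl
    rw [Finset.mem_filter, Finset.mem_Iic]
    exact ⟨(Nat.le_floor_iff (by linarith)).2 (hA l hl).2, (hA l hl).1⟩
  · intro l _ _
    exact div_nonneg (Real.log_natCast_nonneg l) (Nat.cast_nonneg l)

/-- `∑_{j<J} (j+1) 2^{-j} ≤ 4`, `∑_{j<J} 2^{-j} ≤ 2` -/
lemma geo (J : ℕ) : ∑ j ∈ range J, ((j : ℝ) + 1) * (1 / 2) ^ j = 4 - (J + 2) * (2 * (1 / 2) ^ J) ∧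
    ∑ j ∈ range J, ((1 : ℝ) / 2) ^ j = 2 - 2 * (1 / 2) ^ J := by
  induction J with
  | zero => norm_num
  | succ J ih =>
    obtain ⟨h1, h2⟩ := ih
    rw [Finset.sum_range_succ, Finset.sum_range_succ, h1, h2]
    push_cast
    constructor <;> · rw [pow_succ]; ring

/-- `∑_{z<l≤Z} l^{-1-1/log z}` is bounded -/
lemma tail {z Z : ℝ} (hz : 3 ≤ z) (hZ : z ≤ Z) :
    ∑ l ∈ pri z Z, (l : ℝ) ^ (-(1 + 1 / Real.log z)) ≤ 8 + 2 * Real.log 4 := by
  have hlz : 1 ≤ Real.log z := by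
    rw [Real.le_log_iff_exp_le (by linarith)]
    have := Real.exp_one_lt_d9
    linarith
  have hlZ : Real.log z ≤ Real.log Z := Real.log_le_log (by linarith) hZ
  have h4 : 0 ≤ Real.log 4 := Real.log_nonneg (by norm_num)
  set J : ℕ := ⌈Real.log Z / Real.log z⌉₊ with hJ
  -- termwise
  have hterm : ∀ l ∈ pri z Z, (l : ℝ) ^ (-(1 + 1 / Real.log z)) ≤
      ∑ j ∈ range J, (Real.log l / l / Real.log z) *
        (if Real.log l ≤ (j + 1) * Real.log z then ((1:ℝ) / 2) ^ j else 0) := by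
    intro l hl
    obtain ⟨hp, hl1, hl2⟩ := mem_pri (by linarith) hl
    have hl0 : (0 : ℝ) < l := by linarith
    have hll : Real.log z < Real.log l := Real.log_lt_log (by linarith) hl1
    have hllZ : Real.log l ≤ Real.log Z := Real.log_le_log hl0 hl2
    set t : ℝ := Real.log l / Real.log z with ht
    have ht1 : 1 < t := by rw [ht, lt_div_iff₀ (by linarith)]; linarith
    set i : ℕ := ⌈t⌉₊ - 1 with hi
    have hc1 : 1 ≤ ⌈t⌉₊ := Nat.one_le_ceil_iff.2 (by linarith)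
    have hi1 : (i : ℝ) + 1 = ⌈t⌉₊ := by
      have : i + 1 = ⌈t⌉₊ := by omega
      exact_mod_cast this
    have hit : (i : ℝ) < t := by
      have := Nat.ceil_lt_add_one (show 0 ≤ t by linarith)
      linarith
    have hti : t ≤ (i : ℝ) + 1 := by rw [hi1]; exact Nat.le_ceil t
    have hiJ : i < J := by
      have h1 : ⌈t⌉₊ ≤ J := by
        rw [hJ]
        apply Nat.ceil_mono
        rw [ht]
        exact div_le_div_of_nonneg_right hllZ (by linarith)
      omega
    have hnn : ∀ j ∈ range J, 0 ≤ (Real.log l / l / Real.log z) *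
        (if Real.log l ≤ (j + 1) * Real.log z then ((1:ℝ) / 2) ^ j else 0) := by
      intro j _
      refine mul_nonneg (div_nonneg (div_nonneg (by linarith) hl0.le) (by linarith)) ?_
      split_ifs <;> positivity
    refine le_trans ?_ (Finset.single_le_sum hnn (Finset.mem_range.2 hiJ))
    have hcond : Real.log l ≤ ((i : ℝ) + 1) * Real.log z := by
      have := mul_le_mul_of_nonneg_right hti (show 0 ≤ Real.log z by linarith)
      rw [ht, div_mul_cancel₀ _ (by linarith)] at this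
      exact this
    rw [if_pos hcond]
    have e1 : (l : ℝ) ^ (-(1 + 1 / Real.log z)) = (1 / l) * Real.exp (-t) := by
      rw [Real.rpow_def_of_pos hl0]
      have : Real.log l * (-(1 + 1 / Real.log z)) = -Real.log l + -t := by
        rw [ht]; ring
      rw [this, Real.exp_add, Real.exp_neg, Real.exp_log hl0, one_div]
    have e2 : Real.log l / l / Real.log z = t * (1 / l) := by
      rw [ht]; field_simp
    rw [e1, e2]
    have h2 : Real.exp (-t) ≤ (1 / 2 : ℝ) ^ i := by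
      have h3 : Real.exp (-t) ≤ Real.exp (-(i : ℝ)) := Real.exp_le_exp.2 (by linarith)
      refine h3.trans ?_
      have h5 : Real.exp (-(i : ℝ)) = (Real.exp (-1)) ^ i := by
        rw [← Real.exp_nat_mul]; ring_nf
      rw [h5]
      refine pow_le_pow_left₀ (Real.exp_pos _).le ?_ i
      rw [Real.exp_neg]
      have : (2 : ℝ) ≤ Real.exp 1 := by
        have := Real.add_one_le_exp (1 : ℝ)
        linarith
      rw [one_div]
      exact inv_anti₀ (by norm_num) this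
    have h6 : (1 / (l : ℝ)) * Real.exp (-t) ≤ (1 / l) * (1 / 2 : ℝ) ^ i :=
      mul_le_mul_of_nonneg_left h2 (by positivity)
    refine h6.trans ?_
    have h7 : 0 ≤ (1 / (l : ℝ)) * (1 / 2 : ℝ) ^ i := by positivity
    nlinarith
  refine (Finset.sum_le_sum hterm).trans ?_
  rw [Finset.sum_comm]
  have hj : ∀ j ∈ range J, ∑ l ∈ pri z Z, (Real.log l / l / Real.log z) *
        (if Real.log l ≤ (j + 1) * Real.log z then ((1:ℝ) / 2) ^ j else 0) ≤
      ((j + 1) + Real.log 4) * (1 / 2) ^ j := by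
    intro j _
    have e : ∑ l ∈ pri z Z, (Real.log l / l / Real.log z) *
        (if Real.log l ≤ (j + 1) * Real.log z then ((1:ℝ) / 2) ^ j else 0) =
        ((1:ℝ) / 2) ^ j / Real.log z * ∑ l ∈ (pri z Z).filter
          (fun l : ℕ => Real.log l ≤ (j + 1) * Real.log z), Real.log l / l := by
      rw [Finset.mul_sum, Finset.sum_filter]
      refine Finset.sum_congr rfl fun l _ => ?_
      split_ifs
      · ring
      · ring
    rw [e]
    have hx : (1 : ℝ) ≤ Real.exp ((j + 1) * Real.log z) := by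
      exact Real.one_le_exp (by positivity)
    have hm := mert hx ((pri z Z).filter
          (fun l : ℕ => Real.log l ≤ (j + 1) * Real.log z)) (by
      intro l hl
      rw [Finset.mem_filter] at hl
      obtain ⟨hp, hl1, _⟩ := mem_pri (by linarith) hl.1
      refine ⟨hp, ?_⟩
      rw [← Real.log_le_iff_le_exp (by linarith)]
      exact hl.2)
    rw [Real.log_exp] at hm
    have h1 : 0 ≤ ((1:ℝ) / 2) ^ j / Real.log z := by positivity
    refine (mul_le_mul_of_nonneg_left hm h1).trans ?_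
    rw [div_mul_eq_mul_div, div_le_iff₀ (by linarith)]
    have h2 : (0:ℝ) ≤ (1 / 2) ^ j := by positivity
    have h3 : (j + 1) * Real.log z + Real.log 4 ≤ ((j + 1) + Real.log 4) * Real.log z := by
      nlinarith
    calc ((1:ℝ) / 2) ^ j * ((j + 1) * Real.log z + Real.log 4)
        ≤ (1 / 2) ^ j * (((j + 1) + Real.log 4) * Real.log z) :=
          mul_le_mul_of_nonneg_left h3 h2
      _ = _ := by ring
  refine (Finset.sum_le_sum hj).trans ?_
  obtain ⟨g1, g2⟩ := geo J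
  have : ∑ j ∈ range J, (((j : ℝ) + 1) + Real.log 4) * (1 / 2) ^ j =
      ∑ j ∈ range J, ((j : ℝ) + 1) * (1 / 2) ^ j + Real.log 4 * ∑ j ∈ range J, ((1:ℝ) / 2) ^ j := by
    rw [Finset.mul_sum, ← Finset.sum_add_distrib]
    refine Finset.sum_congr rfl fun j _ => by ring
  rw [this, g1, g2]
  have h5 : (0:ℝ) ≤ (1 / 2) ^ J := by positivity
  have h6 : (0:ℝ) ≤ (J : ℝ) := Nat.cast_nonneg J
  nlinarith [mul_nonneg h6 h5, mul_nonneg h4 h5]

end CHI_

theorem p_CHI (h1 : T_CHG) (h2 : T_CHE) : T_CHI := by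
  obtain ⟨C₁, hC₁, hG⟩ := h1
  obtain ⟨C₂, hC₂, hE⟩ := h2
  have h4 : 0 ≤ Real.log 4 := Real.log_nonneg (by norm_num)
  have hlC : 0 ≤ Real.log C₁ := Real.log_nonneg hC₁
  refine ⟨Real.log C₁ + 2 * C₂ + 2 * (1 + Real.log 4) + 2 * (8 + 2 * Real.log 4), by linarith, ?_⟩
  intro Δ z Z hΔ hΔz hz hZ
  have hlz : 1 < Real.log z := by
    rw [Real.lt_log_iff_exp_lt (by linarith)]
    have := Real.exp_one_lt_d9
    linarith
  have hlZ : Real.log z ≤ Real.log Z := Real.log_le_log (by linarith) hZ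
  have hz0 : 0 < Real.log z := by linarith
  have hZ0 : 0 < Real.log Z := by linarith
  set u₁ : ℝ := 1 / Real.log Z with hu₁
  set u₂ : ℝ := 1 / Real.log z with hu₂
  have hu1 : 0 < u₁ := by positivity
  have hu2 : 0 < u₂ := by positivity
  have hu12 : u₁ ≤ u₂ := one_div_le_one_div_of_le hz0 hlZ
  have hu21 : u₂ ≤ 1 := by
    rw [hu₂, div_le_one hz0]; linarith
  have hg := hG Δ u₁ u₂ hΔ hu1 hu12 hu21 (by
    rw [hu₂, one_div_one_div, Real.exp_log (by linarith)]
    exact hΔz)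
  obtain ⟨_, hG1, hs1, hE1⟩ := hE Δ (1 + u₁) hΔ (by linarith) (by linarith)
  obtain ⟨_, hG2, hs2, hE2⟩ := hE Δ (1 + u₂) hΔ (by linarith) (by linarith)
  -- take logarithms
  have hlog : Real.log (GG Δ (1 + u₁)) - Real.log (GG Δ (1 + u₂)) ≤
      Real.log C₁ + Real.log (Real.log Z) - Real.log (Real.log z) := by
    have h := Real.log_le_log (by positivity) hg
    rw [Real.log_mul hu1.ne' (by linarith), Real.log_mul (by linarith) (by positivity),
      Real.log_mul hu2.ne' (by linarith), hu₁, hu₂, one_div, one_div, Real.log_inv,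
      Real.log_inv] at h
    simp only [hu₁, hu₂, one_div]
    linarith
  have ha1 := (abs_le.1 hE1).1
  have ha2 := (abs_le.1 hE2).2
  have hmono : ∀ l : ℕ, l.Prime → 0 ≤ (1 + (SSN.ch Δ l : ℝ)) *
      ((l : ℝ) ^ (-(1 + u₁)) - (l : ℝ) ^ (-(1 + u₂))) := by
    intro l hl
    refine mul_nonneg (by linarith [CHI_.neg_one_le_ch Δ l]) (sub_nonneg.2 ?_)
    refine Real.rpow_le_rpow_of_exponent_le ?_ (by linarith)
    exact_mod_cast hl.one_le
  have hsum : ∑ l ∈ pri z Z, (1 + (SSN.ch Δ l : ℝ)) *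
      ((l : ℝ) ^ (-(1 + u₁)) - (l : ℝ) ^ (-(1 + u₂))) ≤
      Real.log C₁ + 2 * C₂ + (Real.log (Real.log Z) - Real.log (Real.log z)) := by
    have hs : Summable (fun l : Nat.Primes => (1 + (SSN.ch Δ l : ℝ)) *
      ((l : ℝ) ^ (-(1 + u₁)) - (l : ℝ) ^ (-(1 + u₂)))) := by
      refine (hs1.sub hs2).congr fun l => ?_
      ring
    have ht : ∑' l : Nat.Primes, (1 + (SSN.ch Δ l : ℝ)) *
      ((l : ℝ) ^ (-(1 + u₁)) - (l : ℝ) ^ (-(1 + u₂))) =
      ∑' l : Nat.Primes, (1 + (SSN.ch Δ l : ℝ)) * (l : ℝ) ^ (-(1 + u₁)) -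
      ∑' l : Nat.Primes, (1 + (SSN.ch Δ l : ℝ)) * (l : ℝ) ^ (-(1 + u₂)) := by
      rw [← hs1.tsum_sub hs2]
      refine tsum_congr fun l => ?_
      ring
    have hle := Summable.sum_le_tsum (f := fun l : Nat.Primes => (1 + (SSN.ch Δ l : ℝ)) *
      ((l : ℝ) ^ (-(1 + u₁)) - (l : ℝ) ^ (-(1 + u₂))))
      ((pri z Z).subtype Nat.Prime : Finset Nat.Primes) (fun l _ => hmono l l.2) hs
    rw [ht] at hle
    have he := Finset.sum_subtype_of_mem (s := pri z Z) (p := Nat.Prime)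
      (fun l : ℕ => (1 + (SSN.ch Δ l : ℝ)) * ((l : ℝ) ^ (-(1 + u₁)) - (l : ℝ) ^ (-(1 + u₂))))
      (fun l hl => (CHI_.mem_pri (by linarith) hl).1)
    rw [← he]
    exact hle.trans (by linarith)
  -- second part
  have hsec : ∑ l ∈ pri z Z, (1 + (SSN.ch Δ l : ℝ)) * (1 / (l : ℝ) - (l : ℝ) ^ (-(1 + u₁))) ≤
      2 * (1 + Real.log 4) := by
    have hm := CHI_.mert (show 1 ≤ Z by linarith) (pri z Z) (fun l hl =>
      ⟨(CHI_.mem_pri (by linarith) hl).1, (CHI_.mem_pri (by linarith) hl).2.2⟩)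
    have h5 : ∑ l ∈ pri z Z, (1 + (SSN.ch Δ l : ℝ)) * (1 / (l : ℝ) - (l : ℝ) ^ (-(1 + u₁))) ≤
        ∑ l ∈ pri z Z, (2 / Real.log Z) * (Real.log l / l) := by
      refine Finset.sum_le_sum fun l hl => ?_
      obtain ⟨hp, hl1, hl2⟩ := CHI_.mem_pri (by linarith) hl
      have hl0 : (0 : ℝ) < l := by linarith
      have hll : 0 ≤ Real.log l := Real.log_nonneg (by linarith)
      have e1 : (l : ℝ) ^ (-(1 + u₁)) = (1 / l) * Real.exp (-(Real.log l / Real.log Z)) := by
        rw [Real.rpow_def_of_pos hl0]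
        have : Real.log l * (-(1 + u₁)) = -Real.log l + -(Real.log l / Real.log Z) := by
          rw [hu₁]; ring
        rw [this, Real.exp_add, Real.exp_neg, Real.exp_log hl0, one_div]
      rw [e1]
      have h6 := Real.one_sub_le_exp_neg (Real.log l / Real.log Z)
      have h7 : Real.exp (-(Real.log l / Real.log Z)) ≤ 1 := by
        rw [Real.exp_le_one_iff]
        have : 0 ≤ Real.log l / Real.log Z := by positivity
        linarith
      have h8 : 0 ≤ 1 / (l:ℝ) := by positivity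
      have h9 : 1 / (l : ℝ) - 1 / l * Real.exp (-(Real.log l / Real.log Z)) ≤
          1 / l * (Real.log l / Real.log Z) := by nlinarith
      have h10 : 0 ≤ 1 / (l : ℝ) - 1 / l * Real.exp (-(Real.log l / Real.log Z)) := by nlinarith
      calc (1 + (SSN.ch Δ l : ℝ)) * (1 / (l : ℝ) - 1 / l * Real.exp (-(Real.log l / Real.log Z)))
          ≤ 2 * (1 / (l : ℝ) - 1 / l * Real.exp (-(Real.log l / Real.log Z))) :=
            mul_le_mul_of_nonneg_right (by linarith [CHI_.ch_le Δ l]) h10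
        _ ≤ 2 * (1 / l * (Real.log l / Real.log Z)) := by linarith
        _ = _ := by ring
    refine h5.trans ?_
    rw [← Finset.mul_sum, div_mul_eq_mul_div, div_le_iff₀ hZ0]
    nlinarith
  -- third part
  have hthird : ∑ l ∈ pri z Z, (1 + (SSN.ch Δ l : ℝ)) * (l : ℝ) ^ (-(1 + u₂)) ≤
      2 * (8 + 2 * Real.log 4) := by
    have h5 := CHI_.tail hz hZ
    refine le_trans ?_ (mul_le_mul_of_nonneg_left h5 (show (0:ℝ) ≤ 2 by norm_num))
    rw [Finset.mul_sum]
    refine Finset.sum_le_sum fun l hl => ?_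
    refine mul_le_mul_of_nonneg_right (by linarith [CHI_.ch_le Δ l]) ?_
    exact Real.rpow_nonneg (Nat.cast_nonneg l) _
  have hfin : ∑ l ∈ pri z Z, (1 + (SSN.ch Δ l : ℝ)) / l =
      ∑ l ∈ pri z Z, (1 + (SSN.ch Δ l : ℝ)) *
        ((l : ℝ) ^ (-(1 + u₁)) - (l : ℝ) ^ (-(1 + u₂))) +
      ∑ l ∈ pri z Z, (1 + (SSN.ch Δ l : ℝ)) * (1 / (l : ℝ) - (l : ℝ) ^ (-(1 + u₁))) +
      ∑ l ∈ pri z Z, (1 + (SSN.ch Δ l : ℝ)) * (l : ℝ) ^ (-(1 + u₂)) := by
    rw [← Finset.sum_add_distrib, ← Finset.sum_add_distrib]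
    refine Finset.sum_congr rfl fun l _ => ?_
    ring
  rw [hfin]
  linarith

end SSC
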