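import Pool.Agent.SSC.Targets2

/-!
# SSC, target CLM (classes modulo `M ∏ P`), helper92
-/

set_option autoImplicit false

open scoped BigOperators Classical
open Finset

namespace SSC
namespace CLM_

/-- number of classes mod `N` with `qf ≡ b` -/
noncomputable def cnt (A B C b : ℤ) (N : ℕ) : ℕ :=
  (((range N) ×ˢ (range N)).filter fun R : ℕ × ℕ =>
      ((N : ℕ) : ℤ) ∣ SSN.qf A B C R.1 R.2 - b).card

lemma dvd_iff (A B C b : ℤ) (r : ℕ) (x y : ℕ) :
    (r : ℤ) ∣ SSN.qf A B C x y - b ↔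
      (A : ZMod r) * (x : ZMod r) ^ 2 + B * (x : ZMod r) * (y : ZMod r) + C * (y : ZMod r) ^ 2 =
        ((b : ℤ) : ZMod r) := by
  rw [← ZMod.intCast_zmod_eq_zero_iff_dvd]
  unfold SSN.qf
  push_cast
  rw [sub_eq_zero]

lemma dvd_mod (A B C b : ℤ) (N : ℕ) (x y : ℕ) (h : (N : ℤ) ∣ SSN.qf A B C x y - b) :
    (N : ℤ) ∣ SSN.qf A B C ((x % N : ℕ) : ℤ) ((y % N : ℕ) : ℤ) - b := by
  rw [dvd_iff] at h ⊢
  rw [ZMod.natCast_mod, ZMod.natCast_mod]
  exact h

lemma cast_eq_mod {r x x' : ℕ} (h : (x : ZMod r) = (x' : ZMod r)) : x ≡ x' [MOD r] :=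
  (ZMod.natCast_eq_natCast_iff x x' r).1 h

lemma crt_inj {N r x x' : ℕ} (hc : N.Coprime r) (hx : x < N * r) (hx' : x' < N * r)
    (h1 : x % N = x' % N) (h2 : (x : ZMod r) = (x' : ZMod r)) : x = x' := by
  have h3 : x ≡ x' [MOD N * r] :=
    (Nat.modEq_and_modEq_iff_modEq_mul hc).1 ⟨h1, cast_eq_mod h2⟩
  have h4 : x % (N * r) = x' % (N * r) := h3
  rwa [Nat.mod_eq_of_lt hx, Nat.mod_eq_of_lt hx'] at h4

lemma step (A B C b : ℤ) (N r : ℕ) (hN : 0 < N) (hr : r.Prime) (hc : N.Coprime r) :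
    cnt A B C b (N * r) ≤ cnt A B C b N * Nat.card {P : ZMod r × ZMod r //
      (A : ZMod r) * P.1 ^ 2 + B * P.1 * P.2 + C * P.2 ^ 2 = ((b : ℤ) : ZMod r)} := by
  have : NeZero r := ⟨hr.ne_zero⟩
  rw [Nat.card_eq_fintype_card, Fintype.card_subtype]
  unfold cnt
  rw [← Finset.card_product]
  refine Finset.card_le_card_of_injOn
    (fun R : ℕ × ℕ => ((R.1 % N, R.2 % N), ((R.1 : ZMod r), (R.2 : ZMod r)))) ?_ ?_
  · intro R hR
    rw [Finset.mem_coe, Finset.mem_filter, Finset.mem_product, Finset.mem_range,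
      Finset.mem_range] at hR
    obtain ⟨⟨h1, h2⟩, h3⟩ := hR
    rw [Finset.mem_coe, Finset.mem_product, Finset.mem_filter, Finset.mem_filter,
      Finset.mem_product, Finset.mem_range, Finset.mem_range]
    refine ⟨⟨⟨Nat.mod_lt _ hN, Nat.mod_lt _ hN⟩, ?_⟩, Finset.mem_univ _, ?_⟩
    · refine dvd_mod A B C b N R.1 R.2 (dvd_trans ?_ h3)
      exact_mod_cast Dvd.intro r rfl
    · refine (dvd_iff A B C b r R.1 R.2).1 (dvd_trans ?_ h3)
      exact_mod_cast Dvd.intro_left N rfl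
  · intro R hR R' hR' hEq
    rw [Finset.mem_coe, Finset.mem_filter, Finset.mem_product, Finset.mem_range,
      Finset.mem_range] at hR hR'
    simp only [Prod.mk.injEq] at hEq
    obtain ⟨⟨h1, h2⟩, h3, h4⟩ := hEq
    exact Prod.ext (crt_inj hc hR.1.1 hR'.1.1 h1 h3) (crt_inj hc hR.1.2 hR'.1.2 h2 h4)

end CLM_

open CLM_ in
theorem p_CLM (h1 : T_RTB) : T_CLM := by
  intro A B C b M P hM
  have key : (∀ r ∈ P, r.Prime ∧ r ≠ 2 ∧ ¬ r ∣ M ∧ ¬ (r : ℤ) ∣ b) →
      cnt A B C b (M * ∏ r ∈ P, r) ≤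
        M ^ 2 * ∏ r ∈ P, (if (r : ℤ) ∣ 4 * A * C - B ^ 2 then 2 * r else r + 1) := by
    induction P using Finset.induction_on with
    | empty =>
      intro _
      simp only [Finset.prod_empty, mul_one]
      unfold cnt
      refine (Finset.card_filter_le _ _).trans ?_
      rw [Finset.card_product, Finset.card_range, sq]
    | insert r P hrP ih =>
      intro hP
      have hP' : ∀ r ∈ P, r.Prime ∧ r ≠ 2 ∧ ¬ r ∣ M ∧ ¬ (r : ℤ) ∣ b :=
        fun s hs => hP s (Finset.mem_insert_of_mem hs)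
      obtain ⟨hr, hr2, hrM, hrb⟩ := hP r (Finset.mem_insert_self r P)
      have ih' := ih hP'
      rw [Finset.prod_insert hrP, Finset.prod_insert hrP]
      set N := M * ∏ s ∈ P, s with hN
      have hN0 : 0 < N := by
        refine Nat.mul_pos hM (Finset.prod_pos fun s hs => (hP' s hs).1.pos)
      have hcop : N.Coprime r := by
        rw [hN]
        refine Nat.Coprime.mul_left ?_ ?_
        · exact ((Nat.Prime.coprime_iff_not_dvd hr).2 hrM).symm
        · refine Nat.Coprime.prod_left fun s hs => ?_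
          refine (Nat.coprime_primes (hP' s hs).1 hr).2 ?_
          intro h
          rw [h] at hs
          exact hrP hs
      have e : M * (r * ∏ s ∈ P, s) = N * r := by rw [hN]; ring
      rw [e]
      have : Fact r.Prime := ⟨hr⟩
      have hb : ((b : ℤ) : ZMod r) ≠ 0 := by
        intro h
        exact hrb ((ZMod.intCast_zmod_eq_zero_iff_dvd b r).1 h)
      obtain ⟨g1, g2⟩ := h1 A B C r ((b : ℤ) : ZMod r) hr hr2 hb
      have hcard : Nat.card {P : ZMod r × ZMod r //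
          (A : ZMod r) * P.1 ^ 2 + B * P.1 * P.2 + C * P.2 ^ 2 = ((b : ℤ) : ZMod r)} ≤
          (if (r : ℤ) ∣ 4 * A * C - B ^ 2 then 2 * r else r + 1) := by
        split_ifs with hd
        · exact g2 hd
        · exact g1 hd
      calc cnt A B C b (N * r) ≤ _ := step A B C b N r hN0 hr hcop
        _ ≤ (M ^ 2 * ∏ r ∈ P, (if (r : ℤ) ∣ 4 * A * C - B ^ 2 then 2 * r else r + 1)) *
            (if (r : ℤ) ∣ 4 * A * C - B ^ 2 then 2 * r else r + 1) := Nat.mul_le_mul ih' hcard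
        _ = _ := by ring
  exact key

end SSC
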