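import Mathlib
import Pool.Agent.SSC.Targets

/-!
# MP_d74fca_nt, counting part for composite `D`, second wave (helper12)

The dichotomy: if `S` has at most `x ^ (1/2 - ε)` elements up to `x` for all large `x`, then it has at
least `(log x) ^ (2 - ε')` elements up to `x` for ALL large `x`.
-/

set_option autoImplicit false

open scoped BigOperators Classical
open Finset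

namespace SSC

/-- positive form with discriminant `-p w ^ 2` -/
def Pf (p : ℕ) (A B C w : ℤ) : Prop :=
  0 < A ∧ 0 < 4 * A * C - B ^ 2 ∧ 4 * A * C - B ^ 2 = p * w ^ 2

/-- SPL: values divisible by a prime `a` exactly once -/
def T_SPL : Prop := ∀ (p a : ℕ) (A B C w : ℤ), p.Prime → a.Prime → a ≠ 2 → a ≠ p →
  Pf p A B C w → ∃ A₁ B₁ C₁ w₁ A₂ B₂ C₂ w₂ : ℤ, Pf p A₁ B₁ C₁ w₁ ∧ Pf p A₂ B₂ C₂ w₂ ∧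
    ∀ c : ℤ, ¬ (a : ℤ) ∣ c → SSN.Val A B C (a * c) →
      SSN.Val A₁ B₁ C₁ c ∨ SSN.Val A₂ B₂ C₂ c

/-- RTB: points on a conic modulo an odd prime -/
def T_RTB : Prop := ∀ (A B C : ℤ) (r : ℕ) (b : ZMod r), r.Prime → r ≠ 2 → b ≠ 0 →
  (¬ (r : ℤ) ∣ 4 * A * C - B ^ 2 → Nat.card {P : ZMod r × ZMod r //
    (A : ZMod r) * P.1 ^ 2 + B * P.1 * P.2 + C * P.2 ^ 2 = b} ≤ r + 1) ∧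
  ((r : ℤ) ∣ 4 * A * C - B ^ 2 → Nat.card {P : ZMod r × ZMod r //
    (A : ZMod r) * P.1 ^ 2 + B * P.1 * P.2 + C * P.2 ^ 2 = b} ≤ 2 * r)

/-- CLM (from RTB): classes modulo `M ∏ P` -/
def T_CLM : Prop := ∀ (A B C b : ℤ) (M : ℕ) (P : Finset ℕ), 0 < M →
  (∀ r ∈ P, r.Prime ∧ r ≠ 2 ∧ ¬ r ∣ M ∧ ¬ (r : ℤ) ∣ b) →
  (((range (M * ∏ r ∈ P, r)) ×ˢ (range (M * ∏ r ∈ P, r))).filter fun R : ℕ × ℕ =>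
      ((M * ∏ r ∈ P, r : ℕ) : ℤ) ∣ SSN.qf A B C R.1 R.2 - b).card ≤
    M ^ 2 * ∏ r ∈ P, (if (r : ℤ) ∣ 4 * A * C - B ^ 2 then 2 * r else r + 1)

/-- CNA (from SPL, CLM, SSN.LAT, SSN.RED): the `c` with `a c` killed by `p` -/
def T_CNA : Prop := ∃ C₀ : ℝ, 1 ≤ C₀ ∧ ∀ (p a M b : ℕ) (P : Finset ℕ) (F : Set ℕ),
  p.Prime → p ≠ 2 → a.Prime → a ≠ 2 → a ≠ p → 0 < M →
  (∀ r ∈ P, r.Prime ∧ r ≠ 2 ∧ ¬ r ∣ M ∧ r ≠ p ∧ ¬ r ∣ b) → (∀ D ∈ F, 0 < D ∧ Squarefree D) →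
  Bin p F →
  ((((Icc 1 (2 * a)).filter fun c : ℕ => a * c ∈ F ∧ c ≡ b [MOD (M * ∏ r ∈ P, r)]).card : ℕ) : ℝ) ≤
    C₀ * a * (∏ r ∈ P, (1 + 1 / (r : ℝ))) / (Real.sqrt p * ∏ r ∈ P, (r : ℝ)) +
      C₀ * ((M : ℝ) * ∏ r ∈ P, (r : ℝ)) ^ 2 * Real.sqrt a + C₀

/-- TOT: many `c` for every `a` -/
def T_TOT : Prop := ∀ (S : Set ℕ) (M : ℕ) (ρ x₀ : ℝ), (∀ p ∈ S, p.Prime) → 0 < M → 1 < ρ → ρ ≤ 2 →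
  (∀ x : ℝ, x₀ ≤ x → NS S x ≤ Real.sqrt x) →
  (∀ G : Finset ℕ, (∀ q ∈ G, q ∈ S ∧ ¬ q ∣ M) → ∑ q ∈ G, 1 / (q : ℝ) ≤ 1 / 8) →
  ∃ a₀ : ℕ, ∀ a : ℕ, a₀ ≤ a → a.Prime → (ρ - 1) * a / (4 * M) ≤ ((HH S M ρ a 1).card : ℝ)

/-- TAI: tail sums over a sparse set -/
def T_TAI : Prop := ∀ (S : Set ℕ) (ε x₀ : ℝ), 0 < ε → ε < 1 / 2 → (∀ p ∈ S, 0 < p) →
  (∀ x : ℝ, x₀ ≤ x → NS S x ≤ x ^ (1 / 2 - ε)) →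
  ∃ C : ℝ, 0 < C ∧ ∀ (y : ℝ) (G : Finset ℕ), 1 ≤ y → (∀ p ∈ G, p ∈ S ∧ y < (p : ℝ)) →
    ∑ p ∈ G, (p : ℝ) ^ (-(1 / 2 : ℝ)) ≤ C * y ^ (-ε)

/-- DI2 (from CNA, TOT, TAI, KIL, TUP, CHEB) -/
def T_DI2 : Prop := ∀ (S : Set ℕ) (K : ℕ → ℕ → Prop) (M : ℕ) (ρ : ℝ), Data S K M ρ →
  (∀ p ∈ S, ∀ D : ℕ, K D p → ¬ p ∣ D + 1) → ∀ ε : ℝ, 0 < ε → ε < 1 / 2 →
  (∃ x₀ : ℝ, ∀ x : ℝ, x₀ ≤ x → NS S x ≤ x ^ (1 / 2 - ε)) → ∀ ε₁ : ℝ, 0 < ε₁ → ε₁ < 1 →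
  ∃ Y₀ : ℝ, 1 ≤ Y₀ ∧ ∀ Y : ℝ, Y₀ ≤ Y → Y ^ (2 - ε₁) ≤ NS S (Real.exp (Y ^ (1 + ε₁)))

/-- FINC (from DI2): the dichotomy for all large `x` -/
def T_FINC : Prop := ∀ (S : Set ℕ) (K : ℕ → ℕ → Prop) (M : ℕ) (ρ : ℝ), Data S K M ρ →
  (∀ p ∈ S, ∀ D : ℕ, K D p → ¬ p ∣ D + 1) → ∀ ε : ℝ, 0 < ε →
  (∀ x₀ : ℝ, ∃ x : ℝ, x₀ ≤ x ∧ x ^ (1 / 2 - ε) ≤ NS S x) ∨
    ∃ x₀ : ℝ, ∀ x : ℝ, x₀ ≤ x → (Real.log x) ^ (2 - ε) ≤ NS S x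

end SSC
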