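import Mathlib
import Pool.Agent.SSC.Targets2

/-!
# CNA (MP_d74fca_nt, dichotomy, second wave)

The numbers `c ≤ 2 a`, `c ≡ b` modulo `M ∏ P`, with `a c` killed by `p`: they are values of at most
two forms of discriminant `-p w ^ 2`; count the lattice points in the classes modulo `M ∏ P`.
-/

set_option autoImplicit false

open scoped BigOperators Classical
open Finset

namespace SSC

namespace CNA_

/-- the statement of `SSN.T_LAT` with a fixed constant -/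
def LatC (C : ℝ) : Prop := ∀ (a b c : ℤ) (Δ : ℕ), SSN.Red a b c Δ → ∀ D : ℕ, 0 < D →
  ∀ u v : ℤ, ∀ t : ℝ, 1 ≤ t →
  {P : ℤ × ℤ | (SSN.qf a b c P.1 P.2 : ℝ) ≤ t ∧ (D : ℤ) ∣ P.1 - u ∧ (D : ℤ) ∣ P.2 - v}.Finite ∧
  |(({P : ℤ × ℤ | (SSN.qf a b c P.1 P.2 : ℝ) ≤ t ∧ (D : ℤ) ∣ P.1 - u ∧
      (D : ℤ) ∣ P.2 - v}.ncard : ℕ) : ℝ) - 2 * Real.pi * t / (Real.sqrt Δ * D ^ 2)|
      ≤ C * Real.sqrt t

/-- classes modulo `N` -/
noncomputable def cls (N : ℕ) (A B C : ℤ) (b : ℤ) : Finset (ℕ × ℕ) :=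
  ((range N) ×ˢ (range N)).filter fun R : ℕ × ℕ => ((N : ℕ) : ℤ) ∣ SSN.qf A B C R.1 R.2 - b

lemma qf_congr (N : ℤ) (A B C x y u v : ℤ) (hx : N ∣ x - u) (hy : N ∣ y - v) :
    N ∣ SSN.qf A B C x y - SSN.qf A B C u v := by
  have e : SSN.qf A B C x y - SSN.qf A B C u v =
      (x - u) * (A * (x + u) + B * y) + (y - v) * (B * u + C * (y + v)) := by
    unfold SSN.qf; ring
  rw [e]
  exact dvd_add (Dvd.dvd.mul_right hx _) (Dvd.dvd.mul_right hy _)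

/-- count for one reduced form -/
lemma count_form {C : ℝ} (hL : LatC C) (A B C' : ℤ) (Δ N b a : ℕ)
    (hr : SSN.Red A B C' Δ) (hN : 0 < N) (ha : 0 < a) :
    ((((Icc 1 (2 * a)).filter fun c : ℕ => SSN.Val A B C' c ∧ c ≡ b [MOD N]).card : ℕ) : ℝ) ≤
      ((cls N A B C' b).card : ℝ) *
        (2 * Real.pi * (2 * a : ℝ) / (Real.sqrt Δ * N ^ 2) + C * Real.sqrt (2 * a : ℝ)) := by
  have ht : (1 : ℝ) ≤ 2 * (a : ℝ) := by
    have : (1 : ℝ) ≤ a := by exact_mod_cast ha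
    linarith
  have hfin : ∀ R : ℕ × ℕ, {P : ℤ × ℤ | (SSN.qf A B C' P.1 P.2 : ℝ) ≤ 2 * (a : ℝ) ∧
      (N : ℤ) ∣ P.1 - (R.1 : ℤ) ∧ (N : ℤ) ∣ P.2 - (R.2 : ℤ)}.Finite := fun R =>
    (hL A B C' Δ hr N hN R.1 R.2 (2 * a : ℝ) ht).1
  have hcard : ∀ R : ℕ × ℕ, (((hfin R).toFinset.card : ℕ) : ℝ) ≤
      2 * Real.pi * (2 * a : ℝ) / (Real.sqrt Δ * N ^ 2) + C * Real.sqrt (2 * a : ℝ) := by
    intro R
    have h := (hL A B C' Δ hr N hN R.1 R.2 (2 * a : ℝ) ht).2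
    rw [Set.ncard_eq_toFinset_card _ (hfin R)] at h
    have := (abs_le.mp h).2
    linarith
  set W : Finset (ℤ × ℤ) := (cls N A B C' b).biUnion fun R => (hfin R).toFinset with hW
  have hsub : ((Icc 1 (2 * a)).filter fun c : ℕ => SSN.Val A B C' c ∧ c ≡ b [MOD N]) ⊆
      W.image fun P : ℤ × ℤ => (SSN.qf A B C' P.1 P.2).toNat := by
    intro c hc
    rw [mem_filter, mem_Icc] at hc
    obtain ⟨⟨_, hc2⟩, ⟨x, y, hxy⟩, hcb⟩ := hc
    rw [mem_image]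
    refine ⟨(x, y), ?_, by simp [hxy]⟩
    rw [hW, mem_biUnion]
    have hN' : (0 : ℤ) < N := by exact_mod_cast hN
    have hxu : (N : ℤ) ∣ x - ((x % N).toNat : ℤ) := by
      rw [Int.toNat_of_nonneg (Int.emod_nonneg x hN'.ne')]
      exact Int.dvd_self_sub_emod
    have hyv : (N : ℤ) ∣ y - ((y % N).toNat : ℤ) := by
      rw [Int.toNat_of_nonneg (Int.emod_nonneg y hN'.ne')]
      exact Int.dvd_self_sub_emod
    refine ⟨((x % N).toNat, (y % N).toNat), ?_, ?_⟩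
    · rw [cls, mem_filter, mem_product, mem_range, mem_range]
      refine ⟨⟨?_, ?_⟩, ?_⟩
      · have := Int.emod_lt_of_pos x hN'
        have h0 := Int.emod_nonneg x hN'.ne'
        show (x % N).toNat < N
        omega
      · have := Int.emod_lt_of_pos y hN'
        have h0 := Int.emod_nonneg y hN'.ne'
        show (y % N).toNat < N
        omega
      · have h1 := qf_congr (N : ℤ) A B C' x y _ _ hxu hyv
        have h2 : (N : ℤ) ∣ (c : ℤ) - b := by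
          have := (Nat.modEq_iff_dvd.mp hcb.symm)
          exact this
        rw [hxy] at h1
        have h3 : SSN.qf A B C' ((x % N).toNat : ℤ) ((y % N).toNat : ℤ) - b =
            ((c : ℤ) - b) - ((c : ℤ) - SSN.qf A B C' ((x % N).toNat : ℤ) ((y % N).toNat : ℤ)) := by
          ring
        show (N : ℤ) ∣ SSN.qf A B C' ((x % N).toNat : ℤ) ((y % N).toNat : ℤ) - b
        rw [h3]
        exact dvd_sub h2 h1
    · rw [Set.Finite.mem_toFinset, Set.mem_ofPred_eq]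
      refine ⟨?_, hxu, hyv⟩
      show (SSN.qf A B C' x y : ℝ) ≤ 2 * (a : ℝ)
      rw [hxy]
      exact_mod_cast hc2
  have h1 : ((Icc 1 (2 * a)).filter fun c : ℕ => SSN.Val A B C' c ∧ c ≡ b [MOD N]).card ≤
      ∑ R ∈ cls N A B C' b, (hfin R).toFinset.card :=
    (card_le_card hsub).trans (card_image_le.trans card_biUnion_le)
  calc ((((Icc 1 (2 * a)).filter fun c : ℕ => SSN.Val A B C' c ∧ c ≡ b [MOD N]).card : ℕ) : ℝ)
      ≤ ((∑ R ∈ cls N A B C' b, (hfin R).toFinset.card : ℕ) : ℝ) := by exact_mod_cast h1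
    _ = ∑ R ∈ cls N A B C' b, (((hfin R).toFinset.card : ℕ) : ℝ) := by push_cast; rfl
    _ ≤ ∑ R ∈ cls N A B C' b,
        (2 * Real.pi * (2 * a : ℝ) / (Real.sqrt Δ * N ^ 2) + C * Real.sqrt (2 * a : ℝ)) :=
        sum_le_sum fun R _ => hcard R
    _ = _ := by rw [sum_const, nsmul_eq_mul]

lemma cls_card_le (N : ℕ) (A B C b : ℤ) : (cls N A B C b).card ≤ N ^ 2 := by
  refine (card_filter_le _ _).trans ?_
  rw [card_product, card_range, sq]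

/-- the product of the local factors -/
lemma prod_fac (p : ℕ) (w : ℤ) (P : Finset ℕ) (hp : p.Prime) (hw : w ≠ 0)
    (hP : ∀ r ∈ P, r.Prime ∧ r ≠ p) :
    ((∏ r ∈ P, (if (r : ℤ) ∣ (p : ℤ) * w ^ 2 then 2 * r else r + 1) : ℕ) : ℝ) ≤
      |(w : ℝ)| * ∏ r ∈ P, ((r : ℝ) + 1) := by
  have h1 : (∏ r ∈ P.filter (fun r : ℕ => (r : ℤ) ∣ w), r) ∣ w.natAbs := by
    refine Finset.prod_primes_dvd _ ?_ ?_
    · intro r hr
      exact ((hP r (mem_filter.mp hr).1).1).prime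
    · intro r hr
      have := (mem_filter.mp hr).2
      exact Int.natCast_dvd.mp this
  have h2 : (∏ r ∈ P.filter (fun r : ℕ => (r : ℤ) ∣ w), r) ≤ w.natAbs :=
    Nat.le_of_dvd (Int.natAbs_pos.mpr hw) h1
  have h3 : ∏ r ∈ P, (if (r : ℤ) ∣ (p : ℤ) * w ^ 2 then 2 * r else r + 1) ≤
      ∏ r ∈ P, ((if (r : ℤ) ∣ w then r else 1) * (r + 1)) := by
    refine prod_le_prod' ?_
    intro r hr
    obtain ⟨hrp, hne⟩ := hP r hr
    have hdvd : (r : ℤ) ∣ (p : ℤ) * w ^ 2 → (r : ℤ) ∣ w := by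
      intro h
      have hpr : Prime (r : ℤ) := Nat.prime_iff_prime_int.mp hrp
      rcases hpr.dvd_or_dvd h with h | h
      · exfalso
        have : r ∣ p := by exact_mod_cast h
        exact hne ((Nat.prime_dvd_prime_iff_eq hrp hp).mp this)
      · exact hpr.dvd_of_dvd_pow h
    by_cases hd : (r : ℤ) ∣ (p : ℤ) * w ^ 2
    · rw [if_pos hd, if_pos (hdvd hd)]
      have := hrp.two_le
      nlinarith
    · rw [if_neg hd]
      split_ifs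
      · have := hrp.two_le
        nlinarith
      · linarith
  rw [prod_mul_distrib] at h3
  have h4 : ∏ r ∈ P, (if (r : ℤ) ∣ w then r else 1) = ∏ r ∈ P.filter (fun r : ℕ => (r : ℤ) ∣ w), r := by
    rw [prod_filter]
  rw [h4] at h3
  have h5 : ∏ r ∈ P, (if (r : ℤ) ∣ (p : ℤ) * w ^ 2 then 2 * r else r + 1) ≤
      w.natAbs * ∏ r ∈ P, (r + 1) := h3.trans (Nat.mul_le_mul_right _ h2)
  have h6 : ((∏ r ∈ P, (if (r : ℤ) ∣ (p : ℤ) * w ^ 2 then 2 * r else r + 1) : ℕ) : ℝ) ≤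
      ((w.natAbs * ∏ r ∈ P, (r + 1) : ℕ) : ℝ) := by exact_mod_cast h5
  refine h6.trans (le_of_eq ?_)
  push_cast
  rw [Nat.cast_natAbs]
  push_cast
  rfl

/-- count for one form of discriminant `-p w ^ 2` -/
lemma count_pf {C : ℝ} (hC : 0 < C) (hL : LatC C) (h2 : T_CLM) (h4 : SSN.T_RED)
    (p a M b : ℕ) (P : Finset ℕ) (hp : p.Prime) (ha : 0 < a) (hM : 0 < M)
    (hP : ∀ r ∈ P, r.Prime ∧ r ≠ 2 ∧ ¬ r ∣ M ∧ r ≠ p ∧ ¬ r ∣ b)
    (A B C' w : ℤ) (hf : Pf p A B C' w) :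
    ((((Icc 1 (2 * a)).filter fun c : ℕ => SSN.Val A B C' c ∧
        c ≡ b [MOD (M * ∏ r ∈ P, r)]).card : ℕ) : ℝ) ≤
      4 * Real.pi * (a * (∏ r ∈ P, (1 + 1 / (r : ℝ))) / (Real.sqrt p * ∏ r ∈ P, (r : ℝ))) +
      2 * C * (((M : ℝ) * ∏ r ∈ P, (r : ℝ)) ^ 2 * Real.sqrt a) := by
  obtain ⟨hA, hd, hdw⟩ := hf
  obtain ⟨A₁, B₁, C₁, Δ, hr, hΔ, hval⟩ := h4 A B C' hA hd
  have hprod : 0 < ∏ r ∈ P, r := Finset.prod_pos fun r hr => (hP r hr).1.pos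
  set N : ℕ := M * ∏ r ∈ P, r with hN
  have hNpos : 0 < N := Nat.mul_pos hM hprod
  have hw : w ≠ 0 := by
    rintro rfl
    rw [hdw] at hd
    simp at hd
  have hset : ((Icc 1 (2 * a)).filter fun c : ℕ => SSN.Val A B C' c ∧ c ≡ b [MOD N]) =
      ((Icc 1 (2 * a)).filter fun c : ℕ => SSN.Val A₁ B₁ C₁ c ∧ c ≡ b [MOD N]) := by
    apply filter_congr
    intro c _
    rw [hval]
  rw [hset]
  have hcount := count_form hL A₁ B₁ C₁ Δ N b a hr hNpos ha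
  have hdisc : 4 * A₁ * C₁ - B₁ ^ 2 = (p : ℤ) * w ^ 2 := by
    rw [hr.2.2.2.1, hΔ, hdw]
  have hK : (((cls N A₁ B₁ C₁ b).card : ℕ) : ℝ) ≤
      (M : ℝ) ^ 2 * (|(w : ℝ)| * ∏ r ∈ P, ((r : ℝ) + 1)) := by
    have h := h2 A₁ B₁ C₁ b M P hM (by
      intro r hr
      obtain ⟨q1, q2, q3, _, q5⟩ := hP r hr
      refine ⟨q1, q2, q3, ?_⟩
      intro h
      exact q5 (by exact_mod_cast h))
    rw [hdisc] at h
    have h' : (((cls N A₁ B₁ C₁ b).card : ℕ) : ℝ) ≤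
        ((M ^ 2 * ∏ r ∈ P, (if (r : ℤ) ∣ (p : ℤ) * w ^ 2 then 2 * r else r + 1) : ℕ) : ℝ) := by
      have h'' : (cls N A₁ B₁ C₁ b).card ≤
          M ^ 2 * ∏ r ∈ P, (if (r : ℤ) ∣ (p : ℤ) * w ^ 2 then 2 * r else r + 1) := by
        rw [← hN] at h
        exact h
      exact_mod_cast h''
    refine h'.trans ?_
    rw [Nat.cast_mul, Nat.cast_pow]
    exact mul_le_mul_of_nonneg_left
      (prod_fac p w P hp hw fun r hr => ⟨(hP r hr).1, (hP r hr).2.2.2.1⟩) (by positivity)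
  have hK2 : (((cls N A₁ B₁ C₁ b).card : ℕ) : ℝ) ≤ (N : ℝ) ^ 2 := by
    exact_mod_cast cls_card_le N A₁ B₁ C₁ b
  have hsq : Real.sqrt Δ = Real.sqrt p * |(w : ℝ)| := by
    have e : (Δ : ℝ) = (p : ℝ) * (w : ℝ) ^ 2 := by
      have : (Δ : ℤ) = (p : ℤ) * w ^ 2 := by rw [hΔ, hdw]
      exact_mod_cast this
    rw [e, Real.sqrt_mul (by positivity), Real.sqrt_sq_eq_abs]
  have hNr : (N : ℝ) = (M : ℝ) * ∏ r ∈ P, (r : ℝ) := by
    rw [hN]; push_cast; rfl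
  have hpp : 0 < Real.sqrt p := Real.sqrt_pos.mpr (by exact_mod_cast hp.pos)
  have hww : 0 < |(w : ℝ)| := abs_pos.mpr (by exact_mod_cast hw)
  have hPr : 0 < ∏ r ∈ P, (r : ℝ) := by
    have : ((∏ r ∈ P, r : ℕ) : ℝ) = ∏ r ∈ P, (r : ℝ) := by push_cast; rfl
    rw [← this]; exact_mod_cast hprod
  have hMr : (0 : ℝ) < M := by exact_mod_cast hM
  have har : (0 : ℝ) < a := by exact_mod_cast ha
  have hprod1 : ∏ r ∈ P, ((r : ℝ) + 1) = (∏ r ∈ P, (r : ℝ)) * ∏ r ∈ P, (1 + 1 / (r : ℝ)) := by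
    rw [← prod_mul_distrib]
    refine prod_congr rfl ?_
    intro r hr
    have : (0 : ℝ) < r := by exact_mod_cast (hP r hr).1.pos
    field_simp
  refine hcount.trans ?_
  rw [mul_add]
  refine add_le_add ?_ ?_
  · have hnn : 0 ≤ 2 * Real.pi * (2 * a : ℝ) / (Real.sqrt Δ * N ^ 2) := by positivity
    refine (mul_le_mul_of_nonneg_right hK hnn).trans (le_of_eq ?_)
    rw [hsq, hNr, hprod1]
    field_simp
    ring
  · have hnn : 0 ≤ C * Real.sqrt (2 * a : ℝ) := by positivity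
    refine (mul_le_mul_of_nonneg_right hK2 hnn).trans ?_
    rw [hNr]
    have hs2 : Real.sqrt (2 * (a : ℝ)) ≤ 2 * Real.sqrt a := by
      rw [Real.sqrt_mul (by norm_num)]
      have : Real.sqrt 2 ≤ 2 := by
        rw [Real.sqrt_le_left (by norm_num)]; norm_num
      exact mul_le_mul_of_nonneg_right this (Real.sqrt_nonneg _)
    have hx : 0 ≤ ((M : ℝ) * ∏ r ∈ P, (r : ℝ)) ^ 2 := by positivity
    calc ((M : ℝ) * ∏ r ∈ P, (r : ℝ)) ^ 2 * (C * Real.sqrt (2 * a))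
        ≤ ((M : ℝ) * ∏ r ∈ P, (r : ℝ)) ^ 2 * (C * (2 * Real.sqrt a)) :=
          mul_le_mul_of_nonneg_left (mul_le_mul_of_nonneg_left hs2 hC.le) hx
      _ = _ := by ring

end CNA_

open CNA_ in
/-- CNA -/
theorem p_CNA (h1 : T_SPL) (h2 : T_CLM) (h3 : SSN.T_LAT) (h4 : SSN.T_RED) : T_CNA := by
  obtain ⟨C, hC, hL⟩ := h3
  have hL' : LatC C := hL
  have hpi := Real.pi_pos
  refine ⟨8 * Real.pi + 4 * C + 1, by linarith, ?_⟩
  intro p a M b P F hp hp2 hap ha2 hapne hM hP hF hBin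
  have ha : 0 < a := hap.pos
  set C₀ : ℝ := 8 * Real.pi + 4 * C + 1 with hC₀
  have hC₀1 : 1 ≤ C₀ := by rw [hC₀]; linarith
  have hpp : 0 < Real.sqrt p := Real.sqrt_pos.mpr (by exact_mod_cast hp.pos)
  have hPr : 0 < ∏ r ∈ P, (r : ℝ) := prod_pos fun r hr => by exact_mod_cast (hP r hr).1.pos
  have hPr1 : 0 < ∏ r ∈ P, (1 + 1 / (r : ℝ)) := prod_pos fun r hr => by
    have : (0 : ℝ) < r := by exact_mod_cast (hP r hr).1.pos
    positivity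
  set X : ℝ := a * (∏ r ∈ P, (1 + 1 / (r : ℝ))) / (Real.sqrt p * ∏ r ∈ P, (r : ℝ)) with hX
  set Y : ℝ := ((M : ℝ) * ∏ r ∈ P, (r : ℝ)) ^ 2 * Real.sqrt a with hY
  have hX0 : 0 ≤ X := by rw [hX]; positivity
  have hY0 : 0 ≤ Y := by rw [hY]; positivity
  have hgoal : C₀ * a * (∏ r ∈ P, (1 + 1 / (r : ℝ))) / (Real.sqrt p * ∏ r ∈ P, (r : ℝ)) +
      C₀ * ((M : ℝ) * ∏ r ∈ P, (r : ℝ)) ^ 2 * Real.sqrt a + C₀ = C₀ * X + C₀ * Y + C₀ := by
    rw [hX, hY]; ring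
  rw [hgoal]
  set T := ((Icc 1 (2 * a)).filter fun c : ℕ => a * c ∈ F ∧ c ≡ b [MOD (M * ∏ r ∈ P, r)]) with hT
  by_cases hcard : T.card ≤ 1
  · have : ((T.card : ℕ) : ℝ) ≤ 1 := by exact_mod_cast hcard
    have h1' : 0 ≤ C₀ * X := by positivity
    have h2' : 0 ≤ C₀ * Y := by positivity
    linarith
  have hcard := not_le.mp hcard
  have hinj : Function.Injective fun c : ℕ => a * c := fun x y hxy =>
    Nat.eq_of_mul_eq_mul_left ha hxy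
  obtain ⟨A, B, C', w, hA, hd, hdw, hv⟩ := hBin (T.image fun c => a * c)
    (by rw [card_image_of_injective _ hinj]; omega)
    (by
      intro D hD
      obtain ⟨c, hc, rfl⟩ := mem_image.mp hD
      exact (mem_filter.mp hc).2.1)
  obtain ⟨A₁, B₁, C₁, w₁, A₂, B₂, C₂, w₂, hf1, hf2, hsp⟩ :=
    h1 p a A B C' w hp hap ha2 hapne ⟨hA, hd, hdw⟩
  have hsub : T ⊆
      ((Icc 1 (2 * a)).filter fun c : ℕ => SSN.Val A₁ B₁ C₁ c ∧ c ≡ b [MOD (M * ∏ r ∈ P, r)]) ∪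
      ((Icc 1 (2 * a)).filter fun c : ℕ => SSN.Val A₂ B₂ C₂ c ∧ c ≡ b [MOD (M * ∏ r ∈ P, r)]) := by
    intro c hc
    have hc' := mem_filter.mp hc
    obtain ⟨hcI, hcF, hcb⟩ := hc'
    have hnd : ¬ (a : ℤ) ∣ (c : ℤ) := by
      intro h
      have h' : a ∣ c := by exact_mod_cast h
      have hsqf := (hF _ hcF).2
      have : a * a ∣ a * c := Nat.mul_dvd_mul_left a h'
      have hu := hsqf a this
      exact hap.one_lt.ne' (Nat.isUnit_iff.mp hu)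
    have hval := hv (a * c) (mem_image.mpr ⟨c, hc, rfl⟩)
    push_cast at hval
    rw [mem_union, mem_filter, mem_filter]
    rcases hsp c hnd hval with h | h
    · exact Or.inl ⟨hcI, h, hcb⟩
    · exact Or.inr ⟨hcI, h, hcb⟩
  have c1 := count_pf hC hL' h2 h4 p a M b P hp ha hM hP A₁ B₁ C₁ w₁ hf1
  have c2 := count_pf hC hL' h2 h4 p a M b P hp ha hM hP A₂ B₂ C₂ w₂ hf2
  have c3 : ((T.card : ℕ) : ℝ) ≤
      ((((Icc 1 (2 * a)).filter fun c : ℕ => SSN.Val A₁ B₁ C₁ c ∧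
        c ≡ b [MOD (M * ∏ r ∈ P, r)]).card : ℕ) : ℝ) +
      ((((Icc 1 (2 * a)).filter fun c : ℕ => SSN.Val A₂ B₂ C₂ c ∧
        c ≡ b [MOD (M * ∏ r ∈ P, r)]).card : ℕ) : ℝ) := by
    exact_mod_cast (card_le_card hsub).trans (card_union_le _ _)
  rw [← hX, ← hY] at c1 c2
  have e1 : 8 * Real.pi * X ≤ C₀ * X := by
    refine mul_le_mul_of_nonneg_right ?_ hX0
    rw [hC₀]; linarith
  have e2 : 4 * C * Y ≤ C₀ * Y := by
    refine mul_le_mul_of_nonneg_right ?_ hY0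
    rw [hC₀]; linarith
  linarith

end SSC
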