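import Pool.Agent.SSC.Targets2
import Pool.Agent.SSC.ASM

/-!
# MP_d74fca_nt, SSC-DI2: many supersingular primes if there are few
-/

set_option autoImplicit false

open scoped BigOperators Classical
open Finset

namespace SSC

namespace DI2_

open ASM_ Filter

/-- the tuples without primes `l` -/
theorem mem_UU0 {S : Set ℕ} {M : ℕ} {ρ Y : ℝ} {t : ℕ × Finset ℕ × ℕ}
    (ht : t ∈ UU S M ρ Y 3 3 0) : t.1 ∈ AA S Y ∧ t.2.1 = ∅ ∧ t.2.2 ∈ HH S M ρ t.1 1 := by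
  unfold UU at ht
  obtain ⟨h1, h2⟩ := Finset.mem_filter.1 ht
  obtain ⟨h3, h4⟩ := Finset.mem_product.1 h1
  obtain ⟨h5, -⟩ := Finset.mem_product.1 h4
  have h6 : t.2.1 = ∅ := by
    have := (Finset.mem_powersetCard.1 h5).2
    exact Finset.card_eq_zero.1 this
  rw [h6, Finset.prod_empty] at h2
  exact ⟨h3, h6, h2⟩

theorem mem_AA {S : Set ℕ} {Y : ℝ} (hY : 0 ≤ Y) {a : ℕ} (ha : a ∈ AA S Y) :
    a.Prime ∧ Y / 16 < a ∧ (a : ℝ) ≤ Y ∧ a ∉ S := by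
  obtain ⟨h1, h2⟩ := Finset.mem_filter.1 ha
  obtain ⟨h3, h4, h5⟩ := Finset.mem_filter.1 h1
  exact ⟨h4, h5, (Nat.le_floor_iff hY).1 (Finset.mem_Icc.1 h3).2, h2⟩

theorem card_UU0 {S : Set ℕ} {M : ℕ} {ρ Y : ℝ} (hY : 0 ≤ Y) :
    ∑ a ∈ AA S Y, ((HH S M ρ a 1).card : ℝ) ≤ ((UU S M ρ Y 3 3 0).card : ℝ) := by
  have h : ((AA S Y).sigma fun a => HH S M ρ a 1).card ≤ (UU S M ρ Y 3 3 0).card := by
    apply Finset.card_le_card_of_injOn (fun x => (x.1, (∅ : Finset ℕ), x.2))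
    · rintro ⟨a, h⟩ hx
      have hx' := Finset.mem_sigma.1 (Finset.mem_coe.1 hx)
      obtain ⟨ha, hh⟩ := hx'
      simp only at ha hh
      apply Finset.mem_coe.2
      unfold UU
      refine Finset.mem_filter.2 ⟨?_, ?_⟩
      · refine Finset.mem_product.2 ⟨ha, Finset.mem_product.2 ⟨?_, ?_⟩⟩
        · simp
        · have h7 := (Finset.mem_filter.1 hh).1
          have h8 := mem_AA hY ha
          have h9 : a ≤ ⌊Y⌋₊ := Nat.le_floor h8.2.2.1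
          rw [Finset.mem_Icc] at h7 ⊢
          simp only
          omega
      · simpa using hh
    · rintro ⟨a, h⟩ - ⟨a', h'⟩ - he
      simp only [Prod.mk.injEq] at he
      obtain ⟨h1, -, h2⟩ := he
      subst h1
      subst h2
      rfl
  rw [Finset.card_sigma] at h
  exact_mod_cast h

/-- bound for one killer `p` and one `a` -/
theorem one_a {S : Set ℕ} {M : ℕ} {ρ C₀ : ℝ} {p a : ℕ} {P : Finset ℕ} {F : Set ℕ}
    (hC : ∀ (p a M b : ℕ) (P : Finset ℕ) (F : Set ℕ),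
      p.Prime → p ≠ 2 → a.Prime → a ≠ 2 → a ≠ p → 0 < M →
      (∀ r ∈ P, r.Prime ∧ r ≠ 2 ∧ ¬ r ∣ M ∧ r ≠ p ∧ ¬ r ∣ b) → (∀ D ∈ F, 0 < D ∧ Squarefree D) →
      Bin p F →
      ((((Icc 1 (2 * a)).filter fun c : ℕ => a * c ∈ F ∧ c ≡ b [MOD (M * ∏ r ∈ P, r)]).card : ℕ) : ℝ) ≤
        C₀ * a * (∏ r ∈ P, (1 + 1 / (r : ℝ))) / (Real.sqrt p * ∏ r ∈ P, (r : ℝ)) +
          C₀ * ((M : ℝ) * ∏ r ∈ P, (r : ℝ)) ^ 2 * Real.sqrt a + C₀)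
    (hp : p.Prime) (hp2 : p ≠ 2) (ha : a.Prime) (ha2 : a ≠ 2) (hap : a ≠ p) (hM : 0 < M)
    (hP : ∀ r ∈ P, r.Prime ∧ r ≠ 2 ∧ ¬ r ∣ M ∧ r ≠ p) (hF : ∀ D ∈ F, 0 < D ∧ Squarefree D)
    (hB : Bin p F) (hC0 : 0 ≤ C₀) :
    (((HH S (M * ∏ r ∈ P, r) ρ a 1).filter fun h => a * h ∈ F).card : ℝ) ≤
      C₀ * a * (∏ r ∈ P, (1 + 1 / (r : ℝ))) / (Real.sqrt p * ∏ r ∈ P, (r : ℝ)) +
          C₀ * ((M : ℝ) * ∏ r ∈ P, (r : ℝ)) ^ 2 * Real.sqrt a + C₀ := by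
  have hpos : ∀ r ∈ P, (0 : ℝ) < r := fun r hr => by exact_mod_cast (hP r hr).1.pos
  have hPP : (0 : ℝ) < ∏ r ∈ P, (r : ℝ) := Finset.prod_pos hpos
  by_cases hne : ((HH S (M * ∏ r ∈ P, r) ρ a 1).filter fun h => a * h ∈ F) = ∅
  · rw [hne, Finset.card_empty, Nat.cast_zero]
    have h1 : (0 : ℝ) ≤ ∏ r ∈ P, (1 + 1 / (r : ℝ)) := Finset.prod_nonneg fun r _ => by positivity
    positivity
  · obtain ⟨b, hb⟩ := Finset.nonempty_iff_ne_empty.2 hne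
    obtain ⟨hb1, hb2⟩ := Finset.mem_filter.1 hb
    have hbd : (M * ∏ r ∈ P, r) ∣ a * 1 * b + 1 := (Finset.mem_filter.1 hb1).2.2.2.1
    rw [mul_one] at hbd
    have hcop : Nat.Coprime a (M * ∏ r ∈ P, r) := by
      rw [Nat.coprime_iff_gcd_eq_one, ← Nat.dvd_one]
      have h1 : Nat.gcd a (M * ∏ r ∈ P, r) ∣ a * b + 1 := (Nat.gcd_dvd_right _ _).trans hbd
      have h2 : Nat.gcd a (M * ∏ r ∈ P, r) ∣ a * b := (Nat.gcd_dvd_left _ _).mul_right _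
      exact (Nat.dvd_add_right h2).1 h1
    refine le_trans ?_ (hC p a M b P F hp hp2 ha ha2 hap hM ?_ hF hB)
    · have : ((HH S (M * ∏ r ∈ P, r) ρ a 1).filter fun h => a * h ∈ F).card ≤
          ((Icc 1 (2 * a)).filter fun c : ℕ => a * c ∈ F ∧ c ≡ b [MOD (M * ∏ r ∈ P, r)]).card := by
        apply Finset.card_le_card
        intro h hh
        obtain ⟨hh1, hh2⟩ := Finset.mem_filter.1 hh
        obtain ⟨hh3, -, -, hh4, -⟩ := Finset.mem_filter.1 hh1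
        rw [mul_one] at hh4
        refine Finset.mem_filter.2 ⟨hh3, hh2, ?_⟩
        have h5 : a * h + 1 ≡ a * b + 1 [MOD (M * ∏ r ∈ P, r)] :=
          ((Nat.modEq_zero_iff_dvd.2 hh4)).trans (Nat.modEq_zero_iff_dvd.2 hbd).symm
        have h6 : a * h ≡ a * b [MOD (M * ∏ r ∈ P, r)] := Nat.ModEq.add_right_cancel' 1 h5
        exact Nat.ModEq.cancel_left_of_coprime hcop.symm h6
      exact_mod_cast this
    · intro r hr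
      obtain ⟨h1, h2, h3, h4⟩ := hP r hr
      refine ⟨h1, h2, h3, h4, ?_⟩
      intro hrb
      have h5 : r ∣ M * ∏ r ∈ P, r := (Finset.dvd_prod_of_mem _ hr).mul_left _
      have h6 : r ∣ a * b + 1 := h5.trans hbd
      have h7 : r ∣ 1 := (Nat.dvd_add_right (hrb.mul_left a)).1 h6
      exact h1.one_lt.ne' (Nat.dvd_one.1 h7)


/-- the tuples whose number lies in `F` -/
theorem fib_le {S : Set ℕ} {M : ℕ} {ρ Y : ℝ} {F : Set ℕ} :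
    (((UU S M ρ Y 3 3 0).filter fun t => dd t ∈ F).card : ℝ) ≤
      ∑ a ∈ AA S Y, (((HH S M ρ a 1).filter fun h => a * h ∈ F).card : ℝ) := by
  have h : ((UU S M ρ Y 3 3 0).filter fun t => dd t ∈ F).card ≤
      ((AA S Y).sigma fun a => (HH S M ρ a 1).filter fun h => a * h ∈ F).card := by
    apply Finset.card_le_card_of_injOn (fun t => (⟨t.1, t.2.2⟩ : Σ _ : ℕ, ℕ))
    · intro t ht
      obtain ⟨h1, h2⟩ := Finset.mem_filter.1 (Finset.mem_coe.1 ht)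
      obtain ⟨h3, h4, h5⟩ := mem_UU0 h1
      apply Finset.mem_coe.2
      refine Finset.mem_sigma.2 ⟨h3, Finset.mem_filter.2 ⟨h5, ?_⟩⟩
      unfold dd at h2
      rw [h4, Finset.prod_empty, mul_one] at h2
      exact h2
    · intro t ht t' ht' he
      obtain ⟨h1, -⟩ := Finset.mem_filter.1 (Finset.mem_coe.1 ht)
      obtain ⟨h1', -⟩ := Finset.mem_filter.1 (Finset.mem_coe.1 ht')
      obtain ⟨-, h4, -⟩ := mem_UU0 h1
      obtain ⟨-, h4', -⟩ := mem_UU0 h1'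
      simp only [Sigma.mk.injEq, heq_eq_eq] at he
      exact Prod.ext he.1 (Prod.ext (h4.trans h4'.symm) he.2)
  rw [Finset.card_sigma] at h
  exact_mod_cast h

theorem card_AA_le {S : Set ℕ} {Y : ℝ} (hY : 0 ≤ Y) : ((AA S Y).card : ℝ) ≤ Y := by
  have h1 : (AA S Y).card ≤ (Icc 1 ⌊Y⌋₊).card := by
    apply Finset.card_le_card
    intro a ha
    exact (Finset.mem_filter.1 (Finset.mem_filter.1 ha).1).1
  rw [Nat.card_Icc, Nat.add_sub_cancel] at h1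
  exact le_trans (by exact_mod_cast h1) (Nat.floor_le hY)

/-- sum over `a` of the bound for one killer -/
theorem sum_a {S : Set ℕ} {Y C₀ s Q PP W : ℝ} (hY : 0 ≤ Y) (hC : 0 ≤ C₀) (hW : 0 ≤ W) :
    ∑ a ∈ AA S Y, (C₀ * a * PP / (s * Q) + C₀ * W * Real.sqrt a + C₀) ≤
      C₀ * PP * (∑ a ∈ AA S Y, (a : ℝ)) / (s * Q) + Y * (C₀ * W * Real.sqrt Y + C₀) := by
  have e : ∀ a : ℕ, C₀ * a * PP / (s * Q) + C₀ * W * Real.sqrt a + C₀ =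
      C₀ * PP / (s * Q) * a + (C₀ * W * Real.sqrt a + C₀) := by
    intro a
    ring
  simp only [e]
  rw [Finset.sum_add_distrib, ← Finset.mul_sum]
  have e2 : C₀ * PP * (∑ a ∈ AA S Y, (a : ℝ)) / (s * Q) =
      C₀ * PP / (s * Q) * ∑ a ∈ AA S Y, (a : ℝ) := by ring
  rw [e2]
  have h0 : 0 ≤ C₀ * W * Real.sqrt Y + C₀ := by positivity
  have h : ∑ a ∈ AA S Y, (C₀ * W * Real.sqrt a + C₀) ≤ Y * (C₀ * W * Real.sqrt Y + C₀) := by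
    calc ∑ a ∈ AA S Y, (C₀ * W * Real.sqrt a + C₀) ≤
        ∑ _a ∈ AA S Y, (C₀ * W * Real.sqrt Y + C₀) := by
          apply Finset.sum_le_sum
          intro a ha
          have h1 := Real.sqrt_le_sqrt (mem_AA hY ha).2.2.1
          have h2 : 0 ≤ C₀ * W := mul_nonneg hC hW
          nlinarith
      _ = ((AA S Y).card : ℝ) * (C₀ * W * Real.sqrt Y + C₀) := by
          rw [Finset.sum_const, nsmul_eq_mul]
      _ ≤ _ := mul_le_mul_of_nonneg_right (card_AA_le hY) h0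
  linarith

lemma ev_log_le {b : ℝ} (C : ℝ) (hb : 0 < b) : ∀ᶠ L : ℝ in atTop, C * Real.log L ≤ L ^ b := by
  have h1 := (isLittleO_log_rpow_atTop hb).def (c := 1 / (|C| + 1)) (by positivity)
  filter_upwards [h1, eventually_gt_atTop (0:ℝ)] with L hL hL0
  rw [Real.norm_eq_abs, Real.norm_of_nonneg (Real.rpow_nonneg hL0.le _)] at hL
  have h2 : (|C| + 1) * |Real.log L| ≤ L ^ b := by
    have h3 : (0:ℝ) < |C| + 1 := by positivity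
    calc (|C| + 1) * |Real.log L| ≤ (|C| + 1) * (1 / (|C| + 1) * L ^ b) :=
          mul_le_mul_of_nonneg_left hL h3.le
      _ = L ^ b := by field_simp
  calc C * Real.log L ≤ |C * Real.log L| := le_abs_self _
    _ = |C| * |Real.log L| := abs_mul _ _
    _ ≤ (|C| + 1) * |Real.log L| := by nlinarith [abs_nonneg (Real.log L)]
    _ ≤ L ^ b := h2

lemma ev_two (C : ℝ) {δ : ℝ} (hδ : 0 < δ) :
    ∀ᶠ Y : ℝ in atTop, C * Y ^ (2 - δ) ≤ Y ^ 2 / Real.log Y := by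
  filter_upwards [ev_log_le C hδ, eventually_gt_atTop (1 : ℝ)] with Y h1 h2
  have h0 : 0 < Y := by linarith
  have hl : 0 < Real.log Y := Real.log_pos h2
  rw [le_div_iff₀ hl]
  have h3 : Y ^ (2 - δ) * Y ^ δ = Y ^ 2 := by
    rw [← Real.rpow_add h0, ← Real.rpow_natCast]
    congr 1
    push_cast
    ring
  have h4 : 0 ≤ Y ^ (2 - δ) := Real.rpow_nonneg h0.le _
  nlinarith

/-- all inequalities that are needed for large `Y` -/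
structure Good (ε ε₁ C₀ C₁ W κ c x Y : ℝ) : Prop where
  g1 : 32 ≤ Y
  g2 : x ≤ Real.sqrt Y
  g3 : Y ^ (1 / 2 : ℝ) ≤ c / 2 * Y / Real.log Y
  g4 : Y ^ (1 / 4 : ℝ) * (Y * (C₀ * W * Real.sqrt Y + C₀)) + ((16 * Y ^ 4) ^ (1 / 2 - ε) +
    14 * Y ^ 2 * (C₁ * (Real.sqrt Y) ^ (-ε))) + Y ^ (2 - ε₁) ≤ κ * (Y ^ 2 / Real.log Y)
  g5 : (2 * Y ^ 2) ^ (1 / 2 + ε₁ / 8) ≤ Y ^ (1 + ε₁)

lemma ev_good {ε ε₁ C₀ C₁ W κ c : ℝ} (x : ℝ) (hε : 0 < ε) (hε2 : ε < 1 / 2) (hε₁ : 0 < ε₁)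
    (hε₁1 : ε₁ < 1) (hκ : 0 < κ) (hc : 0 < c) :
    ∀ᶠ Y : ℝ in atTop, Good ε ε₁ C₀ C₁ W κ c x Y := by
  filter_upwards [eventually_ge_atTop (32 : ℝ), eventually_ge_atTop (x ^ 2),
    ev_log_le (2 / c) (show (0 : ℝ) < 1 / 2 by norm_num),
    ev_two (C₀ * W * (4 / κ)) (show (0 : ℝ) < 1 / 4 by norm_num),
    ev_two (C₀ * (4 / κ)) (show (0 : ℝ) < 3 / 4 by norm_num),
    ev_two (16 * (8 / κ)) (show (0 : ℝ) < 4 * ε by positivity),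
    ev_two (14 * C₁ * (8 / κ)) (show (0 : ℝ) < ε / 2 by positivity),
    ev_two (4 / κ) hε₁,
    (tendsto_rpow_atTop (show (0 : ℝ) < ε₁ * (3 / 4) by positivity)).eventually_ge_atTop (4 : ℝ)]
    with Y a1 a2 a3 a4 a5 a6 a7 a8 a9
  have h0 : 0 < Y := by linarith
  have h1 : 1 ≤ Y := by linarith
  have hl : 0 < Real.log Y := Real.log_pos (by linarith)
  refine ⟨a1, ?_, ?_, ?_, ?_⟩
  · exact Real.le_sqrt_of_sq_le a2
  · rw [le_div_iff₀ hl]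
    have h2 : Y ^ (1 / 2 : ℝ) * Y ^ (1 / 2 : ℝ) = Y := by
      rw [← Real.rpow_add h0]; norm_num
    have h3 : 2 / c * Real.log Y ≤ Y ^ (1 / 2 : ℝ) := a3
    have h4 : Real.log Y ≤ c / 2 * Y ^ (1 / 2 : ℝ) := by
      calc Real.log Y = c / 2 * (2 / c * Real.log Y) := by field_simp
        _ ≤ _ := mul_le_mul_of_nonneg_left h3 (by positivity)
    calc Y ^ (1 / 2 : ℝ) * Real.log Y ≤ Y ^ (1 / 2 : ℝ) * (c / 2 * Y ^ (1 / 2 : ℝ)) :=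
          mul_le_mul_of_nonneg_left h4 (Real.rpow_nonneg h0.le _)
      _ = c / 2 * (Y ^ (1 / 2 : ℝ) * Y ^ (1 / 2 : ℝ)) := by ring
      _ = c / 2 * Y := by rw [h2]
  · set X : ℝ := Y ^ 2 / Real.log Y with hX
    have key : ∀ A B k : ℝ, 0 < k → A * (k / κ) * B ≤ X → A * B ≤ κ / k * X := by
      intro A B k hk h
      calc A * B = κ / k * (A * (k / κ) * B) := by field_simp
        _ ≤ κ / k * X := mul_le_mul_of_nonneg_left h (by positivity)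
    have b4 := key _ _ 4 (by norm_num) a4
    have b5 := key _ _ 4 (by norm_num) a5
    have b6 := key _ _ 8 (by norm_num) a6
    have b7 := key _ _ 8 (by norm_num) a7
    have b8 := key 1 (Y ^ (2 - ε₁)) 4 (by norm_num) (by rw [one_mul]; exact a8)
    have e1 : Y ^ (1 / 4 : ℝ) * (Y * (C₀ * W * Real.sqrt Y + C₀)) =
        C₀ * W * Y ^ (2 - 1 / 4 : ℝ) + C₀ * Y ^ (2 - 3 / 4 : ℝ) := by
      have e2 : Y ^ (1 / 4 : ℝ) * (Y * Real.sqrt Y) = Y ^ (2 - 1 / 4 : ℝ) := by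
        rw [Real.sqrt_eq_rpow]
        nth_rewrite 2 [← Real.rpow_one Y]
        rw [← Real.rpow_add h0, ← Real.rpow_add h0]
        norm_num
      have e3 : Y ^ (1 / 4 : ℝ) * Y = Y ^ (2 - 3 / 4 : ℝ) := by
        nth_rewrite 2 [← Real.rpow_one Y]
        rw [← Real.rpow_add h0]
        norm_num
      rw [← e2, ← e3]
      ring
    have e4 : (16 * Y ^ 4) ^ (1 / 2 - ε) ≤ 16 * Y ^ (2 - 4 * ε) := by
      rw [Real.mul_rpow (by norm_num) (by positivity), ← Real.rpow_natCast, ← Real.rpow_mul h0.le]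
      have e5 : ((4 : ℕ) : ℝ) * (1 / 2 - ε) = 2 - 4 * ε := by push_cast; ring
      rw [e5]
      apply mul_le_mul_of_nonneg_right _ (Real.rpow_nonneg h0.le _)
      calc (16 : ℝ) ^ (1 / 2 - ε) ≤ 16 ^ (1 : ℝ) :=
            Real.rpow_le_rpow_of_exponent_le (by norm_num) (by linarith)
        _ = 16 := Real.rpow_one _
    have e6 : 14 * Y ^ 2 * (C₁ * (Real.sqrt Y) ^ (-ε)) = 14 * C₁ * Y ^ (2 - ε / 2) := by
      rw [Real.sqrt_eq_rpow, ← Real.rpow_mul h0.le]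
      have e7 : Y ^ (2 - ε / 2) = Y ^ 2 * Y ^ (1 / 2 * -ε) := by
        rw [← Real.rpow_natCast, ← Real.rpow_add h0]
        congr 1
        push_cast
        ring
      rw [e7]
      ring
    rw [e1, e6]
    have b8' : Y ^ (2 - ε₁) ≤ κ / 4 * X := by linarith
    have e9 : κ / 4 * X + κ / 4 * X + (κ / 8 * X + κ / 8 * X) + κ / 4 * X = κ * X := by ring
    linarith
  · have e1 : (2 * Y ^ 2) ^ (1 / 2 + ε₁ / 8) ≤ 4 * Y ^ (1 + ε₁ / 4) := by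
      rw [Real.mul_rpow (by norm_num) (by positivity), ← Real.rpow_natCast, ← Real.rpow_mul h0.le]
      have e5 : ((2 : ℕ) : ℝ) * (1 / 2 + ε₁ / 8) = 1 + ε₁ / 4 := by push_cast; ring
      rw [e5]
      apply mul_le_mul_of_nonneg_right _ (Real.rpow_nonneg h0.le _)
      calc (2 : ℝ) ^ (1 / 2 + ε₁ / 8) ≤ 2 ^ (2 : ℝ) :=
            Real.rpow_le_rpow_of_exponent_le (by norm_num) (by linarith)
        _ = 4 := by norm_num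
    refine e1.trans ?_
    have e2 : Y ^ (1 + ε₁) = Y ^ (ε₁ * (3 / 4)) * Y ^ (1 + ε₁ / 4) := by
      rw [← Real.rpow_add h0]
      congr 1
      ring
    rw [e2]
    exact mul_le_mul_of_nonneg_right a9 (Real.rpow_nonneg h0.le _)

/-- many `a` -/
theorem sum_AA {S : Set ℕ} {c Y : ℝ} (hY : 32 ≤ Y)
    (h1 : c * Y / Real.log Y ≤ ((pri (Y / 16) Y).card : ℝ)) (h2 : NS S Y ≤ Y ^ (1 / 2 : ℝ))
    (h3 : Y ^ (1 / 2 : ℝ) ≤ c / 2 * Y / Real.log Y) :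
    c / 32 * (Y ^ 2 / Real.log Y) ≤ ∑ a ∈ AA S Y, (a : ℝ) := by
  have h0 : 0 ≤ Y := by linarith
  have h4 : ((pri (Y / 16) Y).card : ℝ) ≤ ((AA S Y).card : ℝ) + NS S Y := by
    have e := Finset.card_filter_add_card_filter_not (s := pri (Y / 16) Y) (fun l : ℕ => l ∉ S)
    have h5 : ((((pri (Y / 16) Y).filter fun l : ℕ => ¬ l ∉ S).card : ℕ) : ℝ) ≤ NS S Y := by
      apply card_le_NS
      intro p hp
      obtain ⟨hp1, hp2⟩ := Finset.mem_filter.1 hp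
      refine ⟨not_not.1 hp2, ?_⟩
      have := (Finset.mem_Icc.1 (Finset.mem_filter.1 hp1).1).2
      exact (Nat.le_floor_iff h0).1 this
    have e' : ((pri (Y / 16) Y).card : ℝ) = ((AA S Y).card : ℝ) +
        (((pri (Y / 16) Y).filter fun l : ℕ => ¬ l ∉ S).card : ℝ) := by
      unfold AA
      exact_mod_cast e.symm
    linarith
  have h6 : c / 2 * Y / Real.log Y ≤ ((AA S Y).card : ℝ) := by
    have : c * Y / Real.log Y = c / 2 * Y / Real.log Y + c / 2 * Y / Real.log Y := by ring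
    linarith
  calc c / 32 * (Y ^ 2 / Real.log Y) = (c / 2 * Y / Real.log Y) * (Y / 16) := by ring
    _ ≤ ((AA S Y).card : ℝ) * (Y / 16) := mul_le_mul_of_nonneg_right h6 (by positivity)
    _ = ∑ _a ∈ AA S Y, Y / 16 := by rw [Finset.sum_const, nsmul_eq_mul]
    _ ≤ ∑ a ∈ AA S Y, (a : ℝ) := Finset.sum_le_sum fun a ha => (mem_AA h0 ha).2.1.le

theorem inv_le_rpow {q : ℕ} (hq : 0 < q) : 1 / (q : ℝ) ≤ (q : ℝ) ^ (-(1 / 2 : ℝ)) := by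
  have h1 : (1 : ℝ) ≤ q := by exact_mod_cast hq
  calc 1 / (q : ℝ) = (q : ℝ) ^ (-1 : ℝ) := by rw [Real.rpow_neg_one, one_div]
    _ ≤ _ := Real.rpow_le_rpow_of_exponent_le h1 (by norm_num)

theorem inv_sqrt (q : ℕ) : 1 / Real.sqrt (q : ℝ) = (q : ℝ) ^ (-(1 / 2 : ℝ)) := by
  rw [Real.rpow_neg (Nat.cast_nonneg q), ← Real.sqrt_eq_rpow, one_div]

/-- abstract counting of killed objects -/
theorem upper {τ : Type*} {S : Set ℕ} {W : Finset τ} {pf : τ → ℕ} {C₁ ε y₀ s w v α β γ : ℝ}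
    (hTAI : ∀ (y : ℝ) (G : Finset ℕ), 1 ≤ y → (∀ p ∈ G, p ∈ S ∧ y < (p : ℝ)) →
      ∑ p ∈ G, (p : ℝ) ^ (-(1 / 2 : ℝ)) ≤ C₁ * y ^ (-ε))
    (hα : 0 ≤ α) (hβ : 0 ≤ β) (hγ : 0 ≤ γ) (hy₀ : 1 ≤ y₀) (hs : 1 ≤ s)
    (hmem : ∀ t ∈ W, pf t ∈ S ∧ y₀ < (pf t : ℝ) ∧ (pf t : ℝ) ≤ v)
    (A1 : ∀ p ∈ S, y₀ < (p : ℝ) → ((W.filter fun t => pf t = p).card : ℝ) ≤
      α * (p : ℝ) ^ (-(1 / 2 : ℝ)) + β)
    (A2 : ∀ p ∈ S, ((W.filter fun t => pf t = p).card : ℝ) ≤ 1 + γ * (p : ℝ) ^ (-(1 / 2 : ℝ)))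
    (A3 : ∀ p ∈ S, w < (p : ℝ) → ((W.filter fun t => pf t = p).card : ℝ) ≤ 1) :
    (W.card : ℝ) ≤ α * (C₁ * y₀ ^ (-ε)) + NS S s * β + (NS S w + γ * (C₁ * s ^ (-ε))) + NS S v := by
  have hmem' : ∀ p ∈ W.image pf, p ∈ S ∧ y₀ < (p : ℝ) ∧ (p : ℝ) ≤ v := by
    intro p hp
    obtain ⟨t, ht, rfl⟩ := Finset.mem_image.1 hp
    exact hmem t ht
  have hNsum : (W.card : ℝ) = ∑ p ∈ W.image pf, ((W.filter fun t => pf t = p).card : ℝ) := by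
    rw [Finset.card_eq_sum_card_image pf W]
    push_cast
    rfl
  rw [← Finset.sum_filter_add_sum_filter_not (W.image pf) (fun p : ℕ => (p : ℝ) ≤ s),
    ← Finset.sum_filter_add_sum_filter_not ((W.image pf).filter fun p : ℕ => ¬ (p : ℝ) ≤ s)
      (fun p : ℕ => (p : ℝ) ≤ w)] at hNsum
  generalize W.image pf = I at hmem' hNsum
  have hr1 : ∑ p ∈ I.filter (fun p : ℕ => (p : ℝ) ≤ s), ((W.filter fun t => pf t = p).card : ℝ) ≤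
      α * (C₁ * y₀ ^ (-ε)) + NS S s * β := by
    have e1 : ∀ p ∈ I.filter (fun p : ℕ => (p : ℝ) ≤ s),
        ((W.filter fun t => pf t = p).card : ℝ) ≤ α * (p : ℝ) ^ (-(1 / 2 : ℝ)) + β := by
      intro p hp
      obtain ⟨hp1, hp2⟩ := Finset.mem_filter.1 hp
      exact A1 p (hmem' p hp1).1 (hmem' p hp1).2.1
    refine (Finset.sum_le_sum e1).trans ?_
    rw [Finset.sum_add_distrib, ← Finset.mul_sum, Finset.sum_const, nsmul_eq_mul]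
    apply add_le_add
    · apply mul_le_mul_of_nonneg_left _ hα
      apply hTAI _ _ hy₀
      intro p hp
      obtain ⟨hp1, -⟩ := Finset.mem_filter.1 hp
      exact ⟨(hmem' p hp1).1, (hmem' p hp1).2.1⟩
    · apply mul_le_mul_of_nonneg_right _ hβ
      apply card_le_NS
      intro p hp
      obtain ⟨hp1, hp2⟩ := Finset.mem_filter.1 hp
      exact ⟨(hmem' p hp1).1, hp2⟩
  have hr2 : ∑ p ∈ (I.filter (fun p : ℕ => ¬ (p : ℝ) ≤ s)).filter (fun p : ℕ => (p : ℝ) ≤ w),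
      ((W.filter fun t => pf t = p).card : ℝ) ≤ NS S w + γ * (C₁ * s ^ (-ε)) := by
    have e1 : ∀ p ∈ (I.filter (fun p : ℕ => ¬ (p : ℝ) ≤ s)).filter (fun p : ℕ => (p : ℝ) ≤ w),
        ((W.filter fun t => pf t = p).card : ℝ) ≤ 1 + γ * (p : ℝ) ^ (-(1 / 2 : ℝ)) := by
      intro p hp
      obtain ⟨hp1, hp2⟩ := Finset.mem_filter.1 hp
      exact A2 p (hmem' p (Finset.mem_filter.1 hp1).1).1
    refine (Finset.sum_le_sum e1).trans ?_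
    rw [Finset.sum_add_distrib, ← Finset.mul_sum, Finset.sum_const, nsmul_eq_mul, mul_one]
    apply add_le_add
    · apply card_le_NS
      intro p hp
      obtain ⟨hp1, hp2⟩ := Finset.mem_filter.1 hp
      exact ⟨(hmem' p (Finset.mem_filter.1 hp1).1).1, hp2⟩
    · apply mul_le_mul_of_nonneg_left _ hγ
      apply hTAI _ _ hs
      intro p hp
      obtain ⟨hp1, hp2⟩ := Finset.mem_filter.1 hp
      obtain ⟨hp3, hp4⟩ := Finset.mem_filter.1 hp1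
      exact ⟨(hmem' p hp3).1, not_le.1 hp4⟩
  have hr3 : ∑ p ∈ (I.filter (fun p : ℕ => ¬ (p : ℝ) ≤ s)).filter (fun p : ℕ => ¬ (p : ℝ) ≤ w),
      ((W.filter fun t => pf t = p).card : ℝ) ≤ NS S v := by
    have e1 : ∀ p ∈ (I.filter (fun p : ℕ => ¬ (p : ℝ) ≤ s)).filter (fun p : ℕ => ¬ (p : ℝ) ≤ w),
        ((W.filter fun t => pf t = p).card : ℝ) ≤ 1 := by
      intro p hp
      obtain ⟨hp1, hp2⟩ := Finset.mem_filter.1 hp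
      exact A3 p (hmem' p (Finset.mem_filter.1 hp1).1).1 (not_le.1 hp2)
    refine (Finset.sum_le_sum e1).trans ?_
    rw [Finset.sum_const, nsmul_eq_mul, mul_one]
    apply card_le_NS
    intro p hp
    obtain ⟨hp1, hp2⟩ := Finset.mem_filter.1 hp
    have := hmem' p (Finset.mem_filter.1 hp1).1
    exact ⟨this.1, this.2.2⟩
  linarith

/-- one killer, all `a` -/
theorem one_p {S : Set ℕ} {M : ℕ} {ρ C₀ E Y : ℝ} {p : ℕ} {P : Finset ℕ} {F : Set ℕ}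
    (hC : ∀ (p a M b : ℕ) (P : Finset ℕ) (F : Set ℕ),
      p.Prime → p ≠ 2 → a.Prime → a ≠ 2 → a ≠ p → 0 < M →
      (∀ r ∈ P, r.Prime ∧ r ≠ 2 ∧ ¬ r ∣ M ∧ r ≠ p ∧ ¬ r ∣ b) → (∀ D ∈ F, 0 < D ∧ Squarefree D) →
      Bin p F →
      ((((Icc 1 (2 * a)).filter fun c : ℕ => a * c ∈ F ∧ c ≡ b [MOD (M * ∏ r ∈ P, r)]).card : ℕ) : ℝ) ≤
        C₀ * a * (∏ r ∈ P, (1 + 1 / (r : ℝ))) / (Real.sqrt p * ∏ r ∈ P, (r : ℝ)) +
          C₀ * ((M : ℝ) * ∏ r ∈ P, (r : ℝ)) ^ 2 * Real.sqrt a + C₀)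
    (hY : 32 ≤ Y) (hp : p.Prime) (hpS : p ∈ S) (hp2 : p ≠ 2) (hM : 0 < M)
    (hP : ∀ r ∈ P, r.Prime ∧ r ≠ 2 ∧ ¬ r ∣ M ∧ r ≠ p) (hF : ∀ D ∈ F, 0 < D ∧ Squarefree D)
    (hB : Bin p F) (hC0 : 0 < C₀) (hPP : ∏ r ∈ P, (1 + 1 / (r : ℝ)) ≤ E) :
    (((UU S (M * ∏ r ∈ P, r) ρ Y 3 3 0).filter fun t => dd t ∈ F).card : ℝ) ≤
      C₀ * E * (∑ a ∈ AA S Y, (a : ℝ)) / (∏ r ∈ P, (r : ℝ)) * (p : ℝ) ^ (-(1 / 2 : ℝ)) +
        Y * (C₀ * ((M : ℝ) * ∏ r ∈ P, (r : ℝ)) ^ 2 * Real.sqrt Y + C₀) := by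
  have hY0 : 0 ≤ Y := by linarith
  have hp0 : (0 : ℝ) < p := by exact_mod_cast hp.pos
  have hQ : (0 : ℝ) < ∏ r ∈ P, (r : ℝ) :=
    Finset.prod_pos fun r hr => by exact_mod_cast (hP r hr).1.pos
  have hR0 : 0 ≤ ∑ a ∈ AA S Y, (a : ℝ) := Finset.sum_nonneg fun a _ => Nat.cast_nonneg a
  refine fib_le.trans ?_
  refine (Finset.sum_le_sum (g := fun a : ℕ => C₀ * a * (∏ r ∈ P, (1 + 1 / (r : ℝ))) /
    (Real.sqrt p * ∏ r ∈ P, (r : ℝ)) + C₀ * ((M : ℝ) * ∏ r ∈ P, (r : ℝ)) ^ 2 * Real.sqrt a + C₀)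
    ?_).trans ?_
  · intro a ha
    obtain ⟨m1, m2, m3, m4⟩ := mem_AA hY0 ha
    apply one_a hC hp hp2 m1 _ _ hM hP hF hB hC0.le
    · rintro rfl
      have : Y / 16 < 2 := by exact_mod_cast m2
      linarith
    · rintro rfl
      exact m4 hpS
  · refine (sum_a hY0 hC0.le (by positivity)).trans ?_
    apply add_le_add_left
    rw [← inv_sqrt]
    have hs : 0 < Real.sqrt (p : ℝ) := Real.sqrt_pos.2 hp0
    have hsQ : 0 < Real.sqrt p * ∏ r ∈ P, (r : ℝ) := mul_pos hs hQ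
    have e : C₀ * E * (∑ a ∈ AA S Y, (a : ℝ)) / (∏ r ∈ P, (r : ℝ)) * (1 / Real.sqrt p) =
        C₀ * E * (∑ a ∈ AA S Y, (a : ℝ)) / (Real.sqrt p * ∏ r ∈ P, (r : ℝ)) := by
      field_simp
    rw [e]
    apply div_le_div_of_nonneg_right _ hsQ.le
    apply mul_le_mul_of_nonneg_right _ hR0
    exact mul_le_mul_of_nonneg_left hPP hC0.le

/-- tuples in `F` are counted by their numbers -/
theorem tup_F {S : Set ℕ} {M : ℕ} {ρ Y : ℝ} {F : Set ℕ}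
    (t1 : ∀ t ∈ UU S M ρ Y 3 3 0, (dd t : ℝ) ≤ 2 * Y ^ 2)
    (t2 : ∀ D : ℕ, ((((UU S M ρ Y 3 3 0).filter fun t => dd t = D).card : ℕ) : ℝ) ≤ 1) :
    (((UU S M ρ Y 3 3 0).filter fun t => dd t ∈ F).card : ℝ) ≤ NS F (2 * Y ^ 2) := by
  have := card_tuples (W := (UU S M ρ Y 3 3 0).filter fun t => dd t ∈ F) (F := F)
    (x := 2 * Y ^ 2) (c := 1) zero_le_one (by
      intro t ht
      obtain ⟨ht1, ht2⟩ := Finset.mem_filter.1 ht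
      exact ⟨ht2, t1 t ht1⟩) (by
      intro D
      refine le_trans ?_ (t2 D)
      have : (((UU S M ρ Y 3 3 0).filter fun t => dd t ∈ F).filter fun t => dd t = D).card ≤
          ((UU S M ρ Y 3 3 0).filter fun t => dd t = D).card := by
        apply Finset.card_le_card
        intro t ht
        obtain ⟨ht1, ht2⟩ := Finset.mem_filter.1 ht
        exact Finset.mem_filter.2 ⟨(Finset.mem_filter.1 ht1).1, ht2⟩
      exact_mod_cast this)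
  rwa [mul_one] at this

/-- the final arithmetic -/
theorem final {q c X R N a b d e f u C₀ E C₁' Q : ℝ} (_hq : 0 ≤ q) (hR : c / 32 * X ≤ R)
    (hN : 4 * q * R ≤ N) (h2 : b + d + e ≤ 2 * q * (c / 32) * X)
    (hu : N ≤ C₀ * E * R / Q * C₁' + a + f + u) (h3 : C₀ * E * C₁' * (1 / Q) ≤ q) (hR0 : 0 ≤ R)
    (ha : a ≤ b) (hf : f ≤ d) : e ≤ u := by
  have k3 : q * (c / 32 * X) ≤ q * R := mul_le_mul_of_nonneg_left hR _hq
  have k4 : C₀ * E * R / Q * C₁' ≤ q * R := by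
    calc C₀ * E * R / Q * C₁' = C₀ * E * C₁' * (1 / Q) * R := by ring
      _ ≤ q * R := mul_le_mul_of_nonneg_right h3 hR0
  have k5 : 0 ≤ q * R := mul_nonneg _hq hR0
  have k6 : 2 * q * (c / 32) * X = 2 * (q * (c / 32 * X)) := by ring
  have k7 : 4 * q * R = 4 * (q * R) := by ring
  linarith

/-- the choice of `y₀` -/
theorem choose_y {C₁ ε A B : ℝ} (hC : 0 < C₁) (hε : 0 < ε) (hA : 0 < A) (hB : 0 < B) :
    ∃ y₀ : ℝ, 1 ≤ y₀ ∧ C₁ * y₀ ^ (-ε) ≤ A ∧ B * (C₁ * y₀ ^ (-ε)) ≤ A := by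
  have ht := tendsto_rpow_neg_atTop hε
  have e1 := ht.eventually_le_const (show (0 : ℝ) < A / C₁ by positivity)
  have e2 := ht.eventually_le_const (show (0 : ℝ) < A / (B * C₁) by positivity)
  obtain ⟨y, hy1, hy2, hy3⟩ := (e1.and (e2.and (eventually_ge_atTop (1 : ℝ)))).exists
  refine ⟨y, hy3, ?_, ?_⟩
  · rw [le_div_iff₀ (by positivity)] at hy1
    linarith
  · rw [le_div_iff₀ (by positivity)] at hy2
    linarith

/-- the primes `≤ y₀` of `S` that do not divide `M` -/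
theorem choose_P {S : Set ℕ} {M : ℕ} {C₁ ε y₀ : ℝ} (hS : ∀ p ∈ S, p.Prime ∧ p ≠ 2) (hM : 0 < M)
    (hTAI : ∀ (y : ℝ) (G : Finset ℕ), 1 ≤ y → (∀ p ∈ G, p ∈ S ∧ y < (p : ℝ)) →
      ∑ p ∈ G, (p : ℝ) ^ (-(1 / 2 : ℝ)) ≤ C₁ * y ^ (-ε)) (hy₀ : 0 ≤ y₀) :
    ∃ P : Finset ℕ, (∀ r ∈ P, r ∈ S ∧ ¬ r ∣ M ∧ (r : ℝ) ≤ y₀) ∧ (0 : ℝ) < ∏ r ∈ P, (r : ℝ) ∧
      0 < M * ∏ r ∈ P, r ∧ (∀ p ∈ S, (p : ℝ) ≤ y₀ → p ∣ M * ∏ r ∈ P, r) ∧
      ∏ r ∈ P, (1 + 1 / (r : ℝ)) ≤ Real.exp C₁ := by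
  have hP : ∀ r ∈ (Icc 1 ⌊y₀⌋₊).filter (fun r : ℕ => r ∈ S ∧ ¬ r ∣ M),
      r ∈ S ∧ ¬ r ∣ M ∧ (r : ℝ) ≤ y₀ := by
    intro r hr
    obtain ⟨hr1, hr2, hr3⟩ := Finset.mem_filter.1 hr
    exact ⟨hr2, hr3, (Nat.le_floor_iff hy₀).1 (Finset.mem_Icc.1 hr1).2⟩
  refine ⟨(Icc 1 ⌊y₀⌋₊).filter (fun r : ℕ => r ∈ S ∧ ¬ r ∣ M), hP, ?_, ?_, ?_, ?_⟩
  · exact Finset.prod_pos fun r hr => by exact_mod_cast (hS r (hP r hr).1).1.pos
  · exact Nat.mul_pos hM (Finset.prod_pos fun r hr => (hS r (hP r hr).1).1.pos)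
  · intro p hp hpy
    by_cases hpM : p ∣ M
    · exact hpM.mul_right _
    · apply Dvd.dvd.mul_left
      apply Finset.dvd_prod_of_mem
      exact Finset.mem_filter.2
        ⟨Finset.mem_Icc.2 ⟨(hS p hp).1.one_lt.le, Nat.le_floor hpy⟩, hp, hpM⟩
  · calc ∏ r ∈ (Icc 1 ⌊y₀⌋₊).filter (fun r : ℕ => r ∈ S ∧ ¬ r ∣ M), (1 + 1 / (r : ℝ)) ≤
        ∏ r ∈ (Icc 1 ⌊y₀⌋₊).filter (fun r : ℕ => r ∈ S ∧ ¬ r ∣ M), Real.exp (1 / (r : ℝ)) := by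
          apply Finset.prod_le_prod
          · intro r _; positivity
          · intro r _
            rw [add_comm]
            exact Real.add_one_le_exp _
      _ = Real.exp (∑ r ∈ (Icc 1 ⌊y₀⌋₊).filter (fun r : ℕ => r ∈ S ∧ ¬ r ∣ M), 1 / (r : ℝ)) :=
          (Real.exp_sum _ _).symm
      _ ≤ Real.exp C₁ := by
          apply Real.exp_le_exp.2
          refine (Finset.sum_le_sum fun q hq => inv_le_rpow (hS q (hP q hq).1).1.pos).trans ?_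
          have := hTAI 1 ((Icc 1 ⌊y₀⌋₊).filter (fun r : ℕ => r ∈ S ∧ ¬ r ∣ M)) le_rfl
            (fun q hq => ⟨(hP q hq).1, by exact_mod_cast (hS q (hP q hq).1).1.one_lt⟩)
          rwa [Real.one_rpow, mul_one] at this

/-- every tuple has a killer beyond `y₀` -/
theorem killers {S : Set ℕ} {K : ℕ → ℕ → Prop} {M Q D₀ : ℕ} {ρ ε₁ y₀ Y : ℝ} (hε₁ : 0 < ε₁)
    (H3 : ∀ p ∈ S, ∀ D : ℕ, K D p → ¬ p ∣ D + 1)
    (hdvd : ∀ p ∈ S, (p : ℝ) ≤ y₀ → p ∣ M * Q)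
    (hD₀ : ∀ D : ℕ, D₀ ≤ D → Adm M ρ D → (∃ q ∈ S, q ∣ D) ∨
      ∃ p ∈ S, ¬ p ∣ D ∧ K D p ∧ (p : ℝ) ≤ Real.exp ((D : ℝ) ^ (1 / 2 + ε₁ / 8)))
    (t1 : ∀ t ∈ UU S (M * Q) ρ Y 3 3 0, Adm (M * Q) ρ (dd t) ∧ (∀ q ∈ S, ¬ q ∣ dd t) ∧
      (dd t : ℝ) ≤ 2 * Y ^ 2 ∧ Y ^ 2 / 256 ≤ dd t ∧ (∀ l ∈ t.2.1, l ∣ dd t))
    (g5 : (2 * Y ^ 2) ^ (1 / 2 + ε₁ / 8) ≤ Y ^ (1 + ε₁)) (hY : 1 ≤ Y)
    (hYD : 256 * (D₀ : ℝ) ≤ Y) :
    ∀ t ∈ UU S (M * Q) ρ Y 3 3 0, ∃ p ∈ S, y₀ < (p : ℝ) ∧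
      dd t ∈ {D : ℕ | Adm M ρ D ∧ K D p} ∧ (p : ℝ) ≤ Real.exp (Y ^ (1 + ε₁)) := by
  intro t ht
  obtain ⟨hA, hnd, hle, hge, -⟩ := t1 t ht
  obtain ⟨a, b, q1, q2, q3, q4, q5, q6⟩ := hA
  have hAM : Adm M ρ (dd t) := ⟨a, b, q1, q2, q3, q4, q5, (Dvd.intro _ rfl).trans q6⟩
  have hDD : D₀ ≤ dd t := by
    have : (D₀ : ℝ) ≤ dd t := by nlinarith
    exact_mod_cast this
  rcases hD₀ (dd t) hDD hAM with ⟨q, hq, hqd⟩ | ⟨p, hp, hpd, hK, hpl⟩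
  · exact absurd hqd (hnd q hq)
  · refine ⟨p, hp, ?_, ⟨hAM, hK⟩, hpl.trans ?_⟩
    · by_contra hle
      exact H3 p hp (dd t) hK ((hdvd p hp (not_lt.1 hle)).trans q6)
    · apply Real.exp_le_exp.2
      refine le_trans ?_ g5
      exact Real.rpow_le_rpow (Nat.cast_nonneg _) hle (by positivity)

theorem lower {S : Set ℕ} {M a₀ : ℕ} {ρ m Y : ℝ} (hY : 0 ≤ Y) (hm : (M : ℝ) = m)
    (ha₀ : ∀ a : ℕ, a₀ ≤ a → a.Prime → (ρ - 1) * a / (4 * M) ≤ ((HH S M ρ a 1).card : ℝ))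
    (hYa : 16 * (a₀ : ℝ) ≤ Y) :
    4 * ((ρ - 1) / (16 * m)) * (∑ a ∈ AA S Y, (a : ℝ)) ≤ ((UU S M ρ Y 3 3 0).card : ℝ) := by
  refine le_trans ?_ (card_UU0 hY)
  rw [Finset.mul_sum]
  apply Finset.sum_le_sum
  intro a ha
  obtain ⟨m1, m2, m3, m4⟩ := mem_AA hY ha
  have : a₀ ≤ a := by
    have : (a₀ : ℝ) ≤ a := by linarith
    exact_mod_cast this
  have h7 := ha₀ a this m1
  rw [hm] at h7
  refine le_trans (le_of_eq ?_) h7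
  have : 4 * ((ρ - 1) / (16 * m)) = (ρ - 1) / (4 * m) := by
    rw [show (16 : ℝ) * m = 4 * (4 * m) by ring, ← div_div, mul_comm, ← mul_div_right_comm]
    rw [div_mul_cancel₀ _ (by norm_num : (4 : ℝ) ≠ 0)]
  rw [this]
  ring

/-- the inequality for one `Y` -/
theorem core {S : Set ℕ} {K : ℕ → ℕ → Prop} {M D₀ a₀ : ℕ} {ρ ε ε₁ C₀ C₁ c y₀ x Y : ℝ}
    {P : Finset ℕ} (hC : ∀ (p a M b : ℕ) (P : Finset ℕ) (F : Set ℕ),
      p.Prime → p ≠ 2 → a.Prime → a ≠ 2 → a ≠ p → 0 < M →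
      (∀ r ∈ P, r.Prime ∧ r ≠ 2 ∧ ¬ r ∣ M ∧ r ≠ p ∧ ¬ r ∣ b) → (∀ D ∈ F, 0 < D ∧ Squarefree D) →
      Bin p F →
      ((((Icc 1 (2 * a)).filter fun c : ℕ => a * c ∈ F ∧ c ≡ b [MOD (M * ∏ r ∈ P, r)]).card : ℕ) : ℝ) ≤
        C₀ * a * (∏ r ∈ P, (1 + 1 / (r : ℝ))) / (Real.sqrt p * ∏ r ∈ P, (r : ℝ)) +
          C₀ * ((M : ℝ) * ∏ r ∈ P, (r : ℝ)) ^ 2 * Real.sqrt a + C₀)
    (h4 : T_KIL) (h5 : T_TUP) (hM : 0 < M) (hρ1 : 1 < ρ) (hρ2 : ρ ≤ 2) (hC₀ : 0 < C₀)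
    (hS : ∀ p ∈ S, p.Prime ∧ p ≠ 2) (hBin : ∀ p ∈ S, Bin p {D : ℕ | Adm M ρ D ∧ K D p})
    (H3 : ∀ p ∈ S, ∀ D : ℕ, K D p → ¬ p ∣ D + 1)
    (hTAI : ∀ (y : ℝ) (G : Finset ℕ), 1 ≤ y → (∀ p ∈ G, p ∈ S ∧ y < (p : ℝ)) →
      ∑ p ∈ G, (p : ℝ) ^ (-(1 / 2 : ℝ)) ≤ C₁ * y ^ (-ε))
    (hy₀ : 1 ≤ y₀) (hy₀b : C₀ * Real.exp C₁ * (C₁ * y₀ ^ (-ε)) ≤ (ρ - 1) / (16 * M))
    (hε₁ : 0 < ε₁) (hε0 : 0 < ε)
    (hP : ∀ r ∈ P, r ∈ S ∧ ¬ r ∣ M ∧ (r : ℝ) ≤ y₀) (hQ : (0 : ℝ) < ∏ r ∈ P, (r : ℝ))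
    (hM'pos : 0 < M * ∏ r ∈ P, r) (hdvd : ∀ p ∈ S, (p : ℝ) ≤ y₀ → p ∣ M * ∏ r ∈ P, r)
    (hPP : ∏ r ∈ P, (1 + 1 / (r : ℝ)) ≤ Real.exp C₁)
    (ha₀ : ∀ a : ℕ, a₀ ≤ a → a.Prime → (ρ - 1) * a / (4 * (M * ∏ r ∈ P, r : ℕ)) ≤
      ((HH S (M * ∏ r ∈ P, r) ρ a 1).card : ℝ))
    (hD₀ : ∀ D : ℕ, D₀ ≤ D → Adm M ρ D → (∃ q ∈ S, q ∣ D) ∨
      ∃ p ∈ S, ¬ p ∣ D ∧ K D p ∧ (p : ℝ) ≤ Real.exp ((D : ℝ) ^ (1 / 2 + ε₁ / 8)))
    (hCheb : c * Y / Real.log Y ≤ ((pri (Y / 16) Y).card : ℝ))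
    (hg : Good ε ε₁ C₀ C₁ (((M : ℝ) * ∏ r ∈ P, (r : ℝ)) ^ 2)
      (2 * ((ρ - 1) / (16 * (M * ∏ r ∈ P, (r : ℝ)))) * (c / 32)) c x Y)
    (hYa : 16 * (a₀ : ℝ) ≤ Y) (hYD : 256 * (D₀ : ℝ) ≤ Y)
    (hNS : ∀ x : ℝ, Real.sqrt Y ≤ x → NS S x ≤ x ^ (1 / 2 - ε))
    (hsq1 : 1 ≤ Real.sqrt Y) (hsqY : Real.sqrt Y ≤ Y) :
    Y ^ (2 - ε₁) ≤ NS S (Real.exp (Y ^ (1 + ε₁))) := by
  obtain ⟨g1, -, g3, g4, g5⟩ := hg
  have hY0 : 0 ≤ Y := by linarith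
  have hY1 : 1 ≤ Y := by linarith
  have hSp : ∀ p ∈ S, p.Prime := fun p hp => (hS p hp).1
  have hMr : (0 : ℝ) < M := by exact_mod_cast hM
  obtain ⟨t1, t2, -⟩ := h5 S (M * ∏ r ∈ P, r) ρ Y 3 3 0 hSp hM'pos hρ1 hρ2 g1 (by norm_num) le_rfl
    (by rw [pow_zero]; linarith)
  rw [pow_zero] at t2
  have hkill := killers hε₁ H3 hdvd hD₀ t1 g5 hY1 hYD
  obtain ⟨F, hF⟩ : ∃ F : ℕ → Set ℕ, ∀ p, F p = {D : ℕ | Adm M ρ D ∧ K D p} := ⟨_, fun _ => rfl⟩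
  simp only [← hF] at hkill hBin
  have hFadm : ∀ p, ∀ D ∈ F p, 0 < D ∧ Squarefree D := by
    intro p D hD
    rw [hF] at hD
    exact adm_pos hD.1
  choose! pf hpf using hkill
  have hR : c / 32 * (Y ^ 2 / Real.log Y) ≤ ∑ a ∈ AA S Y, (a : ℝ) := by
    apply sum_AA g1 hCheb _ g3
    refine (hNS Y hsqY).trans ?_
    exact Real.rpow_le_rpow_of_exponent_le hY1 (by linarith)
  have hR0 : 0 ≤ ∑ a ∈ AA S Y, (a : ℝ) := Finset.sum_nonneg fun a _ => Nat.cast_nonneg a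
  have hN := lower (m := M * ∏ r ∈ P, (r : ℝ)) hY0 (by push_cast; rfl) ha₀ hYa
  have hT0 : (1 : ℝ) ≤ 2 * Y ^ 2 := by nlinarith
  have hkil := fun (p : ℕ) (hp : p ∈ S) => h4 p (F p) (hSp p hp) (hS p hp).2
    (hFadm p) (hBin p hp) (2 * Y ^ 2) hT0
  have hsub : ∀ p : ℕ, (((UU S (M * ∏ r ∈ P, r) ρ Y 3 3 0).filter fun t => pf t = p).card : ℝ) ≤
      (((UU S (M * ∏ r ∈ P, r) ρ Y 3 3 0).filter
        fun t => dd t ∈ F p).card : ℝ) := by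
    intro p
    have : ((UU S (M * ∏ r ∈ P, r) ρ Y 3 3 0).filter fun t => pf t = p).card ≤
      ((UU S (M * ∏ r ∈ P, r) ρ Y 3 3 0).filter
        fun t => dd t ∈ F p).card := by
      apply Finset.card_le_card
      intro t ht
      obtain ⟨ht1, ht2⟩ := Finset.mem_filter.1 ht
      refine Finset.mem_filter.2 ⟨ht1, ?_⟩
      have := (hpf t ht1).2.2.1
      rwa [ht2] at this
    exact_mod_cast this
  have hfib : ∀ p : ℕ, (((UU S (M * ∏ r ∈ P, r) ρ Y 3 3 0).filter fun t => pf t = p).card : ℝ) ≤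
      NS (F p) (2 * Y ^ 2) := fun p =>
    (hsub p).trans (tup_F (fun t ht => (t1 t ht).2.2.1) t2)
  have hu := upper (W := UU S (M * ∏ r ∈ P, r) ρ Y 3 3 0) (pf := pf) (y₀ := y₀)
    (s := Real.sqrt Y) (w := 16 * Y ^ 4) (v := Real.exp (Y ^ (1 + ε₁)))
    (α := C₀ * Real.exp C₁ * (∑ a ∈ AA S Y, (a : ℝ)) / (∏ r ∈ P, (r : ℝ)))
    (β := Y * (C₀ * ((M : ℝ) * ∏ r ∈ P, (r : ℝ)) ^ 2 * Real.sqrt Y + C₀))
    (γ := 14 * Y ^ 2) hTAI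
    (div_nonneg (mul_nonneg (mul_nonneg hC₀.le (Real.exp_pos _).le) hR0) hQ.le)
    (by positivity) (by positivity) hy₀ hsq1
    (fun t ht => ⟨(hpf t ht).1, (hpf t ht).2.1, (hpf t ht).2.2.2⟩)
    (fun p hp hpy => (hsub p).trans (one_p hC g1 (hSp p hp) hp (hS p hp).2 hM
      (fun r hr => ⟨hSp r (hP r hr).1, (hS r (hP r hr).1).2, (hP r hr).2.1, by
        rintro rfl
        exact absurd hpy (not_lt.2 (hP r hr).2.2)⟩)
      (hFadm p) (hBin p hp) hC₀ hPP))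
    (fun p hp => (hfib p).trans ((hkil p hp).1.trans (le_of_eq (by
      rw [← inv_sqrt]; ring))))
    (fun p hp hwp => (hfib p).trans ((hkil p hp).2.1 (by
      have e : 4 * (2 * Y ^ 2) ^ 2 = 16 * Y ^ 4 := by ring
      rw [e]
      exact hwp)))
  have hβ0 : 0 ≤ Y * (C₀ * ((M : ℝ) * ∏ r ∈ P, (r : ℝ)) ^ 2 * Real.sqrt Y + C₀) := by positivity
  refine final (q := (ρ - 1) / (16 * (M * ∏ r ∈ P, (r : ℝ)))) ?_ hR hN g4 hu ?_ hR0 ?_ ?_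
  · have : 0 < ρ - 1 := by linarith
    positivity
  · calc C₀ * Real.exp C₁ * (C₁ * y₀ ^ (-ε)) * (1 / ∏ r ∈ P, (r : ℝ)) ≤
        (ρ - 1) / (16 * M) * (1 / ∏ r ∈ P, (r : ℝ)) :=
          mul_le_mul_of_nonneg_right hy₀b (by positivity)
      _ = (ρ - 1) / (16 * (M * ∏ r ∈ P, (r : ℝ))) := by
          rw [← mul_assoc, div_mul_div_comm, mul_one]
  · apply mul_le_mul_of_nonneg_right _ hβ0
    refine (hNS _ le_rfl).trans ?_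
    rw [Real.sqrt_eq_rpow, ← Real.rpow_mul hY0]
    exact Real.rpow_le_rpow_of_exponent_le hY1 (by linarith)
  · apply add_le_add_left
    apply hNS
    have : Y ≤ 16 * Y ^ 4 := by
      have : 1 ≤ Y ^ 3 := one_le_pow₀ hY1
      nlinarith
    linarith

end DI2_

open ASM_ DI2_ Filter in
theorem p_DI2 (h1 : T_CNA) (h2 : T_TOT) (h3 : T_TAI) (h4 : T_KIL) (h5 : T_TUP) (h6 : T_CHEB) :
    T_DI2 := by
  intro S K M ρ hD H3 ε hε0 hε hsp ε₁ hε₁ hε₁1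
  obtain ⟨x₀, hx₀⟩ := hsp
  obtain ⟨C₀, hC₀, hCNA⟩ := h1
  obtain ⟨hM, hρ1, hρ2, hS, hKill, hBin⟩ := hD
  obtain ⟨C₁, hC₁, hTAI⟩ := h3 S ε x₀ hε0 hε (fun p hp => (hS p hp).1.pos) hx₀
  obtain ⟨c, Y₁, hc, hY₁, hCheb⟩ := h6
  have hMr : (0 : ℝ) < M := by exact_mod_cast hM
  have hC₀0 : 0 < C₀ := by linarith
  have hρ0 : 0 < ρ - 1 := by linarith
  obtain ⟨y₀, hy₀1, hy₀a, hy₀b⟩ := choose_y (C₁ := C₁) (ε := ε)
    (A := min (1 / 8) ((ρ - 1) / (16 * M))) (B := C₀ * Real.exp C₁) hC₁ hε0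
    (lt_min (by norm_num) (by positivity)) (mul_pos hC₀0 (Real.exp_pos _))
  have hy8 := hy₀a.trans (min_le_left _ _)
  have hyM := hy₀b.trans (min_le_right _ _)
  obtain ⟨P, hP, hQ, hM'pos, hdvd, hPP⟩ := choose_P (y₀ := y₀) hS hM hTAI (by linarith)
  obtain ⟨a₀, ha₀⟩ := h2 S (M * ∏ r ∈ P, r) ρ (max x₀ 1) (fun p hp => (hS p hp).1) hM'pos hρ1 hρ2
    (by
      intro x hx
      have hx1 : 1 ≤ x := (le_max_right _ _).trans hx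
      refine (hx₀ x ((le_max_left _ _).trans hx)).trans ?_
      rw [Real.sqrt_eq_rpow]
      exact Real.rpow_le_rpow_of_exponent_le hx1 (by linarith)) (by
      intro G hG
      refine (Finset.sum_le_sum fun q hq => inv_le_rpow (hS q (hG q hq).1).1.pos).trans
        ((hTAI y₀ G hy₀1 fun q hq => ⟨(hG q hq).1, ?_⟩).trans hy8)
      by_contra hle
      exact (hG q hq).2 (hdvd q (hG q hq).1 (not_lt.1 hle)))
  obtain ⟨D₀, hD₀⟩ := hKill (ε₁ / 8) (by positivity)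
  obtain ⟨Y₀, hY₀⟩ := eventually_atTop.1 (ev_good (C₀ := C₀) (C₁ := C₁)
    (W := ((M : ℝ) * ∏ r ∈ P, (r : ℝ)) ^ 2)
    (κ := 2 * ((ρ - 1) / (16 * (M * ∏ r ∈ P, (r : ℝ)))) * (c / 32)) (c := c)
    (max (max x₀ 1) (max Y₁ (max (16 * a₀) (256 * D₀)))) hε0 hε hε₁ hε₁1 (by positivity) hc)
  refine ⟨max Y₀ 1, le_max_right _ _, fun Y hY => ?_⟩
  have hg := hY₀ Y ((le_max_left _ _).trans hY)
  have hY32 := hg.g1
  have hg2 := hg.g2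
  have hY0 : 0 ≤ Y := by linarith
  have hsq1 : 1 ≤ Real.sqrt Y := ((le_max_right x₀ 1).trans (le_max_left _ _)).trans hg2
  have hsqx : x₀ ≤ Real.sqrt Y := ((le_max_left x₀ 1).trans (le_max_left _ _)).trans hg2
  have hsqY : Real.sqrt Y ≤ Y := by
    rw [Real.sqrt_le_left hY0]
    nlinarith
  have hYY₁ : Y₁ ≤ Y := (((le_max_left _ _).trans (le_max_right _ _)).trans hg2).trans hsqY
  have hYa : 16 * (a₀ : ℝ) ≤ Y :=
    ((((le_max_left _ _).trans (le_max_right _ _)).trans (le_max_right _ _)).trans hg2).trans hsqY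
  have hYD : 256 * (D₀ : ℝ) ≤ Y :=
    ((((le_max_right _ _).trans (le_max_right _ _)).trans (le_max_right _ _)).trans hg2).trans hsqY
  exact core hCNA h4 h5 hM hρ1 hρ2 hC₀0 hS hBin H3 hTAI hy₀1 hyM hε₁ hε0 hP hQ hM'pos hdvd hPP ha₀
    hD₀ (hCheb Y hYY₁) hg hYa hYD (fun x hx => hx₀ x (hsqx.trans hx)) hsq1 hsqY

end SSC
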