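import Pool.Agent.SSC.Targets

/-!
# MP_d74fca_nt, SSC-DIC: the dichotomy
-/

set_option autoImplicit false

open scoped BigOperators Classical
open Finset

namespace SSC

namespace DIC_

open Filter

lemma ev_rpow_le {a b : ℝ} (C : ℝ) (h : a < b) : ∀ᶠ L : ℝ in atTop, C * L ^ a ≤ L ^ b := by
  have h1 := (tendsto_rpow_atTop (sub_pos.2 h)).eventually_ge_atTop C
  filter_upwards [h1, eventually_gt_atTop (0:ℝ)] with L hL hL0
  have : L ^ b = L ^ (b - a) * L ^ a := by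
    rw [← Real.rpow_add hL0]
    congr 1
    ring
  rw [this]
  exact mul_le_mul_of_nonneg_right hL (Real.rpow_nonneg hL0.le _)

lemma ev_log_le {b : ℝ} (C : ℝ) (hb : 0 < b) : ∀ᶠ L : ℝ in atTop, C * Real.log L ≤ L ^ b := by
  have h1 := (isLittleO_log_rpow_atTop hb).def (c := 1 / (|C| + 1)) (by positivity)
  filter_upwards [h1, eventually_gt_atTop (0:ℝ)] with L hL hL0
  rw [Real.norm_eq_abs, Real.norm_of_nonneg (Real.rpow_nonneg hL0.le _)] at hL
  have h2 : (|C| + 1) * |Real.log L| ≤ L ^ b := by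
    have h3 : (0:ℝ) < |C| + 1 := by positivity
    calc (|C| + 1) * |Real.log L| ≤ (|C| + 1) * (1 / (|C| + 1) * L ^ b) :=
          mul_le_mul_of_nonneg_left hL h3.le
      _ = L ^ b := by field_simp
  calc C * Real.log L ≤ |C * Real.log L| := le_abs_self _
    _ = |C| * |Real.log L| := abs_mul _ _
    _ ≤ (|C| + 1) * |Real.log L| := by nlinarith [abs_nonneg (Real.log L)]
    _ ≤ L ^ b := h2

lemma ev_const {b : ℝ} (C : ℝ) (hb : 0 < b) : ∀ᶠ L : ℝ in atTop, C ≤ L ^ b :=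
  (tendsto_rpow_atTop hb).eventually_ge_atTop C

/-- all inequalities that are needed for large `L = log Y` -/
structure Good (κ A c c1 ε L : ℝ) : Prop where
  g1 : 6 ≤ L
  g2 : 5 * L ^ κ ≤ L
  g3 : 5 * L ^ κ * L ^ (1 / 2 : ℝ) + Real.log 16 ≤ L
  g4 : 2 ≤ L ^ ((κ + 1 / 2) / 2)
  g5 : 1 ≤ c * Real.log L
  g6 : 2 * L ^ 2 ≤ Real.exp (L ^ ((κ + 1 / 2) / 2))
  g7 : 32 * L ^ A ≤ (2:ℝ) ^ (L ^ κ)
  g8 : Real.exp (L ^ κ) * (2 * L) ≤ c1 * Real.exp L
  g9 : Real.exp (L ^ κ) * Real.exp (5 * L ^ κ * Real.log (4 * L)) ^ 2 * (7168 / c1) * L ^ (A + 1) ≤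
    Real.exp (L ^ ((κ + 1 / 2) / 2) / 2)
  g10 : L ^ ((κ + 1 / 2) / 2) / 2 ≤ ε * L
  g11 : 2 / ε ≤ L
  g12 : 1 ≤ L ^ κ

lemma ev_good {κ A c c1 ε : ℝ} (hκ : 0 < κ) (hκ2 : κ < 1 / 2) (_hA : 0 < A) (hc : 0 < c)
    (hc1 : 0 < c1) (hε : 0 < ε) : ∀ᶠ L : ℝ in atTop, Good κ A c c1 ε L := by
  have hβ : 0 < (κ + 1 / 2) / 2 := by linarith
  have hβκ : κ < (κ + 1 / 2) / 2 := by linarith
  have hβ1 : (κ + 1 / 2) / 2 < 1 := by linarith
  have hκ1 : κ < 1 := by linarith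
  have hκh : κ + 1 / 2 < 1 := by linarith
  filter_upwards [eventually_ge_atTop (6:ℝ), ev_rpow_le 5 hκ1, ev_rpow_le 10 hκh,
    ev_const 2 hβ, ev_log_le 4 hβ, ev_const 16 hκ, ev_log_le (4 * A) hκ, ev_log_le 4 one_pos,
    eventually_ge_atTop (2 * Real.log (2 / c1)), ev_rpow_le 8 hβκ,
    ev_log_le 160 (sub_pos.2 hβκ), ev_log_le (8 * (A + 1)) hβ,
    ev_const (8 * Real.log (7168 / c1)) hβ, ev_rpow_le (1 / (2 * ε)) hβ1,
    eventually_ge_atTop (2 / ε), eventually_ge_atTop (Real.exp (1 / c)), ev_rpow_le 4 hκ1,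
    ev_const 1 hκ] with L a1 a2 a3 a4 a5 a6 a7 a8 a9 a10 a11 a12 a13 a14 a15 a16 a17 a18
  have hL0 : 0 < L := lt_of_lt_of_le (by norm_num) a1
  rw [Real.rpow_one] at a2 a3 a8 a14 a17
  have hlog : 0 ≤ Real.log L := Real.log_nonneg (by linarith)
  refine ⟨a1, a2, ?_, a4, ?_, ?_, ?_, ?_, ?_, ?_, a15, a18⟩
  · have h1 : L ^ κ * L ^ (1 / 2 : ℝ) = L ^ (κ + 1 / 2) := by rw [← Real.rpow_add hL0]
    have h2 : Real.log 16 ≤ 3 := by
      rw [Real.log_le_iff_le_exp (by norm_num)]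
      have := Real.exp_one_gt_d9
      have h3 : Real.exp 3 = Real.exp 1 ^ 3 := by rw [← Real.exp_nat_mul]; norm_num
      rw [h3]
      have h4 : (2.7:ℝ) ^ 3 ≤ Real.exp 1 ^ 3 := pow_le_pow_left₀ (by norm_num) (by linarith) 3
      norm_num at h4 ⊢
      linarith
    have h3 : 5 * L ^ κ * L ^ (1 / 2 : ℝ) = 5 * L ^ (κ + 1 / 2) := by rw [mul_assoc, h1]
    rw [h3]
    linarith
  · have h1 : 1 / c ≤ Real.log L := by rw [Real.le_log_iff_exp_le hL0]; exact a16
    rw [div_le_iff₀ hc] at h1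
    linarith
  · have h1 : (2:ℝ) * L ^ 2 ≤ Real.exp (1 + 2 * Real.log L) := by
      rw [Real.exp_add, two_mul (Real.log L), Real.exp_add, Real.exp_log hL0]
      have := Real.exp_one_gt_d9
      nlinarith [sq_nonneg L]
    exact h1.trans (Real.exp_le_exp.2 (by linarith))
  · have h1 : (2:ℝ) ^ (L ^ κ) = Real.exp (Real.log 2 * L ^ κ) :=
      Real.rpow_def_of_pos (by norm_num) _
    have h2 : Real.exp (L ^ κ / 2) ≤ (2:ℝ) ^ (L ^ κ) := by
      rw [h1]
      refine Real.exp_le_exp.2 ?_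
      have := Real.log_two_gt_d9
      nlinarith [Real.rpow_nonneg hL0.le κ]
    refine le_trans ?_ h2
    have h3 : (32:ℝ) ≤ Real.exp 4 := by
      have := Real.exp_one_gt_d9
      have h3 : Real.exp 4 = Real.exp 1 ^ 4 := by rw [← Real.exp_nat_mul]; norm_num
      rw [h3]
      have h4 : (2.7:ℝ) ^ 4 ≤ Real.exp 1 ^ 4 := pow_le_pow_left₀ (by norm_num) (by linarith) 4
      norm_num at h4 ⊢
      linarith
    have h5 : L ^ A = Real.exp (A * Real.log L) := by
      rw [Real.rpow_def_of_pos hL0, mul_comm]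
    rw [h5]
    calc 32 * Real.exp (A * Real.log L) ≤ Real.exp 4 * Real.exp (A * Real.log L) :=
          mul_le_mul_of_nonneg_right h3 (Real.exp_pos _).le
      _ = Real.exp (4 + A * Real.log L) := by rw [Real.exp_add]
      _ ≤ Real.exp (L ^ κ / 2) := Real.exp_le_exp.2 (by linarith)
  · have h1 : L ≤ Real.exp (L / 4) := by
      rw [← Real.log_le_iff_le_exp hL0]
      linarith
    have h2 : 2 / c1 ≤ Real.exp (L / 2) := by
      rw [← Real.log_le_iff_le_exp (by positivity)]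
      linarith
    have h3 : Real.exp (L ^ κ) ≤ Real.exp (L / 4) := Real.exp_le_exp.2 (by linarith)
    have h4 : Real.exp L = Real.exp (L / 4) * Real.exp (L / 2) * Real.exp (L / 4) := by
      rw [← Real.exp_add, ← Real.exp_add]
      congr 1
      ring
    have h5 : 2 ≤ c1 * Real.exp (L / 2) := by
      rw [div_le_iff₀ hc1] at h2
      linarith
    calc Real.exp (L ^ κ) * (2 * L) ≤ Real.exp (L / 4) * (2 * Real.exp (L / 4)) := by
          apply mul_le_mul h3 (by linarith) (by positivity) (Real.exp_pos _).le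
      _ = 2 * (Real.exp (L / 4) * Real.exp (L / 4)) := by ring
      _ ≤ (c1 * Real.exp (L / 2)) * (Real.exp (L / 4) * Real.exp (L / 4)) :=
          mul_le_mul_of_nonneg_right h5 (by positivity)
      _ = c1 * Real.exp L := by rw [h4]; ring
  · have h4L : Real.log (4 * L) ≤ 2 * Real.log L := by
      rw [Real.log_mul (by norm_num) hL0.ne', two_mul]
      have : Real.log 4 ≤ Real.log L := Real.log_le_log (by norm_num) (by linarith)
      linarith
    have h1 : 7168 / c1 = Real.exp (Real.log (7168 / c1)) := by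
      rw [Real.exp_log (by positivity)]
    have h2 : L ^ (A + 1) = Real.exp ((A + 1) * Real.log L) := by
      rw [Real.rpow_def_of_pos hL0, mul_comm]
    rw [h2, h1]
    rw [← Real.exp_nat_mul, ← Real.exp_add, ← Real.exp_add, ← Real.exp_add]
    refine Real.exp_le_exp.2 ?_
    have hk0 : 0 ≤ L ^ κ := Real.rpow_nonneg hL0.le _
    have h3 : L ^ κ * (160 * Real.log L) ≤ L ^ ((κ + 1 / 2) / 2) := by
      have h4 : L ^ ((κ + 1 / 2) / 2) = L ^ κ * L ^ ((κ + 1 / 2) / 2 - κ) := by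
        rw [← Real.rpow_add hL0]
        congr 1
        ring
      rw [h4]
      exact mul_le_mul_of_nonneg_left a11 hk0
    have h5 : L ^ κ * Real.log (4 * L) ≤ L ^ κ * (2 * Real.log L) :=
      mul_le_mul_of_nonneg_left h4L hk0
    push_cast
    linarith
  · have h1 : L ^ ((κ + 1 / 2) / 2) / (2 * ε) ≤ L := by
      rw [div_eq_inv_mul, ← one_div]
      exact a14
    rw [div_le_iff₀ (by positivity)] at h1
    linarith

lemma NS_fin (S : Set ℕ) (x : ℝ) : {p : ℕ | p ∈ S ∧ (p : ℝ) ≤ x}.Finite := by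
  refine (Set.finite_Iic ⌊x⌋₊).subset ?_
  rintro p ⟨-, hp⟩
  exact Nat.le_floor hp

lemma NS_mono (S : Set ℕ) {x y : ℝ} (h : x ≤ y) : NS S x ≤ NS S y := by
  unfold NS
  have h1 : {p : ℕ | p ∈ S ∧ (p : ℝ) ≤ x} ⊆ {p : ℕ | p ∈ S ∧ (p : ℝ) ≤ y} :=
    fun p hp => ⟨hp.1, hp.2.trans h⟩
  exact_mod_cast Set.ncard_le_ncard h1 (NS_fin S y)

lemma card_le_NS (S : Set ℕ) (x : ℝ) (P : Finset ℕ) (hP : ∀ p ∈ P, p ∈ S ∧ (p : ℝ) ≤ x) :
    (P.card : ℝ) ≤ NS S x := by
  unfold NS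
  rw [← Set.ncard_coe_finset]
  have h1 : (P : Set ℕ) ⊆ {p : ℕ | p ∈ S ∧ (p : ℝ) ≤ x} := fun p hp => hP p hp
  exact_mod_cast Set.ncard_le_ncard h1 (NS_fin S x)

lemma pow06 {t : ℝ} (ht : 0 ≤ t) (m : ℕ) (hm : 4 * t ≤ m) :
    Real.exp t * (6 / 10 : ℝ) ^ m * (2:ℝ) ^ t ≤ 1 := by
  have h1 : (6 / 10 : ℝ) ^ m ≤ ((6 / 10 : ℝ) ^ (4:ℕ)) ^ t := by
    rw [← Real.rpow_natCast (6 / 10 : ℝ) 4, ← Real.rpow_mul (by norm_num),
      ← Real.rpow_natCast (6 / 10 : ℝ) m]
    exact Real.rpow_le_rpow_of_exponent_ge (by norm_num) (by norm_num) (by push_cast; exact hm)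
  have h2 : Real.exp t = (Real.exp 1) ^ t := by
    rw [Real.exp_one_rpow]
  have h3 : (Real.exp 1) ^ t * ((6 / 10 : ℝ) ^ (4:ℕ)) ^ t * (2:ℝ) ^ t =
      (Real.exp 1 * (6 / 10 : ℝ) ^ (4:ℕ) * 2) ^ t := by
    rw [Real.mul_rpow (by positivity) (by norm_num), Real.mul_rpow (by positivity) (by positivity)]
  calc Real.exp t * (6 / 10 : ℝ) ^ m * (2:ℝ) ^ t
      ≤ Real.exp t * ((6 / 10 : ℝ) ^ (4:ℕ)) ^ t * (2:ℝ) ^ t := by gcongr
    _ = (Real.exp 1 * (6 / 10 : ℝ) ^ (4:ℕ) * 2) ^ t := by rw [h2, h3]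
    _ ≤ 1 := by
        apply Real.rpow_le_one (by positivity) _ ht
        have := Real.exp_one_lt_d9
        norm_num
        linarith

/-- the final computation -/
lemma fin_ {N E Q X a u s V Y2 T : ℝ} (_hE : 0 ≤ E) (hQ : 0 < Q) (_hau : 0 ≤ a * u)
    (h1 : N ≤ E * (2 * s + Q) + E * (Q * (1 + T)) + Q * X)
    (h2 : a * u / 2 ≤ N) (h3 : E * (2 * s) ≤ a * u / 16) (hV : V ≤ N)
    (h4 : E * Q ≤ V / 8) (h5 : E * Q * T ≤ V / 8) (h6 : Y2 * (2 * Q) ≤ V) : Y2 ≤ X := by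
  have h7 : V / 2 ≤ Q * X := by nlinarith
  have h8 : Y2 * Q ≤ X * Q := by linarith
  exact le_of_mul_le_mul_right h8 hQ

end DIC_

open DIC_ in
theorem p_DIC (h1 : T_LOW) (h2 : T_ASM) (h3 : T_WWW) (h4 : T_ESY) (h5 : T_CHEB) (h6 : T_TUP) :
    T_DIC := by
  intro S K M ρ hD κ hκ hκ2 ε hε hε1
  have hD' := hD
  obtain ⟨hM, hρ1, hρ2, hS, hKill, -⟩ := hD'
  obtain ⟨A, Y1, hA, hY1, hLOW⟩ := h1 M ρ κ hM hρ1 hρ2 hκ hκ2
  obtain ⟨c, Y2, hc, hY2, hWWW⟩ := h3 κ hκ hκ2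
  obtain ⟨c1, Y3, hc1, hY3, hCHEB⟩ := h5
  obtain ⟨D₀, hD₀⟩ := hKill (ε / 8) (by positivity)
  obtain ⟨L₀, hL₀⟩ := (Filter.eventually_atTop.1
    (ev_good (κ := κ) (A := A) (c := c) (c1 := c1) (ε := ε) hκ hκ2 hA hc hc1 hε))
  refine ⟨max (max (max Y1 Y2) (max Y3 (Real.exp L₀))) (256 * (D₀ + 1)), ?_, ?_⟩
  · refine le_trans ?_ (le_max_left _ _)
    refine le_trans ?_ (le_max_left _ _)
    refine le_trans ?_ (le_max_left _ _)
    linarith
  intro Y hY
  have hYY1 : Y1 ≤ Y := le_trans (le_max_left _ _) (le_trans (le_max_left _ _)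
    (le_trans (le_max_left _ _) hY))
  have hYY2 : Y2 ≤ Y := le_trans (le_max_right _ _) (le_trans (le_max_left _ _)
    (le_trans (le_max_left _ _) hY))
  have hYY3 : Y3 ≤ Y := le_trans (le_max_left _ _) (le_trans (le_max_right _ _)
    (le_trans (le_max_left _ _) hY))
  have hYL : Real.exp L₀ ≤ Y := le_trans (le_max_right _ _) (le_trans (le_max_right _ _)
    (le_trans (le_max_left _ _) hY))
  have hYD : 256 * ((D₀:ℝ) + 1) ≤ Y := le_trans (le_max_right _ _) hY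
  clear hY
  have hY32 : 32 ≤ Y := hY1.trans hYY1
  have hYpos : 0 < Y := by linarith
  have hSp : ∀ p ∈ S, p.Prime := fun p hp => (hS p hp).1
  have hY4 : Y ≤ 16 * Y ^ 4 := by
    have h8 : (1:ℝ) ≤ Y ^ 3 := one_le_pow₀ (by linarith)
    have h9 : 16 * Y ^ 4 = Y * (16 * Y ^ 3) := by ring
    rw [h9]
    exact le_mul_of_one_le_right hYpos.le (by linarith)
  set L : ℝ := Real.log Y with hL
  have hYe : Y = Real.exp L := by rw [hL, Real.exp_log hYpos]
  have G : Good κ A c c1 ε L := by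
    apply hL₀
    rw [hL, Real.le_log_iff_exp_le hYpos]
    exact hYL
  obtain ⟨g1, g2, g3, g4, g5, g6, g7, g8, g9, g10, g11, g12⟩ := G
  have hLpos : 0 < L := by linarith
  have hL1 : 1 ≤ L := by linarith
  rcases le_or_gt (Real.exp (L ^ κ)) (NS S (16 * Y ^ 4)) with hcase | hcase
  · left
    exact hcase
  right
  have hlow := hLOW Y S hYY1 hSp hcase.le
  rw [← hL] at hlow
  set β : ℝ := (κ + 1 / 2) / 2 with hβ
  set z : ℝ := Real.exp (L ^ β) with hz
  set Z : ℝ := Real.exp (L ^ (1 / 2 : ℝ)) with hZ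
  set m : ℕ := ⌈4 * L ^ κ⌉₊ with hm
  have hk0 : 0 ≤ L ^ κ := Real.rpow_nonneg hLpos.le _
  have hm1 : 4 * L ^ κ ≤ m := Nat.le_ceil _
  have hm2 : (m : ℝ) ≤ 5 * L ^ κ := by
    have := Nat.ceil_lt_add_one (show 0 ≤ 4 * L ^ κ by positivity)
    linarith
  have hmL : (m : ℝ) ≤ L := hm2.trans g2
  have hzge : 3 ≤ z := by
    have h7 : Real.exp 2 ≤ z := Real.exp_le_exp.2 g4
    have h8 : (3:ℝ) ≤ Real.exp 2 := by
      have := Real.add_one_le_exp (2:ℝ)
      linarith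
    linarith
  have hzpos : 0 < z := by linarith
  have hβh : β ≤ 1 / 2 := by rw [hβ]; linarith
  have hβ1 : β ≤ 1 := by linarith
  have hzZ : z ≤ Z := Real.exp_le_exp.2 (Real.rpow_le_rpow_of_exponent_le hL1 hβh)
  have hzY : z ≤ Y := by
    rw [hYe]
    refine Real.exp_le_exp.2 ?_
    calc L ^ β ≤ L ^ (1:ℝ) := Real.rpow_le_rpow_of_exponent_le hL1 hβ1
      _ = L := Real.rpow_one L
  have hZm : Z ^ m ≤ Y / 16 := by
    rw [hZ, ← Real.exp_nat_mul, hYe, le_div_iff₀ (by norm_num)]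
    have h16 : (16:ℝ) = Real.exp (Real.log 16) := by rw [Real.exp_log (by norm_num)]
    rw [h16, ← Real.exp_add]
    refine Real.exp_le_exp.2 ?_
    have h7 : (m:ℝ) * L ^ (1 / 2 : ℝ) ≤ 5 * L ^ κ * L ^ (1 / 2 : ℝ) :=
      mul_le_mul_of_nonneg_right hm2 (Real.rpow_nonneg hLpos.le _)
    linarith
  obtain ⟨hT1, -, -⟩ := h6 S M ρ Y z Z m hSp hM hρ1 hρ2 hY32 (by linarith) hzZ hZm
  have hkill : ∀ t ∈ UU S M ρ Y z Z m, ∃ p ∈ S, ¬ p ∣ dd t ∧ K (dd t) p ∧
      (p : ℝ) ≤ Real.exp ((2 * Y ^ 2) ^ (1 / 2 + ε / 8)) := by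
    intro t ht
    obtain ⟨q1, q2, q3, q4, -⟩ := hT1 t ht
    have q5 : D₀ ≤ dd t := by
      have : (D₀:ℝ) ≤ dd t := by
        refine le_trans ?_ q4
        rw [le_div_iff₀ (by norm_num)]
        have h9 : Y ≤ Y ^ 2 := by
          rw [sq]
          exact le_mul_of_one_le_right hYpos.le (by linarith)
        linarith
      exact_mod_cast this
    rcases hD₀ (dd t) q5 q1 with ⟨q, hq, hqd⟩ | ⟨p, hp, hpd, hK, hple⟩
    · exact absurd hqd (q2 q hq)
    · refine ⟨p, hp, hpd, hK, hple.trans (Real.exp_le_exp.2 ?_)⟩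
      exact Real.rpow_le_rpow (by positivity) q3 (by positivity)
  obtain ⟨B, hB, hle⟩ := h2 S K M ρ (ε / 8) Y z Z m hD hY32 hzge hzZ hZm (by positivity) hkill
  obtain ⟨hW1, hW2⟩ := hWWW Y S B z Z hYY2 hS (by rw [hz, hβ]) (by rw [hZ]) hcase.le hB
  rw [← hL] at hW1 hle
  set W : ℝ := ∑ l ∈ LL S z Z, 1 / (l : ℝ) with hW
  set R : ℝ := ∑ a ∈ AA S Y, (a : ℝ) with hR
  have hWge : 1 ≤ W := g5.trans hW1
  have hWpos : 0 < W := by linarith
  have hRnn : 0 ≤ R := Finset.sum_nonneg fun _ _ => Nat.cast_nonneg _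
  set E : ℝ := Real.exp (L ^ κ) with hE
  have hEpos : 0 < E := Real.exp_pos _
  have hE1 : 1 ≤ E := Real.one_le_exp hk0
  set Q : ℝ := (4 * L) ^ m with hQ
  have hQpos : 0 < Q := by positivity
  set N : ℝ := ((UU S M ρ Y z Z m).card : ℝ) with hN
  set X : ℝ := NS S (Real.exp ((2 * Y ^ 2) ^ (1 / 2 + ε / 8))) with hX
  set u : ℝ := R * (W ^ m / m.factorial) with hu
  set a : ℝ := L ^ (-A) with ha
  clear_value a u X N Q E R W
  clear_value m Z z
  clear_value β L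
  have hapos : 0 < a := by rw [ha]; exact Real.rpow_pos_of_pos hLpos _
  have hunn : 0 ≤ u := by rw [hu]; positivity
  have hfac : (0:ℝ) < m.factorial := by exact_mod_cast m.factorial_pos
  -- members of `LL`
  have hLLmem : ∀ l ∈ LL S z Z, 0 ≤ 1 / (l:ℝ) ∧ 1 / (l:ℝ) ≤ 1 / z := by
    intro l hl
    have hl2 : z < (l:ℝ) := by
      have h7 := (Finset.mem_filter.1 hl).1
      exact (Finset.mem_filter.1 h7).2.2
    exact ⟨by positivity, one_div_le_one_div_of_le hzpos hl2.le⟩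
  -- lower bound for the symmetric function
  have hlowe : W ^ m / m.factorial / 2 ≤
      ∑ T ∈ (LL S z Z).powersetCard m, ∏ l ∈ T, 1 / (l : ℝ) := by
    have hmz : (m:ℝ) * (1 / z) ≤ W / (2 * L) := by
      have h7 := g6
      have h8 : (m:ℝ) * (1 / z) ≤ 1 / (2 * L) := by
        rw [mul_one_div, div_le_div_iff₀ hzpos (by positivity)]
        calc (m:ℝ) * (2 * L) ≤ L * (2 * L) := mul_le_mul_of_nonneg_right hmL (by positivity)
          _ = 2 * L ^ 2 := by ring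
          _ ≤ z := h7
          _ = 1 * z := by rw [one_mul]
      refine h8.trans ?_
      exact div_le_div_of_nonneg_right hWge (by positivity)
    have hWL : W / (2 * L) ≤ W := div_le_self hWpos.le (by linarith)
    have h7 := (h4 (LL S z Z) (fun l => 1 / (l:ℝ)) (1 / z) m (by positivity) hLLmem).2
      (by rw [← hW]; exact hmz.trans hWL)
    rw [← hW] at h7
    refine le_trans ?_ h7
    rw [div_div, mul_comm, ← div_div]
    refine div_le_div_of_nonneg_right ?_ hfac.le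
    have h8 : W * (1 - 1 / (2 * L)) ≤ W - m * (1 / z) := by
      have : W * (1 - 1 / (2 * L)) = W - W / (2 * L) := by ring
      rw [this]
      linarith
    have h9 : 0 ≤ 1 - 1 / (2 * L) := by
      rw [sub_nonneg, div_le_one (by positivity)]
      linarith
    have h10 : (1:ℝ) / 2 ≤ (1 - 1 / (2 * L)) ^ m := by
      have h11 := one_add_mul_le_pow (a := -(1 / (2 * L))) (by
        have : 1 / (2 * L) ≤ 1 := by rw [div_le_one (by positivity)]; linarith
        linarith) m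
      rw [← sub_eq_add_neg] at h11
      refine le_trans ?_ h11
      have h12 : (m:ℝ) * (1 / (2 * L)) ≤ L * (1 / (2 * L)) :=
        mul_le_mul_of_nonneg_right hmL (by positivity)
      have h13 : L * (1 / (2 * L)) = 1 / 2 := by field_simp
      rw [h13] at h12
      linarith
    calc W ^ m / 2 = W ^ m * (1 / 2) := by ring
      _ ≤ W ^ m * (1 - 1 / (2 * L)) ^ m := mul_le_mul_of_nonneg_left h10 (by positivity)
      _ = (W * (1 - 1 / (2 * L))) ^ m := by rw [mul_pow]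
      _ ≤ (W - m * (1 / z)) ^ m := pow_le_pow_left₀ (mul_nonneg hWpos.le h9) h8 m
  have hauN : a * u / 2 ≤ N := by
    refine le_trans ?_ hlow
    have h7 : R * a * (W ^ m / m.factorial / 2) ≤
        R * a * ∑ T ∈ (LL S z Z).powersetCard m, ∏ l ∈ T, 1 / (l : ℝ) :=
      mul_le_mul_of_nonneg_left hlowe (by positivity)
    refine le_trans (le_of_eq ?_) h7
    rw [hu]
    ring
  -- upper bound for the small primes
  have hPle : ∀ p ∈ (Icc 1 ⌊z⌋₊).filter (fun p : ℕ => p ∈ S),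
      2 * R * (∑ T ∈ ((LL S z Z).filter fun l => SSN.ch p l = 1 ∨ l ∈ B p).powersetCard m,
          ∏ l ∈ T, 1 / (l : ℝ)) + Q ≤ 2 * ((6 / 10) ^ m * u) + Q := by
    intro p hp
    obtain ⟨hp1, hp2⟩ := Finset.mem_filter.1 hp
    have hpz : (p:ℝ) ≤ z := by
      have := (Finset.mem_Icc.1 hp1).2
      exact (Nat.le_floor_iff hzpos.le).1 this
    have h7 := hW2 p hp2 hpz
    have h8 := (h4 ((LL S z Z).filter fun l => SSN.ch p l = 1 ∨ l ∈ B p) (fun l => 1 / (l:ℝ))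
      (1 / z) m (by positivity) (fun l hl => hLLmem l (Finset.mem_filter.1 hl).1)).1
    have h9 : (∑ l ∈ (LL S z Z).filter (fun l => SSN.ch p l = 1 ∨ l ∈ B p), 1 / (l : ℝ)) ^ m /
        m.factorial ≤ (6 / 10) ^ m * (W ^ m / m.factorial) := by
      rw [← mul_div_assoc, ← mul_pow]
      refine div_le_div_of_nonneg_right ?_ hfac.le
      exact pow_le_pow_left₀ (Finset.sum_nonneg fun _ _ => by positivity) h7 m
    have h10 := mul_le_mul_of_nonneg_left (h8.trans h9) (show 0 ≤ 2 * R by positivity)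
    have h11 : 2 * R * ((6 / 10) ^ m * (W ^ m / m.factorial)) = 2 * ((6 / 10) ^ m * u) := by
      rw [hu]; ring
    linarith
  have hcardP : ((((Icc 1 ⌊z⌋₊).filter (fun p : ℕ => p ∈ S)).card : ℕ) : ℝ) ≤ E := by
    refine (card_le_NS S (16 * Y ^ 4) _ ?_).trans hcase.le
    intro p hp
    obtain ⟨hp1, hp2⟩ := Finset.mem_filter.1 hp
    refine ⟨hp2, ?_⟩
    have hpz : (p:ℝ) ≤ z := by
      have := (Finset.mem_Icc.1 hp1).2
      exact (Nat.le_floor_iff hzpos.le).1 this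
    exact (hpz.trans hzY).trans hY4
  have hsum : (∑ p ∈ (Icc 1 ⌊z⌋₊).filter (fun p : ℕ => p ∈ S),
      (2 * R * (∑ T ∈ ((LL S z Z).filter fun l => SSN.ch p l = 1 ∨ l ∈ B p).powersetCard m,
          ∏ l ∈ T, 1 / (l : ℝ)) + Q)) ≤ E * (2 * ((6 / 10) ^ m * u) + Q) := by
    refine (Finset.sum_le_card_nsmul _ _ _ hPle).trans ?_
    rw [nsmul_eq_mul]
    exact mul_le_mul_of_nonneg_right hcardP (by positivity)
  have hmain : N ≤ E * (2 * ((6 / 10) ^ m * u) + Q) + E * (Q * (1 + 14 * Y ^ 2 / Real.sqrt z)) +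
      Q * X := by
    refine hle.trans ?_
    have h7 : NS S (16 * Y ^ 4) * (Q * (1 + 14 * Y ^ 2 / Real.sqrt z)) ≤
        E * (Q * (1 + 14 * Y ^ 2 / Real.sqrt z)) :=
      mul_le_mul_of_nonneg_right hcase.le (by positivity)
    linarith
  have hsmall : E * (2 * ((6 / 10) ^ m * u)) ≤ a * u / 16 := by
    have h7 := pow06 hk0 m hm1
    rw [← hE] at h7
    have h8 := g7
    have h9 : E * (6 / 10 : ℝ) ^ m * (32 * L ^ A) ≤ 1 :=
      le_trans (mul_le_mul_of_nonneg_left h8 (by positivity)) h7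
    have h10 : a * L ^ A = 1 := by
      rw [ha, ← Real.rpow_add hLpos]
      simp
    have h11 : E * (2 * (6 / 10 : ℝ) ^ m) ≤ a / 16 := by
      have h12 : E * (6 / 10 : ℝ) ^ m * (32 * L ^ A) * a ≤ 1 * a :=
        mul_le_mul_of_nonneg_right h9 hapos.le
      have h13 : E * (6 / 10 : ℝ) ^ m * (32 * L ^ A) * a = 32 * (E * (6 / 10 : ℝ) ^ m) := by
        linear_combination (32 * (E * (6 / 10 : ℝ) ^ m)) * h10
      rw [h13] at h12
      linarith
    have h14 := mul_le_mul_of_nonneg_right h11 hunn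
    linarith
  -- the lower bound for `N`
  have hcardA : c1 * Y / (2 * L) ≤ ((AA S Y).card : ℝ) := by
    have h7 := hCHEB Y hYY3
    rw [← hL] at h7
    have h8 : ((pri (Y / 16) Y).card : ℝ) ≤ ((AA S Y).card : ℝ) +
        (((pri (Y / 16) Y).filter fun l : ℕ => l ∈ S).card : ℝ) := by
      have h9 := Finset.card_filter_add_card_filter_not (s := pri (Y / 16) Y)
        (p := fun l : ℕ => l ∈ S)
      have h10 : (AA S Y).card = ((pri (Y / 16) Y).filter fun l : ℕ => ¬ l ∈ S).card := rfl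
      rw [h10]
      have h11 : (pri (Y / 16) Y).card ≤ ((pri (Y / 16) Y).filter fun l : ℕ => ¬ l ∈ S).card +
        ((pri (Y / 16) Y).filter fun l : ℕ => l ∈ S).card := by omega
      exact_mod_cast h11
    have h9 : (((pri (Y / 16) Y).filter fun l : ℕ => l ∈ S).card : ℝ) ≤ E := by
      refine (card_le_NS S (16 * Y ^ 4) _ ?_).trans hcase.le
      intro p hp
      obtain ⟨hp1, hp2⟩ := Finset.mem_filter.1 hp
      refine ⟨hp2, ?_⟩
      have hpY : (p:ℝ) ≤ Y := by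
        have := (Finset.mem_Icc.1 (Finset.mem_filter.1 hp1).1).2
        exact (Nat.le_floor_iff hYpos.le).1 this
      exact hpY.trans hY4
    have h10 : E ≤ c1 * Y / (2 * L) := by
      rw [le_div_iff₀ (by positivity), hYe]
      exact g8
    have h11 : c1 * Y / L = c1 * Y / (2 * L) + c1 * Y / (2 * L) := by
      field_simp
      ring
    linarith
  have hRlow : c1 * Y ^ 2 / (32 * L) ≤ R := by
    have h7 : ((AA S Y).card : ℝ) * (Y / 16) ≤ R := by
      rw [hR, ← nsmul_eq_mul]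
      refine Finset.card_nsmul_le_sum _ _ _ ?_
      intro l hl
      have h8 := (Finset.mem_filter.1 hl).1
      exact (Finset.mem_filter.1 h8).2.2.le
    refine le_trans (le_of_eq ?_) (le_trans (mul_le_mul_of_nonneg_right hcardA
      (show 0 ≤ Y / 16 by positivity)) h7)
    field_simp
    ring
  have hfacQ : (m.factorial : ℝ) ≤ Q := by
    have h7 : (m.factorial : ℝ) ≤ (m:ℝ) ^ m := by exact_mod_cast Nat.factorial_le_pow m
    refine h7.trans ?_
    rw [hQ]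
    have h8 : (m:ℝ) ≤ 4 * L := by linarith
    exact pow_le_pow_left₀ (Nat.cast_nonneg m) h8 m
  set V : ℝ := c1 * Y ^ 2 / (64 * L ^ (A + 1) * Q) with hV
  have hLA : 0 < L ^ (A + 1) := Real.rpow_pos_of_pos hLpos _
  have hVpos : 0 < V := by positivity
  have hVN : V ≤ N := by
    refine le_trans ?_ hauN
    have h7 : 1 / Q ≤ W ^ m / m.factorial := by
      rw [div_le_div_iff₀ hQpos hfac, one_mul]
      have h8 : (1:ℝ) ≤ W ^ m := one_le_pow₀ hWge
      exact hfacQ.trans (le_mul_of_one_le_left hQpos.le h8)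
    have h8 : c1 * Y ^ 2 / (32 * L) * (1 / Q) ≤ u := by
      rw [hu]
      exact mul_le_mul hRlow h7 (by positivity) hRnn
    have h9 : a * (c1 * Y ^ 2 / (32 * L) * (1 / Q)) ≤ a * u := mul_le_mul_of_nonneg_left h8 hapos.le
    have h10 : V = a * (c1 * Y ^ 2 / (32 * L) * (1 / Q)) / 2 := by
      rw [hV, ha, Real.rpow_neg hLpos.le, Real.rpow_add hLpos, Real.rpow_one]
      field_simp
      ring
    rw [h10]
    linarith
  -- the two error terms
  have hQle : Q ≤ Real.exp (5 * L ^ κ * Real.log (4 * L)) := by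
    have h7 : Q = Real.exp (m * Real.log (4 * L)) := by
      rw [Real.exp_nat_mul, Real.exp_log (by positivity), hQ]
    rw [h7]
    refine Real.exp_le_exp.2 (mul_le_mul_of_nonneg_right hm2 (Real.log_nonneg (by linarith)))
  have hg9 : E * Q ^ 2 * (7168 / c1) * L ^ (A + 1) ≤ Real.exp (L ^ β / 2) := by
    refine le_trans ?_ g9
    have h7 : Q ^ 2 ≤ Real.exp (5 * L ^ κ * Real.log (4 * L)) ^ 2 :=
      pow_le_pow_left₀ hQpos.le hQle 2
    gcongr
  have hsqrt : Real.sqrt z = Real.exp (L ^ β / 2) := by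
    rw [hz, Real.exp_half]
  have hsqpos : 0 < Real.sqrt z := Real.sqrt_pos.2 hzpos
  rw [← hsqrt] at hg9
  have hsqz : Real.sqrt z ≤ Y := by
    have h7 : Real.sqrt z ≤ z := by
      rw [Real.sqrt_le_left hzpos.le, sq]
      exact le_mul_of_one_le_right hzpos.le (by linarith)
    linarith
  have herr2 : E * Q * (14 * Y ^ 2 / Real.sqrt z) ≤ V / 8 := by
    rw [hV, mul_div_assoc', div_div, div_le_div_iff₀ hsqpos (by positivity)]
    have h7 : E * Q ^ 2 * (7168 / c1) * L ^ (A + 1) * (c1 * Y ^ 2) ≤ Real.sqrt z * (c1 * Y ^ 2) :=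
      mul_le_mul_of_nonneg_right hg9 (by positivity)
    have h8 : E * Q ^ 2 * (7168 / c1) * L ^ (A + 1) * (c1 * Y ^ 2) =
        E * Q * (14 * Y ^ 2) * (64 * L ^ (A + 1) * Q * 8) := by
      field_simp
      ring
    rw [h8] at h7
    linarith
  have herr1 : E * Q ≤ V / 8 := by
    refine le_trans ?_ herr2
    refine le_mul_of_one_le_right (by positivity) ?_
    rw [le_div_iff₀ hsqpos, one_mul]
    have h9 : Y ≤ Y ^ 2 := by
      rw [sq]
      exact le_mul_of_one_le_right hYpos.le (by linarith)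
    linarith
  -- the result
  have hYpow : Y ^ (2 - ε) * (2 * Q) ≤ V := by
    have h7 : Y ^ (2 - ε) * Y ^ ε = Y ^ 2 := by
      rw [← Real.rpow_add hYpos, sub_add_cancel]
      norm_cast
    have h8 : Real.sqrt z ≤ Y ^ ε := by
      rw [hsqrt, Real.rpow_def_of_pos hYpos, ← hL]
      refine Real.exp_le_exp.2 ?_
      linarith
    have h9 : 128 * L ^ (A + 1) * Q ^ 2 / c1 ≤ Y ^ ε := by
      refine le_trans ?_ (hg9.trans h8)
      have h10 : E * Q ^ 2 * (7168 / c1) * L ^ (A + 1) =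
          E * 56 * (128 * L ^ (A + 1) * Q ^ 2 / c1) := by
        field_simp
        ring
      rw [h10]
      refine le_mul_of_one_le_left (by positivity) ?_
      linarith
    rw [hV, le_div_iff₀ (by positivity)]
    have h11 : Y ^ (2 - ε) * (128 * L ^ (A + 1) * Q ^ 2 / c1) ≤ Y ^ (2 - ε) * Y ^ ε :=
      mul_le_mul_of_nonneg_left h9 (Real.rpow_nonneg hYpos.le _)
    rw [h7] at h11
    have h12 := mul_le_mul_of_nonneg_left h11 hc1.le
    refine le_trans (le_of_eq ?_) h12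
    field_simp
    ring
  have hfinal : Y ^ (2 - ε) ≤ X :=
    fin_ hEpos.le hQpos (mul_nonneg hapos.le hunn) hmain hauN hsmall hVN herr1 herr2 hYpow
  refine hfinal.trans ?_
  rw [hX]
  refine NS_mono S (Real.exp_le_exp.2 ?_)
  have h7 : ((2:ℝ) * Y ^ 2) ^ (1 / 2 + ε / 8) = 2 ^ (1 / 2 + ε / 8) * Y ^ (1 + ε / 4) := by
    rw [Real.mul_rpow (by norm_num) (by positivity)]
    congr 1
    rw [← Real.rpow_natCast Y 2, ← Real.rpow_mul hYpos.le]
    congr 1
    push_cast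
    ring
  rw [h7]
  have h8 : (2:ℝ) ^ (1 / 2 + ε / 8) ≤ 2 := by
    calc (2:ℝ) ^ (1 / 2 + ε / 8) ≤ 2 ^ (1:ℝ) :=
          Real.rpow_le_rpow_of_exponent_le (by norm_num) (by linarith)
      _ = 2 := Real.rpow_one 2
  have h9 : (2:ℝ) ≤ Y ^ (3 * ε / 4) := by
    rw [Real.rpow_def_of_pos hYpos, ← hL]
    have h10 : 1 ≤ L * (3 * ε / 4) := by
      rw [div_le_iff₀ hε] at g11
      linarith
    have h11 := Real.add_one_le_exp (L * (3 * ε / 4))
    linarith
  calc (2:ℝ) ^ (1 / 2 + ε / 8) * Y ^ (1 + ε / 4) ≤ Y ^ (3 * ε / 4) * Y ^ (1 + ε / 4) :=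
        mul_le_mul_of_nonneg_right (h8.trans h9) (Real.rpow_nonneg hYpos.le _)
    _ = Y ^ (1 + ε) := by
        rw [← Real.rpow_add hYpos]
        congr 1
        ring

end SSC
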