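import Pool.Agent.SSC.Targets

/-!
# ESY: bounds for elementary symmetric functions
-/

set_option autoImplicit false

open scoped BigOperators Classical
open Finset

namespace SSC

namespace ESY_

/-- the elementary symmetric function -/
noncomputable def ee (x : ℕ → ℝ) (A : Finset ℕ) (m : ℕ) : ℝ :=
  ∑ T ∈ A.powersetCard m, ∏ l ∈ T, x l

lemma ee_zero (x : ℕ → ℝ) (A : Finset ℕ) : ee x A 0 = 1 := by simp [ee]

lemma ee_empty (x : ℕ → ℝ) (m : ℕ) : ee x ∅ (m + 1) = 0 := by
  unfold ee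
  rw [Finset.powersetCard_eq_empty.2 (by simp)]
  simp

lemma ee_insert (x : ℕ → ℝ) (A : Finset ℕ) (a : ℕ) (ha : a ∉ A) (m : ℕ) :
    ee x (insert a A) (m + 1) = ee x A (m + 1) + x a * ee x A m := by
  unfold ee
  rw [Finset.powersetCard_succ_insert ha, Finset.sum_union, Finset.sum_image, Finset.mul_sum]
  · congr 1
    refine Finset.sum_congr rfl fun T hT => ?_
    rw [Finset.prod_insert]
    exact fun h => ha ((Finset.mem_powersetCard.1 hT).1 h)
  · intro T hT T' hT' h
    have h1 : a ∉ T := fun h => ha ((Finset.mem_powersetCard.1 hT).1 h)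
    have h2 : a ∉ T' := fun h => ha ((Finset.mem_powersetCard.1 hT').1 h)
    rw [← Finset.erase_insert h1, ← Finset.erase_insert h2, h]
  · rw [Finset.disjoint_left]
    intro T hT hT'
    obtain ⟨T', -, rfl⟩ := Finset.mem_image.1 hT'
    exact ha ((Finset.mem_powersetCard.1 hT).1 (Finset.mem_insert_self a T'))

lemma ee_nonneg (x : ℕ → ℝ) (A : Finset ℕ) (hx : ∀ l ∈ A, 0 ≤ x l) (m : ℕ) : 0 ≤ ee x A m :=
  Finset.sum_nonneg fun T hT => Finset.prod_nonneg fun l hl =>
    hx l ((Finset.mem_powersetCard.1 hT).1 hl)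

lemma pow_ub (m : ℕ) : ∀ (u t : ℝ), 0 ≤ u → 0 ≤ t →
    u ^ (m + 1) + (m + 1) * t * u ^ m ≤ (u + t) ^ (m + 1) := by
  induction m with
  | zero => intro u t _ _; simp
  | succ m ih =>
    intro u t hu ht
    have h1 := mul_le_mul_of_nonneg_right (ih u t hu ht) (add_nonneg hu ht)
    have h2 : 0 ≤ (m + 1) * t * u ^ m * t := by positivity
    push_cast
    calc u ^ (m + 1 + 1) + (m + 1 + 1) * t * u ^ (m + 1)
        ≤ (u ^ (m + 1) + (m + 1) * t * u ^ m) * (u + t) := by ring_nf; ring_nf at h2; linarith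
      _ ≤ (u + t) ^ (m + 1) * (u + t) := h1
      _ = (u + t) ^ (m + 1 + 1) := by ring

lemma pow_lb (m : ℕ) : ∀ (u t : ℝ), 0 ≤ u → 0 ≤ t →
    (u + t) ^ (m + 1) ≤ u ^ (m + 1) + (m + 1) * t * (u + t) ^ m := by
  induction m with
  | zero => intro u t _ _; simp
  | succ m ih =>
    intro u t hu ht
    have h1 := mul_le_mul_of_nonneg_right (ih u t hu ht) (add_nonneg hu ht)
    have h3 : u ^ (m + 1) ≤ (u + t) ^ (m + 1) := pow_le_pow_left₀ hu (by linarith) _
    have h2 : t * u ^ (m + 1) ≤ t * (u + t) ^ (m + 1) := mul_le_mul_of_nonneg_left h3 ht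
    push_cast
    calc (u + t) ^ (m + 1 + 1) = (u + t) ^ (m + 1) * (u + t) := by ring
      _ ≤ (u ^ (m + 1) + (m + 1) * t * (u + t) ^ m) * (u + t) := h1
      _ = u ^ (m + 1 + 1) + t * u ^ (m + 1) + (m + 1) * t * (u + t) ^ (m + 1) := by ring
      _ ≤ u ^ (m + 1 + 1) + t * (u + t) ^ (m + 1) + (m + 1) * t * (u + t) ^ (m + 1) := by
          linarith
      _ = u ^ (m + 1 + 1) + (m + 1 + 1) * t * (u + t) ^ (m + 1) := by ring

lemma fac (m : ℕ) : (((m + 1).factorial : ℕ) : ℝ) = (m + 1) * (m.factorial : ℝ) := by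
  rw [Nat.factorial_succ]; push_cast; ring

lemma up (x : ℕ → ℝ) (A : Finset ℕ) : (∀ l ∈ A, 0 ≤ x l) →
    ∀ m, ee x A m ≤ (∑ l ∈ A, x l) ^ m / m.factorial := by
  induction A using Finset.induction_on with
  | empty =>
    intro _ m
    cases m with
    | zero => simp [ee_zero]
    | succ m => rw [ee_empty]; simp
  | insert a A ha ih =>
    intro hx m
    have hx' : ∀ l ∈ A, 0 ≤ x l := fun l hl => hx l (Finset.mem_insert_of_mem hl)
    have ha0 : 0 ≤ x a := hx a (Finset.mem_insert_self a A)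
    cases m with
    | zero => simp [ee_zero]
    | succ m =>
      rw [ee_insert x A a ha, Finset.sum_insert ha]
      have hW : 0 ≤ ∑ l ∈ A, x l := Finset.sum_nonneg hx'
      have h1 := ih hx' (m + 1)
      have h2 := mul_le_mul_of_nonneg_left (ih hx' m) ha0
      have h3 := pow_ub m _ _ hW ha0
      have hf : (0:ℝ) < m.factorial := by exact_mod_cast m.factorial_pos
      have hf' : (0:ℝ) < (m + 1).factorial := by exact_mod_cast (m + 1).factorial_pos
      rw [le_div_iff₀ hf'] at h1 ⊢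
      rw [← mul_div_assoc, le_div_iff₀ hf] at h2
      rw [fac] at h1 ⊢
      have h4 : (x a * ee x A m * m.factorial) * (m + 1) ≤ (x a * (∑ l ∈ A, x l) ^ m) * (m + 1) :=
        mul_le_mul_of_nonneg_right h2 (by positivity)
      rw [add_comm (x a)]
      nlinarith

lemma low (x : ℕ → ℝ) (δ : ℝ) (hδ : 0 ≤ δ) (A : Finset ℕ) : (∀ l ∈ A, 0 ≤ x l ∧ x l ≤ δ) →
    ∀ m : ℕ, m * δ ≤ ∑ l ∈ A, x l →
    ((∑ l ∈ A, x l) - m * δ) ^ m / m.factorial ≤ ee x A m := by
  induction A using Finset.induction_on with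
  | empty =>
    intro _ m hm
    cases m with
    | zero => simp [ee_zero]
    | succ m =>
      rw [ee_empty]
      rw [Finset.sum_empty] at hm ⊢
      have h0 : ((m + 1 : ℕ) : ℝ) * δ = 0 := le_antisymm hm (by positivity)
      rw [h0]
      simp
  | insert a A ha ih =>
    intro hx m hm
    have hx' : ∀ l ∈ A, 0 ≤ x l ∧ x l ≤ δ := fun l hl => hx l (Finset.mem_insert_of_mem hl)
    obtain ⟨ha0, ha1⟩ := hx a (Finset.mem_insert_self a A)
    cases m with
    | zero => simp [ee_zero]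
    | succ m =>
      rw [ee_insert x A a ha]
      rw [Finset.sum_insert ha] at hm ⊢
      set W := ∑ l ∈ A, x l with hW
      have hf : (0:ℝ) < m.factorial := by exact_mod_cast m.factorial_pos
      have hf' : (0:ℝ) < (m + 1).factorial := by exact_mod_cast (m + 1).factorial_pos
      have hm1 : (m : ℝ) * δ ≤ W := by push_cast at hm; linarith
      have h2 := mul_le_mul_of_nonneg_left (ih hx' m hm1) ha0
      rw [← mul_div_assoc, div_le_iff₀ hf] at h2
      have h4 : (x a * (W - m * δ) ^ m) * (m + 1) ≤ (x a * ee x A m * m.factorial) * (m + 1) :=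
        mul_le_mul_of_nonneg_right h2 (by positivity)
      have h5 : (x a + W - ((m + 1 : ℕ) : ℝ) * δ) ^ m ≤ (W - m * δ) ^ m := by
        refine pow_le_pow_left₀ (by linarith) ?_ m
        push_cast
        linarith
      have h6 := mul_le_mul_of_nonneg_left h5 ha0
      rw [div_le_iff₀ hf']
      by_cases hc : ((m + 1 : ℕ) : ℝ) * δ ≤ W
      · have h1 := ih hx' (m + 1) hc
        rw [div_le_iff₀ hf'] at h1
        have h3 := pow_lb m (W - ((m + 1 : ℕ) : ℝ) * δ) (x a) (by linarith) ha0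
        have e1 : W - ((m + 1 : ℕ) : ℝ) * δ + x a = x a + W - ((m + 1 : ℕ) : ℝ) * δ := by ring
        rw [e1] at h3
        have h7 : (m + 1) * (x a * (x a + W - ((m + 1 : ℕ) : ℝ) * δ) ^ m)
            ≤ (m + 1) * (x a * (W - m * δ) ^ m) :=
          mul_le_mul_of_nonneg_left h6 (by positivity)
        rw [fac] at h1 ⊢
        nlinarith
      · push Not at hc
        have h0 : 0 ≤ ee x A (m + 1) := ee_nonneg x A (fun l hl => (hx' l hl).1) (m + 1)
        have h8 : (x a + W - ((m + 1 : ℕ) : ℝ) * δ) ^ (m + 1)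
            ≤ x a * (x a + W - ((m + 1 : ℕ) : ℝ) * δ) ^ m := by
          rw [pow_succ, mul_comm]
          exact mul_le_mul_of_nonneg_right (by linarith) (pow_nonneg (by linarith) m)
        have h9 : 0 ≤ x a * (W - m * δ) ^ m * m :=
          mul_nonneg (mul_nonneg ha0 (pow_nonneg (by linarith) m)) (by positivity)
        have h10 : 0 ≤ ee x A (m + 1) * ((m + 1) * (m.factorial : ℝ)) := by positivity
        rw [fac]
        nlinarith

end ESY_

theorem p_ESY : T_ESY := by
  intro A x δ m hδ hx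
  exact ⟨ESY_.up x A (fun l hl => (hx l hl).1) m, ESY_.low x δ hδ A hx m⟩

end SSC
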