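import Pool.Agent.SSC.Targets

/-!
# FINA: all large `x`
-/

set_option autoImplicit false

open scoped BigOperators Classical
open Finset

namespace SSC

namespace FINA_

lemma NS_mono (S : Set ℕ) {x y : ℝ} (h : x ≤ y) : NS S x ≤ NS S y := by
  unfold NS
  have hfin : {p : ℕ | p ∈ S ∧ (p : ℝ) ≤ y}.Finite := by
    refine (Set.finite_Iic ⌊y⌋₊).subset ?_
    rintro p ⟨-, hp⟩
    exact Nat.le_floor hp
  have hsub : {p : ℕ | p ∈ S ∧ (p : ℝ) ≤ x} ⊆ {p : ℕ | p ∈ S ∧ (p : ℝ) ≤ y} := by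
    rintro p ⟨h1, h2⟩
    exact ⟨h1, h2.trans h⟩
  exact_mod_cast Set.ncard_le_ncard hsub hfin

lemma ev1 {κ κ' : ℝ} (h : κ' < κ) : ∀ᶠ L : ℝ in Filter.atTop, L ^ κ' ≤ (L / 2) ^ κ := by
  have h1 := (tendsto_rpow_atTop (sub_pos.2 h)).eventually_ge_atTop ((2:ℝ) ^ κ)
  filter_upwards [h1, Filter.eventually_ge_atTop (1:ℝ)] with L hL hL1
  have hL0 : 0 < L := by linarith
  rw [Real.div_rpow hL0.le (by norm_num), le_div_iff₀ (Real.rpow_pos_of_pos (by norm_num) _)]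
  calc L ^ κ' * 2 ^ κ ≤ L ^ κ' * L ^ (κ - κ') :=
        mul_le_mul_of_nonneg_left hL (Real.rpow_nonneg hL0.le _)
    _ = L ^ κ := by rw [← Real.rpow_add hL0]; congr 1; ring

lemma ev2 {κ' : ℝ} (h : κ' ≤ 1 / 2) : ∀ᶠ L : ℝ in Filter.atTop, L ^ κ' ≤ 3 / 4 * L := by
  filter_upwards [Filter.eventually_ge_atTop (4:ℝ)] with L hL
  have hL0 : 0 < L := by linarith
  have h1 : L ^ κ' ≤ L ^ (1 / 2 : ℝ) := Real.rpow_le_rpow_of_exponent_le (by linarith) h
  have h2 : L ^ (1 / 2 : ℝ) * L ^ (1 / 2 : ℝ) = L := by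
    rw [← Real.rpow_add hL0]
    norm_num
  have h3 : 0 ≤ L ^ (1 / 2 : ℝ) := Real.rpow_nonneg hL0.le _
  nlinarith

lemma ev3 : ∀ᶠ x : ℝ in Filter.atTop, 16 * (Real.log x) ^ 2 ≤ x := by
  have h1 := (Real.isLittleO_pow_log_id_atTop (n := 2)).bound (show (0:ℝ) < 1 / 16 by norm_num)
  filter_upwards [h1, Filter.eventually_ge_atTop (0:ℝ)] with x hx hx0
  rw [Real.norm_eq_abs, Real.norm_eq_abs, abs_of_nonneg (sq_nonneg _)] at hx
  simp only [id] at hx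
  rw [abs_of_nonneg hx0] at hx
  linarith

end FINA_

open FINA_ in
theorem p_FINA (h1 : T_DIC) : T_FINA := by
  intro S K M ρ hData ε hε
  obtain ⟨κ, hκ⟩ : ∃ κ : ℝ, κ = max (1 / 4) (1 / 2 - ε / 2) := ⟨_, rfl⟩
  have hκ0 : 0 < κ := by
    rw [hκ]
    exact lt_max_of_lt_left (by norm_num)
  have hκ1 : κ < 1 / 2 := by
    rw [hκ]
    exact max_lt (by norm_num) (by linarith)
  have hκ2 : 1 / 2 - ε < κ := by
    have : 1 / 2 - ε / 2 ≤ κ := by
      rw [hκ]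
      exact le_max_right _ _
    linarith
  obtain ⟨Y₀, hY₀, H⟩ := h1 S K M ρ hData κ hκ0 hκ1 (1 / 2) (by norm_num) (by norm_num)
  have hLL : Filter.Tendsto (fun x : ℝ => Real.log (Real.log x)) Filter.atTop Filter.atTop :=
    Real.tendsto_log_atTop.comp Real.tendsto_log_atTop
  have hev : ∀ᶠ x : ℝ in Filter.atTop,
      Real.exp ((Real.log (Real.log x)) ^ (1 / 2 - ε)) ≤ NS S x := by
    filter_upwards [ev3, hLL.eventually (ev1 hκ2),
      hLL.eventually (ev2 (show 1 / 2 - ε ≤ 1 / 2 by linarith)),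
      Real.tendsto_log_atTop.eventually_ge_atTop (Y₀ ^ 2),
      Real.tendsto_log_atTop.eventually_ge_atTop 1, Filter.eventually_gt_atTop (0:ℝ)]
      with x e1 e2 e3 e4 e5 e6
    obtain ⟨l, hl⟩ : ∃ l : ℝ, l = Real.log x := ⟨_, rfl⟩
    rw [← hl] at e1 e2 e3 e4 e5 ⊢
    have hl0 : 0 < l := by linarith
    have hY : Y₀ ≤ l ^ (1 / 2 : ℝ) := by
      rw [← Real.sqrt_eq_rpow]
      exact Real.le_sqrt_of_sq_le e4
    have hY4 : 16 * (l ^ (1 / 2 : ℝ)) ^ 4 ≤ x := by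
      have : (l ^ (1 / 2 : ℝ)) ^ 4 = l ^ 2 := by
        rw [← Real.sqrt_eq_rpow]
        have h2 := Real.sq_sqrt hl0.le
        calc (Real.sqrt l) ^ 4 = ((Real.sqrt l) ^ 2) ^ 2 := by ring
          _ = l ^ 2 := by rw [h2]
      rw [this]
      exact e1
    have hlogY : Real.log (l ^ (1 / 2 : ℝ)) = Real.log l / 2 := by
      rw [Real.log_rpow hl0]
      ring
    rcases H (l ^ (1 / 2 : ℝ)) hY with h | h
    · rw [hlogY] at h
      exact ((Real.exp_le_exp.2 e2).trans h).trans (NS_mono S hY4)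
    · have h2 : (l ^ (1 / 2 : ℝ)) ^ ((2:ℝ) - 1 / 2) = l ^ (3 / 4 : ℝ) := by
        rw [← Real.rpow_mul hl0.le]
        norm_num
      have h3 : (l ^ (1 / 2 : ℝ)) ^ ((1:ℝ) + 1 / 2) = l ^ (3 / 4 : ℝ) := by
        rw [← Real.rpow_mul hl0.le]
        norm_num
      rw [h2, h3] at h
      have h4 : l ^ (3 / 4 : ℝ) ≤ l := by
        conv_rhs => rw [← Real.rpow_one l]
        exact Real.rpow_le_rpow_of_exponent_le e5 (by norm_num)
      have h5 : Real.exp (l ^ (3 / 4 : ℝ)) ≤ x := by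
        refine (Real.exp_le_exp.2 h4).trans (le_of_eq ?_)
        rw [hl, Real.exp_log e6]
      have h6 : Real.exp (3 / 4 * Real.log l) = l ^ (3 / 4 : ℝ) := by
        rw [Real.rpow_def_of_pos hl0, mul_comm]
      exact ((Real.exp_le_exp.2 e3).trans (h6.le.trans h)).trans (NS_mono S h5)
  exact Filter.eventually_atTop.1 hev

end SSC
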