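import Pool.Agent.SSC.Targets

/-!
# MP_d74fca_nt, SSC: FINB from DIC
-/

set_option autoImplicit false

open scoped BigOperators Classical
open Finset Filter

namespace SSC

namespace FINB_

/-- the growth fact for the first alternative -/
theorem growth : ∀ᶠ Y : ℝ in atTop,
    64 * (Real.log Y) ^ 2 ≤ Real.exp ((Real.log Y) ^ (1 / 4 : ℝ)) := by
  have h1 : ∀ᶠ t : ℝ in atTop, 64 * t ^ 8 ≤ Real.exp t := by
    have h := Real.tendsto_pow_mul_exp_neg_atTop_nhds_zero 8
    have h2 : ∀ᶠ t : ℝ in atTop, t ^ 8 * Real.exp (-t) < 1 / 64 :=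
      h.eventually (gt_mem_nhds (by norm_num : (0 : ℝ) < 1 / 64))
    filter_upwards [h2] with t ht
    rw [Real.exp_neg] at ht
    have hp := Real.exp_pos t
    have h3 : t ^ 8 < 1 / 64 * Real.exp t := by
      have := (mul_lt_mul_of_pos_right ht hp)
      rwa [mul_assoc, inv_mul_cancel₀ hp.ne', mul_one] at this
    linarith
  have h2 : Tendsto (fun Y : ℝ => (Real.log Y) ^ (1 / 4 : ℝ)) atTop atTop :=
    (tendsto_rpow_atTop (by norm_num : (0 : ℝ) < 1 / 4)).comp Real.tendsto_log_atTop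
  filter_upwards [h2.eventually h1, eventually_ge_atTop (1 : ℝ)] with Y hY hY1
  have hl : 0 ≤ Real.log Y := Real.log_nonneg hY1
  have h3 : ((Real.log Y) ^ (1 / 4 : ℝ)) ^ 8 = (Real.log Y) ^ 2 := by
    rw [← Real.rpow_natCast ((Real.log Y) ^ (1 / 4 : ℝ)) 8, ← Real.rpow_mul hl,
      ← Real.rpow_natCast (Real.log Y) 2]
    norm_num
  rw [h3] at hY
  exact hY

end FINB_

open FINB_

theorem p_FINB (h1 : T_DIC) : T_FINB := by
  intro S K M ρ hD ε hε x₀
  -- reduce to a small exponent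
  obtain ⟨ε', hε'0, hε'1, hε'2⟩ : ∃ ε' : ℝ, 0 < ε' ∧ ε' ≤ 1 / 2 ∧ ε' ≤ ε :=
    ⟨min ε (1 / 2), lt_min hε (by norm_num), min_le_right _ _, min_le_left _ _⟩
  obtain ⟨Y₀, -, hY₀⟩ := h1 S K M ρ hD (1 / 4) (by norm_num) (by norm_num) (ε' / 4)
    (by linarith) (by linarith)
  obtain ⟨Y, ⟨⟨hg, hYa⟩, hYb⟩, hYc⟩ := (((growth.and (eventually_ge_atTop (max Y₀ 3))).and
    (eventually_ge_atTop x₀)).and (eventually_ge_atTop (1 : ℝ))).exists
  have hY3 : 3 ≤ Y := (le_max_right _ _).trans hYa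
  have hYpos : 0 < Y := by linarith
  have hlog1 : 1 ≤ Real.log Y := by
    rw [Real.le_log_iff_exp_le hYpos]
    linarith [Real.exp_one_lt_d9]
  rcases hY₀ Y ((le_max_left _ _).trans hYa) with h | h
  · -- first alternative
    refine ⟨16 * Y ^ 4, ?_, ?_⟩
    · have : Y ≤ Y ^ 4 := by
        calc Y = Y ^ 1 := (pow_one Y).symm
          _ ≤ Y ^ 4 := pow_le_pow_right₀ hYc (by norm_num)
      linarith
    · have hlx : Real.log (16 * Y ^ 4) = Real.log 16 + 4 * Real.log Y := by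
        rw [Real.log_mul (by norm_num) (by positivity), Real.log_pow]
        norm_num
      have hl16 : Real.log 16 ≤ 4 * Real.log Y := by
        have h16 : (16 : ℝ) = 2 ^ 4 := by norm_num
        rw [h16, Real.log_pow]
        have : Real.log 2 ≤ Real.log Y := Real.log_le_log (by norm_num) (by linarith)
        push_cast
        linarith
      have hl16' : 0 ≤ Real.log 16 := Real.log_nonneg (by norm_num)
      have hx1 : 1 ≤ Real.log (16 * Y ^ 4) := by rw [hlx]; linarith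
      calc (Real.log (16 * Y ^ 4)) ^ (2 - ε) ≤ (Real.log (16 * Y ^ 4)) ^ (2 : ℝ) :=
            Real.rpow_le_rpow_of_exponent_le hx1 (by linarith)
        _ = (Real.log (16 * Y ^ 4)) ^ 2 := by
            rw [← Real.rpow_natCast (Real.log (16 * Y ^ 4)) 2]; norm_num
        _ ≤ (8 * Real.log Y) ^ 2 := pow_le_pow_left₀ (by linarith) (by rw [hlx]; linarith) 2
        _ = 64 * (Real.log Y) ^ 2 := by ring
        _ ≤ _ := hg
        _ ≤ _ := h
  · -- second alternative
    have hY1 : 1 ≤ Y ^ (1 + ε' / 4) := Real.one_le_rpow hYc (by linarith)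
    refine ⟨Real.exp (Y ^ (1 + ε' / 4)), ?_, ?_⟩
    · calc x₀ ≤ Y := hYb
        _ = Y ^ (1 : ℝ) := (Real.rpow_one Y).symm
        _ ≤ Y ^ (1 + ε' / 4) := Real.rpow_le_rpow_of_exponent_le hYc (by linarith)
        _ ≤ Real.exp (Y ^ (1 + ε' / 4)) := by
            linarith [Real.add_one_le_exp (Y ^ (1 + ε' / 4))]
    · rw [Real.log_exp]
      calc (Y ^ (1 + ε' / 4)) ^ (2 - ε) ≤ (Y ^ (1 + ε' / 4)) ^ (2 - ε') :=
            Real.rpow_le_rpow_of_exponent_le hY1 (by linarith)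
        _ = Y ^ ((1 + ε' / 4) * (2 - ε')) := (Real.rpow_mul hYpos.le _ _).symm
        _ ≤ Y ^ (2 - ε' / 4) := Real.rpow_le_rpow_of_exponent_le hYc (by nlinarith)
        _ ≤ _ := h

end SSC
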