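import Mathlib
import Pool.Agent.SSC.Targets2

/-!
# FINC: the dichotomy for all large `x`
-/

set_option autoImplicit false

open scoped BigOperators Classical
open Finset

namespace SSC

theorem p_FINC (h1 : T_DI2) : T_FINC := by
  intro S K M ρ hD hnd ε hε
  by_cases hc : ∀ x₀ : ℝ, ∃ x : ℝ, x₀ ≤ x ∧ x ^ (1 / 2 - ε) ≤ NS S x
  · exact Or.inl hc
  right
  push Not at hc
  obtain ⟨x₀, hx₀⟩ := hc
  set ε' : ℝ := min ε (1 / 4) with hε'
  have e1 : 0 < ε' := lt_min hε (by norm_num)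
  have e2 : ε' ≤ ε := min_le_left _ _
  have e3 : ε' ≤ 1 / 4 := min_le_right _ _
  set δ : ℝ := ε' / 8 with hδ
  have d1 : 0 < δ := by positivity
  have d2 : δ < 1 := by linarith
  obtain ⟨Y₀, hY₀, hY⟩ := h1 S K M ρ hD hnd ε' e1 (by linarith) ⟨max x₀ 1, fun x hx => by
    have k1 : x₀ ≤ x := (le_max_left _ _).trans hx
    have k2 : 1 ≤ x := (le_max_right _ _).trans hx
    exact (hx₀ x k1).le.trans (Real.rpow_le_rpow_of_exponent_le k2 (by linarith))⟩ δ d1 d2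
  refine ⟨Real.exp (Y₀ ^ (1 + δ)), fun x hx => ?_⟩
  have hx0 : 0 < x := lt_of_lt_of_le (Real.exp_pos _) hx
  have hL : Y₀ ^ (1 + δ) ≤ Real.log x := (Real.le_log_iff_exp_le hx0).2 hx
  have hY1 : (1 : ℝ) ≤ Y₀ ^ (1 + δ) := Real.one_le_rpow hY₀ (by linarith)
  have hL1 : 1 ≤ Real.log x := hY1.trans hL
  have hL0 : 0 ≤ Real.log x := by linarith
  set Y : ℝ := Real.log x ^ (1 / (1 + δ)) with hYd
  have hYY : Y₀ ≤ Y := by
    calc Y₀ = (Y₀ ^ (1 + δ)) ^ (1 / (1 + δ)) := by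
          rw [← Real.rpow_mul (by linarith), mul_one_div_cancel (by linarith), Real.rpow_one]
      _ ≤ Y := Real.rpow_le_rpow (by linarith) hL (by positivity)
  have hYp : Y ^ (1 + δ) = Real.log x := by
    rw [hYd, ← Real.rpow_mul hL0, one_div_mul_cancel (by linarith), Real.rpow_one]
  have h2 := hY Y hYY
  rw [hYp, Real.exp_log hx0] at h2
  refine le_trans ?_ h2
  rw [hYd, ← Real.rpow_mul hL0]
  refine Real.rpow_le_rpow_of_exponent_le hL1 ?_
  rw [one_div, ← div_eq_inv_mul, le_div_iff₀ (by linarith)]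
  nlinarith

end SSC
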