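import Pool.Agent.SSC.Targets

/-! # SSC, target HLO: many numbers `h` (Brun's pure sieve) -/

set_option autoImplicit false

open scoped BigOperators Classical
open Finset

namespace SSC

namespace HLO_

/-- the inequalities which hold for large `L` -/
lemma ev (κ β C c Mr : ℝ) (hκ : 0 < κ) (hκβ : κ < β) (hβ : β < 1) (hc : 0 < c) :
    ∃ L0 : ℝ, 3 ≤ L0 ∧ ∀ L : ℝ, L0 ≤ L →
      1 ≤ Real.log L + C ∧ Mr < Real.exp (L ^ β) ∧ Mr < Real.exp L / 16 ∧ 2 ≤ L ^ β ∧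
      (L ^ β + 1) * (20 * (Real.log L + C) + 3) + 1 ≤ L / 8 ∧
      1 / L ^ 3 ≤ c / L ^ 2 - 4 * (L + 2 + Real.exp (L ^ κ)) * Real.exp (-(L ^ β))
        - 16 * Real.exp (-(5 / 8 * L)) := by
  have hβ0 : 0 < β := hκ.trans hκβ
  have t1 : ∀ᶠ L : ℝ in Filter.atTop, 1 - C ≤ Real.log L :=
    Real.tendsto_log_atTop.eventually_ge_atTop _
  have t2 : ∀ᶠ L : ℝ in Filter.atTop, |Mr| + 4 ≤ L ^ β :=
    (tendsto_rpow_atTop hβ0).eventually_ge_atTop _
  have t3 : ∀ᶠ L : ℝ in Filter.atTop, 16 * |Mr| + 28 + 2 / c + 3 ≤ L :=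
    Filter.eventually_ge_atTop _
  have t4 : ∀ᶠ L : ℝ in Filter.atTop, ‖Real.log L‖ ≤ 1 / 16 * ‖L ^ β‖ :=
    (isLittleO_log_rpow_atTop hβ0).def (by norm_num)
  set δ : ℝ := (1 - β) / 2 with hδ
  have hδ0 : 0 < δ := by rw [hδ]; linarith
  have t5 : ∀ᶠ L : ℝ in Filter.atTop, ‖Real.log L‖ ≤ 1 / 40 * ‖L ^ δ‖ :=
    (isLittleO_log_rpow_atTop hδ0).def (by norm_num)
  have t6 : ∀ᶠ L : ℝ in Filter.atTop, 2 * (20 * |C| + 3) ≤ L ^ δ :=
    (tendsto_rpow_atTop hδ0).eventually_ge_atTop _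
  have t7 : ∀ᶠ L : ℝ in Filter.atTop, L ^ (-δ) < 1 / 64 :=
    (tendsto_rpow_neg_atTop hδ0).eventually_lt_const (by norm_num)
  have t8 : ∀ᶠ L : ℝ in Filter.atTop, L ^ (-(β - κ)) < 1 / 4 :=
    (tendsto_rpow_neg_atTop (by linarith : 0 < β - κ)).eventually_lt_const (by norm_num)
  obtain ⟨L1, hL1⟩ := Filter.eventually_atTop.1
    (t1.and (t2.and (t3.and (t4.and (t5.and (t6.and (t7.and t8)))))))
  refine ⟨max 3 L1, le_max_left _ _, fun L hL => ?_⟩
  obtain ⟨h1, h2, h3, h4, h5, h6, h7, h8⟩ := hL1 L ((le_max_right _ _).trans hL)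
  have hL3 : 3 ≤ L := (le_max_left _ _).trans hL
  have hL0 : 0 < L := by linarith
  have hMr : Mr ≤ |Mr| := le_abs_self _
  have hMr0 : 0 ≤ |Mr| := abs_nonneg _
  have hc2 : 0 < 2 / c := by positivity
  have hlog0 : 0 ≤ Real.log L := Real.log_nonneg (by linarith)
  have hb0 : 0 < L ^ β := Real.rpow_pos_of_pos hL0 _
  have hd0 : 0 < L ^ δ := Real.rpow_pos_of_pos hL0 _
  rw [Real.norm_of_nonneg hlog0, Real.norm_of_nonneg hb0.le] at h4
  rw [Real.norm_of_nonneg hlog0, Real.norm_of_nonneg hd0.le] at h5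
  have hbL : L ^ β ≤ L := by
    calc L ^ β ≤ L ^ (1:ℝ) := Real.rpow_le_rpow_of_exponent_le (by linarith) hβ.le
      _ = L := Real.rpow_one L
  refine ⟨by linarith, ?_, ?_, by linarith, ?_, ?_⟩
  · have := Real.add_one_le_exp (L ^ β)
    linarith
  · have := Real.add_one_le_exp L
    linarith
  · have hC : C ≤ |C| := le_abs_self _
    have e1 : 20 * (Real.log L + C) + 3 ≤ L ^ δ := by linarith
    have e2 : (L ^ β + 1) * (20 * (Real.log L + C) + 3) ≤ (2 * L ^ β) * L ^ δ := by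
      have : L ^ β + 1 ≤ 2 * L ^ β := by linarith
      calc (L ^ β + 1) * (20 * (Real.log L + C) + 3) ≤ (L ^ β + 1) * L ^ δ :=
            mul_le_mul_of_nonneg_left e1 (by linarith)
        _ ≤ (2 * L ^ β) * L ^ δ := mul_le_mul_of_nonneg_right this hd0.le
    have e3 : L ^ β * L ^ δ = L * L ^ (-δ) := by
      rw [← Real.rpow_add hL0]
      nth_rewrite 2 [← Real.rpow_one L]
      rw [← Real.rpow_add hL0]
      congr 1
      rw [hδ]; ring
    have e4 : L * L ^ (-δ) ≤ L * (1 / 64) := mul_le_mul_of_nonneg_left h7.le hL0.le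
    have e5 : (2 * L ^ β) * L ^ δ = 2 * (L * L ^ (-δ)) := by rw [← e3]; ring
    rw [e5] at e2
    linarith
  · have hκb : L ^ κ ≤ L ^ β / 4 := by
      have : L ^ κ = L ^ β * L ^ (-(β - κ)) := by
        rw [← Real.rpow_add hL0]; congr 1; ring
      rw [this]
      nlinarith
    set E := Real.exp (L ^ β / 4) with hE
    have x1 : L ≤ E := by
      rw [hE, ← Real.log_le_iff_le_exp hL0]; linarith
    have x2 : 2 ≤ E := by
      have := Real.add_one_le_exp (L ^ β / 4)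
      rw [hE]
      linarith
    have x3 : Real.exp (L ^ κ) ≤ E := Real.exp_le_exp.2 hκb
    have hlog4 : Real.exp (-(4 * Real.log L)) = 1 / L ^ 4 := by
      rw [Real.exp_neg, one_div]
      congr 1
      rw [show (4:ℝ) * Real.log L = ((4:ℕ):ℝ) * Real.log L by norm_num, Real.exp_nat_mul,
        Real.exp_log hL0]
    have x4 : 4 * (L + 2 + Real.exp (L ^ κ)) * Real.exp (-(L ^ β)) ≤ 12 / L ^ 4 := by
      calc 4 * (L + 2 + Real.exp (L ^ κ)) * Real.exp (-(L ^ β))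
          ≤ 12 * E * Real.exp (-(L ^ β)) := by
            refine mul_le_mul_of_nonneg_right ?_ (Real.exp_pos _).le
            linarith
        _ = 12 * Real.exp (-(3 / 4 * L ^ β)) := by
            rw [hE, mul_assoc, ← Real.exp_add]; congr 2; ring
        _ ≤ 12 * Real.exp (-(4 * Real.log L)) := by
            have : Real.exp (-(3 / 4 * L ^ β)) ≤ Real.exp (-(4 * Real.log L)) :=
              Real.exp_le_exp.2 (by linarith)
            linarith
        _ = 12 / L ^ 4 := by rw [hlog4]; ring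
    have x5 : 16 * Real.exp (-(5 / 8 * L)) ≤ 16 / L ^ 4 := by
      have : Real.exp (-(5 / 8 * L)) ≤ Real.exp (-(4 * Real.log L)) :=
        Real.exp_le_exp.2 (by linarith)
      rw [hlog4] at this
      calc 16 * Real.exp (-(5 / 8 * L)) ≤ 16 * (1 / L ^ 4) := by linarith
        _ = 16 / L ^ 4 := by ring
    have x6 : 1 / L ^ 3 + 28 / L ^ 4 ≤ c / L ^ 2 := by
      have hcL : 2 ≤ c * L := by
        have : 2 / c ≤ L := by linarith
        rw [div_le_iff₀ hc] at this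
        linarith
      have hL28 : 28 ≤ L ^ 2 := by nlinarith
      have hL28' : 28 ≤ L := by linarith
      have h28 : L + 28 ≤ c * L ^ 2 := by nlinarith
      have e1 : 1 / L ^ 3 + 28 / L ^ 4 = (L + 28) / L ^ 4 := by field_simp
      have e2 : c / L ^ 2 = (c * L ^ 2) / L ^ 4 := by field_simp
      rw [e1, e2]
      exact div_le_div_of_nonneg_right h28 (by positivity)
    have x7 : 12 / L ^ 4 + 16 / L ^ 4 = 28 / L ^ 4 := by ring
    linarith

/-- counting multiples -/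
lemma mult {ι : Type*} (T : Finset ι) (f : ι → ℕ) (N : ℕ) (v : ℝ) (hN : (N : ℝ) ≤ v) :
    (((Icc 1 N).filter fun h : ℕ => ∃ t ∈ T, f t ∣ h).card : ℝ) ≤ ∑ t ∈ T, v / (f t : ℝ) := by
  have h1 : ((Icc 1 N).filter fun h : ℕ => ∃ t ∈ T, f t ∣ h) ⊆
      T.biUnion fun t => (Ioc 0 N).filter fun h => f t ∣ h := by
    intro h hh
    simp only [mem_filter, mem_Icc, mem_biUnion, mem_Ioc] at hh ⊢
    obtain ⟨⟨h1, h2⟩, t, ht, hd⟩ := hh
    exact ⟨t, ht, ⟨by omega, h2⟩, hd⟩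
  have h2 : ((Icc 1 N).filter fun h : ℕ => ∃ t ∈ T, f t ∣ h).card ≤ ∑ t ∈ T, N / f t := by
    refine (card_le_card h1).trans (card_biUnion_le.trans ?_)
    refine Finset.sum_le_sum fun t _ => ?_
    rw [Nat.Ioc_filter_dvd_card_eq_div]
  calc (((Icc 1 N).filter fun h : ℕ => ∃ t ∈ T, f t ∣ h).card : ℝ)
      ≤ ((∑ t ∈ T, N / f t : ℕ) : ℝ) := by exact_mod_cast h2
    _ = ∑ t ∈ T, ((N / f t : ℕ) : ℝ) := by push_cast; rfl
    _ ≤ ∑ t ∈ T, v / (f t : ℝ) := by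
        refine Finset.sum_le_sum fun t _ => ?_
        refine Nat.cast_div_le.trans ?_
        exact div_le_div_of_nonneg_right hN (Nat.cast_nonneg _)

/-- `1 - x ≥ exp (-2x)` for `0 ≤ x ≤ 1/2` -/
lemma one_sub_ge {x : ℝ} (h0 : 0 ≤ x) (h1 : x ≤ 1 / 2) : Real.exp (-(2 * x)) ≤ 1 - x := by
  rw [Real.exp_neg]
  have h2 := Real.add_one_le_exp (2 * x)
  have h3 : (Real.exp (2 * x))⁻¹ ≤ (2 * x + 1)⁻¹ := inv_anti₀ (by linarith) h2
  refine h3.trans ?_
  rw [inv_le_iff_one_le_mul₀ (by linarith)]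
  nlinarith

/-- the main term of the sieve -/
lemma num (Q : Finset ℕ) (x : ℕ → ℝ) (s : ℝ) (r : ℕ) (hs : 1 ≤ s)
    (hx : ∀ q ∈ Q, 0 ≤ x q ∧ x q ≤ 1 / 2) (hW : ∑ q ∈ Q, x q ≤ s) (hr : 20 * s ≤ r + 1) :
    Real.exp (-(2 * s)) / 2 ≤
      (∏ q ∈ Q, (1 - x q)) - (∑ q ∈ Q, x q) ^ (r + 1) / (r + 1).factorial := by
  set W := ∑ q ∈ Q, x q with hWd
  have hW0 : 0 ≤ W := Finset.sum_nonneg fun q hq => (hx q hq).1
  have h1 : Real.exp (-(2 * s)) ≤ ∏ q ∈ Q, (1 - x q) := by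
    calc Real.exp (-(2 * s)) ≤ Real.exp (-(2 * W)) := Real.exp_le_exp.2 (by linarith)
      _ = Real.exp (∑ q ∈ Q, -(2 * x q)) := by
          rw [hWd, Finset.sum_neg_distrib, Finset.mul_sum]
      _ = ∏ q ∈ Q, Real.exp (-(2 * x q)) := Real.exp_sum _ _
      _ ≤ ∏ q ∈ Q, (1 - x q) :=
          Finset.prod_le_prod (fun q _ => (Real.exp_pos _).le)
            fun q hq => one_sub_ge (hx q hq).1 (hx q hq).2
  have hn : (0:ℝ) < ((r + 1 : ℕ) : ℝ) := by positivity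
  have h2 : W ^ (r + 1) / (r + 1).factorial ≤ Real.exp (-(20 * s)) := by
    have e1 : W ^ (r + 1) / (r + 1).factorial
        = (W / ((r + 1 : ℕ) : ℝ)) ^ (r + 1)
          * (((r + 1 : ℕ) : ℝ) ^ (r + 1) / (r + 1).factorial) := by
      rw [div_pow]; field_simp
    rw [e1]
    have e2 := Real.pow_div_factorial_le_exp ((r + 1 : ℕ) : ℝ) hn.le (r + 1)
    have e3 : W / ((r + 1 : ℕ) : ℝ) ≤ 1 / 20 := by
      rw [div_le_iff₀ hn]; push_cast; linarith
    have e4 : (W / ((r + 1 : ℕ) : ℝ)) ^ (r + 1) ≤ (1 / 20 : ℝ) ^ (r + 1) :=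
      pow_le_pow_left₀ (by positivity) e3 _
    have e5 : (1 / 20 : ℝ) ≤ Real.exp (-2) := by
      rw [Real.exp_neg, one_div]
      refine inv_anti₀ (Real.exp_pos _) ?_
      have h3 : Real.exp 2 = Real.exp 1 * Real.exp 1 := by rw [← Real.exp_add]; norm_num
      have h4 := Real.exp_one_lt_d9
      have h5 := Real.exp_pos 1
      rw [h3]
      nlinarith
    have e6 : (1 / 20 : ℝ) ^ (r + 1) ≤ Real.exp (-2 * ((r + 1 : ℕ) : ℝ)) := by
      calc (1 / 20 : ℝ) ^ (r + 1) ≤ (Real.exp (-2)) ^ (r + 1) :=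
            pow_le_pow_left₀ (by norm_num) e5 _
        _ = Real.exp (((r + 1 : ℕ) : ℝ) * (-2)) := by rw [Real.exp_nat_mul]
        _ = _ := by ring_nf
    calc (W / ((r + 1 : ℕ) : ℝ)) ^ (r + 1)
          * (((r + 1 : ℕ) : ℝ) ^ (r + 1) / (r + 1).factorial)
        ≤ Real.exp (-2 * ((r + 1 : ℕ) : ℝ)) * Real.exp ((r + 1 : ℕ) : ℝ) :=
          mul_le_mul (e4.trans e6) e2 (by positivity) (Real.exp_pos _).le
      _ = Real.exp (-((r + 1 : ℕ) : ℝ)) := by rw [← Real.exp_add]; congr 1; ring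
      _ ≤ Real.exp (-(20 * s)) := by
          refine Real.exp_le_exp.2 ?_
          push_cast; linarith
  have h3 : Real.exp (-(20 * s)) ≤ Real.exp (-(2 * s)) / 2 := by
    have e1 : Real.exp (-(20 * s)) = Real.exp (-(2 * s)) * Real.exp (-(18 * s)) := by
      rw [← Real.exp_add]; congr 1; ring
    have e2 : Real.exp (-(18 * s)) ≤ 1 / 2 := by
      rw [Real.exp_neg, one_div]
      refine inv_anti₀ (by norm_num) ?_
      have := Real.add_one_le_exp (18 * s)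
      linarith
    rw [e1]
    nlinarith [Real.exp_pos (-(2 * s))]
  linarith

/-- a solution of the congruence -/
lemma exb (M t : ℕ) (hM : 0 < M) (h : t.Coprime M) : ∃ b : ℕ, ∀ h' : ℕ,
    h' ≡ b [MOD M] → M ∣ t * h' + 1 := by
  haveI : NeZero M := ⟨hM.ne'⟩
  refine ⟨(-((ZMod.unitOfCoprime t h)⁻¹ : (ZMod M)ˣ) : ZMod M).val, fun h' hh => ?_⟩
  rw [← ZMod.natCast_eq_zero_iff]
  have h1 := (ZMod.natCast_eq_natCast_iff _ _ M).2 hh
  rw [ZMod.natCast_val, ZMod.cast_id', id] at h1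
  push_cast
  rw [h1]
  have h2 : (t : ZMod M) = ((ZMod.unitOfCoprime t h : (ZMod M)ˣ) : ZMod M) := by simp
  have h3 : (t : ZMod M) * (((ZMod.unitOfCoprime t h)⁻¹ : (ZMod M)ˣ) : ZMod M) = 1 := by
    rw [h2]
    exact Units.mul_inv _
  rw [mul_neg, h3]
  ring

/-- the remaining numbers lie in `HH` -/
lemma core (S : Set ℕ) (M : ℕ) (ρ Y z0 : ℝ) (a Λ b : ℕ) (Q : Finset ℕ) (m : ℕ → ℕ)
    (hM : 0 < M) (hρ2 : ρ ≤ 2) (hS : ∀ p ∈ S, p.Prime) (ha : a.Prime) (haY : (a : ℝ) ≤ Y)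
    (hY1 : 1 ≤ Y) (hΛa : Λ < a) (hΛsq : Squarefree Λ)
    (hb : ∀ h' : ℕ, h' ≡ b [MOD M] → M ∣ (a * Λ) * h' + 1)
    (hQ : ∀ q : ℕ, q.Prime → (q : ℝ) ≤ z0 → ¬ q ∣ M → q ∈ Q)
    (hm : ∀ q, (q ∈ S → m q = q) ∧ (m q ∣ q * q)) (h : ℕ)
    (h1 : 1 ≤ h) (hu : (a : ℝ) / Λ < h) (hv : (h : ℝ) < ρ * a / Λ) (hmod : h ≡ b [MOD M])
    (hq : ∀ q ∈ Q, ¬ m q ∣ h)
    (n1 : ∀ l : ℕ, l.Prime → l ∣ Λ → ¬ l ∣ h)
    (n2 : ∀ q : ℕ, q.Prime → z0 < q → ¬ q * q ∣ h)
    (n3 : ∀ q ∈ S, z0 < (q : ℝ) → (q : ℝ) ≤ 16 * Y ^ 4 → ¬ q ∣ h) :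
    h ∈ HH S M ρ a Λ := by
  have hΛ0 : 0 < Λ := Nat.pos_of_ne_zero (Squarefree.ne_zero hΛsq)
  have hΛr : (0:ℝ) < Λ := by exact_mod_cast hΛ0
  have hΛ1 : (1:ℝ) ≤ Λ := by exact_mod_cast hΛ0
  have har : (0:ℝ) < a := by exact_mod_cast ha.pos
  rw [div_lt_iff₀ hΛr] at hu
  rw [lt_div_iff₀ hΛr] at hv
  have hMd := hb h hmod
  have h2a : (h : ℝ) < 2 * a := by
    have h3 : (h:ℝ) * 1 ≤ h * Λ := mul_le_mul_of_nonneg_left hΛ1 (Nat.cast_nonneg h)
    have h4 : ρ * a ≤ 2 * a := mul_le_mul_of_nonneg_right hρ2 har.le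
    linarith
  have h2a' : h < 2 * a := by exact_mod_cast h2a
  have hnM : ∀ q : ℕ, q.Prime → q ∣ M → ¬ q ∣ h := by
    intro q hqp hqM hqh
    have h3 : q ∣ (a * Λ) * h + 1 := hqM.trans hMd
    have h4 : q ∣ (a * Λ) * h := Dvd.dvd.mul_left hqh _
    have h5 : q ∣ 1 := (Nat.dvd_add_right h4).1 h3
    exact hqp.one_lt.ne' (Nat.dvd_one.1 h5)
  have hsqh : Squarefree h := by
    rw [Nat.squarefree_iff_prime_squarefree]
    intro q hqp hqq
    rcases lt_or_ge z0 (q : ℝ) with hz | hz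
    · exact n2 q hqp hz hqq
    · by_cases hqM : q ∣ M
      · exact hnM q hqp hqM ((dvd_mul_right q q).trans hqq)
      · exact hq q (hQ q hqp hz hqM) ((hm q).2.trans hqq)
  have hSn : ∀ q ∈ S, ¬ q ∣ h := by
    intro q hqS hqh
    have hqp := hS q hqS
    rcases lt_or_ge z0 (q : ℝ) with hz | hz
    · refine n3 q hqS hz ?_ hqh
      have h3 : q ≤ h := Nat.le_of_dvd (by omega) hqh
      have h4 : (q : ℝ) ≤ h := by exact_mod_cast h3
      have h5 : Y ≤ Y ^ 4 := by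
        calc Y = Y ^ 1 := (pow_one Y).symm
          _ ≤ Y ^ 4 := pow_le_pow_right₀ hY1 (by norm_num)
      linarith
    · by_cases hqM : q ∣ M
      · exact hnM q hqp hqM hqh
      · have h3 := hq q (hQ q hqp hz hqM)
        rw [(hm q).1 hqS] at h3
        exact h3 hqh
  have hcopΛ : Nat.Coprime Λ h := Nat.coprime_of_dvd fun l hl h3 h4 => n1 l hl h3 h4
  have hcopa : Nat.Coprime a Λ := by
    rw [ha.coprime_iff_not_dvd]
    intro h3
    exact absurd (Nat.le_of_dvd hΛ0 h3) (by omega)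
  have hcopah : Nat.Coprime a h := by
    rw [ha.coprime_iff_not_dvd]
    rintro ⟨t, rfl⟩
    have ht : t < 2 := by
      by_contra hcon
      push Not at hcon
      have := Nat.mul_le_mul_left a hcon
      omega
    have ht1 : t = 1 := by
      rcases Nat.lt_or_ge t 1 with h3 | h3
      · have : t = 0 := by omega
        subst this
        simp at h1
      · omega
    subst ht1
    rw [mul_one] at hu hv
    have h3 : (1:ℝ) < Λ := by
      by_contra hcon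
      push Not at hcon
      have : (a:ℝ) * Λ ≤ a * 1 := mul_le_mul_of_nonneg_left hcon har.le
      linarith
    have h4 : (2:ℝ) ≤ Λ := by
      have : 1 < Λ := by exact_mod_cast h3
      exact_mod_cast this
    have h5 : (a:ℝ) * 2 ≤ a * Λ := mul_le_mul_of_nonneg_left h4 har.le
    have h6 : ρ * a ≤ 2 * a := mul_le_mul_of_nonneg_right hρ2 har.le
    linarith
  unfold HH
  rw [mem_filter, mem_Icc]
  refine ⟨⟨h1, h2a'.le⟩, ?_, ?_, hMd, ?_, hSn⟩
  · rw [mul_comm]; exact hu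
  · rw [mul_comm]; exact hv
  · rw [Nat.squarefree_mul_iff, Nat.squarefree_mul_iff]
    exact ⟨Nat.Coprime.mul_left hcopah hcopΛ, ⟨hcopa, ha.prime.squarefree, hΛsq⟩, hsqh⟩

/-- the number of prime factors -/
lemma omega_le (Λ : ℕ) (L : ℝ) (hL : 0 ≤ L) (hΛsq : Squarefree Λ) (hΛ : Real.log Λ ≤ L / 4) :
    (Λ.primeFactors.card : ℝ) ≤ L := by
  have h1 : 2 ^ Λ.primeFactors.card ≤ ∏ l ∈ Λ.primeFactors, l :=
    Finset.pow_card_le_prod _ _ _ fun l hl => (Nat.prime_of_mem_primeFactors hl).two_le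
  rw [Nat.prod_primeFactors_of_squarefree hΛsq] at h1
  have h2 : ((2:ℝ)) ^ Λ.primeFactors.card ≤ Λ := by exact_mod_cast h1
  have h3 := Real.log_le_log (by positivity) h2
  rw [Real.log_pow] at h3
  have h4 : (1 / 2 : ℝ) < Real.log 2 := by have := Real.log_two_gt_d9; linarith
  have h5 : (0:ℝ) ≤ Λ.primeFactors.card := Nat.cast_nonneg _
  nlinarith

end HLO_

open HLO_

theorem p_HLO (h1 : T_BRU) (h2 : T_MER) : T_HLO := by
  intro M ρ κ β hM hρ1 hρ2 hκ hκβ hβ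
  obtain ⟨C, hC, hMER⟩ := h2
  have hMr : (0:ℝ) < M := by exact_mod_cast hM
  set c : ℝ := (ρ - 1) * Real.exp (-(2 * C)) / (2 * M) with hc
  have hc0 : 0 < c := by
    have : 0 < ρ - 1 := by linarith
    positivity
  obtain ⟨L0, hL03, hev⟩ := ev κ β C c M hκ hκβ hβ hc0
  refine ⟨3, max 3 (Real.exp L0), by norm_num, le_max_left _ _, ?_⟩
  intro Y S a Λ hY hS hNS ha haY1 haY2 hΛsq hΛY hΛp
  have hY3 : 3 ≤ Y := (le_max_left _ _).trans hY
  have hY0 : 0 < Y := by linarith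
  set L := Real.log Y with hL
  have hLL0 : L0 ≤ L := by
    rw [hL, Real.le_log_iff_exp_le hY0]
    exact (le_max_right _ _).trans hY
  have hYL : Real.exp L = Y := by rw [hL, Real.exp_log hY0]
  obtain ⟨v1, v2, v3, v4, v5, v6⟩ := hev L hLL0
  have hL3 : 3 ≤ L := hL03.trans hLL0
  have hLpos : 0 < L := by linarith
  set z0 : ℝ := Real.exp (L ^ β) with hz0
  have hz00 : 0 < z0 := Real.exp_pos _
  have hz02 : 2 ≤ z0 := by
    have := Real.add_one_le_exp (L ^ β)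
    rw [hz0]; linarith
  have har : (0:ℝ) < a := by exact_mod_cast ha.pos
  have hΛ0 : 0 < Λ := Nat.pos_of_ne_zero (Squarefree.ne_zero hΛsq)
  have hΛr : (0:ℝ) < Λ := by exact_mod_cast hΛ0
  have hY14 : Y ^ (1 / 4 : ℝ) = Real.exp (L / 4) := by
    rw [← hYL, ← Real.exp_mul]; congr 1; ring
  have hΛlog : Real.log Λ ≤ L / 4 := by
    rw [Real.log_le_iff_le_exp hΛr, ← hY14]
    exact hΛY
  have hE8 : (16 : ℝ) < Real.exp (3 / 4 * L) := by
    have h3 : L ^ β ≤ L := by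
      calc L ^ β ≤ L ^ (1:ℝ) := Real.rpow_le_rpow_of_exponent_le (by linarith) hβ.le
        _ = L := Real.rpow_one L
    have h4 := Real.add_one_le_exp (3 / 4 * L)
    have h5 : (2 + 1) * (20 * 1 + 3) + 1 ≤ L / 8 := by
      refine le_trans ?_ v5
      have : (2 + 1) * (20 * 1 + 3) ≤ (L ^ β + 1) * (20 * (Real.log L + C) + 3) :=
        mul_le_mul (by linarith) (by linarith) (by norm_num) (by linarith)
      linarith
    linarith
  have hΛa : Λ < a := by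
    have h3 : (Λ : ℝ) < a := by
      have h4 : Real.exp (L / 4) * 16 < Y := by
        have : Y = Real.exp (L / 4) * Real.exp (3 / 4 * L) := by
          rw [← hYL, ← Real.exp_add]; congr 1; ring
        rw [this]
        exact mul_lt_mul_of_pos_left hE8 (Real.exp_pos _)
      rw [hY14] at hΛY
      linarith
    exact_mod_cast h3
  -- the class `b`
  have hcop : (a * Λ).Coprime M := by
    refine Nat.Coprime.mul_left ?_ ?_
    · rw [ha.coprime_iff_not_dvd]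
      intro h3
      have h4 : (a : ℝ) ≤ M := by exact_mod_cast Nat.le_of_dvd hM h3
      rw [hYL] at v3
      linarith
    · refine Nat.coprime_of_dvd fun l hl h3 h4 => ?_
      have h5 : (l : ℝ) ≤ M := by exact_mod_cast Nat.le_of_dvd hM h4
      have := (hΛp l hl h3).1
      linarith
  obtain ⟨b, hb⟩ := exb M (a * Λ) hM hcop
  set Q : Finset ℕ := (pri 1 z0).filter fun q => ¬ q ∣ M with hQ
  set m : ℕ → ℕ := fun q => if q ∈ S then q else q ^ 2 with hm
  set s : ℝ := Real.log L + C with hs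
  set r : ℕ := 2 * ⌈10 * s⌉₊ + 1 with hr
  have hs0 : 0 ≤ 10 * s := by linarith
  have hr1 : 20 * s ≤ (r : ℝ) + 1 := by
    have := Nat.le_ceil (10 * s)
    rw [hr]; push_cast; linarith
  have hr2 : (r : ℝ) ≤ 20 * s + 3 := by
    have := Nat.ceil_lt_add_one hs0
    rw [hr]; push_cast; linarith
  have hQmem : ∀ q ∈ Q, q.Prime ∧ (q : ℝ) ≤ z0 ∧ ¬ q ∣ M := by
    intro q hq
    rw [hQ, mem_filter, pri, mem_filter, mem_Icc] at hq
    exact ⟨hq.1.2.1, (Nat.le_floor_iff hz00.le).1 hq.1.1.2, hq.2⟩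
  have hmq : ∀ q : ℕ, q ≤ m q := by
    intro q
    simp only [hm]
    split_ifs
    · exact le_rfl
    · exact Nat.le_self_pow (by norm_num) q
  set u : ℝ := (a : ℝ) / Λ with hu
  set v : ℝ := ρ * a / Λ with hv
  have hu0 : 0 < u := by positivity
  have huv : v = ρ * u := by rw [hv, hu]; ring
  have huv' : u ≤ v := by rw [huv]; nlinarith
  have hv2 : v ≤ 2 * u := by rw [huv]; nlinarith
  have hv0 : 0 < v := lt_of_lt_of_le hu0 huv'
  have hBRU := h1 Q m M b r u v hM ⟨⌈10 * s⌉₊, rfl⟩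
    (fun q hq => ⟨(hQmem q hq).1, (Nat.Prime.coprime_iff_not_dvd (hQmem q hq).1).2
      (hQmem q hq).2.2, by simp only [hm]; split_ifs <;> simp⟩) hu0.le huv'
  -- the sum
  have hW : ∑ q ∈ Q, 1 / (m q : ℝ) ≤ s := by
    have e1 : ∑ q ∈ Q, 1 / (m q : ℝ) ≤ ∑ q ∈ pri 1 z0, 1 / (q : ℝ) := by
      calc ∑ q ∈ Q, 1 / (m q : ℝ) ≤ ∑ q ∈ Q, 1 / (q : ℝ) := by
            refine Finset.sum_le_sum fun q hq => ?_
            have h3 : (0:ℝ) < q := by exact_mod_cast (hQmem q hq).1.pos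
            exact one_div_le_one_div_of_le h3 (by exact_mod_cast hmq q)
        _ ≤ ∑ q ∈ pri 1 z0, 1 / (q : ℝ) :=
            Finset.sum_le_sum_of_subset_of_nonneg (filter_subset _ _)
              fun _ _ _ => by positivity
    have e2 := (abs_le.1 (hMER z0 hz02)).2
    have e3 : Real.log (Real.log z0) ≤ Real.log L := by
      rw [hz0, Real.log_exp, Real.log_rpow hLpos]
      have : 0 ≤ Real.log L := Real.log_nonneg (by linarith)
      nlinarith
    linarith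
  have hnum := num Q (fun q => 1 / (m q : ℝ)) s r v1 (fun q hq => by
    have h3 : (2:ℝ) ≤ m q := by exact_mod_cast (hQmem q hq).1.two_le.trans (hmq q)
    refine ⟨by positivity, ?_⟩
    exact one_div_le_one_div_of_le (by norm_num) h3) hW hr1
  have hexp2s : Real.exp (-(2 * s)) = Real.exp (-(2 * C)) / L ^ 2 := by
    have : -(2 * s) = -(2 * C) - ((2:ℕ):ℝ) * Real.log L := by rw [hs]; push_cast; ring
    rw [this, Real.exp_sub, Real.exp_nat_mul, Real.exp_log hLpos]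
  have hmain : u * (c / L ^ 2) ≤ (v - u) / M * ((∏ q ∈ Q, (1 - 1 / (m q : ℝ))) -
      (∑ q ∈ Q, 1 / (m q : ℝ)) ^ (r + 1) / (r + 1).factorial) := by
    have e1 : u * (c / L ^ 2) = (v - u) / M * (Real.exp (-(2 * s)) / 2) := by
      rw [hexp2s, huv, hc]
      field_simp
    rw [e1]
    exact mul_le_mul_of_nonneg_left hnum (div_nonneg (by linarith) hMr.le)
  -- the error term
  have hQc : ((Q.card : ℝ) + 1) ≤ Real.exp (L ^ β + 1) := by
    have e1 : Q.card ≤ ⌊z0⌋₊ := by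
      calc Q.card ≤ (Icc 1 ⌊z0⌋₊).card :=
            card_le_card ((filter_subset _ _).trans (filter_subset _ _))
        _ = ⌊z0⌋₊ := by simp
    have e2 : (Q.card : ℝ) ≤ z0 :=
      le_trans (by exact_mod_cast e1) (Nat.floor_le hz00.le)
    have e3 : (2:ℝ) ≤ Real.exp 1 := by have := Real.add_one_le_exp (1:ℝ); linarith
    rw [Real.exp_add, ← hz0]
    nlinarith
  have herr : 2 * ((Q.card : ℝ) + 1) ^ r ≤ Real.exp (L / 8) := by
    have e3 : (2:ℝ) ≤ Real.exp 1 := by have := Real.add_one_le_exp (1:ℝ); linarith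
    calc 2 * ((Q.card : ℝ) + 1) ^ r ≤ Real.exp 1 * (Real.exp (L ^ β + 1)) ^ r :=
          mul_le_mul e3 (pow_le_pow_left₀ (by positivity) hQc r) (by positivity)
            (Real.exp_pos _).le
      _ = Real.exp ((r : ℝ) * (L ^ β + 1) + 1) := by
          rw [← Real.exp_nat_mul, ← Real.exp_add]; congr 1; ring
      _ ≤ Real.exp (L / 8) := by
          refine Real.exp_le_exp.2 ?_
          have : (r : ℝ) * (L ^ β + 1) ≤ (20 * s + 3) * (L ^ β + 1) :=
            mul_le_mul_of_nonneg_right hr2 (by linarith)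
          linarith
  have hu16 : Real.exp (L / 8) ≤ u * (16 * Real.exp (-(5 / 8 * L))) := by
    have e1 : Real.exp (3 / 4 * L) / 16 ≤ u := by
      rw [hu, le_div_iff₀ hΛr]
      have e2 : Real.exp (3 / 4 * L) / 16 * Λ ≤ Real.exp (3 / 4 * L) / 16 * Real.exp (L / 4) :=
        mul_le_mul_of_nonneg_left (by rw [← hY14]; exact hΛY) (by positivity)
      have e3 : Real.exp (3 / 4 * L) / 16 * Real.exp (L / 4) = Y / 16 := by
        rw [div_mul_eq_mul_div, ← Real.exp_add]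
        congr 1
        rw [← hYL]; congr 1; ring
      linarith
    have e4 : Real.exp (L / 8) = Real.exp (3 / 4 * L) / 16 * (16 * Real.exp (-(5 / 8 * L))) := by
      have : Real.exp (L / 8) = Real.exp (3 / 4 * L) * Real.exp (-(5 / 8 * L)) := by
        rw [← Real.exp_add]; congr 1; ring
      rw [this]; ring
    rw [e4]
    exact mul_le_mul_of_nonneg_right e1 (by positivity)
  -- the exceptional sets
  set N := ⌊v⌋₊ with hN
  have hNv : (N : ℝ) ≤ v := Nat.floor_le hv0.le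
  set G := (Icc 1 N).filter fun h : ℕ => u < (h : ℝ) ∧ (h : ℝ) < v ∧ h ≡ b [MOD M] ∧
      ∀ q ∈ Q, ¬ m q ∣ h with hG
  have hSfin : {p : ℕ | p ∈ S ∧ (p : ℝ) ≤ 16 * Y ^ 4}.Finite := by
    refine Set.Finite.subset (Set.finite_Iic ⌊16 * Y ^ 4⌋₊) ?_
    rintro p ⟨-, hp⟩
    exact (Nat.le_floor_iff (by positivity)).2 hp
  set T3 : Finset ℕ := hSfin.toFinset.filter fun q : ℕ => z0 < (q : ℝ) with hT3
  set B1 := (Icc 1 N).filter fun h : ℕ => ∃ t ∈ Λ.primeFactors, t ∣ h with hB1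
  set B2 := (Icc 1 N).filter fun h : ℕ => ∃ t ∈ Ioc ⌊z0⌋₊ N, t ^ 2 ∣ h with hB2
  set B3 := (Icc 1 N).filter fun h : ℕ => ∃ t ∈ T3, t ∣ h with hB3
  have hsub : G ⊆ HH S M ρ a Λ ∪ (B1 ∪ (B2 ∪ B3)) := by
    intro h hh
    by_contra hcon
    simp only [mem_union, not_or] at hcon
    obtain ⟨c0, c1, c2, c3⟩ := hcon
    rw [hG, mem_filter] at hh
    obtain ⟨hI, g1, g2, g3, g4⟩ := hh
    have hI' := mem_Icc.1 hI
    refine c0 (core S M ρ Y z0 a Λ b Q m hM hρ2 hS ha haY2 (by linarith) hΛa hΛsq hb ?_ ?_ h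
      hI'.1 g1 g2 g3 g4 ?_ ?_ ?_)
    · intro q hqp hqz hqM
      rw [hQ, mem_filter, pri, mem_filter, mem_Icc]
      exact ⟨⟨⟨hqp.one_lt.le, (Nat.le_floor_iff hz00.le).2 hqz⟩, hqp,
        by exact_mod_cast hqp.one_lt⟩, hqM⟩
    · intro q
      refine ⟨fun hq => by simp only [hm, if_pos hq], ?_⟩
      simp only [hm]
      split_ifs
      · exact dvd_mul_right q q
      · rw [sq]
    · intro l hl hlΛ hlh
      exact c1 (mem_filter.2 ⟨hI, l, Nat.mem_primeFactors.2 ⟨hl, hlΛ, hΛ0.ne'⟩, hlh⟩)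
    · intro q hqp hqz hqq
      refine c2 (mem_filter.2 ⟨hI, q, mem_Ioc.2 ⟨?_, ?_⟩, by rw [sq]; exact hqq⟩)
      · exact (Nat.floor_lt hz00.le).2 hqz
      · have h3 : q * q ≤ h := Nat.le_of_dvd (by omega) hqq
        have h4 : q ≤ q * q := Nat.le_mul_self q
        omega
    · intro q hqS hqz hqY hqh
      refine c3 (mem_filter.2 ⟨hI, q, ?_, hqh⟩)
      rw [hT3, mem_filter, Set.Finite.mem_toFinset]
      exact ⟨⟨hqS, hqY⟩, hqz⟩
  have hcard : (G.card : ℝ) ≤ (HH S M ρ a Λ).card + (B1.card + (B2.card + B3.card)) := by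
    have e1 := (card_le_card hsub).trans ((card_union_le _ _).trans
      (Nat.add_le_add_left ((card_union_le _ _).trans
        (Nat.add_le_add_left (card_union_le _ _) _)) _))
    exact_mod_cast e1
  have hb1 : (B1.card : ℝ) ≤ L * (v / z0) := by
    refine (mult Λ.primeFactors (fun t => t) N v hNv).trans ?_
    calc ∑ t ∈ Λ.primeFactors, v / (t : ℝ) ≤ ∑ t ∈ Λ.primeFactors, v / z0 := by
          refine Finset.sum_le_sum fun t ht => ?_
          have h3 := Nat.mem_primeFactors.1 ht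
          exact div_le_div_of_nonneg_left hv0.le hz00 (hΛp t h3.1 h3.2.1).1.le
      _ = Λ.primeFactors.card * (v / z0) := by rw [sum_const, nsmul_eq_mul]
      _ ≤ L * (v / z0) :=
          mul_le_mul_of_nonneg_right (omega_le Λ L hLpos.le hΛsq hΛlog) (by positivity)
  have hz1 : 1 ≤ ⌊z0⌋₊ := (Nat.one_le_floor_iff _).2 (by linarith)
  have hb2 : (B2.card : ℝ) ≤ 2 * (v / z0) := by
    refine (mult (Ioc ⌊z0⌋₊ N) (fun t => t ^ 2) N v hNv).trans ?_
    rcases le_or_gt ⌊z0⌋₊ N with h3 | h3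
    · have h4 := sum_Ioc_inv_sq_le_sub (α := ℝ) (k := ⌊z0⌋₊) (n := N) (by omega) h3
      have h5 : ∑ t ∈ Ioc ⌊z0⌋₊ N, v / (((t ^ 2 : ℕ)) : ℝ)
          = v * ∑ t ∈ Ioc ⌊z0⌋₊ N, ((t : ℝ) ^ 2)⁻¹ := by
        rw [Finset.mul_sum]
        refine Finset.sum_congr rfl fun t _ => ?_
        push_cast
        rw [div_eq_mul_inv]
      rw [h5]
      have h6 : ((⌊z0⌋₊ : ℕ) : ℝ)⁻¹ ≤ 2 / z0 := by
        have h7 : z0 / 2 ≤ (⌊z0⌋₊ : ℝ) := by
          have := Nat.lt_floor_add_one z0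
          have h8 : (1:ℝ) ≤ (⌊z0⌋₊ : ℝ) := by exact_mod_cast hz1
          linarith
        calc ((⌊z0⌋₊ : ℕ) : ℝ)⁻¹ ≤ (z0 / 2)⁻¹ := inv_anti₀ (by positivity) h7
          _ = 2 / z0 := by rw [inv_div]
      have h9 : (0:ℝ) ≤ ((N : ℕ) : ℝ)⁻¹ := by positivity
      calc v * ∑ t ∈ Ioc ⌊z0⌋₊ N, ((t : ℝ) ^ 2)⁻¹ ≤ v * (2 / z0) :=
            mul_le_mul_of_nonneg_left (by linarith) hv0.le
        _ = 2 * (v / z0) := by ring
    · rw [Ioc_eq_empty (by omega)]
      simp only [sum_empty]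
      positivity
  have hb3 : (B3.card : ℝ) ≤ Real.exp (L ^ κ) * (v / z0) := by
    refine (mult T3 (fun t => t) N v hNv).trans ?_
    have h3 : (T3.card : ℝ) ≤ Real.exp (L ^ κ) := by
      refine le_trans ?_ hNS
      unfold NS
      rw [Set.ncard_eq_toFinset_card _ hSfin]
      exact_mod_cast card_le_card (filter_subset _ _)
    calc ∑ t ∈ T3, v / (t : ℝ) ≤ ∑ t ∈ T3, v / z0 := by
          refine Finset.sum_le_sum fun t ht => ?_
          rw [hT3, mem_filter] at ht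
          exact div_le_div_of_nonneg_left hv0.le hz00 ht.2.le
      _ = T3.card * (v / z0) := by rw [sum_const, nsmul_eq_mul]
      _ ≤ Real.exp (L ^ κ) * (v / z0) :=
          mul_le_mul_of_nonneg_right h3 (by positivity)
  have hvz : v / z0 ≤ 2 * u * Real.exp (-(L ^ β)) := by
    rw [Real.exp_neg, ← hz0, div_eq_mul_inv]
    exact mul_le_mul_of_nonneg_right hv2 (by positivity)
  have hbad : (B1.card : ℝ) + (B2.card + B3.card) ≤
      u * (4 * (L + 2 + Real.exp (L ^ κ)) * Real.exp (-(L ^ β))) := by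
    have e1 : (B1.card : ℝ) + (B2.card + B3.card) ≤ (L + 2 + Real.exp (L ^ κ)) * (v / z0) := by
      linarith
    have e2 : (L + 2 + Real.exp (L ^ κ)) * (v / z0) ≤
        (L + 2 + Real.exp (L ^ κ)) * (2 * u * Real.exp (-(L ^ β))) :=
      mul_le_mul_of_nonneg_left hvz (by positivity)
    have e3 : 0 ≤ (L + 2 + Real.exp (L ^ κ)) * (2 * u * Real.exp (-(L ^ β))) := by positivity
    linarith
  have hA : L ^ (-(3:ℝ)) = 1 / L ^ 3 := by
    rw [Real.rpow_neg hLpos.le, one_div]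
    congr 1
    exact_mod_cast Real.rpow_natCast L 3
  rw [hA]
  have hfin := mul_le_mul_of_nonneg_left v6 hu0.le
  have hBRU' : u * (c / L ^ 2) - Real.exp (L / 8) ≤ G.card := by
    refine le_trans ?_ hBRU
    linarith
  have : u * (c / L ^ 2 - 4 * (L + 2 + Real.exp (L ^ κ)) * Real.exp (-(L ^ β))
        - 16 * Real.exp (-(5 / 8 * L))) = u * (c / L ^ 2)
        - u * (4 * (L + 2 + Real.exp (L ^ κ)) * Real.exp (-(L ^ β)))
        - u * (16 * Real.exp (-(5 / 8 * L))) := by ring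
  rw [this] at hfin
  linarith

end SSC
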