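import Pool.Agent.SSC.Targets
import Pool.Agent.SSN.TRIV

/-!
# KIL: the set of numbers killed by `p`
-/

set_option autoImplicit false

open scoped BigOperators
open Finset

namespace SSC

namespace KIL_

open SSN in
/-- the values with `y = 0` -/
theorem y_zero (a b c x : ℤ) (ha : 0 < a) (ℓ : ℕ) (hp : Squarefree ℓ)
    (h : qf a b c x 0 = ℓ) : ℓ = a.toNat := by
  have h1 : a * x ^ 2 = ℓ := by
    rw [← h]
    unfold qf
    ring
  have h2 : a.toNat * x.natAbs ^ 2 = ℓ := by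
    zify
    rw [Int.toNat_of_nonneg ha.le, sq_abs]
    exact h1
  have h3 : x.natAbs * x.natAbs ∣ ℓ := by
    rw [← h2, ← sq]
    exact Dvd.intro_left _ rfl
  have h4 : x.natAbs = 1 := Nat.isUnit_iff.1 (hp _ h3)
  rw [h4] at h2
  omega

open SSN SSN.TRIV_ in
/-- trivial bound for squarefree values -/
theorem triv (a b c : ℤ) (Δ : ℕ) (hr : Red a b c Δ) (t : ℝ) (ht : 0 ≤ t) :
    {ℓ : ℕ | Squarefree ℓ ∧ (ℓ : ℝ) ≤ t ∧ Val a b c ℓ}.Finite ∧
    (({ℓ : ℕ | Squarefree ℓ ∧ (ℓ : ℝ) ≤ t ∧ Val a b c ℓ}.ncard : ℕ) : ℝ) ≤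
      1 + 7 * t / Real.sqrt Δ := by
  classical
  obtain ⟨ha, hba, hac, hD, hΔ⟩ := hr
  have haR : (0 : ℝ) < a := by exact_mod_cast ha
  have hΔR : (0 : ℝ) < Δ := by exact_mod_cast hΔ
  set R : ℝ := 2 * Real.sqrt (a * t) with hR
  set Y : ℝ := Real.sqrt (4 * a * t / Δ) with hY
  have hR0 : 0 ≤ R := by positivity
  have hY0 : 0 ≤ Y := Real.sqrt_nonneg _
  have hat : 0 ≤ (a : ℝ) * t := by positivity
  set F : Finset ℕ := (Icc 1 ⌊Y⌋).biUnion fun y : ℤ =>
    (Icc ⌈(-(b * y : ℝ) - R) / (2 * a)⌉ ⌊(-(b * y : ℝ) + R) / (2 * a)⌋).image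
      fun x : ℤ => (qf a b c x y).toNat with hF
  have hsub : {ℓ : ℕ | Squarefree ℓ ∧ (ℓ : ℝ) ≤ t ∧ Val a b c ℓ} ⊆
      ((insert a.toNat F : Finset ℕ) : Set ℕ) := by
    rintro ℓ ⟨hp, hℓt, x, y, hxy⟩
    rw [Finset.mem_coe, mem_insert]
    by_cases hy : y = 0
    · left
      subst hy
      exact y_zero a b c x ha ℓ hp hxy
    · right
      obtain ⟨x', y', hy', hxy'⟩ : ∃ x' y' : ℤ, 1 ≤ y' ∧ qf a b c x' y' = ℓ := by
        rcases lt_or_gt_of_ne hy with h | h
        · refine ⟨-x, -y, by omega, ?_⟩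
          rw [← hxy]
          unfold qf
          ring
        · exact ⟨x, y, by omega, hxy⟩
      have h4 := four_mul a b c x' y' Δ hD
      rw [hxy'] at h4
      have h4R : (2 * a * x' + b * y' : ℝ) ^ 2 + Δ * (y' : ℝ) ^ 2 = 4 * a * ℓ := by
        exact_mod_cast h4
      have h5 : (4 * a * ℓ : ℝ) ≤ 4 * (a * t) := by nlinarith
      have hyY : (y' : ℝ) ≤ Y := by
        rw [hY]
        apply Real.le_sqrt_of_sq_le
        rw [le_div_iff₀ hΔR]
        nlinarith [sq_nonneg (2 * a * x' + b * y' : ℝ)]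
      have hxR : |(2 * a * x' + b * y' : ℝ)| ≤ R := by
        apply abs_le_of_sq_le_sq _ hR0
        rw [hR, mul_pow, Real.sq_sqrt hat]
        nlinarith [mul_nonneg hΔR.le (sq_nonneg (y' : ℝ))]
      rw [abs_le] at hxR
      rw [hF, mem_biUnion]
      refine ⟨y', ?_, ?_⟩
      · rw [mem_Icc]
        exact ⟨hy', Int.le_floor.2 hyY⟩
      · rw [mem_image]
        refine ⟨x', ?_, ?_⟩
        · rw [mem_Icc]
          refine ⟨Int.ceil_le.2 ?_, Int.le_floor.2 ?_⟩
          · rw [div_le_iff₀ (by positivity)]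
            linarith [hxR.1]
          · rw [le_div_iff₀ (by positivity)]
            linarith [hxR.2]
        · rw [hxy']
          simp
  have hFc : (F.card : ℝ) ≤ Y * (R / a + 1) := by
    have h1 : F.card ≤ ∑ y ∈ Icc 1 ⌊Y⌋,
        (Icc ⌈(-(b * y : ℝ) - R) / (2 * a)⌉ ⌊(-(b * y : ℝ) + R) / (2 * a)⌋).card := by
      rw [hF]
      exact card_biUnion_le.trans (sum_le_sum fun y _ => card_image_le)
    have h2 : (F.card : ℝ) ≤ ∑ y ∈ Icc 1 ⌊Y⌋, (R / a + 1) := by
      refine (Nat.cast_le.2 h1).trans ?_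
      rw [Nat.cast_sum]
      apply sum_le_sum
      intro y _
      refine (card_le _ _ ?_).trans (le_of_eq ?_)
      · apply div_le_div_of_nonneg_right _ (by positivity)
        linarith
      · field_simp
        ring
    rw [sum_const, Int.card_Icc, nsmul_eq_mul] at h2
    refine h2.trans (mul_le_mul_of_nonneg_right ?_ (by positivity))
    have h3 : (0 : ℤ) ≤ ⌊Y⌋ := Int.floor_nonneg.2 hY0
    have h4 : (((⌊Y⌋ + 1 - 1).toNat : ℤ) : ℝ) = ((⌊Y⌋ + 1 - 1 : ℤ) : ℝ) := by
      rw [Int.toNat_of_nonneg (by omega)]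
    rw [Int.cast_natCast] at h4
    rw [h4]
    push_cast
    linarith [Int.floor_le Y]
  have hsq : Real.sqrt (Δ : ℝ) ^ 2 = Δ := Real.sq_sqrt hΔR.le
  have hsp : 0 < Real.sqrt (Δ : ℝ) := Real.sqrt_pos.2 hΔR
  have hYR : Y * (R / a) = 4 * t / Real.sqrt Δ := by
    rw [hY, hR, Real.sqrt_div (by positivity)]
    have h1 : Real.sqrt (4 * a * t) = 2 * Real.sqrt (a * t) := by
      rw [show (4 * a * t : ℝ) = 2 ^ 2 * (a * t) by ring, Real.sqrt_mul (by positivity),
        Real.sqrt_sq (by norm_num)]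
    rw [h1]
    have h2 : Real.sqrt ((a : ℝ) * t) * Real.sqrt (a * t) = a * t := Real.mul_self_sqrt hat
    field_simp
    nlinarith [h2]
  have hFc2 : (F.card : ℝ) ≤ 7 * t / Real.sqrt Δ := by
    by_cases hY1 : Y < 1
    · have h1 : ⌊Y⌋ < 1 := by
        rw [Int.floor_lt]
        exact_mod_cast hY1
      have h2 : F = ∅ := by
        rw [hF, Icc_eq_empty (by omega), biUnion_empty]
      rw [h2]
      simp only [card_empty, Nat.cast_zero]
      positivity
    · push Not at hY1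
      have h1 : (1 : ℝ) ≤ 4 * a * t / Δ := by
        by_contra hcon
        push Not at hcon
        have : Y < 1 := by
          rw [hY, Real.sqrt_lt' one_pos, one_pow]
          exact hcon
        linarith
      rw [le_div_iff₀ hΔR, one_mul] at h1
      have h3 : (3 * a ^ 2 : ℤ) ≤ Δ := by
        rw [← hD]
        have : b ^ 2 ≤ a ^ 2 := sq_le_sq' (by linarith [neg_abs_le b]) (by linarith [le_abs_self b])
        nlinarith
      have h3R : (3 * a ^ 2 : ℝ) ≤ Δ := by exact_mod_cast h3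
      have h4 : 3 * (a : ℝ) ≤ 4 * t := by
        have h5 : (a : ℝ) * (3 * a) ≤ a * (4 * t) := by nlinarith
        exact le_of_mul_le_mul_left h5 haR
      have h6 : Y ≤ 3 * t / Real.sqrt Δ := by
        rw [hY]
        apply Real.sqrt_le_iff.2
        refine ⟨by positivity, ?_⟩
        rw [div_pow, hsq]
        apply div_le_div_of_nonneg_right _ hΔR.le
        nlinarith
      calc (F.card : ℝ) ≤ Y * (R / a + 1) := hFc
        _ = Y * (R / a) + Y := by ring
        _ ≤ 4 * t / Real.sqrt Δ + 3 * t / Real.sqrt Δ := by rw [hYR]; linarith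
        _ = 7 * t / Real.sqrt Δ := by ring
  refine ⟨(Finset.finite_toSet _).subset hsub, ?_⟩
  have h7 : ({ℓ : ℕ | Squarefree ℓ ∧ (ℓ : ℝ) ≤ t ∧ Val a b c ℓ}.ncard : ℝ) ≤
      ((insert a.toNat F).card : ℝ) := by
    have := Set.ncard_le_ncard hsub (Finset.finite_toSet _)
    rw [Set.ncard_coe_finset] at this
    exact_mod_cast this
  have h8 : ((insert a.toNat F).card : ℝ) ≤ F.card + 1 := by
    exact_mod_cast card_insert_le _ _
  linarith

/-- squarefree numbers whose product is a square are equal -/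
theorem eq_of_sq {D D' k : ℕ} (hD : Squarefree D) (hD' : Squarefree D') (h : D * D' = k ^ 2) :
    D = D' := by
  have h0 : 0 < D := Nat.pos_of_ne_zero hD.ne_zero
  have h1 : D ∣ k := (hD.dvd_pow_iff_dvd (n := 2) (by norm_num)).1 ⟨D', h.symm⟩
  obtain ⟨u, rfl⟩ := h1
  have h2 : D' = D * u ^ 2 := by
    apply Nat.eq_of_mul_eq_mul_left h0
    rw [h]
    ring
  have h3 : u * u ∣ D' := by
    rw [h2, sq]
    exact Dvd.intro_left _ rfl
  have h4 : u = 1 := Nat.isUnit_iff.1 (hD' _ h3)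
  rw [h2, h4]
  ring

/-- two values of a form of discriminant `-p w ^ 2` -/
theorem pair {p : ℕ} {a b c w : ℤ} (hw : 4 * a * c - b ^ 2 = p * w ^ 2) {D D' : ℕ}
    (hD : Squarefree D) (hD' : Squarefree D') (hne : D ≠ D') (h : SSN.Val a b c D)
    (h' : SSN.Val a b c D') : ∃ t v : ℤ, v ≠ 0 ∧ 4 * (D : ℤ) * D' = t ^ 2 + p * v ^ 2 := by
  obtain ⟨x, y, hxy⟩ := h
  obtain ⟨x', y', hxy'⟩ := h'
  have key : 4 * (D : ℤ) * D' = (2 * a * x * x' + b * (x * y' + x' * y) + 2 * c * y * y') ^ 2 +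
      p * (w * (x * y' - x' * y)) ^ 2 := by
    rw [← hxy, ← hxy']
    unfold SSN.qf
    have h1 : (p : ℤ) * (w * (x * y' - x' * y)) ^ 2 =
        (p * w ^ 2) * (x * y' - x' * y) ^ 2 := by ring
    rw [h1, ← hw]
    ring
  refine ⟨_, _, ?_, key⟩
  intro h0
  rw [h0] at key
  set t : ℤ := 2 * a * x * x' + b * (x * y' + x' * y) + 2 * c * y * y' with ht
  have h2 : 4 * (D : ℤ) * D' = t ^ 2 := by
    rw [key]
    ring
  have h3 : 4 * (D * D') = t.natAbs ^ 2 := by
    zify
    rw [sq_abs, ← h2]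
    ring
  have h4 : 2 ∣ t.natAbs := by
    have h5 : 2 ∣ t.natAbs ^ 2 := by
      rw [← h3]
      omega
    exact Nat.prime_two.dvd_of_dvd_pow h5
  obtain ⟨k, hk⟩ := h4
  rw [hk] at h3
  have h5 : D * D' = k ^ 2 := by nlinarith
  exact hne (eq_of_sq hD hD' h5)

/-- the number of prime factors -/
theorem two_pow_le {n : ℕ} (hn : n ≠ 0) : 2 ^ n.primeFactors.card ≤ n := by
  calc 2 ^ n.primeFactors.card = ∏ _q ∈ n.primeFactors, 2 := by rw [prod_const]
    _ ≤ ∏ q ∈ n.primeFactors, q :=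
        prod_le_prod' fun q hq => (Nat.prime_of_mem_primeFactors hq).two_le
    _ ≤ n := Nat.le_of_dvd (Nat.pos_of_ne_zero hn) (Nat.prod_primeFactors_dvd n)

end KIL_

open KIL_ in
theorem p_KIL (h1 : SSN.T_RED) : T_KIL := by
  classical
  intro p F hp hp2 hF hBin T hT
  have hp0 : (0 : ℝ) < p := by exact_mod_cast hp.pos
  have hT0 : 0 ≤ T := by linarith
  set Gs : Set ℕ := {D : ℕ | D ∈ F ∧ (D : ℝ) ≤ T} with hGs
  have hfin : Gs.Finite := by
    refine (Set.finite_Iic ⌊T⌋₊).subset fun D hD => ?_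
    exact Nat.le_floor hD.2
  have hNS : NS F T = ((Gs.ncard : ℕ) : ℝ) := rfl
  have e1 : 0 ≤ 7 * T / Real.sqrt p := by positivity
  by_cases hN1 : Gs.ncard ≤ 1
  · have hN1' : NS F T ≤ 1 := by
      rw [hNS]
      exact_mod_cast hN1
    refine ⟨by linarith, fun _ => hN1', ∅, ?_, fun h2 => ?_⟩
    · rw [card_empty, pow_zero]
      exact one_le_pow₀ hT
    · linarith
  · push Not at hN1
    have hmem : ∀ D, D ∈ hfin.toFinset ↔ D ∈ F ∧ (D : ℝ) ≤ T := fun D => by
      rw [Set.Finite.mem_toFinset, hGs, Set.mem_ofPred_eq]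
    have hGcard : hfin.toFinset.card = Gs.ncard := (Set.ncard_eq_toFinset_card _ hfin).symm
    obtain ⟨a, b, c, w, ha, hΔ0, hpΔ, hval⟩ := hBin hfin.toFinset (by rw [hGcard]; exact hN1)
      (fun D hD => ((hmem D).1 hD).1)
    have hpair : ∀ D D' : ℕ, D ∈ F → (D : ℝ) ≤ T → D' ∈ F → (D' : ℝ) ≤ T → D ≠ D' →
        ∃ t v : ℤ, v ≠ 0 ∧ 4 * (D : ℤ) * D' = t ^ 2 + p * v ^ 2 := by
      intro D D' hD hDT hD' hDT' hne
      exact pair hpΔ (hF D hD).2 (hF D' hD').2 hne (hval D ((hmem D).2 ⟨hD, hDT⟩))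
        (hval D' ((hmem D').2 ⟨hD', hDT'⟩))
    -- two different elements
    obtain ⟨D1, hD1, D2, hD2, hne⟩ : ∃ D1 ∈ hfin.toFinset, ∃ D2 ∈ hfin.toFinset, D1 ≠ D2 :=
      Finset.one_lt_card.1 (by rw [hGcard]; exact hN1)
    rw [hmem] at hD1 hD2
    have hT2 : ∀ D D' : ℕ, (D : ℝ) ≤ T → (D' : ℝ) ≤ T → (D : ℝ) * D' ≤ T ^ 2 := by
      intro D D' h3 h4
      rw [sq]
      exact mul_le_mul h3 h4 (Nat.cast_nonneg _) hT0
    refine ⟨?_, ?_, ?_⟩
    · -- the first bound
      obtain ⟨a', b', c', Δ, hred, hΔ, hiff⟩ := h1 a b c ha hΔ0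
      have hw0 : w ≠ 0 := by
        intro h0
        rw [hpΔ, h0] at hΔ0
        simp at hΔ0
      have hpleΔ : (p : ℝ) ≤ Δ := by
        have h3 : (p : ℤ) ≤ Δ := by
          rw [hΔ, hpΔ]
          have h4 : 0 < w ^ 2 := by positivity
          have h5 : (0 : ℤ) ≤ p := Int.natCast_nonneg p
          nlinarith
        exact_mod_cast h3
      obtain ⟨hf, ht1⟩ := triv a' b' c' Δ hred T hT0
      have hsub : Gs ⊆ {ℓ : ℕ | Squarefree ℓ ∧ (ℓ : ℝ) ≤ T ∧ SSN.Val a' b' c' ℓ} := by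
        intro D hD
        refine ⟨(hF D hD.1).2, hD.2, ?_⟩
        rw [← hiff]
        exact hval D ((hmem D).2 hD)
      have h3 : NS F T ≤ 1 + 7 * T / Real.sqrt Δ := by
        rw [hNS]
        refine le_trans ?_ ht1
        exact_mod_cast Set.ncard_le_ncard hsub hf
      have h4 : 7 * T / Real.sqrt Δ ≤ 7 * T / Real.sqrt p :=
        div_le_div_of_nonneg_left (by positivity) (Real.sqrt_pos.2 hp0)
          (Real.sqrt_le_sqrt hpleΔ)
      linarith
    · -- large `p`
      intro hlarge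
      exfalso
      obtain ⟨t, v, hv, htv⟩ := hpair D1 D2 hD1.1 hD1.2 hD2.1 hD2.2 hne
      have h3 : (4 * (D1 : ℝ) * D2) = (t : ℝ) ^ 2 + p * (v : ℝ) ^ 2 := by exact_mod_cast htv
      have h4 : (1 : ℝ) ≤ (v : ℝ) ^ 2 := by
        have h5 : (1 : ℤ) ≤ v ^ 2 := by
          have : 0 < v ^ 2 := by positivity
          omega
        exact_mod_cast h5
      have h5 := hT2 D1 D2 hD1.2 hD2.2
      nlinarith [sq_nonneg (t : ℝ)]
    · -- the prime factors
      refine ⟨(D1 * D2).primeFactors, ?_, fun _ D hD hDT l hl hl2 hlp hlD hlB => ?_⟩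
      · have hn0 : D1 * D2 ≠ 0 :=
          Nat.mul_ne_zero (hF D1 hD1.1).1.ne' (hF D2 hD2.1).1.ne'
        have h3 : ((2 ^ (D1 * D2).primeFactors.card : ℕ) : ℝ) ≤ ((D1 * D2 : ℕ) : ℝ) := by
          exact_mod_cast two_pow_le hn0
        push_cast at h3
        exact h3.trans (hT2 D1 D2 hD1.2 hD2.2)
      · have hlD1 : ¬ l ∣ D1 := by
          intro h3
          apply hlB
          rw [Nat.mem_primeFactors]
          exact ⟨hl, Dvd.dvd.mul_right h3 _,
            Nat.mul_ne_zero (hF D1 hD1.1).1.ne' (hF D2 hD2.1).1.ne'⟩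
        have hDD1 : D ≠ D1 := by
          rintro rfl
          exact hlD1 hlD
        obtain ⟨t, v, hv, htv⟩ := hpair D D1 hD hDT hD1.1 hD1.2 hDD1
        have hodd : ¬ Even l := by
          rw [Nat.not_even_iff_odd]
          exact hl.odd_of_ne_two (by omega)
        have : Fact l.Prime := ⟨hl⟩
        have hch : SSN.ch p l = legendreSym l (-(p : ℤ)) := by
          unfold SSN.ch
          rw [if_neg hodd, jacobiSym.legendreSym.to_jacobiSym]
        rw [hch]
        have hne0 : ((-(p : ℤ) : ℤ) : ZMod l) ≠ 0 := by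
          push_cast
          rw [neg_ne_zero]
          intro h3
          rw [ZMod.natCast_eq_zero_iff] at h3
          exact hlp ((Nat.prime_dvd_prime_iff_eq hl hp).1 h3)
        rcases legendreSym.eq_one_or_neg_one l hne0 with h3 | h3
        · exact h3
        · exfalso
          have hlDZ : (l : ℤ) ∣ D := by exact_mod_cast hlD
          have h4 : (l : ℤ) ∣ t ^ 2 - (-(p : ℤ)) * v ^ 2 := by
            have h5 : t ^ 2 - (-(p : ℤ)) * v ^ 2 = 4 * (D : ℤ) * D1 := by
              rw [htv]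
              ring
            rw [h5]
            exact Dvd.dvd.mul_right (Dvd.dvd.mul_left hlDZ 4) _
          obtain ⟨⟨t', rfl⟩, ⟨v', rfl⟩⟩ := legendreSym.prime_dvd_of_eq_neg_one h3 h4
          -- `l ^ 2` divides `4 D D1`
          obtain ⟨m, hm⟩ := hlD
          have hlm : ¬ l ∣ m := by
            rintro ⟨m', rfl⟩
            have h5 : l * l ∣ D := by
              rw [hm]
              exact ⟨m', by ring⟩
            have h6 := Nat.isUnit_iff.1 ((hF D hD).2 l h5)
            exact hl.one_lt.ne' h6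
          have hl0 : (l : ℤ) ≠ 0 := by exact_mod_cast hl.ne_zero
          have h7 : (4 * m * D1 : ℤ) = l * (t' ^ 2 + p * v' ^ 2) := by
            apply mul_left_cancel₀ hl0
            rw [hm] at htv
            push_cast at htv
            linear_combination htv
          have h8 : (l : ℤ) ∣ ((4 * m * D1 : ℕ) : ℤ) := by
            push_cast
            exact ⟨_, h7⟩
          have h9 : l ∣ 4 * m * D1 := by exact_mod_cast h8
          rcases hl.dvd_mul.1 h9 with h10 | h10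
          · rcases hl.dvd_mul.1 h10 with h11 | h11
            · have h12 : l ∣ 2 ^ 2 := by simpa using h11
              have h13 := (Nat.prime_dvd_prime_iff_eq hl Nat.prime_two).1 (hl.dvd_of_dvd_pow h12)
              omega
            · exact hlm h11
          · exact hlD1 h10

end SSC
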