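import Pool.Agent.SSC.Targets

/-!
# MP_d74fca_nt, counting part, target LOW: the number of tuples
-/

set_option autoImplicit false

open scoped BigOperators Classical
open Finset

namespace SSC

namespace LOW_

theorem sqf_prod (T : Finset ℕ) (hT : ∀ l ∈ T, l.Prime) : Squarefree (∏ l ∈ T, l) := by
  induction T using Finset.induction_on with
  | empty => simp
  | insert a s ha ih =>
    rw [Finset.prod_insert ha, Nat.squarefree_mul_iff]
    refine ⟨?_, (hT a (mem_insert_self a s)).prime.squarefree,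
      ih fun l hl => hT l (mem_insert_of_mem hl)⟩
    apply Nat.Coprime.prod_right
    intro l hl
    rw [Nat.coprime_primes (hT a (mem_insert_self a s)) (hT l (mem_insert_of_mem hl))]
    rintro rfl
    exact ha hl

theorem large {κ : ℝ} (hκ : κ < 1 / 2) (hκ0 : 0 < κ) {L : ℝ} (hL : (20 : ℝ) ^ (1 / (1 / 2 - κ)) ≤ L) :
    L ^ (1 / 2 : ℝ) * (⌈4 * L ^ κ⌉₊ : ℝ) ≤ L / 4 := by
  have hd : 0 < 1 / 2 - κ := by linarith
  have h20 : (1 : ℝ) ≤ (20 : ℝ) ^ (1 / (1 / 2 - κ)) :=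
    Real.one_le_rpow (by norm_num) (by positivity)
  have hL1 : 1 ≤ L := h20.trans hL
  have hL0 : 0 < L := by linarith
  have h1 : (20 : ℝ) ≤ L ^ (1 / 2 - κ) := by
    have h2 := Real.rpow_le_rpow (by positivity) hL hd.le
    rw [← Real.rpow_mul (by norm_num)] at h2
    rwa [one_div_mul_cancel hd.ne', Real.rpow_one] at h2
  have hLκ : 1 ≤ L ^ κ := Real.one_le_rpow hL1 hκ0.le
  have h3 : (⌈4 * L ^ κ⌉₊ : ℝ) ≤ 5 * L ^ κ := by
    have := (Nat.ceil_lt_add_one (show 0 ≤ 4 * L ^ κ by positivity)).le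
    linarith
  have h4 : L ^ (1 / 2 : ℝ) * L ^ κ * L ^ (1 / 2 - κ) = L := by
    rw [← Real.rpow_add hL0, ← Real.rpow_add hL0]
    conv_rhs => rw [← Real.rpow_one L]
    congr 1; ring
  calc L ^ (1 / 2 : ℝ) * (⌈4 * L ^ κ⌉₊ : ℝ) ≤ L ^ (1 / 2 : ℝ) * (5 * L ^ κ) := by gcongr
    _ = (L ^ (1 / 2 : ℝ) * L ^ κ * 20) / 4 := by ring
    _ ≤ (L ^ (1 / 2 : ℝ) * L ^ κ * L ^ (1 / 2 - κ)) / 4 := by gcongr
    _ = L / 4 := by rw [h4]

end LOW_

open LOW_ in
theorem p_LOW (h1 : T_HLO) : T_LOW := by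
  intro M ρ κ hM hρ hρ2 hκ0 hκ
  set β : ℝ := (κ + 1 / 2) / 2 with hβ
  obtain ⟨A, Y₁, hA, hY₁, H⟩ := h1 M ρ κ β hM hρ hρ2 hκ0 (by rw [hβ]; linarith)
    (by rw [hβ]; linarith)
  refine ⟨A, max Y₁ (max 32 (Real.exp ((20 : ℝ) ^ (1 / (1 / 2 - κ))))), hA,
    (le_max_left _ _).trans (le_max_right _ _), ?_⟩
  intro Y S hY hS hNS
  have hYY₁ : Y₁ ≤ Y := (le_max_left _ _).trans hY
  have hY32 : 32 ≤ Y := ((le_max_left _ _).trans (le_max_right _ _)).trans hY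
  have hYe : Real.exp ((20 : ℝ) ^ (1 / (1 / 2 - κ))) ≤ Y :=
    ((le_max_right _ _).trans (le_max_right _ _)).trans hY
  have hY0 : 0 < Y := by linarith
  set L : ℝ := Real.log Y with hL
  have hLL : (20 : ℝ) ^ (1 / (1 / 2 - κ)) ≤ L := by
    rw [hL, Real.le_log_iff_exp_le hY0]; exact hYe
  have hbig := large hκ hκ0 hLL
  set m : ℕ := ⌈4 * L ^ κ⌉₊ with hm
  set z : ℝ := Real.exp (L ^ β) with hz
  set Z : ℝ := Real.exp (L ^ (1 / 2 : ℝ)) with hZ
  have hZm : Z ^ m ≤ Y ^ (1 / 4 : ℝ) := by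
    rw [hZ, ← Real.exp_nat_mul, Real.rpow_def_of_pos hY0, ← hL]
    apply Real.exp_le_exp.2
    linarith
  -- the number of tuples as a double sum
  have hcard : ((UU S M ρ Y z Z m).card : ℝ) =
      ∑ a ∈ AA S Y, ∑ T ∈ (LL S z Z).powersetCard m,
        (((Icc 1 (2 * ⌊Y⌋₊)).filter fun h => h ∈ HH S M ρ a (∏ l ∈ T, l)).card : ℝ) := by
    rw [UU, Finset.card_filter, Finset.sum_product]
    push_cast
    apply Finset.sum_congr rfl
    intro a _
    rw [Finset.sum_product]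
    apply Finset.sum_congr rfl
    intro T _
    rw [Finset.card_filter]
    push_cast
    rfl
  rw [hcard, Finset.sum_mul, Finset.sum_mul]
  apply Finset.sum_le_sum
  intro a ha
  rw [Finset.mul_sum]
  apply Finset.sum_le_sum
  intro T hT
  obtain ⟨hTs, hTc⟩ := Finset.mem_powersetCard.1 hT
  have haf := (Finset.mem_filter.1 ha).1
  obtain ⟨ha1, hap, ha16⟩ := Finset.mem_filter.1 haf
  have haY : a ≤ ⌊Y⌋₊ := (Finset.mem_Icc.1 ha1).2
  have haY' : (a : ℝ) ≤ Y := (Nat.le_floor_iff hY0.le).1 haY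
  have hTl : ∀ l ∈ T, l.Prime ∧ z < l ∧ (l : ℝ) ≤ Z ∧ l ∉ S := by
    intro l hl
    obtain ⟨h2, h3⟩ := Finset.mem_filter.1 (hTs hl)
    obtain ⟨h4, h5, h6⟩ := Finset.mem_filter.1 h2
    exact ⟨h5, h6, (Nat.le_floor_iff (Real.exp_pos _).le).1 (Finset.mem_Icc.1 h4).2, h3⟩
  have hΛ : ((∏ l ∈ T, l : ℕ) : ℝ) ≤ Y ^ (1 / 4 : ℝ) := by
    refine le_trans ?_ hZm
    push_cast
    rw [← hTc, ← Finset.prod_const]
    apply Finset.prod_le_prod
    · intro l _; positivity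
    · intro l hl
      exact (hTl l hl).2.2.1
  have hH := H Y S a (∏ l ∈ T, l) hYY₁ hS hNS hap ha16 haY'
    (sqf_prod T fun l hl => (hTl l hl).1) hΛ (by
      intro l hl hld
      obtain ⟨l', hl', hll⟩ := (hl.prime.dvd_finsetProd_iff _).1 hld
      have : l = l' := (Nat.prime_dvd_prime_iff_eq hl (hTl l' hl').1).1 hll
      subst this
      exact ⟨(hTl l hl').2.1, (hTl l hl').2.2.2⟩)
  have hsub : (HH S M ρ a (∏ l ∈ T, l)).card ≤
      ((Icc 1 (2 * ⌊Y⌋₊)).filter fun h => h ∈ HH S M ρ a (∏ l ∈ T, l)).card := by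
    apply Finset.card_le_card
    intro h hh
    rw [Finset.mem_filter]
    refine ⟨?_, hh⟩
    have h7 := (Finset.mem_filter.1 hh).1
    rw [Finset.mem_Icc] at h7 ⊢
    omega
  have e1 : (a : ℝ) * L ^ (-A) * ∏ l ∈ T, 1 / (l : ℝ) =
      (a : ℝ) / ((∏ l ∈ T, l : ℕ) : ℝ) * L ^ (-A) := by
    push_cast
    rw [Finset.prod_div_distrib]
    simp only [Finset.prod_const_one]
    ring
  rw [e1]
  exact hH.trans (by exact_mod_cast hsub)

end SSC
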