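import Pool.Agent.SSC.Targets2
import Pool.Agent.SSN.ROOT

/-!
# RTB: points on a conic modulo an odd prime
-/

set_option autoImplicit false

open scoped BigOperators Classical
open Finset

namespace SSC

namespace RTB_

variable {p : ℕ} [Fact p.Prime]

theorem chi_le (x : ZMod p) : quadraticChar (ZMod p) x ≤ 1 := by
  by_cases hx : x = 0
  · rw [hx]; simp
  · rcases quadraticChar_dichotomy hx with h | h <;> rw [h]; norm_num

theorem neg_chi_le (x : ZMod p) : -quadraticChar (ZMod p) x ≤ 1 := by
  by_cases hx : x = 0
  · rw [hx]; simp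
  · rcases quadraticChar_dichotomy hx with h | h <;> rw [h] <;> norm_num

theorem sum_one : ∑ _y : ZMod p, (1 : ℤ) = p := by
  rw [Finset.sum_const, Finset.card_univ, ZMod.card]
  simp

/-- nonsingular case -/
theorem nonsing (hp2 : p ≠ 2) (a b c n : ZMod p) (hn : n ≠ 0) (hd : 4 * a * c - b ^ 2 ≠ 0) :
    (Nat.card {P : ZMod p × ZMod p // a * P.1 ^ 2 + b * P.1 * P.2 + c * P.2 ^ 2 = n} : ℤ) ≤
      p + 1 := by
  have h2 := SSN.ROOT_.two_ne (p := p) hp2
  have h4 : (4 : ZMod p) ≠ 0 := by
    have : (4 : ZMod p) = 2 * 2 := by norm_num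
    rw [this]
    exact mul_ne_zero h2 h2
  by_cases ha : a = 0
  · subst ha
    have hb : b ≠ 0 := by
      intro h
      rw [h] at hd
      simp at hd
    rw [SSN.ROOT_.fib]
    calc ∑ y : ZMod p, ((univ.filter fun x : ZMod p =>
          (0 : ZMod p) * x ^ 2 + b * x * y + c * y ^ 2 = n).card : ℤ)
        ≤ ∑ y : ZMod p, (1 : ℤ) := by
          refine Finset.sum_le_sum fun y _ => ?_
          by_cases hy : y = 0
          · subst hy
            rw [Finset.filter_false_of_mem]
            · simp
            · intro x _ h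
              apply hn
              rw [← h]; ring
          · have : (univ.filter fun x : ZMod p =>
                (0 : ZMod p) * x ^ 2 + b * x * y + c * y ^ 2 = n) =
                {(n - c * y ^ 2) / (b * y)} := by
              ext x
              rw [Finset.mem_filter, Finset.mem_singleton, eq_div_iff (mul_ne_zero hb hy)]
              constructor
              · rintro ⟨_, h⟩
                rw [← h]; ring
              · intro h
                refine ⟨Finset.mem_univ _, ?_⟩
                linear_combination h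
            rw [this]
            simp
      _ = p := sum_one
      _ ≤ p + 1 := by linarith
  · rw [SSN.ROOT_.fib, Finset.sum_congr rfl fun y _ => SSN.ROOT_.fibre hp2 a b c n y ha,
      Finset.sum_add_distrib, sum_one, SSN.ROOT_.jac hp2 _ _ ?_ (neg_ne_zero.2 hd)]
    · have := neg_chi_le (-(4 * a * c - b ^ 2))
      linarith
    · exact mul_ne_zero (mul_ne_zero h4 ha) hn

/-- singular case -/
theorem sing (hp2 : p ≠ 2) (a b c n : ZMod p) (hn : n ≠ 0) (hd : 4 * a * c - b ^ 2 = 0) :
    (Nat.card {P : ZMod p × ZMod p // a * P.1 ^ 2 + b * P.1 * P.2 + c * P.2 ^ 2 = n} : ℤ) ≤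
      2 * p := by
  have hs : ∑ y : ZMod p, (2 : ℤ) = 2 * p := by
    rw [Finset.sum_const, Finset.card_univ, ZMod.card]
    simp [mul_comm]
  by_cases ha : a = 0
  · subst ha
    have hb : b = 0 := by
      have : b ^ 2 = 0 := by linear_combination -hd
      exact pow_eq_zero_iff two_ne_zero |>.1 this
    subst hb
    rw [SSN.ROOT_.fib', ← hs]
    refine Finset.sum_le_sum fun x _ => ?_
    by_cases hc : c = 0
    · subst hc
      rw [Finset.filter_false_of_mem]
      · simp
      · intro y _ h
        apply hn
        rw [← h]; ring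
    · have h1 := quadraticChar_card_sqrts (SSN.ROOT_.rc hp2) (n * c⁻¹)
      have h3 : ((univ.filter fun y : ZMod p =>
          (0 : ZMod p) * x ^ 2 + 0 * x * y + c * y ^ 2 = n).card : ℤ) =
          ({y : ZMod p | y ^ 2 = n * c⁻¹}.toFinset.card : ℤ) := by
        congr 2
        ext y
        simp only [Finset.mem_filter, Finset.mem_univ, true_and, Set.mem_toFinset,
          Set.mem_ofPred_eq]
        constructor
        · intro h
          field_simp
          linear_combination h
        · intro h
          rw [h]
          field_simp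
          ring
      rw [h3, h1]
      have := chi_le (n * c⁻¹)
      linarith
  · rw [SSN.ROOT_.fib, ← hs]
    refine Finset.sum_le_sum fun y _ => ?_
    rw [SSN.ROOT_.fibre hp2 a b c n y ha]
    have := chi_le (4 * a * n + (-(4 * a * c - b ^ 2)) * y ^ 2)
    linarith

end RTB_

theorem p_RTB : T_RTB := by
  intro A B C r b hr hr2 hb
  have : Fact r.Prime := ⟨hr⟩
  have hΔ : ((4 * A * C - B ^ 2 : ℤ) : ZMod r) =
      4 * (A : ZMod r) * C - (B : ZMod r) ^ 2 := by
    push_cast
    ring
  constructor
  · intro hd
    have hd' : 4 * (A : ZMod r) * C - (B : ZMod r) ^ 2 ≠ 0 := by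
      rw [← hΔ]
      intro h
      exact hd ((ZMod.intCast_zmod_eq_zero_iff_dvd _ _).1 h)
    have := RTB_.nonsing hr2 (A : ZMod r) B C b hb hd'
    exact_mod_cast this
  · intro hd
    have hd' : 4 * (A : ZMod r) * C - (B : ZMod r) ^ 2 = 0 := by
      rw [← hΔ]
      exact (ZMod.intCast_zmod_eq_zero_iff_dvd _ _).2 hd
    have := RTB_.sing hr2 (A : ZMod r) B C b hb hd'
    exact_mod_cast this

end SSC
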