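import Pool.Agent.SSC.Targets2

/-!
# MP_d74fca_nt, SSC-SPL: values of a form divisible by a prime exactly once
-/

set_option autoImplicit false

open scoped BigOperators Classical
open Finset

namespace SSC

namespace SPL_

/-- the form belonging to a finite root -/
lemma pf_t {p : ℕ} {a A B C w t k : ℤ} (ha : 0 < a) (h : Pf p A B C w)
    (hk : A * t ^ 2 + B * t + C = a * k) : Pf p (A * a) (2 * A * t + B) k w := by
  obtain ⟨h1, h2, h3⟩ := h
  have h4 : 4 * (A * a) * k - (2 * A * t + B) ^ 2 = 4 * A * C - B ^ 2 := by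
    linear_combination (-4 * A) * hk
  exact ⟨mul_pos h1 ha, by rw [h4]; exact h2, by rw [h4]; exact h3⟩

lemma val_t {a A B C t k x y c : ℤ} (ha : a ≠ 0) (hk : A * t ^ 2 + B * t + C = a * k)
    (hx : a ∣ x - t * y) (hq : SSN.qf A B C x y = a * c) :
    SSN.Val (A * a) (2 * A * t + B) k c := by
  obtain ⟨X, hX⟩ := hx
  refine ⟨X, y, ?_⟩
  have hx' : x = t * y + a * X := by linear_combination hX
  apply mul_left_cancel₀ ha
  rw [← hq]
  unfold SSN.qf
  rw [hx']
  linear_combination (-(y ^ 2)) * hk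

/-- the form belonging to the root at infinity -/
lemma pf_inf {p : ℕ} {a A' B C w : ℤ} (ha : 0 < a) (h : Pf p (a * A') B C w) :
    Pf p A' B (C * a) w := by
  obtain ⟨h1, h2, h3⟩ := h
  have h4 : 4 * A' * (C * a) - B ^ 2 = 4 * (a * A') * C - B ^ 2 := by ring
  exact ⟨pos_of_mul_pos_right h1 ha.le, by rw [h4]; exact h2, by rw [h4]; exact h3⟩

lemma val_inf {a A' B C x y c : ℤ} (ha : a ≠ 0) (hy : a ∣ y)
    (hq : SSN.qf (a * A') B C x y = a * c) : SSN.Val A' B (C * a) c := by
  obtain ⟨Y, rfl⟩ := hy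
  refine ⟨x, Y, ?_⟩
  apply mul_left_cancel₀ ha
  rw [← hq]
  unfold SSN.qf
  ring

/-- not both coordinates are divisible by `a` -/
lemma not_both {a A B C x y c : ℤ} (ha : a ≠ 0) (hc : ¬ a ∣ c)
    (hq : SSN.qf A B C x y = a * c) : ¬ (a ∣ x ∧ a ∣ y) := by
  rintro ⟨⟨X, rfl⟩, ⟨Y, rfl⟩⟩
  apply hc
  refine ⟨SSN.qf A B C X Y, ?_⟩
  apply mul_left_cancel₀ ha
  rw [← hq]
  unfold SSN.qf
  ring

/-- solvability of a linear congruence -/
lemma lin {a : ℕ} (ha : a.Prime) {A B : ℤ} (hA : ¬ (a : ℤ) ∣ A) : ∃ t : ℤ, (a : ℤ) ∣ A * t + B := by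
  have hcop : IsCoprime (a : ℤ) A :=
    ((Nat.prime_iff_prime_int.1 ha).coprime_iff_not_dvd).2 hA
  obtain ⟨u, v, huv⟩ := hcop
  refine ⟨-B * v, ⟨B * u, ?_⟩⟩
  linear_combination (-B) * huv

end SPL_

open SPL_ in
theorem p_SPL : T_SPL := by
  intro p a A B C w hp ha ha2 hap hPf
  have hapr : Prime (a : ℤ) := Nat.prime_iff_prime_int.1 ha
  have ha0 : (a : ℤ) ≠ 0 := hapr.ne_zero
  have hapos : (0 : ℤ) < a := by exact_mod_cast ha.pos
  by_cases hA : (a : ℤ) ∣ A
  · obtain ⟨A', rfl⟩ := hA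
    by_cases hB : (a : ℤ) ∣ B
    · by_cases hC : (a : ℤ) ∣ C
      · obtain ⟨B', rfl⟩ := hB
        obtain ⟨C', rfl⟩ := hC
        obtain ⟨h1, h2, h3⟩ := hPf
        have haw : (a : ℤ) ∣ w := by
          have h4 : (a : ℤ) ∣ (p : ℤ) * w ^ 2 := by
            rw [← h3]
            exact ⟨4 * A' * (a * C') - a * B' ^ 2, by ring⟩
          rcases hapr.dvd_or_dvd h4 with h5 | h5
          · exfalso
            apply hap
            have h6 : a ∣ p := by exact_mod_cast h5
            exact (Nat.prime_dvd_prime_iff_eq ha hp).1 h6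
          · exact hapr.dvd_of_dvd_pow h5
        obtain ⟨w', rfl⟩ := haw
        have h4 : 4 * A' * C' - B' ^ 2 = p * w' ^ 2 := by
          apply mul_left_cancel₀ (pow_ne_zero 2 ha0)
          linear_combination h3
        have h5 : 0 < 4 * A' * C' - B' ^ 2 := by
          have h6 : 0 < (a : ℤ) ^ 2 * (4 * A' * C' - B' ^ 2) := by
            have : (a : ℤ) ^ 2 * (4 * A' * C' - B' ^ 2) =
              4 * (a * A') * (a * C') - (a * B') ^ 2 := by ring
            rw [this]
            exact h2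
          exact pos_of_mul_pos_right h6 (by positivity)
        have h6 : Pf p A' B' C' w' := ⟨pos_of_mul_pos_right h1 hapos.le, h5, h4⟩
        refine ⟨A', B', C', w', A', B', C', w', h6, h6, ?_⟩
        rintro c hc ⟨x, y, hq⟩
        left
        refine ⟨x, y, ?_⟩
        apply mul_left_cancel₀ ha0
        rw [← hq]
        unfold SSN.qf
        ring
      · refine ⟨A', B, C * a, w, A', B, C * a, w, pf_inf hapos hPf, pf_inf hapos hPf, ?_⟩
        rintro c hc ⟨x, y, hq⟩
        left
        refine val_inf ha0 ?_ hq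
        have h4 : (a : ℤ) ∣ C * y ^ 2 := by
          obtain ⟨B', rfl⟩ := hB
          refine ⟨c - A' * x ^ 2 - B' * x * y, ?_⟩
          unfold SSN.qf at hq
          linear_combination hq
        rcases hapr.dvd_or_dvd h4 with h5 | h5
        · exact absurd h5 hC
        · exact hapr.dvd_of_dvd_pow h5
    · obtain ⟨t, k, htk⟩ := lin ha (A := B) (B := C) hB
      have hk : (a * A') * t ^ 2 + B * t + C = a * (A' * t ^ 2 + k) := by
        linear_combination htk
      refine ⟨A', B, C * a, w, a * A' * a, 2 * (a * A') * t + B, A' * t ^ 2 + k, w,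
        pf_inf hapos hPf, pf_t hapos hPf hk, ?_⟩
      rintro c hc ⟨x, y, hq⟩
      have h4 : (a : ℤ) ∣ y * (B * x + C * y) := by
        refine ⟨c - A' * x ^ 2, ?_⟩
        unfold SSN.qf at hq
        linear_combination hq
      rcases hapr.dvd_or_dvd h4 with h5 | h5
      · left
        exact val_inf ha0 h5 hq
      · right
        refine val_t ha0 hk ?_ hq
        have h6 : (a : ℤ) ∣ B * (x - t * y) := by
          obtain ⟨m, hm⟩ := h5
          refine ⟨m - k * y, ?_⟩
          linear_combination hm - y * htk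
        rcases hapr.dvd_or_dvd h6 with h7 | h7
        · exact absurd h7 hB
        · exact h7
  · by_cases hroot : ∃ t : ℤ, (a : ℤ) ∣ A * t ^ 2 + B * t + C
    · obtain ⟨t₁, k₁, hk₁⟩ := hroot
      obtain ⟨t₂, m₂, hm₂⟩ := lin ha (A := A) (B := A * t₁ + B) hA
      have hr2 : (a : ℤ) ∣ A * t₂ ^ 2 + B * t₂ + C := by
        have h4 : (a : ℤ) ∣ A * (A * t₂ ^ 2 + B * t₂ + C) := by
          refine ⟨m₂ * (A * t₂ - A * t₁) + A * k₁, ?_⟩
          linear_combination (A * t₂ - A * t₁) * hm₂ + A * hk₁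
        rcases hapr.dvd_or_dvd h4 with h5 | h5
        · exact absurd h5 hA
        · exact h5
      obtain ⟨k₂, hk₂⟩ := hr2
      refine ⟨A * a, 2 * A * t₁ + B, k₁, w, A * a, 2 * A * t₂ + B, k₂, w,
        pf_t hapos hPf hk₁, pf_t hapos hPf hk₂, ?_⟩
      rintro c hc ⟨x, y, hq⟩
      have h4 : (a : ℤ) ∣ (x - t₁ * y) * (A * x + (A * t₁ + B) * y) := by
        refine ⟨c - k₁ * y ^ 2, ?_⟩
        unfold SSN.qf at hq
        linear_combination hq - y ^ 2 * hk₁
      rcases hapr.dvd_or_dvd h4 with h5 | h5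
      · left
        exact val_t ha0 hk₁ h5 hq
      · right
        refine val_t ha0 hk₂ ?_ hq
        have h6 : (a : ℤ) ∣ A * (x - t₂ * y) := by
          obtain ⟨m, hm⟩ := h5
          refine ⟨m - m₂ * y, ?_⟩
          linear_combination hm - y * hm₂
        rcases hapr.dvd_or_dvd h6 with h7 | h7
        · exact absurd h7 hA
        · exact h7
    · refine ⟨A, B, C, w, A, B, C, w, hPf, hPf, ?_⟩
      rintro c hc ⟨x, y, hq⟩
      exfalso
      have hnb := not_both ha0 hc hq
      by_cases hy : (a : ℤ) ∣ y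
      · apply hnb
        refine ⟨?_, hy⟩
        have h4 : (a : ℤ) ∣ A * x ^ 2 := by
          obtain ⟨Y, rfl⟩ := hy
          refine ⟨c - B * x * Y - C * a * Y ^ 2, ?_⟩
          unfold SSN.qf at hq
          linear_combination hq
        rcases hapr.dvd_or_dvd h4 with h5 | h5
        · exact absurd h5 hA
        · exact hapr.dvd_of_dvd_pow h5
      · apply hroot
        obtain ⟨t, m, htm⟩ := lin ha (A := y) (B := -x) hy
        refine ⟨t, ?_⟩
        have h4 : (a : ℤ) ∣ y ^ 2 * (A * t ^ 2 + B * t + C) := by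
          refine ⟨c + A * m * (y * t + x) + B * y * m, ?_⟩
          unfold SSN.qf at hq
          linear_combination hq + (A * (y * t + x) + B * y) * htm
        rcases hapr.dvd_or_dvd h4 with h5 | h5
        · exact absurd (hapr.dvd_of_dvd_pow h5) hy
        · exact h5

end SSC
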