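import Pool.Agent.SSC.Targets2

/-! # SSC, target TAI: tail sums over a sparse set -/

set_option autoImplicit false

open scoped BigOperators Classical
open Finset

namespace SSC

namespace TAI_

lemma fin (S : Set ℕ) (x : ℝ) : {p : ℕ | p ∈ S ∧ (p : ℝ) ≤ x}.Finite := by
  refine Set.Finite.subset (Set.finite_Iic ⌊x⌋₊) ?_
  rintro p ⟨-, hp⟩
  exact Nat.le_floor hp

lemma NS_mono (S : Set ℕ) {x x' : ℝ} (h : x ≤ x') : NS S x ≤ NS S x' := by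
  unfold NS
  have : {p : ℕ | p ∈ S ∧ (p : ℝ) ≤ x}.ncard ≤ {p : ℕ | p ∈ S ∧ (p : ℝ) ≤ x'}.ncard :=
    Set.ncard_le_ncard (fun p hp => ⟨hp.1, hp.2.trans h⟩) (fin S x')
  exact_mod_cast this

lemma card_le_NS (S : Set ℕ) (x : ℝ) (G : Finset ℕ) (hG : ∀ p ∈ G, p ∈ S ∧ (p : ℝ) ≤ x) :
    (G.card : ℝ) ≤ NS S x := by
  unfold NS
  have : G.card ≤ {p : ℕ | p ∈ S ∧ (p : ℝ) ≤ x}.ncard := by
    rw [← Set.ncard_coe_finset G]
    exact Set.ncard_le_ncard (fun p hp => hG p hp) (fin S x)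
  exact_mod_cast this

/-- one block -/
lemma block (S : Set ℕ) (ε C₁ Y : ℝ) (hε : 0 < ε) (hε2 : ε < 1 / 2) (hC : 0 < C₁) (hY : 1 ≤ Y)
    (hNS : ∀ x : ℝ, 1 ≤ x → NS S x ≤ C₁ * x ^ (1 / 2 - ε)) (G : Finset ℕ)
    (hG : ∀ p ∈ G, p ∈ S ∧ Y < (p : ℝ) ∧ (p : ℝ) ≤ 2 * Y) :
    ∑ p ∈ G, (p : ℝ) ^ (-(1 / 2 : ℝ)) ≤ 2 * C₁ * Y ^ (-ε) := by
  have hY0 : 0 < Y := by linarith
  have h1 : (G.card : ℝ) ≤ C₁ * (2 * Y) ^ (1 / 2 - ε) :=
    (card_le_NS S (2 * Y) G fun p hp => ⟨(hG p hp).1, (hG p hp).2.2⟩).trans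
      (hNS _ (by linarith))
  have h2 : ∑ p ∈ G, (p : ℝ) ^ (-(1 / 2 : ℝ)) ≤ G.card * Y ^ (-(1 / 2 : ℝ)) := by
    rw [← nsmul_eq_mul, ← Finset.sum_const]
    refine Finset.sum_le_sum fun p hp => ?_
    exact Real.rpow_le_rpow_of_nonpos hY0 (hG p hp).2.1.le (by norm_num)
  have h3 : (0:ℝ) < Y ^ (-(1 / 2 : ℝ)) := Real.rpow_pos_of_pos hY0 _
  have h4 : (2 * Y) ^ (1 / 2 - ε) = (2:ℝ) ^ (1 / 2 - ε) * Y ^ (1 / 2 - ε) :=
    Real.mul_rpow (by norm_num) hY0.le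
  have h5 : (2:ℝ) ^ (1 / 2 - ε) ≤ 2 := by
    calc (2:ℝ) ^ (1 / 2 - ε) ≤ (2:ℝ) ^ (1:ℝ) :=
          Real.rpow_le_rpow_of_exponent_le (by norm_num) (by linarith)
      _ = 2 := Real.rpow_one 2
  have h6 : Y ^ (1 / 2 - ε) * Y ^ (-(1 / 2 : ℝ)) = Y ^ (-ε) := by
    rw [← Real.rpow_add hY0]; congr 1; ring
  calc ∑ p ∈ G, (p : ℝ) ^ (-(1 / 2 : ℝ)) ≤ G.card * Y ^ (-(1 / 2 : ℝ)) := h2
    _ ≤ (C₁ * (2 * Y) ^ (1 / 2 - ε)) * Y ^ (-(1 / 2 : ℝ)) :=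
        mul_le_mul_of_nonneg_right h1 h3.le
    _ = (2:ℝ) ^ (1 / 2 - ε) * (C₁ * (Y ^ (1 / 2 - ε) * Y ^ (-(1 / 2 : ℝ)))) := by rw [h4]; ring
    _ ≤ 2 * (C₁ * (Y ^ (1 / 2 - ε) * Y ^ (-(1 / 2 : ℝ)))) := by
        refine mul_le_mul_of_nonneg_right h5 ?_
        rw [h6]
        have := Real.rpow_pos_of_pos hY0 (-ε)
        positivity
    _ = 2 * C₁ * Y ^ (-ε) := by rw [h6]; ring

lemma blocks (S : Set ℕ) (ε C₁ y : ℝ) (hε : 0 < ε) (hε2 : ε < 1 / 2) (hC : 0 < C₁) (hy : 1 ≤ y)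
    (hNS : ∀ x : ℝ, 1 ≤ x → NS S x ≤ C₁ * x ^ (1 / 2 - ε)) (n : ℕ) : ∀ (G : Finset ℕ),
    (∀ p ∈ G, p ∈ S ∧ y < (p : ℝ) ∧ (p : ℝ) ≤ 2 ^ n * y) →
    ∑ p ∈ G, (p : ℝ) ^ (-(1 / 2 : ℝ)) ≤ ∑ j ∈ range n, 2 * C₁ * (2 ^ j * y) ^ (-ε) := by
  induction n with
  | zero =>
    intro G hG
    have : G = ∅ := by
      rw [Finset.eq_empty_iff_forall_notMem]
      intro p hp
      have := hG p hp
      rw [pow_zero, one_mul] at this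
      linarith [this.2.1, this.2.2]
    rw [this]
    simp
  | succ n ih =>
    intro G hG
    rw [Finset.sum_range_succ, ← Finset.sum_filter_add_sum_filter_not G
      (fun p : ℕ => (p : ℝ) ≤ 2 ^ n * y)]
    refine add_le_add (ih _ fun p hp => ?_) ?_
    · obtain ⟨h1, h2⟩ := Finset.mem_filter.1 hp
      exact ⟨(hG p h1).1, (hG p h1).2.1, h2⟩
    · refine block S ε C₁ (2 ^ n * y) hε hε2 hC ?_ hNS _ fun p hp => ?_
      · have : (1:ℝ) ≤ 2 ^ n := one_le_pow₀ (by norm_num)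
        nlinarith
      · obtain ⟨h1, h2⟩ := Finset.mem_filter.1 hp
        refine ⟨(hG p h1).1, not_le.1 h2, ?_⟩
        have := (hG p h1).2.2
        rw [pow_succ] at this
        linarith

end TAI_

open TAI_

theorem p_TAI : T_TAI := by
  intro S ε x₀ hε hε2 hS hNS
  set x₁ : ℝ := max x₀ 1 with hx₁
  have hx1 : 1 ≤ x₁ := le_max_right _ _
  set C₁ : ℝ := x₁ ^ (1 / 2 - ε) with hC₁
  have hC1 : 1 ≤ C₁ := Real.one_le_rpow hx1 (by linarith)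
  have hC0 : 0 < C₁ := by linarith
  have hNS' : ∀ x : ℝ, 1 ≤ x → NS S x ≤ C₁ * x ^ (1 / 2 - ε) := by
    intro x hx
    have h1 : 1 ≤ x ^ (1 / 2 - ε) := Real.one_le_rpow hx (by linarith)
    rcases le_or_gt x₁ x with h | h
    · have h2 := hNS x ((le_max_left _ _).trans h)
      nlinarith
    · have h2 := (NS_mono S h.le).trans (hNS x₁ (le_max_left _ _))
      nlinarith
  set r : ℝ := (2:ℝ) ^ (-ε) with hr
  have hr0 : 0 < r := Real.rpow_pos_of_pos (by norm_num) _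
  have hr1 : r < 1 := Real.rpow_lt_one_of_one_lt_of_neg (by norm_num) (by linarith)
  have hr2 : 0 < 1 - r := by linarith
  refine ⟨2 * C₁ / (1 - r), by positivity, ?_⟩
  intro y G hy hG
  have hy0 : 0 < y := by linarith
  obtain ⟨n, hn⟩ : ∃ n : ℕ, ∀ p ∈ G, (p : ℝ) ≤ 2 ^ n * y := by
    refine ⟨G.sup id, fun p hp => ?_⟩
    have h1 : p ≤ G.sup id := Finset.le_sup (f := id) hp
    have h2 : G.sup id < 2 ^ (G.sup id) := Nat.lt_two_pow_self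
    have h3 : (p : ℝ) ≤ 2 ^ (G.sup id) := by exact_mod_cast (h1.trans h2.le)
    have h4 : (0:ℝ) < 2 ^ (G.sup id) := by positivity
    nlinarith
  refine (blocks S ε C₁ y hε hε2 hC0 hy hNS' n G fun p hp =>
    ⟨(hG p hp).1, (hG p hp).2, hn p hp⟩).trans ?_
  have h1 : ∀ j : ℕ, (2 ^ j * y) ^ (-ε) = r ^ j * y ^ (-ε) := by
    intro j
    rw [Real.mul_rpow (by positivity) hy0.le, hr, ← Real.rpow_natCast (2:ℝ) j,
      ← Real.rpow_mul (by norm_num), ← Real.rpow_mul_natCast (by norm_num)]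
    congr 2
    ring
  have h2 : ∑ j ∈ range n, 2 * C₁ * (2 ^ j * y) ^ (-ε)
      = 2 * C₁ * y ^ (-ε) * ∑ j ∈ range n, r ^ j := by
    rw [Finset.mul_sum]
    refine Finset.sum_congr rfl fun j _ => ?_
    rw [h1]; ring
  rw [h2]
  have h3 : ∑ j ∈ range n, r ^ j ≤ 1 / (1 - r) := by
    rw [le_div_iff₀ (by linarith), geom_sum_mul_neg]
    have : 0 ≤ r ^ n := by positivity
    linarith
  have h4 : 0 < y ^ (-ε) := Real.rpow_pos_of_pos hy0 _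
  calc 2 * C₁ * y ^ (-ε) * ∑ j ∈ range n, r ^ j ≤ 2 * C₁ * y ^ (-ε) * (1 / (1 - r)) :=
        mul_le_mul_of_nonneg_left h3 (by positivity)
    _ = 2 * C₁ / (1 - r) * y ^ (-ε) := by ring

end SSC
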