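import Mathlib
import Pool.Agent.SSC.Targets2
import Pool.Agent.SSC.BRU

/-!
# TOT: many `c` for every `a`
-/

set_option autoImplicit false

open scoped BigOperators Classical
open Finset

namespace SSC

namespace TOT_

lemma odd_sum (K : ℕ) :
    ∑ k ∈ range K, 1 / (((2 * k + 3 : ℕ) : ℝ)) ^ 2 ≤ 1 / 4 - 1 / (4 * ((K : ℝ) + 1)) := by
  induction K with
  | zero => simp
  | succ K ih =>
    rw [sum_range_succ]
    have hK : (0 : ℝ) ≤ K := Nat.cast_nonneg K
    have h1 : 1 / (((2 * K + 3 : ℕ) : ℝ)) ^ 2 ≤ 1 / (4 * ((K : ℝ) + 1)) - 1 / (4 * ((K : ℝ) + 2)) := by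
      have e : 1 / (4 * ((K : ℝ) + 1)) - 1 / (4 * ((K : ℝ) + 2)) =
          1 / (4 * ((K : ℝ) + 1) * ((K : ℝ) + 2)) := by
        field_simp
        ring
      rw [e]
      push_cast
      apply one_div_le_one_div_of_le (by positivity)
      nlinarith
    push_cast at *
    have e2 : (4 : ℝ) * ((K : ℝ) + 1 + 1) = 4 * ((K : ℝ) + 2) := by ring
    rw [e2]
    linarith

/-- squares of primes -/
lemma prime_sq_sum (Q : Finset ℕ) (hQ : ∀ q ∈ Q, q.Prime) :
    ∑ q ∈ Q, 1 / ((q : ℝ)) ^ 2 ≤ 1 / 2 := by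
  set K := Q.sup id + 1 with hK
  have hsub : Q ⊆ insert 2 ((range K).image fun k => 2 * k + 3) := by
    intro q hq
    rw [mem_insert, mem_image]
    rcases (hQ q hq).eq_two_or_odd with h | h
    · exact Or.inl h
    · right
      have h2 := (hQ q hq).two_le
      have hle : q ≤ Q.sup id := le_sup (f := id) hq
      refine ⟨(q - 3) / 2, mem_range.2 ?_, ?_⟩ <;> omega
  calc ∑ q ∈ Q, 1 / ((q : ℝ)) ^ 2
      ≤ ∑ q ∈ insert 2 ((range K).image fun k : ℕ => 2 * k + 3), 1 / (((q : ℕ) : ℝ)) ^ 2 :=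
        sum_le_sum_of_subset_of_nonneg hsub fun _ _ _ => by positivity
    _ = 1 / ((2 : ℕ) : ℝ) ^ 2 + ∑ q ∈ (range K).image (fun k : ℕ => 2 * k + 3),
          1 / (((q : ℕ) : ℝ)) ^ 2 := by
        rw [sum_insert]
        intro h
        rw [mem_image] at h
        obtain ⟨k, _, hk⟩ := h
        omega
    _ = 1 / ((2 : ℕ) : ℝ) ^ 2 + ∑ k ∈ range K, 1 / (((2 * k + 3 : ℕ) : ℝ)) ^ 2 := by
        rw [sum_image]
        intro x _ y _ hxy
        simp only at hxy
        omega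
    _ ≤ 1 / 2 := by
        have h1 := odd_sum K
        have h2 : 0 ≤ 1 / (4 * ((K : ℝ) + 1)) := by positivity
        push_cast at *
        linarith

/-- the residue class -/
lemma exb (M t : ℕ) (hM : 0 < M) (h : t.Coprime M) : ∃ b : ℕ, ∀ h' : ℕ,
    h' ≡ b [MOD M] ↔ M ∣ t * h' + 1 := by
  haveI : NeZero M := ⟨hM.ne'⟩
  refine ⟨(-(↑(ZMod.unitOfCoprime t h)⁻¹ : ZMod M)).val, fun h' => ?_⟩
  rw [← ZMod.natCast_eq_natCast_iff, ← ZMod.natCast_eq_zero_iff]
  push_cast
  rw [ZMod.natCast_val, ZMod.cast_id]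
  have hu : (t : ZMod M) = ↑(ZMod.unitOfCoprime t h) := (ZMod.coe_unitOfCoprime t h).symm
  rw [hu]
  constructor
  · intro e
    rw [e, ← hu, hu, mul_neg, Units.mul_inv]
    ring
  · intro e
    have : (↑(ZMod.unitOfCoprime t h) : ZMod M) * (h' : ZMod M) = -1 := eq_neg_of_add_eq_zero_left e
    calc (h' : ZMod M) = ↑(ZMod.unitOfCoprime t h)⁻¹ * (↑(ZMod.unitOfCoprime t h) * (h' : ZMod M)) := by
          rw [← mul_assoc, Units.inv_mul, one_mul]
      _ = _ := by rw [this]; ring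

/-- multiples of `m` in the class -/
lemma cnt_mul (M b m : ℕ) (u v : ℝ) (hM : 0 < M) (hm : 0 < m) (hco : M.Coprime m) (hu : 0 ≤ u)
    (huv : u ≤ v) :
    ((((Icc 1 ⌊v⌋₊).filter fun h : ℕ => (u < (h : ℝ) ∧ (h : ℝ) < v) ∧ h ≡ b [MOD M]).filter
      fun h => m ∣ h).card : ℝ) ≤ (v - u) / M * (1 / m) + 2 := by
  obtain ⟨c, hc1, hc2⟩ := Nat.chineseRemainder hco b 0
  have h2 := BRU_.count_bound (M * m) c u v (Nat.mul_pos hM hm) hu huv
  have e1 : ((Icc 1 ⌊v⌋₊).filter fun h : ℕ => (u < (h : ℝ) ∧ (h : ℝ) < v) ∧ h ≡ b [MOD M]).filter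
      (fun h => m ∣ h) = (Icc 1 ⌊v⌋₊).filter
        (fun h : ℕ => (u < (h : ℝ) ∧ (h : ℝ) < v) ∧ h ≡ c [MOD (M * m)]) := by
    rw [filter_filter]
    apply filter_congr
    intro h _
    rw [← Nat.modEq_and_modEq_iff_modEq_mul hco]
    constructor
    · rintro ⟨⟨h1, h3⟩, h4⟩
      exact ⟨h1, h3.trans hc1.symm, (Nat.modEq_zero_iff_dvd.2 h4).trans hc2.symm⟩
    · rintro ⟨h1, h3, h4⟩
      exact ⟨⟨h1, h3.trans hc1⟩, Nat.modEq_zero_iff_dvd.1 (h4.trans hc2)⟩
  rw [e1]
  have e2 : (v - u) / M * (1 / m) = (v - u) / ((M * m : ℕ) : ℝ) := by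
    push_cast
    field_simp
  rw [e2]
  have := (abs_le.1 h2).2
  linarith

end TOT_

open TOT_

/-- TOT -/
theorem p_TOT : T_TOT := by
  intro S M ρ x₀ hS hM hρ hρ2 hNS hG
  have hMr : (0 : ℝ) < M := by exact_mod_cast hM
  set c : ℝ := (ρ - 1) / (8 * M) with hc
  have hcpos : 0 < c := by rw [hc]; exact div_pos (by linarith) (by positivity)
  refine ⟨⌈max (max ((M : ℝ) + 1) x₀) (max 1 ((8 / c) ^ 2))⌉₊, ?_⟩
  intro a ha hap
  have ha1 : max (max ((M : ℝ) + 1) x₀) (max 1 ((8 / c) ^ 2)) ≤ (a : ℝ) :=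
    (Nat.le_ceil _).trans (by exact_mod_cast ha)
  have haM : (M : ℝ) + 1 ≤ a := (le_max_left _ _).trans ((le_max_left _ _).trans ha1)
  have hax : x₀ ≤ a := (le_max_right _ _).trans ((le_max_left _ _).trans ha1)
  have ha3 : (1 : ℝ) ≤ a := (le_max_left _ _).trans ((le_max_right _ _).trans ha1)
  have ha4 : (8 / c) ^ 2 ≤ a := (le_max_right _ _).trans ((le_max_right _ _).trans ha1)
  have haM' : M < a := by
    have : ((M + 1 : ℕ) : ℝ) ≤ a := by push_cast; exact haM
    have := Nat.cast_le.1 this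
    omega
  have hcop : a.Coprime M := by
    rw [hap.coprime_iff_not_dvd]
    intro h
    exact absurd (Nat.le_of_dvd hM h) (by omega)
  obtain ⟨b, hb⟩ := exb M a hM hcop
  set u : ℝ := (a : ℝ) with hu
  set v : ℝ := ρ * a with hv
  have hu0 : 0 ≤ u := by rw [hu]; positivity
  have huv : u ≤ v := by rw [hv]; nlinarith
  have hv2 : v ≤ 2 * a := by rw [hv]; nlinarith
  set W : Finset ℕ := (Icc 1 ⌊v⌋₊).filter (fun h : ℕ => (u < (h : ℝ) ∧ (h : ℝ) < v) ∧ h ≡ b [MOD M])
    with hW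
  set X : ℝ := (v - u) / M with hX
  have hX0 : 0 ≤ X := div_nonneg (by linarith) hMr.le
  have hWc : X - 2 ≤ (W.card : ℝ) := by
    have h1 := BRU_.count_bound M b u v hM hu0 huv
    have h2 := (abs_le.1 h1).1
    rw [hW]
    linarith
  -- the moduli
  set Q₁ : Finset ℕ := (Icc 1 (Nat.sqrt (2 * a))).filter (fun q => q.Prime ∧ ¬ q ∣ M) with hQ₁
  set Q₂ : Finset ℕ := (Icc 1 (2 * a)).filter (fun q => q ∈ S ∧ ¬ q ∣ M) with hQ₂
  have hmem : ∀ h ∈ W, h ∈ HH S M ρ a 1 ∨ h ∈ (Q₁.biUnion fun q => W.filter fun h => q ^ 2 ∣ h) ∪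
      (Q₂.biUnion fun q => W.filter fun h => q ∣ h) := by
    intro h hh
    by_contra hcon
    rw [not_or] at hcon
    obtain ⟨hn1, hn2⟩ := hcon
    rw [mem_union, not_or, mem_biUnion, mem_biUnion] at hn2
    obtain ⟨hn2, hn3⟩ := hn2
    push Not at hn2 hn3
    apply hn1
    have hh' := hh
    rw [hW, mem_filter, mem_Icc] at hh'
    obtain ⟨⟨h1, h2⟩, ⟨h3, h4⟩, h5⟩ := hh'
    have hah : a < h := by rw [hu] at h3; exact_mod_cast h3
    have hh2 : h < 2 * a := by
      have : (h : ℝ) < ((2 * a : ℕ) : ℝ) := by push_cast; linarith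
      exact_mod_cast this
    have hMd : M ∣ a * h + 1 := (hb h).1 h5
    have hnM : ∀ q : ℕ, q.Prime → q ∣ h → ¬ q ∣ M := by
      intro q hq hqh hqM
      have h6 : q ∣ a * h + 1 := hqM.trans hMd
      have h7 : q ∣ a * h := hqh.mul_left a
      have h8 : q ∣ 1 := (Nat.dvd_add_right h7).1 h6
      exact hq.one_lt.ne' (Nat.dvd_one.1 h8)
    have hnah : ¬ a ∣ h := by
      rintro ⟨k, rfl⟩
      have : 1 < k := by
        by_contra hk
        have : k ≤ 1 := by omega
        have := Nat.mul_le_mul_left a this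
        omega
      have := Nat.mul_le_mul_left a (show 2 ≤ k by omega)
      omega
    have hsq : Squarefree h := by
      rw [Nat.squarefree_iff_prime_squarefree]
      intro q hq hqq
      have hqM := hnM q hq ((dvd_mul_right q q).trans hqq)
      have hqle : q * q ≤ h := Nat.le_of_dvd (by omega) hqq
      have hqs : q ≤ Nat.sqrt (2 * a) := Nat.le_sqrt.2 (by omega)
      have := hn2 q (by
        rw [hQ₁, mem_filter, mem_Icc]
        exact ⟨⟨hq.one_lt.le, hqs⟩, hq, hqM⟩)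
      apply this
      rw [mem_filter]
      exact ⟨hh, by rw [sq]; exact hqq⟩
    unfold HH
    rw [mem_filter, mem_Icc]
    refine ⟨⟨h1, by omega⟩, ?_, ?_, ?_, ?_, ?_⟩
    · rw [Nat.cast_one, one_mul]; exact h3
    · rw [Nat.cast_one, one_mul]; exact h4
    · rw [mul_one]; exact hMd
    · rw [mul_one]
      rw [Nat.squarefree_mul_iff]
      exact ⟨(hap.coprime_iff_not_dvd).2 hnah, hap.squarefree, hsq⟩
    · intro q hq hqh
      have hqp := hS q hq
      have := hn3 q (by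
        rw [hQ₂, mem_filter, mem_Icc]
        exact ⟨⟨hqp.one_lt.le, (Nat.le_of_dvd (by omega) hqh).trans (by omega)⟩, hq, hnM q hqp hqh⟩)
      apply this
      rw [mem_filter]
      exact ⟨hh, hqh⟩
  -- counting
  have hsub : W ⊆ HH S M ρ a 1 ∪ ((Q₁.biUnion fun q => W.filter fun h => q ^ 2 ∣ h) ∪
      (Q₂.biUnion fun q => W.filter fun h => q ∣ h)) := by
    intro h hh
    rw [mem_union]
    exact hmem h hh
  have hcard : W.card ≤ (HH S M ρ a 1).card + ((∑ q ∈ Q₁, (W.filter fun h => q ^ 2 ∣ h).card) +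
      ∑ q ∈ Q₂, (W.filter fun h => q ∣ h).card) := by
    refine (card_le_card hsub).trans ((card_union_le _ _).trans ?_)
    refine Nat.add_le_add_left ((card_union_le _ _).trans ?_) _
    exact Nat.add_le_add card_biUnion_le card_biUnion_le
  have hcardr : (W.card : ℝ) ≤ (HH S M ρ a 1).card + ((∑ q ∈ Q₁, ((W.filter fun h => q ^ 2 ∣ h).card : ℝ)) +
      ∑ q ∈ Q₂, ((W.filter fun h => q ∣ h).card : ℝ)) := by
    exact_mod_cast hcard
  have hs1 : ∑ q ∈ Q₁, ((W.filter fun h => q ^ 2 ∣ h).card : ℝ) ≤ X * (1 / 2) + 2 * Q₁.card := by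
    calc ∑ q ∈ Q₁, ((W.filter fun h => q ^ 2 ∣ h).card : ℝ)
        ≤ ∑ q ∈ Q₁, (X * (1 / (q : ℝ) ^ 2) + 2) := by
          apply sum_le_sum
          intro q hq
          rw [hQ₁, mem_filter] at hq
          have hqp := hq.2.1
          have hco : M.Coprime (q ^ 2) := by
            apply Nat.Coprime.pow_right
            exact ((hqp.coprime_iff_not_dvd).2 hq.2.2).symm
          have := cnt_mul M b (q ^ 2) u v hM (pow_pos hqp.pos 2) hco hu0 huv
          rw [hW, hX]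
          push_cast at this
          exact this
      _ = X * ∑ q ∈ Q₁, (1 / (q : ℝ) ^ 2) + 2 * Q₁.card := by
          rw [sum_add_distrib, ← mul_sum, sum_const, nsmul_eq_mul, mul_comm (2 : ℝ)]
      _ ≤ _ := by
          have := prime_sq_sum Q₁ (fun q hq => by rw [hQ₁, mem_filter] at hq; exact hq.2.1)
          have := mul_le_mul_of_nonneg_left this hX0
          linarith
  have hs2 : ∑ q ∈ Q₂, ((W.filter fun h => q ∣ h).card : ℝ) ≤ X * (1 / 8) + 2 * Q₂.card := by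
    calc ∑ q ∈ Q₂, ((W.filter fun h => q ∣ h).card : ℝ)
        ≤ ∑ q ∈ Q₂, (X * (1 / (q : ℝ)) + 2) := by
          apply sum_le_sum
          intro q hq
          rw [hQ₂, mem_filter] at hq
          have hqp := hS q hq.2.1
          have hco : M.Coprime q := ((hqp.coprime_iff_not_dvd).2 hq.2.2).symm
          have := cnt_mul M b q u v hM hqp.pos hco hu0 huv
          rw [hW, hX]
          exact this
      _ = X * ∑ q ∈ Q₂, (1 / (q : ℝ)) + 2 * Q₂.card := by
          rw [sum_add_distrib, ← mul_sum, sum_const, nsmul_eq_mul, mul_comm (2 : ℝ)]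
      _ ≤ _ := by
          have := hG Q₂ (fun q hq => by rw [hQ₂, mem_filter] at hq; exact hq.2)
          have := mul_le_mul_of_nonneg_left this hX0
          linarith
  have hc1 : (Q₁.card : ℝ) ≤ Real.sqrt (2 * a) := by
    have h1 : Q₁.card ≤ Nat.sqrt (2 * a) := by
      refine (card_filter_le _ _).trans ?_
      rw [Nat.card_Icc]
      omega
    have h2 : ((Nat.sqrt (2 * a) : ℕ) : ℝ) ≤ Real.sqrt (2 * a) := by
      apply Real.le_sqrt_of_sq_le
      have := Nat.sqrt_le' (2 * a)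
      exact_mod_cast this
    have h3 : (Q₁.card : ℝ) ≤ ((Nat.sqrt (2 * a) : ℕ) : ℝ) := by exact_mod_cast h1
    exact h3.trans h2
  have hc2 : (Q₂.card : ℝ) ≤ Real.sqrt (2 * a) := by
    have h1 := hNS (2 * a) (by linarith)
    refine le_trans ?_ h1
    unfold NS
    have hfin : {p : ℕ | p ∈ S ∧ (p : ℝ) ≤ 2 * a}.Finite := by
      apply (Set.finite_Iic (2 * a)).subset
      rintro p ⟨_, hp⟩
      rw [Set.mem_Iic]
      exact_mod_cast hp
    have h2 : Q₂.card ≤ {p : ℕ | p ∈ S ∧ (p : ℝ) ≤ 2 * a}.ncard := by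
      rw [← Set.ncard_coe_finset]
      apply Set.ncard_le_ncard _ hfin
      intro q hq
      rw [mem_coe, hQ₂, mem_filter, mem_Icc] at hq
      refine ⟨hq.2.1, ?_⟩
      have := hq.1.2
      exact_mod_cast this
    exact_mod_cast h2
  -- the final inequality
  have hsqrt : Real.sqrt (2 * a) ≤ 3 / 2 * Real.sqrt a := by
    rw [Real.sqrt_mul (by norm_num)]
    apply mul_le_mul_of_nonneg_right _ (Real.sqrt_nonneg _)
    rw [Real.sqrt_le_left (by norm_num)]
    norm_num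
  set s : ℝ := Real.sqrt a with hs
  have hs0 : s * s = a := Real.mul_self_sqrt (by positivity)
  have hs1' : 1 ≤ s := by rw [hs]; exact Real.one_le_sqrt.2 ha3
  have hs8 : 8 / c ≤ s := by
    rw [hs]
    exact Real.le_sqrt_of_sq_le ha4
  have hcs : 8 ≤ c * s := by
    rw [div_le_iff₀ hcpos] at hs8
    linarith
  have hXc : X = 8 * (c * a) := by
    rw [hX, hc, hv, hu]
    field_simp
  have hca : 8 * s ≤ c * a := by
    rw [← hs0]
    nlinarith
  have hgoal : (ρ - 1) * a / (4 * M) = 2 * (c * a) := by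
    rw [hc]
    field_simp
    ring
  rw [hgoal]
  nlinarith
end SSC
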