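import Pool.Agent.SSC.Targets

/-!
# TUP: facts about the tuples
-/

set_option autoImplicit false

open scoped BigOperators Classical
open Finset

namespace SSC

theorem TUP_.uniq (a a' c c' : ℕ) (ha : a.Prime) (ha' : a'.Prime) (h : a * c = a' * c')
    (h1 : a < c) (h2 : c < 2 * a) (h3 : a' < c') (h4 : c' < 2 * a') : a = a' := by
  by_contra hne
  have hcop : a.Coprime a' := (Nat.coprime_primes ha ha').2 hne
  have hd : a ∣ c' := by
    have : a ∣ a' * c' := ⟨c, h.symm⟩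
    exact hcop.dvd_of_dvd_mul_left this
  obtain ⟨e, rfl⟩ := hd
  have hpos : 0 < a := ha.pos
  have hpos' : 0 < a' := ha'.pos
  have hc : c = a' * e := by
    have : a * c = a * (a' * e) := by rw [h]; ring
    exact Nat.eq_of_mul_eq_mul_left hpos this
  subst hc
  have he : e < 2 := by
    by_contra he
    have he' : 2 ≤ e := by omega
    have h5 : a' * 2 ≤ a' * e := Nat.mul_le_mul_left _ he'
    have h6 : a * 2 ≤ a * e := Nat.mul_le_mul_left _ he'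
    omega
  have he1 : e = 1 := by
    rcases Nat.lt_or_ge e 1 with h5 | h5
    · have : e = 0 := by omega
      subst this
      simp at h1
    · omega
  subst he1
  omega

/-- unfolding the membership in `UU` -/
theorem TUP_.mem {S : Set ℕ} {M : ℕ} {ρ Y z Z : ℝ} {m : ℕ} {t : ℕ × Finset ℕ × ℕ}
    (h : t ∈ UU S M ρ Y z Z m) : t.1 ∈ AA S Y ∧ t.2.1 ∈ (LL S z Z).powersetCard m ∧
    t.2.2 ∈ HH S M ρ t.1 (∏ l ∈ t.2.1, l) := by
  unfold UU at h
  rw [mem_filter, mem_product, mem_product] at h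
  exact ⟨h.1.1, h.1.2.1, h.2⟩

theorem TUP_.memA {S : Set ℕ} {Y : ℝ} {a : ℕ} (hY : 0 ≤ Y) (h : a ∈ AA S Y) :
    a.Prime ∧ Y / 16 < a ∧ (a : ℝ) ≤ Y ∧ a ∉ S := by
  unfold AA pri at h
  rw [mem_filter, mem_filter, mem_Icc] at h
  obtain ⟨⟨⟨-, h1⟩, h2, h3⟩, h4⟩ := h
  exact ⟨h2, h3, (Nat.le_floor_iff hY).1 h1, h4⟩

theorem TUP_.memL {S : Set ℕ} {z Z : ℝ} {l : ℕ} (hZ : 0 ≤ Z) (h : l ∈ LL S z Z) :
    l.Prime ∧ z < l ∧ (l : ℝ) ≤ Z ∧ l ∉ S := by
  unfold LL pri at h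
  rw [mem_filter, mem_filter, mem_Icc] at h
  obtain ⟨⟨⟨-, h1⟩, h2, h3⟩, h4⟩ := h
  exact ⟨h2, h3, (Nat.le_floor_iff hZ).1 h1, h4⟩

theorem TUP_.memH {S : Set ℕ} {M : ℕ} {ρ : ℝ} {a Λ h : ℕ} (hh : h ∈ HH S M ρ a Λ) :
    1 ≤ h ∧ (a : ℝ) < Λ * h ∧ (Λ * h : ℝ) < ρ * a ∧ M ∣ a * Λ * h + 1 ∧
    Squarefree (a * Λ * h) ∧ ∀ q ∈ S, ¬ q ∣ h := by
  unfold HH at hh
  rw [mem_filter, mem_Icc] at hh
  obtain ⟨⟨h0, -⟩, h1, h2, h3, h4, h5⟩ := hh
  exact ⟨h0, h1, h2, h3, h4, h5⟩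

/-- part (1) -/
theorem TUP_.one (S : Set ℕ) (M : ℕ) (ρ Y z Z : ℝ) (m : ℕ) (hS : ∀ p ∈ S, p.Prime)
    (hρ2 : ρ ≤ 2) (hY : 32 ≤ Y) (hz : 2 ≤ z) (hZ : z ≤ Z)
    (t : ℕ × Finset ℕ × ℕ) (ht : t ∈ UU S M ρ Y z Z m) :
    Adm M ρ (dd t) ∧ (∀ q ∈ S, ¬ q ∣ dd t) ∧ (dd t : ℝ) ≤ 2 * Y ^ 2 ∧
    Y ^ 2 / 256 ≤ dd t ∧ (∀ l ∈ t.2.1, l ∣ dd t) := by
  obtain ⟨h1, h2, h3⟩ := TUP_.mem ht
  obtain ⟨a1, a2, a3, a4⟩ := TUP_.memA (by linarith) h1
  rw [mem_powersetCard] at h2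
  obtain ⟨h0, b1, b2, b3, b4, b5⟩ := TUP_.memH h3
  set a := t.1
  set Λ := ∏ l ∈ t.2.1, l with hΛ
  set h := t.2.2
  have hdd : dd t = a * Λ * h := rfl
  have hapos : (0 : ℝ) < a := by exact_mod_cast a1.pos
  refine ⟨⟨a, Λ * h, a1, by rw [hdd, mul_assoc], ?_, ?_, hdd ▸ b4, hdd ▸ b3⟩, ?_, ?_, ?_, ?_⟩
  · exact_mod_cast b1
  · push_cast
    exact b2
  · intro q hq hqd
    rw [hdd] at hqd
    have hqp := hS q hq
    rcases (hqp.dvd_mul).1 hqd with h4 | h4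
    · rcases (hqp.dvd_mul).1 h4 with h5 | h5
      · have : q = a := (Nat.prime_dvd_prime_iff_eq hqp a1).1 h5
        exact a4 (this ▸ hq)
      · rw [hΛ, hqp.prime.dvd_finsetProd_iff] at h5
        obtain ⟨l, hl, hql⟩ := h5
        obtain ⟨c1, -, -, c4⟩ := TUP_.memL (by linarith) (h2.1 hl)
        have : q = l := (Nat.prime_dvd_prime_iff_eq hqp c1).1 hql
        exact c4 (this ▸ hq)
    · exact b5 q hq h4
  · rw [hdd]
    push_cast
    have h6 : (Λ : ℝ) * h ≤ 2 * a := by nlinarith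
    calc (a : ℝ) * Λ * h = a * (Λ * h) := by ring
      _ ≤ a * (2 * a) := by gcongr
      _ = 2 * a ^ 2 := by ring
      _ ≤ 2 * Y ^ 2 := by gcongr
  · rw [hdd]
    push_cast
    calc Y ^ 2 / 256 = (Y / 16) * (Y / 16) := by ring
      _ ≤ a * a := by
          have : 0 ≤ Y / 16 := by linarith
          nlinarith
      _ ≤ a * (Λ * h) := by
          gcongr
      _ = (a : ℝ) * Λ * h := by ring
  · intro l hl
    rw [hdd]
    exact ((Finset.dvd_prod_of_mem _ hl).mul_left a).mul_right h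

theorem TUP_.omega (Y : ℝ) (D : ℕ) (hD : D ≠ 0) (hY : 32 ≤ Y) (hD2 : (D : ℝ) ≤ 2 * Y ^ 2) :
    (D.primeFactors.card : ℝ) ≤ 4 * Real.log Y := by
  have h1 : 2 ^ D.primeFactors.card ≤ D := by
    calc 2 ^ D.primeFactors.card ≤ ∏ p ∈ D.primeFactors, p :=
          Finset.pow_card_le_prod _ _ _ fun p hp => (Nat.prime_of_mem_primeFactors hp).two_le
      _ ≤ D := Nat.le_of_dvd (Nat.pos_of_ne_zero hD) (Nat.prod_primeFactors_dvd D)
  have h2 : (2 : ℝ) ^ D.primeFactors.card ≤ 2 * Y ^ 2 := by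
    refine le_trans ?_ hD2
    exact_mod_cast h1
  have hYpos : 0 < Y := by linarith
  have h3 := Real.log_le_log (by positivity) h2
  rw [Real.log_pow, Real.log_mul (by norm_num) (by positivity), Real.log_pow] at h3
  push_cast at h3
  have h4 : 5 * Real.log 2 ≤ Real.log Y := by
    have : Real.log 32 ≤ Real.log Y := Real.log_le_log (by norm_num) hY
    have h5 : (32 : ℝ) = 2 ^ 5 := by norm_num
    rw [h5, Real.log_pow] at this
    push_cast at this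
    exact this
  have h5 : 0.6931471803 < Real.log 2 := Real.log_two_gt_d9
  have h6 : Real.log 2 < 0.6931471808 := Real.log_two_lt_d9
  by_contra h7
  push Not at h7
  nlinarith

/-- part (2) -/
theorem TUP_.two (S : Set ℕ) (M : ℕ) (ρ Y z Z : ℝ) (m : ℕ) (hS : ∀ p ∈ S, p.Prime)
    (hρ2 : ρ ≤ 2) (hY : 32 ≤ Y) (hz : 2 ≤ z) (hZ : z ≤ Z) (D : ℕ) :
    ((((UU S M ρ Y z Z m).filter fun t => dd t = D).card : ℕ) : ℝ) ≤ (4 * Real.log Y) ^ m := by
  have hlog : 0 ≤ 4 * Real.log Y := by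
    have := Real.log_nonneg (by linarith : (1 : ℝ) ≤ Y)
    linarith
  rcases ((UU S M ρ Y z Z m).filter fun t => dd t = D).eq_empty_or_nonempty with he | ⟨t0, ht0⟩
  · rw [he]
    simp only [card_empty, Nat.cast_zero]
    positivity
  rw [mem_filter] at ht0
  have hD2 : (D : ℝ) ≤ 2 * Y ^ 2 := by
    rw [← ht0.2]
    exact (TUP_.one S M ρ Y z Z m hS hρ2 hY hz hZ t0 ht0.1).2.2.1
  have hD0 : D ≠ 0 := by
    have h1 := (TUP_.one S M ρ Y z Z m hS hρ2 hY hz hZ t0 ht0.1).2.2.2.1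
    rw [ht0.2] at h1
    rintro rfl
    have : 0 < Y ^ 2 := by positivity
    simp only [Nat.cast_zero] at h1
    linarith
  have h1 : ((UU S M ρ Y z Z m).filter fun t => dd t = D).card ≤
      (D.primeFactors.powersetCard m).card := by
    refine Finset.card_le_card_of_injOn (fun t => t.2.1) ?_ ?_
    · intro t ht
      rw [Finset.mem_coe, mem_filter] at ht
      obtain ⟨-, h2, -⟩ := TUP_.mem ht.1
      rw [mem_powersetCard] at h2
      rw [Finset.mem_coe, mem_powersetCard]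
      refine ⟨fun l hl => ?_, h2.2⟩
      have h3 := (TUP_.one S M ρ Y z Z m hS hρ2 hY hz hZ t ht.1).2.2.2.2 l hl
      rw [ht.2] at h3
      exact Nat.mem_primeFactors.2 ⟨(TUP_.memL (by linarith) (h2.1 hl)).1, h3, hD0⟩
    · intro t ht t' ht' hT
      rw [Finset.mem_coe, mem_filter] at ht ht'
      obtain ⟨h1, h2, h3⟩ := TUP_.mem ht.1
      obtain ⟨h1', h2', h3'⟩ := TUP_.mem ht'.1
      obtain ⟨a1, -, -, -⟩ := TUP_.memA (by linarith) h1
      obtain ⟨a1', -, -, -⟩ := TUP_.memA (by linarith) h1'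
      obtain ⟨h0, b1, b2, -, -, -⟩ := TUP_.memH h3
      obtain ⟨h0', b1', b2', -, -, -⟩ := TUP_.memH h3'
      have hT' : t.2.1 = t'.2.1 := hT
      have hap : (0 : ℝ) < t.1 := by exact_mod_cast a1.pos
      have hap' : (0 : ℝ) < t'.1 := by exact_mod_cast a1'.pos
      have e1 : t.1 * ((∏ l ∈ t.2.1, l) * t.2.2) = t'.1 * ((∏ l ∈ t'.2.1, l) * t'.2.2) := by
        have := ht.2.trans ht'.2.symm
        unfold dd at this
        rw [mul_assoc, mul_assoc] at this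
        exact this
      have ha : t.1 = t'.1 := by
        refine TUP_.uniq _ _ _ _ a1 a1' e1 ?_ ?_ ?_ ?_
        · exact_mod_cast b1
        · have : ((∏ l ∈ t.2.1, l : ℕ) : ℝ) * t.2.2 < 2 * t.1 := by nlinarith
          exact_mod_cast this
        · exact_mod_cast b1'
        · have : ((∏ l ∈ t'.2.1, l : ℕ) : ℝ) * t'.2.2 < 2 * t'.1 := by nlinarith
          exact_mod_cast this
      have hh : t.2.2 = t'.2.2 := by
        rw [← ha, ← hT'] at e1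
        have e2 := Nat.eq_of_mul_eq_mul_left a1.pos e1
        have hΛ : 0 < ∏ l ∈ t.2.1, l := by
          rw [mem_powersetCard] at h2
          exact Finset.prod_pos fun l hl => (TUP_.memL (by linarith) (h2.1 hl)).1.pos
        exact Nat.eq_of_mul_eq_mul_left hΛ e2
      exact Prod.ext ha (Prod.ext hT' hh)
  have h2 : (D.primeFactors.powersetCard m).card ≤ D.primeFactors.card ^ m := by
    rw [card_powersetCard]
    exact Nat.choose_le_pow _ _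
  calc ((((UU S M ρ Y z Z m).filter fun t => dd t = D).card : ℕ) : ℝ)
      ≤ ((D.primeFactors.card ^ m : ℕ) : ℝ) := by exact_mod_cast h1.trans h2
    _ = (D.primeFactors.card : ℝ) ^ m := by push_cast; rfl
    _ ≤ (4 * Real.log Y) ^ m := by
        gcongr
        exact TUP_.omega Y D hD0 hY hD2

/-- part (3) -/
theorem TUP_.three (S : Set ℕ) (M : ℕ) (ρ Y z Z : ℝ) (m : ℕ)
    (hρ2 : ρ ≤ 2) (hY : 32 ≤ Y) (hz : 2 ≤ z) (hZ : z ≤ Z) (A : Finset ℕ) (_ : A ⊆ LL S z Z) :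
    ((((UU S M ρ Y z Z m).filter fun t => t.2.1 ⊆ A).card : ℕ) : ℝ) ≤
    2 * (∑ a ∈ AA S Y, (a : ℝ)) * ∑ T ∈ A.powersetCard m, ∏ l ∈ T, 1 / (l : ℝ) := by
  have hsub : ((UU S M ρ Y z Z m).filter fun t => t.2.1 ⊆ A) ⊆
      ((AA S Y) ×ˢ (A.powersetCard m)).biUnion fun s =>
        (Icc 1 (2 * s.1 / ∏ l ∈ s.2, l)).image fun h => (s.1, s.2, h) := by
    intro t ht
    rw [mem_filter] at ht
    obtain ⟨h1, h2, h3⟩ := TUP_.mem ht.1
    rw [mem_powersetCard] at h2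
    obtain ⟨a1, -, -, -⟩ := TUP_.memA (by linarith) h1
    obtain ⟨h0, -, b2, -, -, -⟩ := TUP_.memH h3
    have hap : (0 : ℝ) < t.1 := by exact_mod_cast a1.pos
    rw [mem_biUnion]
    refine ⟨(t.1, t.2.1), ?_, ?_⟩
    · rw [mem_product, mem_powersetCard]
      exact ⟨h1, ht.2, h2.2⟩
    · rw [mem_image]
      refine ⟨t.2.2, ?_, rfl⟩
      rw [mem_Icc]
      refine ⟨h0, ?_⟩
      have hΛ : 0 < ∏ l ∈ t.2.1, l :=
        Finset.prod_pos fun l hl => (TUP_.memL (by linarith) (h2.1 hl)).1.pos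
      rw [Nat.le_div_iff_mul_le hΛ]
      have : ((∏ l ∈ t.2.1, l : ℕ) : ℝ) * t.2.2 ≤ 2 * t.1 := by nlinarith
      have h5 : (∏ l ∈ t.2.1, l) * t.2.2 ≤ 2 * t.1 := by exact_mod_cast this
      rw [mul_comm]
      exact h5
  have h1 : (((UU S M ρ Y z Z m).filter fun t => t.2.1 ⊆ A).card) ≤
      ∑ s ∈ (AA S Y) ×ˢ (A.powersetCard m), (2 * s.1 / ∏ l ∈ s.2, l) := by
    refine (Finset.card_le_card hsub).trans (Finset.card_biUnion_le.trans ?_)
    refine Finset.sum_le_sum fun s _ => ?_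
    refine Finset.card_image_le.trans ?_
    rw [Nat.card_Icc, Nat.add_sub_cancel]
  calc ((((UU S M ρ Y z Z m).filter fun t => t.2.1 ⊆ A).card : ℕ) : ℝ)
      ≤ ((∑ s ∈ (AA S Y) ×ˢ (A.powersetCard m), (2 * s.1 / ∏ l ∈ s.2, l) : ℕ) : ℝ) := by
        exact_mod_cast h1
    _ = ∑ s ∈ (AA S Y) ×ˢ (A.powersetCard m), ((2 * s.1 / ∏ l ∈ s.2, l : ℕ) : ℝ) := by
        push_cast
        rfl
    _ ≤ ∑ s ∈ (AA S Y) ×ˢ (A.powersetCard m), (2 * (s.1 : ℝ)) * ∏ l ∈ s.2, 1 / (l : ℝ) := by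
        refine Finset.sum_le_sum fun s _ => ?_
        refine Nat.cast_div_le.trans (le_of_eq ?_)
        push_cast
        rw [div_eq_mul_inv, ← Finset.prod_inv_distrib]
        simp only [one_div]
    _ = 2 * (∑ a ∈ AA S Y, (a : ℝ)) * ∑ T ∈ A.powersetCard m, ∏ l ∈ T, 1 / (l : ℝ) := by
        rw [Finset.sum_product]
        simp only [← Finset.mul_sum, ← Finset.sum_mul]

theorem p_TUP : T_TUP := by
  intro S M ρ Y z Z m hS _ _ hρ2 hY hz hZ _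
  exact ⟨fun t ht => TUP_.one S M ρ Y z Z m hS hρ2 hY hz hZ t ht,
    fun D => TUP_.two S M ρ Y z Z m hS hρ2 hY hz hZ D,
    fun A hA => TUP_.three S M ρ Y z Z m hρ2 hY hz hZ A hA⟩

end SSC
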