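import Pool.Agent.SSC.Targets

/-! WWW: the sums over the primes `l`. -/

set_option autoImplicit false

open scoped BigOperators Classical
open Finset

namespace SSC

namespace WWW_

lemma pri_split {u z Z : ℝ} (h1 : u ≤ z) (h2 : z ≤ Z) :
    (∑ l ∈ pri u Z, 1 / (l : ℝ)) = (∑ l ∈ pri u z, 1 / (l : ℝ)) + ∑ l ∈ pri z Z, 1 / (l : ℝ) := by
  have hu : pri u Z = pri u z ∪ pri z Z := by
    ext l
    simp only [pri, mem_filter, mem_Icc, mem_union]
    constructor
    · rintro ⟨⟨a1, a2⟩, a3, a4⟩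
      by_cases hl : (l : ℝ) ≤ z
      · left
        exact ⟨⟨a1, Nat.le_floor hl⟩, a3, a4⟩
      · right
        exact ⟨⟨a1, a2⟩, a3, not_le.mp hl⟩
    · rintro (⟨⟨a1, a2⟩, a3, a4⟩ | ⟨⟨a1, a2⟩, a3, a4⟩)
      · exact ⟨⟨a1, a2.trans (Nat.floor_mono h2)⟩, a3, a4⟩
      · exact ⟨⟨a1, a2⟩, a3, lt_of_le_of_lt h1 a4⟩
  have hd : Disjoint (pri u z) (pri z Z) := by
    rw [Finset.disjoint_left]
    intro l hl hl'
    simp only [pri, mem_filter, mem_Icc] at hl hl'
    have h3 : (l : ℝ) ≤ z := by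
      have := (Nat.le_floor_iff' (by omega : l ≠ 0)).mp hl.1.2
      exact this
    linarith [hl'.2.2]
  rw [hu, Finset.sum_union hd]

lemma pri_mem {u v : ℝ} {l : ℕ} (h : l ∈ pri u v) : l.Prime ∧ u < (l : ℝ) ∧ (l : ℝ) ≤ v := by
  simp only [pri, mem_filter, mem_Icc] at h
  exact ⟨h.2.1, h.2.2, (Nat.le_floor_iff' (by omega : l ≠ 0)).mp h.1.2⟩

/-- a sum of reciprocals over numbers beyond `z` -/
lemma sum_inv_le (A : Finset ℕ) {z : ℝ} (hz : 0 < z) (h : ∀ l ∈ A, z < (l : ℝ)) :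
    ∑ l ∈ A, 1 / (l : ℝ) ≤ (A.card : ℝ) / z := by
  have h1 : ∑ l ∈ A, 1 / (l : ℝ) ≤ ∑ l ∈ A, 1 / z := by
    refine Finset.sum_le_sum fun l hl => ?_
    exact one_div_le_one_div_of_le hz (h l hl).le
  rw [Finset.sum_const, nsmul_eq_mul] at h1
  calc _ ≤ _ := h1
    _ = (A.card : ℝ) / z := by ring

lemma card_le_NS (S : Set ℕ) (A : Finset ℕ) (x : ℝ) (h : ∀ l ∈ A, l ∈ S ∧ (l : ℝ) ≤ x) :
    (A.card : ℝ) ≤ NS S x := by
  unfold NS
  have hf : {p : ℕ | p ∈ S ∧ (p : ℝ) ≤ x}.Finite := by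
    refine (Set.finite_Iic ⌊x⌋₊).subset ?_
    rintro p ⟨-, hp⟩
    exact Nat.le_floor hp
  have h1 : (A : Set ℕ).ncard ≤ {p : ℕ | p ∈ S ∧ (p : ℝ) ≤ x}.ncard :=
    Set.ncard_le_ncard (fun l hl => h l hl) hf
  rw [Set.ncard_coe_finset] at h1
  exact_mod_cast h1

lemma ch_ge (Δ l : ℕ) : (-1 : ℝ) ≤ (SSN.ch Δ l : ℝ) := by
  have h : (-1 : ℤ) ≤ SSN.ch Δ l := by
    unfold SSN.ch
    split_ifs
    · norm_num
    · rcases jacobiSym.trichotomy (-(Δ : ℤ)) l with h | h | h <;> rw [h] <;> norm_num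
  exact_mod_cast h

end WWW_

open WWW_

theorem p_WWW (h1 : T_MER) (h2 : T_CHI) : T_WWW := by
  obtain ⟨C1, hC1, hM⟩ := h1
  obtain ⟨C2, hC2, hX⟩ := h2
  intro κ hκ0 hκ1
  set β : ℝ := (κ + 1 / 2) / 2 with hβ
  have hβ1 : 1 / 4 < β := by rw [hβ]; linarith
  have hβ2 : β < 1 / 2 := by rw [hβ]; linarith
  have hκβ : κ < β := by rw [hβ]; linarith
  set K : ℝ := 20 * (C1 + 1) + 10 * C2 with hK
  have hδ : 0 < 1 / 2 - β := by linarith
  refine ⟨(1 / 2 - β) / 2,
    max 32 (Real.exp (max 400000 (Real.exp (K / (1 / 2 - β))))), by linarith, le_max_left _ _, ?_⟩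
  intro Y S B z Z hY hS hz hZ hN hB
  have hY0 : Real.exp (max 400000 (Real.exp (K / (1 / 2 - β)))) ≤ Y :=
    (le_max_right _ _).trans hY
  have hYpos : 0 < Y := lt_of_lt_of_le (Real.exp_pos _) hY0
  set L : ℝ := Real.log Y with hL
  have hLmax : max 400000 (Real.exp (K / (1 / 2 - β))) ≤ L :=
    (Real.le_log_iff_exp_le hYpos).mpr hY0
  have hL1 : 400000 ≤ L := (le_max_left _ _).trans hLmax
  have hL2 : Real.exp (K / (1 / 2 - β)) ≤ L := (le_max_right _ _).trans hLmax
  have hLpos : 0 < L := by linarith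
  have hL1' : 1 ≤ L := by linarith
  have hexpL : Real.exp L = Y := Real.exp_log hYpos
  -- size of the main term
  have hG : K ≤ (1 / 2 - β) * Real.log L := by
    have := (Real.le_log_iff_exp_le hLpos).mpr hL2
    rw [div_le_iff₀ hδ] at this
    linarith
  set G : ℝ := (1 / 2 - β) * Real.log L with hGdef
  -- `z` is large
  have hz1 : 6 * L + 2 ≤ z := by
    have e1 : (L ^ β) ^ 8 / (Nat.factorial 8 : ℝ) ≤ Real.exp (L ^ β) :=
      Real.pow_div_factorial_le_exp _ (Real.rpow_nonneg hLpos.le _) 8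
    have e2 : L ^ (2 : ℝ) ≤ (L ^ β) ^ 8 := by
      rw [← Real.rpow_natCast, ← Real.rpow_mul hLpos.le]
      apply Real.rpow_le_rpow_of_exponent_le hL1'
      push_cast
      linarith
    have e3 : L ^ (2 : ℝ) = L ^ 2 := by
      rw [← Real.rpow_natCast]; norm_num
    rw [e3] at e2
    have e4 : (Nat.factorial 8 : ℝ) = 40320 := by
      norm_num [Nat.factorial]
    rw [e4] at e1
    rw [hz]
    have e5 : L ^ 2 / 40320 ≤ (L ^ β) ^ 8 / 40320 := by
      apply div_le_div_of_nonneg_right e2 (by norm_num)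
    have e6 : 6 * L + 2 ≤ L ^ 2 / 40320 := by
      rw [le_div_iff₀ (by norm_num)]
      nlinarith
    linarith
  have hz3 : 3 ≤ z := by linarith
  have hzpos : 0 < z := by linarith
  have hzZ : z ≤ Z := by
    rw [hz, hZ]
    exact Real.exp_le_exp.mpr (Real.rpow_le_rpow_of_exponent_le hL1' hβ2.le)
  have hZY : Z ≤ 16 * Y ^ 4 := by
    have e1 : Z ≤ Y := by
      rw [hZ, ← hexpL]
      apply Real.exp_le_exp.mpr
      calc L ^ (1 / 2 : ℝ) ≤ L ^ (1 : ℝ) :=
            Real.rpow_le_rpow_of_exponent_le hL1' (by norm_num)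
        _ = L := Real.rpow_one L
    have e2 : 1 ≤ Y := by
      rw [← hexpL]
      exact Real.one_le_exp hLpos.le
    have e3 : Y ≤ Y ^ 4 := le_self_pow₀ e2 (by norm_num)
    nlinarith [hYpos]
  have hlogz : Real.log z = L ^ β := by rw [hz, Real.log_exp]
  have hlogZ : Real.log Z = L ^ (1 / 2 : ℝ) := by rw [hZ, Real.log_exp]
  have hllz : Real.log (Real.log z) = β * Real.log L := by
    rw [hlogz, Real.log_rpow hLpos]
  have hllZ : Real.log (Real.log Z) = 1 / 2 * Real.log L := by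
    rw [hlogZ, Real.log_rpow hLpos]
  have hdiff : Real.log (Real.log Z) - Real.log (Real.log z) = G := by
    rw [hllZ, hllz, hGdef]; ring
  -- the sum over all primes
  set W0 : ℝ := ∑ l ∈ pri z Z, 1 / (l : ℝ) with hW0
  have hW0G : G - 2 * C1 ≤ W0 := by
    have e1 := hM z (by linarith)
    have e2 := hM Z (by linarith)
    have e3 := pri_split (u := 1) (z := z) (Z := Z) (by linarith) hzZ
    rw [abs_le] at e1 e2
    rw [← hdiff]
    linarith [e1.1, e1.2, e2.1, e2.2]
  -- the elements of `S`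
  have hSsum : ∑ l ∈ (pri z Z).filter (fun l => l ∈ S), 1 / (l : ℝ) ≤ 1 := by
    have e1 := sum_inv_le ((pri z Z).filter (fun l => l ∈ S)) hzpos
      (fun l hl => (pri_mem (mem_filter.mp hl).1).2.1)
    have e2 : (((pri z Z).filter (fun l => l ∈ S)).card : ℝ) ≤ NS S (16 * Y ^ 4) := by
      apply card_le_NS
      intro l hl
      rw [mem_filter] at hl
      exact ⟨hl.2, (pri_mem hl.1).2.2.trans hZY⟩
    have e3 : Real.exp (L ^ κ) ≤ z := by
      rw [hz]
      exact Real.exp_le_exp.mpr (Real.rpow_le_rpow_of_exponent_le hL1' hκβ.le)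
    refine e1.trans ?_
    rw [div_le_one hzpos]
    linarith
  have hLLW : (∑ l ∈ LL S z Z, 1 / (l : ℝ)) +
      ∑ l ∈ (pri z Z).filter (fun l => l ∈ S), 1 / (l : ℝ) = W0 := by
    rw [hW0, ← Finset.sum_filter_add_sum_filter_not (pri z Z) (fun l => l ∈ S), add_comm]
    rfl
  have hW : G - 2 * C1 - 1 ≤ ∑ l ∈ LL S z Z, 1 / (l : ℝ) := by linarith
  constructor
  · have : (1 / 2 - β) / 2 * Real.log L = G / 2 := by rw [hGdef]; ring
    rw [this]
    linarith
  · intro p hp hpz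
    have hpp := (hS p hp).1
    -- the primes with character value 1
    have hchi := hX p z Z hpp.pos hpz hz3 hzZ
    rw [hdiff] at hchi
    have e1 : ∑ l ∈ (LL S z Z).filter (fun l => SSN.ch p l = 1), 1 / (l : ℝ) ≤ (G + C2) / 2 := by
      have f1 : ∑ l ∈ (LL S z Z).filter (fun l => SSN.ch p l = 1), 1 / (l : ℝ) ≤
          ∑ l ∈ (LL S z Z).filter (fun l => SSN.ch p l = 1),
            (1 / 2) * ((1 + (SSN.ch p l : ℝ)) / l) := by
        refine Finset.sum_le_sum fun l hl => ?_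
        rw [mem_filter] at hl
        rw [hl.2]
        push_cast
        apply le_of_eq
        ring
      have f2 : ∑ l ∈ (LL S z Z).filter (fun l => SSN.ch p l = 1),
            (1 / 2) * ((1 + (SSN.ch p l : ℝ)) / l) ≤
          ∑ l ∈ pri z Z, (1 / 2) * ((1 + (SSN.ch p l : ℝ)) / l) := by
        apply Finset.sum_le_sum_of_subset_of_nonneg
        · intro l hl
          exact (mem_filter.mp (mem_filter.mp hl).1).1
        · intro l _ _
          have := ch_ge p l
          have h0 : (0 : ℝ) ≤ l := Nat.cast_nonneg l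
          have h3 : 0 ≤ (1 + (SSN.ch p l : ℝ)) / l := div_nonneg (by linarith) h0
          linarith
      have f3 : ∑ l ∈ pri z Z, (1 / 2) * ((1 + (SSN.ch p l : ℝ)) / l) =
          (1 / 2) * ∑ l ∈ pri z Z, (1 + (SSN.ch p l : ℝ)) / l := by
        rw [← Finset.mul_sum]
      linarith [f1, f2, f3, hchi]
    -- the exceptional primes
    have e2 : ∑ l ∈ (LL S z Z).filter (fun l => l ∈ B p), 1 / (l : ℝ) ≤ 1 := by
      have f1 := sum_inv_le ((LL S z Z).filter (fun l => l ∈ B p)) hzpos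
        (fun l hl => (pri_mem (mem_filter.mp (mem_filter.mp hl).1).1).2.1)
      have f2 : (((LL S z Z).filter (fun l => l ∈ B p)).card : ℝ) ≤ ((B p).card : ℝ) := by
        have : ((LL S z Z).filter (fun l => l ∈ B p)).card ≤ (B p).card :=
          Finset.card_le_card fun l hl => (mem_filter.mp hl).2
        exact_mod_cast this
      have f3 : ((B p).card : ℝ) ≤ 6 * L + 2 := by
        have g1 := hB p
        have g2 : Real.log ((2 : ℝ) ^ (B p).card) ≤ Real.log (4 * Y ^ 4) :=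
          Real.log_le_log (by positivity) g1
        rw [Real.log_pow, Real.log_mul (by norm_num) (by positivity), Real.log_pow] at g2
        have g3 : Real.log 4 = 2 * Real.log 2 := by
          rw [show (4 : ℝ) = 2 ^ 2 by norm_num, Real.log_pow]; norm_num
        have g4 := Real.log_two_gt_d9
        rw [g3] at g2
        push_cast at g2
        rw [← hL] at g2
        by_contra hcon
        rw [not_le] at hcon
        have g5 : (6 * L + 2) * Real.log 2 < ((B p).card : ℝ) * Real.log 2 :=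
          mul_lt_mul_of_pos_right hcon (by linarith)
        have g6 : 6 * L * (0.69 : ℝ) ≤ 6 * L * Real.log 2 :=
          mul_le_mul_of_nonneg_left (by linarith) (by linarith)
        have g7 : (6 * L + 2) * Real.log 2 = 6 * L * Real.log 2 + 2 * Real.log 2 := by ring
        linarith
      refine f1.trans ?_
      rw [div_le_one hzpos]
      linarith
    have e3 : ∑ l ∈ (LL S z Z).filter (fun l => SSN.ch p l = 1 ∨ l ∈ B p), 1 / (l : ℝ) ≤
        (∑ l ∈ (LL S z Z).filter (fun l => SSN.ch p l = 1), 1 / (l : ℝ)) +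
          ∑ l ∈ (LL S z Z).filter (fun l => l ∈ B p), 1 / (l : ℝ) := by
      rw [Finset.filter_or, ← Finset.sum_union_inter]
      have : 0 ≤ ∑ l ∈ ((LL S z Z).filter (fun l => SSN.ch p l = 1)) ∩
          ((LL S z Z).filter (fun l => l ∈ B p)), 1 / (l : ℝ) :=
        Finset.sum_nonneg fun l _ => by positivity
      linarith
    linarith

end SSC
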